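import Pool.Agent.Arch.Basic

/-!
# A1: swapping the indices of a rectangular array preserves Lebesgue measure

Proof. Both sides are measures on `Fin q → Fin p → ℝ`; by `Measure.pi_eq` (twice) it is enough to
look at boxes `{Y | ∀ i, Y i ∈ {y | ∀ j, y j ∈ s i j}}`. Alternatively: the map is a linear
equivalence which maps the unit cube to the unit cube, and both measures are additive Haar
measures (`MeasureTheory.Measure.addHaarMeasure_unique`); or write it through
`MeasurableEquiv.curry`/`MeasureTheory.volume_preserving_arrowProdEquivProdArrow`-like lemmas.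
-/

namespace Pool.Agent.Arch

open MeasureTheory Matrix

theorem measurePreserving_swap (p q : ℕ) :
    MeasurePreserving (fun (X : Fin p → Fin q → ℝ) (i : Fin q) (j : Fin p) => X j i)
      volume volume := by
  have hm : Measurable (fun (X : Fin p → Fin q → ℝ) (i : Fin q) (j : Fin p) => X j i) :=
    measurable_pi_lambda _ fun i => measurable_pi_lambda _ fun j =>
      (measurable_pi_apply i).comp (measurable_pi_apply j)
  refine ⟨hm, ?_⟩
  symm
  refine Measure.pi_eq_generateFrom
    (C := fun _ => Set.pi Set.univ '' Set.pi Set.univ (fun _ : Fin p => {s : Set ℝ | MeasurableSet s}))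
    (fun _ => generateFrom_pi) (fun _ => isPiSystem_pi)
    (fun _ => Measure.FiniteSpanningSetsIn.pi fun _ => Measure.toFiniteSpanningSetsIn volume) ?_
  intro s hs
  have hs' : ∀ i, ∃ t : Fin p → Set ℝ, (∀ j, MeasurableSet (t j)) ∧ Set.pi Set.univ t = s i := by
    intro i
    obtain ⟨t, ht, h⟩ := hs i
    exact ⟨t, fun j => ht j (Set.mem_univ j), h⟩
  choose t ht hts using hs'
  have hmeas : MeasurableSet (Set.pi Set.univ s) := by
    refine MeasurableSet.univ_pi fun i => ?_
    rw [← hts i]
    exact MeasurableSet.univ_pi (ht i)
  rw [Measure.map_apply hm hmeas]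
  have hpre : (fun (X : Fin p → Fin q → ℝ) (i : Fin q) (j : Fin p) => X j i) ⁻¹' (Set.pi Set.univ s)
      = Set.pi Set.univ (fun j => Set.pi Set.univ (fun i => t i j)) := by
    ext X
    simp only [Set.mem_preimage, Set.mem_pi, Set.mem_univ, true_implies]
    constructor
    · intro h j i
      have := h i
      rw [← hts i] at this
      exact this j (Set.mem_univ j)
    · intro h i
      rw [← hts i]
      intro j _
      exact h j i
  rw [hpre, volume_pi_pi]
  simp only [volume_pi_pi]
  rw [Finset.prod_comm]
  refine Finset.prod_congr rfl fun i _ => ?_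
  rw [← hts i, Measure.pi_pi]

end Pool.Agent.Arch
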