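import Pool.Agent.Arch.A1

/-!
# A2: the linear actions preserve Lebesgue measure

Proof. `Real.map_matrix_volume_pi_eq_smul_volume_pi` (or
`Real.volume_preserving_transvectionStruct` and friends) for `x ↦ A *ᵥ x` with `|det A| = 1`;
`MeasureTheory.measurePreserving_pi` for tuples; for `mix h`: it is the swap of the indices (A1),
then `h *ᵥ` on every column, then the swap again.
-/

namespace Pool.Agent.Arch

open MeasureTheory Matrix

theorem mp_mulVec {m : ℕ} (A : Matrix (Fin m) (Fin m) ℝ) (hA : |A.det| = 1) :
    MeasurePreserving (fun x : V m => A *ᵥ x) volume volume := by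
  have hd : A.det ≠ 0 := by
    intro h
    rw [h, abs_zero] at hA
    exact zero_ne_one hA
  refine ⟨(by fun_prop : Continuous fun x : V m => A *ᵥ x).measurable, ?_⟩
  have h := Real.map_matrix_volume_pi_eq_smul_volume_pi hd
  rw [abs_inv, hA, inv_one, ENNReal.ofReal_one, one_smul] at h
  exact h

theorem mp_vecMul {m : ℕ} (A : Matrix (Fin m) (Fin m) ℝ) (hA : |A.det| = 1) :
    MeasurePreserving (fun x : V m => x ᵥ* A) volume volume := by
  have h := mp_mulVec Aᵀ (by rwa [det_transpose])
  simp only [mulVec_transpose] at h
  exact h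

theorem mp_act {m : ℕ} (g : SLZ m) : MeasurePreserving (act g) volume volume := by
  have h : |((toR g).1).det| = 1 := by rw [(toR g).2, abs_one]
  exact mp_mulVec _ h

theorem mp_actT {m p : ℕ} (g : SLZ m) :
    MeasurePreserving (actT g : (Fin p → V m) → (Fin p → V m)) volume volume :=
  volume_preserving_pi fun _ => mp_act g

/-- Left multiplication of a frame by an arbitrary real matrix of determinant `±1`. -/
theorem mp_mul_left {m p : ℕ} (A : Matrix (Fin m) (Fin m) ℝ) (hA : |A.det| = 1) :
    MeasurePreserving (fun (X : Fin m → Fin p → ℝ) (j : Fin m) => ∑ i, A j i • X i)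
      volume volume := by
  have h1 := measurePreserving_swap m p
  have h2 : MeasurePreserving (fun (Y : Fin p → V m) (k : Fin p) => A *ᵥ Y k)
      volume volume := volume_preserving_pi fun _ => mp_mulVec A hA
  have h3 := measurePreserving_swap p m
  have h4 := h3.comp (h2.comp h1)
  convert h4 using 1
  funext X j k
  simp [Matrix.mulVec, dotProduct, Finset.sum_apply]

theorem mp_mix {m : ℕ} (h : SLR m) : MeasurePreserving (mix h) volume volume :=
  mp_mul_left h.1 (by rw [h.2, abs_one])

/-- Right multiplication of a rectangular array by a real matrix of determinant `±1`. -/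
theorem mp_mul_right {m p : ℕ} (A : Matrix (Fin m) (Fin m) ℝ) (hA : |A.det| = 1) :
    MeasurePreserving (fun (X : Fin p → Fin m → ℝ) (j : Fin p) => X j ᵥ* A)
      volume volume :=
  volume_preserving_pi fun _ => mp_vecMul A hA

end Pool.Agent.Arch
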