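import Pool.Agent.Arch.A2

/-!
# A3: rotations

`rotP t` rotates the pair `(x, y)` of vectors; it preserves the measure of `V m × V m`, commutes
with the diagonal action, and `rotP s ∘ rotP t = rotP (s + t)`.
`rotF t` in `SL_{k+2}(R)` rotates the first two rows of a frame.

Proof of measure preservation for `rotP`: `V m × V m` is `Fin 2 → V m`
(`MeasureTheory.volume_preserving_finTwoArrow`) and the map is `mp_mul_left` of A2 for the
rotation matrix of size two.
-/

namespace Pool.Agent.Arch

open MeasureTheory Matrix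

/-- Rotation of a pair of vectors. -/
noncomputable def rotP {m : ℕ} (t : ℝ) (p : V m × V m) : V m × V m :=
  (Real.cos t • p.1 + Real.sin t • p.2, -Real.sin t • p.1 + Real.cos t • p.2)

theorem rotP_add {m : ℕ} (s t : ℝ) (p : V m × V m) : rotP (s + t) p = rotP s (rotP t p) := by
  ext i
  · simp only [rotP, Real.cos_add, Real.sin_add, Pi.add_apply, Pi.smul_apply, smul_eq_mul]
    ring
  · simp only [rotP, Real.cos_add, Real.sin_add, Pi.add_apply, Pi.smul_apply, smul_eq_mul]
    ring

theorem rotP_zero {m : ℕ} (p : V m × V m) : rotP 0 p = p := by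
  ext i <;> simp [rotP]

theorem rotP_pi_div_two {m : ℕ} (p : V m × V m) : rotP (Real.pi / 2) p = (p.2, -p.1) := by
  ext i <;> simp [rotP]

theorem rotP_act {m : ℕ} (t : ℝ) (g : SLZ m) (p : V m × V m) :
    rotP t (act g p.1, act g p.2) = (act g (rotP t p).1, act g (rotP t p).2) := by
  simp only [rotP, act_add, act_smul]

theorem continuous_rotP {m : ℕ} : Continuous fun q : ℝ × (V m × V m) => rotP q.1 q.2 := by
  unfold rotP
  have h1 : Continuous fun q : ℝ × (V m × V m) => Real.cos q.1 :=
    Real.continuous_cos.comp continuous_fst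
  have h2 : Continuous fun q : ℝ × (V m × V m) => Real.sin q.1 :=
    Real.continuous_sin.comp continuous_fst
  have h3 : Continuous fun q : ℝ × (V m × V m) => q.2.1 :=
    continuous_fst.comp continuous_snd
  have h4 : Continuous fun q : ℝ × (V m × V m) => q.2.2 :=
    continuous_snd.comp continuous_snd
  exact ((h1.smul h3).add (h2.smul h4)).prodMk ((h2.neg.smul h3).add (h1.smul h4))

theorem mp_rotP {m : ℕ} (t : ℝ) :
    MeasurePreserving (rotP t : V m × V m → V m × V m) volume volume := by
  have hA : |(!![Real.cos t, Real.sin t; -Real.sin t, Real.cos t] :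
      Matrix (Fin 2) (Fin 2) ℝ).det| = 1 := by
    rw [Matrix.det_fin_two_of]
    have : Real.cos t * Real.cos t - Real.sin t * -Real.sin t = 1 := by
      nlinarith [Real.sin_sq_add_cos_sq t]
    rw [this, abs_one]
  have h := mp_mul_left (m := 2) (p := m) _ hA
  have e := MeasureTheory.volume_preserving_finTwoArrow (V m)
  have h' := e.comp (h.comp (e.symm _))
  convert h' using 1
  funext p
  ext i
  · simp [rotP, Fin.sum_univ_two]
  · simp [rotP, Fin.sum_univ_two]

/-- The matrix of the rotation of the first two rows. -/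
noncomputable def a3_mat (k : ℕ) (t : ℝ) : Matrix (Fin (k + 2)) (Fin (k + 2)) ℝ := fun i j =>
  if i = 0 then (if j = 0 then Real.cos t else if j = 1 then Real.sin t else 0)
  else if i = 1 then (if j = 0 then -Real.sin t else if j = 1 then Real.cos t else 0)
  else if i = j then 1 else 0

theorem a3_det (k : ℕ) (t : ℝ) : (a3_mat k t).det = 1 := by
  have h0 : (a3_mat k t).submatrix (Fin.succAbove 0) Fin.succ =
      Matrix.diagonal (fun i : Fin (k + 1) => if i = 0 then Real.cos t else 1) := by
    ext i j
    have e1 : (Fin.succ i = (1 : Fin (k + 2))) ↔ i = 0 := by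
      rw [← Fin.succ_zero_eq_one]; exact Fin.succ_inj
    have e2 : (Fin.succ j = (1 : Fin (k + 2))) ↔ j = 0 := by
      rw [← Fin.succ_zero_eq_one]; exact Fin.succ_inj
    simp only [Matrix.submatrix_apply, Fin.succAbove_zero, a3_mat, Matrix.diagonal_apply, e1, e2,
      Fin.succ_ne_zero, if_false, Fin.succ_inj]
    by_cases hi : i = 0
    · subst hi
      by_cases hj : j = 0
      · simp [hj]
      · simp [hj, Ne.symm hj]
    · simp [hi]
  have h1 : (a3_mat k t).submatrix (Fin.succAbove 1) Fin.succ =
      Matrix.diagonal (fun i : Fin (k + 1) => if i = 0 then Real.sin t else 1) := by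
    ext i j
    have e2 : (Fin.succ j = (1 : Fin (k + 2))) ↔ j = 0 := by
      rw [← Fin.succ_zero_eq_one]; exact Fin.succ_inj
    refine Fin.cases ?_ (fun i' => ?_) i
    · have e3 : Fin.succAbove (1 : Fin (k + 2)) 0 = 0 := rfl
      simp only [Matrix.submatrix_apply, e3, a3_mat, Matrix.diagonal_apply, e2, if_true,
        Fin.succ_ne_zero, if_false]
      by_cases hj : j = 0
      · simp [hj]
      · simp [hj, Ne.symm hj]
    · have e3 : Fin.succAbove (1 : Fin (k + 2)) i'.succ = i'.succ.succ := by
        rw [← Fin.succ_zero_eq_one, Fin.succ_succAbove_succ, Fin.succAbove_zero]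
      have e4 : ¬ (i'.succ.succ = (1 : Fin (k + 2))) := by
        rw [← Fin.succ_zero_eq_one, Fin.succ_inj]; exact Fin.succ_ne_zero _
      simp only [Matrix.submatrix_apply, e3, a3_mat, Matrix.diagonal_apply, Fin.succ_ne_zero,
        if_false, e4, Fin.succ_inj]
  rw [Matrix.det_succ_column_zero, Fin.sum_univ_succ, Fin.sum_univ_succ]
  have h2 : ∀ i : Fin k, a3_mat k t i.succ.succ 0 = 0 := by
    intro i
    have e4 : ¬ (i.succ.succ = (1 : Fin (k + 2))) := by
      rw [← Fin.succ_zero_eq_one, Fin.succ_inj]; exact Fin.succ_ne_zero _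
    simp [a3_mat, Fin.succ_ne_zero, e4]
  have h3 : (Fin.succ 0 : Fin (k + 2)) = 1 := Fin.succ_zero_eq_one
  simp only [h2, mul_zero, zero_mul, Finset.sum_const_zero, add_zero, h3, h0, h1,
    Matrix.det_diagonal, Fin.prod_univ_succ, if_true, Fin.succ_ne_zero, if_false,
    Finset.prod_const_one, mul_one]
  have h4 : a3_mat k t 0 0 = Real.cos t := by simp [a3_mat]
  have h5 : a3_mat k t 1 0 = -Real.sin t := by simp [a3_mat]
  rw [h4, h5]
  simp only [Fin.val_zero, pow_zero, Fin.val_one, pow_one]
  nlinarith [Real.sin_sq_add_cos_sq t]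

/-- The rotation of the first two rows, as an element of `SL_{k+2}(R)`. -/
theorem exists_rotF (k : ℕ) : ∃ r : ℝ → SLR (k + 2), (Continuous fun t => (r t).1) ∧
    (r 0 = 1) ∧
    (∀ t (X : Fr (k + 2)), mix (r t) X 0 = Real.cos t • X 0 + Real.sin t • X 1) ∧
    (∀ t (X : Fr (k + 2)), mix (r t) X 1 = -Real.sin t • X 0 + Real.cos t • X 1) := by
  refine ⟨fun t => ⟨a3_mat k t, a3_det k t⟩, ?_, ?_, ?_, ?_⟩
  · refine continuous_matrix fun i j => ?_
    simp only [a3_mat]
    split_ifs
    · exact Real.continuous_cos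
    · exact Real.continuous_sin
    · exact continuous_const
    · exact Real.continuous_sin.neg
    · exact Real.continuous_cos
    · exact continuous_const
    · exact continuous_const
    · exact continuous_const
  · apply Subtype.ext
    ext i j
    simp only [a3_mat, Matrix.SpecialLinearGroup.coe_one, Matrix.one_apply, Real.cos_zero,
      Real.sin_zero, neg_zero]
    by_cases hi : i = 0
    · subst hi
      by_cases hj : j = 0
      · simp [hj]
      · simp [hj, Ne.symm hj]
    · by_cases hi1 : i = 1
      · subst hi1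
        by_cases hj : j = 0
        · simp [hj]
        · by_cases hj1 : j = 1
          · simp [hj1]
          · simp [hj, hj1, Ne.symm hj1]
      · simp [hi, hi1]
  · intro t X
    simp only [mix]
    rw [Fin.sum_univ_succ, Fin.sum_univ_succ]
    have h3 : (Fin.succ 0 : Fin (k + 2)) = 1 := Fin.succ_zero_eq_one
    have h2 : ∀ i : Fin k, a3_mat k t 0 i.succ.succ = 0 := by
      intro i
      have e4 : ¬ (i.succ.succ = (1 : Fin (k + 2))) := by
        rw [← Fin.succ_zero_eq_one, Fin.succ_inj]; exact Fin.succ_ne_zero _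
      simp [a3_mat, Fin.succ_ne_zero, e4]
    simp only [h2, zero_smul, Finset.sum_const_zero, add_zero, h3]
    simp [a3_mat]
  · intro t X
    simp only [mix]
    rw [Fin.sum_univ_succ, Fin.sum_univ_succ]
    have h3 : (Fin.succ 0 : Fin (k + 2)) = 1 := Fin.succ_zero_eq_one
    have h2 : ∀ i : Fin k, a3_mat k t 1 i.succ.succ = 0 := by
      intro i
      have e4 : ¬ (i.succ.succ = (1 : Fin (k + 2))) := by
        rw [← Fin.succ_zero_eq_one, Fin.succ_inj]; exact Fin.succ_ne_zero _
      simp [a3_mat, Fin.succ_ne_zero, e4]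
    simp only [h2, zero_smul, Finset.sum_const_zero, add_zero, h3]
    simp [a3_mat]

end Pool.Agent.Arch
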