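import Pool.Agent.Arch.Basic

/-!
# B1: k+1 generic vectors of R^k generate a dense subgroup

Statement: for almost every `(k+1)`-tuple `v` of vectors in `R^k` the group generated by the
vectors `q v_i` is dense (`q ≥ 1` fixed).

Proof. (a) For an open set `U ≠ ∅` let `B` be the closed set of all `c` such that `n c + z ∉ U`
for all natural numbers `n` and all integer vectors `z`. Then `2 B ⊆ B` and every closed cube of
radius one contains a translate of a small ball of `U` by an integer vector, which misses `B`. By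
the Lebesgue density theorem (blow up at a density point by powers of two) `B` is a null set.
(b) A linear change of coordinates replaces the integer vectors by the combinations of the rows
of an invertible matrix `w`. (c) Fubini (`ae_mem_of_ae_add_linearMap_mem`), and almost every `w`
is invertible (also by Fubini: the characteristic polynomial has finitely many roots).
(d) Countable basis of the topology.
-/

namespace Pool.Agent.Arch

open MeasureTheory Matrix
open scoped Pointwise

/-- (a) -/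
private theorem b1_kron {k : ℕ} {U : Set (Fin k → ℝ)} (hU : IsOpen U) (hne : U.Nonempty) :
    ∀ᵐ c : Fin k → ℝ, ∃ (n : ℕ) (z : Fin k → ℤ), (n : ℝ) • c + (fun i => (z i : ℝ)) ∈ U := by
  set B : Set (Fin k → ℝ) :=
    {c | ∀ (n : ℕ) (z : Fin k → ℤ), (n : ℝ) • c + (fun i => (z i : ℝ)) ∉ U} with hB
  have hBc : {c : Fin k → ℝ | ¬ ∃ (n : ℕ) (z : Fin k → ℤ),
      (n : ℝ) • c + (fun i => (z i : ℝ)) ∈ U} = B := by
    ext c
    simp [hB]
  rw [ae_iff, hBc]
  by_contra h0
  have hnb : (ae (volume.restrict B)).NeBot := ae_restrict_neBot.2 h0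
  obtain ⟨x, hx⟩ := (Besicovitch.ae_tendsto_measure_inter_div (volume : Measure (Fin k → ℝ))
    B).exists
  obtain ⟨u, hu⟩ := hne
  obtain ⟨ε, hε, hball⟩ := Metric.isOpen_iff.1 hU u hu
  set δ : ℝ := min ε (1 / 2) with hδ
  have hδ0 : 0 < δ := lt_min hε (by norm_num)
  set V : ENNReal := volume (Metric.closedBall (0 : Fin k → ℝ) 1) with hV
  set W : ENNReal := volume (Metric.ball (0 : Fin k → ℝ) δ) with hW
  have hV0 : V ≠ 0 := (Metric.measure_closedBall_pos volume _ one_pos).ne'
  have hVt : V ≠ ⊤ := measure_closedBall_lt_top.ne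
  have hW0 : W ≠ 0 := (Metric.measure_ball_pos volume _ hδ0).ne'
  have hWV : W ≤ V := measure_mono (Metric.ball_subset_closedBall.trans
    (Metric.closedBall_subset_closedBall ((min_le_right _ _).trans (by norm_num))))
  have hWt : W ≠ ⊤ := (hWV.trans_lt hVt.lt_top).ne
  -- no cube is filled
  have hcube : ∀ y : Fin k → ℝ, volume (B ∩ Metric.closedBall y 1) ≤ V - W := by
    intro y
    let z : Fin k → ℤ := fun i => round (y i - u i)
    set p : Fin k → ℝ := u + fun i => (z i : ℝ) with hp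
    have hpy : dist p y ≤ 1 / 2 := by
      rw [dist_pi_le_iff (by norm_num)]
      intro i
      have h1 := abs_sub_round (y i - u i)
      rw [Real.dist_eq, hp, Pi.add_apply, abs_sub_comm]
      rw [show y i - (u i + (z i : ℝ)) = y i - u i - (round (y i - u i) : ℤ) by
        simp only [z]; ring]
      exact h1
    have hsub : Metric.ball p δ ⊆ Metric.closedBall y 1 := by
      intro q hq
      rw [Metric.mem_ball] at hq
      rw [Metric.mem_closedBall]
      have h1 := dist_triangle q p y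
      have h2 : δ ≤ 1 / 2 := min_le_right _ _
      linarith
    have hdisj : B ∩ Metric.closedBall y 1 ⊆ Metric.closedBall y 1 \ Metric.ball p δ := by
      rintro c ⟨hc, hcy⟩
      refine ⟨hcy, fun hcp => hc 1 (fun i => -z i) (hball ?_)⟩
      rw [Metric.mem_ball] at hcp ⊢
      refine lt_of_le_of_lt (le_of_eq ?_) (hcp.trans_le (min_le_left _ _))
      rw [dist_eq_norm, dist_eq_norm]
      congr 1
      ext i
      simp only [Nat.cast_one, one_smul, Pi.sub_apply, Pi.add_apply, Int.cast_neg, hp]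
      ring
    calc volume (B ∩ Metric.closedBall y 1)
        ≤ volume (Metric.closedBall y 1 \ Metric.ball p δ) := measure_mono hdisj
      _ = volume (Metric.closedBall y 1) - volume (Metric.ball p δ) :=
          measure_sdiff hsub measurableSet_ball.nullMeasurableSet measure_ball_lt_top.ne
      _ = V - W := by
          rw [Measure.addHaar_closedBall_center, Measure.addHaar_ball_center]
  -- doubling
  have hdbl : ∀ (j : ℕ) (c : Fin k → ℝ), c ∈ B → ((2 : ℝ) ^ j) • c ∈ B := by
    intro j c hc n z hz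
    refine hc (n * 2 ^ j) z ?_
    rw [smul_smul] at hz
    push_cast
    exact hz
  have hratio : ∀ j : ℕ, volume (B ∩ Metric.closedBall x ((1 / 2) ^ j)) /
      volume (Metric.closedBall x ((1 / 2 : ℝ) ^ j)) ≤ (V - W) / V := by
    intro j
    have hj : (0 : ℝ) < (1 / 2) ^ j := by positivity
    have h2j : (0 : ℝ) < 2 ^ j := by positivity
    have hmul : (2 : ℝ) ^ j * (1 / 2) ^ j = 1 := by
      rw [← mul_pow]
      norm_num
    set t : ENNReal := ENNReal.ofReal (((1 / 2 : ℝ) ^ j) ^ Module.finrank ℝ (Fin k → ℝ)) with ht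
    have ht0 : t ≠ 0 := by
      rw [ht]
      exact (ENNReal.ofReal_pos.2 (by positivity)).ne'
    have htt : t ≠ ⊤ := ENNReal.ofReal_ne_top
    have h1 : volume (Metric.closedBall x ((1 / 2 : ℝ) ^ j)) = t * V :=
      Measure.addHaar_closedBall' _ _ hj.le
    have h2 : volume (B ∩ Metric.closedBall x ((1 / 2) ^ j)) ≤ t * (V - W) := by
      have h3 : B ∩ Metric.closedBall x ((1 / 2) ^ j) ⊆
          ((1 / 2 : ℝ) ^ j) • (B ∩ Metric.closedBall ((2 : ℝ) ^ j • x) 1) := by
        rintro c ⟨hc, hcx⟩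
        refine Set.mem_smul_set.2 ⟨(2 : ℝ) ^ j • c, ⟨hdbl j c hc, ?_⟩, ?_⟩
        · rw [Metric.mem_closedBall, dist_smul₀, Real.norm_of_nonneg h2j.le]
          rw [Metric.mem_closedBall] at hcx
          calc (2 : ℝ) ^ j * dist c x ≤ 2 ^ j * (1 / 2) ^ j :=
                mul_le_mul_of_nonneg_left hcx h2j.le
            _ = 1 := hmul
        · rw [smul_smul, mul_comm, hmul, one_smul]
      refine (measure_mono h3).trans ?_
      rw [Measure.addHaar_smul, abs_of_nonneg (by positivity)]
      exact mul_le_mul_right (hcube _) _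
    rw [h1]
    refine (ENNReal.div_le_div_right h2 _).trans ?_
    rw [ENNReal.mul_div_mul_left _ _ ht0 htt]
  have hlim : Filter.Tendsto (fun j : ℕ => ((1 : ℝ) / 2) ^ j) Filter.atTop
      (nhdsWithin 0 (Set.Ioi 0)) := by
    refine tendsto_nhdsWithin_iff.2 ⟨tendsto_pow_atTop_nhds_zero_of_lt_one (by norm_num)
      (by norm_num), Filter.Eventually.of_forall fun j => ?_⟩
    exact Set.mem_Ioi.2 (by positivity)
  have h1 : (1 : ENNReal) ≤ (V - W) / V := le_of_tendsto (hx.comp hlim)
    (Filter.Eventually.of_forall fun j => hratio j)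
  have h2 : (V - W) / V < 1 := by
    rw [ENNReal.div_lt_iff (Or.inl hV0) (Or.inl hVt), one_mul]
    exact ENNReal.sub_lt_self hVt hV0 hW0
  exact absurd h1 (not_le.2 h2)

/-- (b) -/
private theorem b1_lin {k : ℕ} (w : Fin k → Fin k → ℝ) (hw : (Matrix.of w).det ≠ 0)
    {U : Set (Fin k → ℝ)} (hU : IsOpen U) (hne : U.Nonempty) (b : Fin k → ℝ) :
    ∀ᵐ c : Fin k → ℝ, ∃ (n : ℕ) (z : Fin k → ℤ),
      (n : ℝ) • (b + c) + ∑ i, (z i : ℝ) • w i ∈ U := by
  set A : Matrix (Fin k) (Fin k) ℝ := (Matrix.of w)ᵀ with hA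
  have hdet : A.det ≠ 0 := by rwa [hA, Matrix.det_transpose]
  have hunit : IsUnit A.det := isUnit_iff_ne_zero.2 hdet
  have hAA : ∀ c, A *ᵥ (A⁻¹ *ᵥ c) = c := fun c => by
    rw [Matrix.mulVec_mulVec, Matrix.mul_nonsing_inv _ hunit, Matrix.one_mulVec]
  have hcont : Continuous fun c : Fin k → ℝ => A *ᵥ c := by fun_prop
  have h1 := b1_kron (U := (fun c : Fin k → ℝ => A *ᵥ c) ⁻¹' U) (hU.preimage hcont) (by
    obtain ⟨u, hu⟩ := hne
    exact ⟨A⁻¹ *ᵥ u, by
      rw [Set.mem_preimage, hAA]
      exact hu⟩)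
  have hq : Measure.QuasiMeasurePreserving (Matrix.toLin' A⁻¹) (volume : Measure (Fin k → ℝ))
      volume := by
    refine Measure.LinearMap.quasiMeasurePreserving volume _ ?_
    rw [LinearMap.det_toLin', Matrix.det_nonsing_inv, Ring.inverse_eq_inv']
    exact inv_ne_zero hdet
  have h2 := (hq.comp (measurePreserving_add_left (volume : Measure (Fin k → ℝ))
    b).quasiMeasurePreserving).ae h1
  filter_upwards [h2] with c hc
  obtain ⟨n, z, hz⟩ := hc
  refine ⟨n, z, ?_⟩
  rw [Set.mem_preimage] at hz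
  have h3 : A *ᵥ ((n : ℝ) • (Matrix.toLin' A⁻¹ ∘ fun x => b + x) c + fun i => (z i : ℝ)) =
      (n : ℝ) • (b + c) + ∑ i, (z i : ℝ) • w i := by
    rw [Matrix.mulVec_add, Matrix.mulVec_smul, Function.comp_apply, Matrix.toLin'_apply, hAA]
    congr 1
    ext j
    rw [Matrix.mulVec, dotProduct, Finset.sum_apply]
    refine Finset.sum_congr rfl fun i _ => ?_
    rw [hA, Matrix.transpose_apply, Matrix.of_apply, Pi.smul_apply, smul_eq_mul, mul_comm]
  rwa [h3] at hz

private theorem b1_det (k : ℕ) : ∀ᵐ v : Fin (k + 1) → Fin k → ℝ,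
    (Matrix.of fun i : Fin k => v i.succ).det ≠ 0 := by
  have hm : MeasurableSet {v : Fin (k + 1) → Fin k → ℝ |
      (Matrix.of fun i : Fin k => v i.succ).det ≠ 0} := by
    have hc : Continuous fun v : Fin (k + 1) → Fin k → ℝ =>
        (Matrix.of fun i : Fin k => v i.succ).det := by
      refine Continuous.matrix_det ?_
      exact continuous_pi fun i => continuous_apply _
    exact (isOpen_ne.preimage hc).measurableSet
  let L : ℝ →ₗ[ℝ] (Fin (k + 1) → Fin k → ℝ) :=
    LinearMap.toSpanSingleton ℝ _ (Fin.cons 0 fun i => Pi.single i 1)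
  refine ae_mem_of_ae_add_linearMap_mem L volume volume hm fun y => ?_
  have hfin : {t : ℝ | (-(Matrix.of fun i : Fin k => y i.succ)).charpoly.eval t = 0}.Finite := by
    refine ((-(Matrix.of fun i : Fin k => y i.succ)).charpoly.roots.toFinset.finite_toSet).subset ?_
    intro t ht
    rw [Finset.mem_coe, Multiset.mem_toFinset, Polynomial.mem_roots]
    · exact ht
    · exact (Matrix.charpoly_monic _).ne_zero
  have hae : ∀ᵐ t : ℝ, (-(Matrix.of fun i : Fin k => y i.succ)).charpoly.eval t ≠ 0 := by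
    rw [ae_iff]
    simpa using hfin.measure_zero volume
  filter_upwards [hae] with t ht
  rw [Matrix.eval_charpoly] at ht
  have h1 : (Matrix.of fun i : Fin k => (y + L t) i.succ) =
      Matrix.scalar (Fin k) t - -(Matrix.of fun i : Fin k => y i.succ) := by
    ext i j
    rw [Matrix.of_apply, sub_neg_eq_add, Matrix.add_apply, Matrix.of_apply, Pi.add_apply,
      Pi.add_apply, add_comm]
    congr 1
    simp only [L, LinearMap.toSpanSingleton_apply, Pi.smul_apply, Fin.cons_succ, smul_eq_mul,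
      Matrix.scalar_apply, Matrix.diagonal_apply, Pi.single_apply]
    by_cases h : i = j
    · subst h
      simp
    · rw [if_neg (fun h' => h h'.symm), if_neg h, mul_zero]
  change (Matrix.of fun i : Fin k => (y + L t) i.succ).det ≠ 0
  rw [h1]
  exact ht

/-- (c) -/
private theorem b1_open (k : ℕ) {U : Set (Fin k → ℝ)} (hU : IsOpen U) (hne : U.Nonempty) :
    ∀ᵐ v : Fin (k + 1) → Fin k → ℝ, ∃ (n : ℕ) (z : Fin k → ℤ),
      (n : ℝ) • v 0 + ∑ i : Fin k, (z i : ℝ) • v i.succ ∈ U := by
  have hm : MeasurableSet {v : Fin (k + 1) → Fin k → ℝ |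
      (Matrix.of fun i : Fin k => v i.succ).det ≠ 0 → ∃ (n : ℕ) (z : Fin k → ℤ),
      (n : ℝ) • v 0 + ∑ i : Fin k, (z i : ℝ) • v i.succ ∈ U} := by
    have hc : Continuous fun v : Fin (k + 1) → Fin k → ℝ =>
        (Matrix.of fun i : Fin k => v i.succ).det := by
      refine Continuous.matrix_det ?_
      exact continuous_pi fun i => continuous_apply _
    have h1 : {v : Fin (k + 1) → Fin k → ℝ |
      (Matrix.of fun i : Fin k => v i.succ).det ≠ 0 → ∃ (n : ℕ) (z : Fin k → ℤ),
      (n : ℝ) • v 0 + ∑ i : Fin k, (z i : ℝ) • v i.succ ∈ U} =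
      {v | (Matrix.of fun i : Fin k => v i.succ).det ≠ 0}ᶜ ∪
      ⋃ (n : ℕ) (z : Fin k → ℤ), {v | (n : ℝ) • v 0 + ∑ i : Fin k, (z i : ℝ) • v i.succ ∈ U} := by
      ext v
      simp only [Set.mem_ofPred_eq, Set.mem_union, Set.mem_compl_iff, Set.mem_iUnion]
      tauto
    rw [h1]
    refine ((isOpen_ne.preimage hc).measurableSet.compl).union ?_
    refine MeasurableSet.iUnion fun n => MeasurableSet.iUnion fun z => ?_
    have hc2 : Continuous fun v : Fin (k + 1) → Fin k → ℝ =>
        (n : ℝ) • v 0 + ∑ i : Fin k, (z i : ℝ) • v i.succ := by fun_prop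
    exact (hU.preimage hc2).measurableSet
  let L : (Fin k → ℝ) →ₗ[ℝ] (Fin (k + 1) → Fin k → ℝ) := LinearMap.single ℝ (fun _ : Fin (k + 1) => Fin k → ℝ) 0
  have h2 := ae_mem_of_ae_add_linearMap_mem L volume volume hm fun y => by
    by_cases hy : (Matrix.of fun i : Fin k => y i.succ).det ≠ 0
    · filter_upwards [b1_lin (fun i => y i.succ) hy hU hne (y 0)] with c hc _
      obtain ⟨n, z, hz⟩ := hc
      refine ⟨n, z, ?_⟩
      have h3 : (y + L c) 0 = y 0 + c := by simp [L]
      have h4 : ∀ i : Fin k, (y + L c) i.succ = y i.succ := fun i => by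
        simp [L]
      rw [h3]
      simp only [h4]
      exact hz
    · refine Filter.Eventually.of_forall fun c hc => absurd ?_ hy
      have h4 : ∀ i : Fin k, (y + L c) i.succ = y i.succ := fun i => by
        simp [L]
      simp only [h4] at hc
      exact hc
  filter_upwards [h2, b1_det k] with v hv hd
  exact hv hd

theorem dens (k q : ℕ) (hq : 0 < q) :
    ∀ᵐ v : Fin (k + 1) → Fin k → ℝ,
      Dense ((AddSubgroup.closure (Set.range fun i => (q : ℝ) • v i) :
        AddSubgroup (Fin k → ℝ)) : Set (Fin k → ℝ)) := by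
  have hq0 : (q : ℝ) ≠ 0 := by exact_mod_cast hq.ne'
  have hcont : Continuous fun c : Fin k → ℝ => (q : ℝ) • c := by fun_prop
  have h1 : ∀ U ∈ TopologicalSpace.countableBasis (Fin k → ℝ), U.Nonempty →
      ∀ᵐ v : Fin (k + 1) → Fin k → ℝ, ∃ (n : ℕ) (z : Fin k → ℤ),
      (n : ℝ) • v 0 + ∑ i : Fin k, (z i : ℝ) • v i.succ ∈ (fun c => (q : ℝ) • c) ⁻¹' U := by
    intro U hU hne
    refine b1_open k ((TopologicalSpace.isOpen_of_mem_countableBasis hU).preimage hcont) ?_
    obtain ⟨u, hu⟩ := hne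
    exact ⟨(q : ℝ)⁻¹ • u, by rwa [Set.mem_preimage, smul_inv_smul₀ hq0]⟩
  have h2 : ∀ᵐ v : Fin (k + 1) → Fin k → ℝ,
      ∀ U ∈ TopologicalSpace.countableBasis (Fin k → ℝ), U.Nonempty → ∃ (n : ℕ) (z : Fin k → ℤ),
      (n : ℝ) • v 0 + ∑ i : Fin k, (z i : ℝ) • v i.succ ∈ (fun c => (q : ℝ) • c) ⁻¹' U := by
    rw [ae_ball_iff (TopologicalSpace.countable_countableBasis _)]
    intro U hU
    by_cases hne : U.Nonempty
    · filter_upwards [h1 U hU hne] with v hv _
      exact hv
    · exact Filter.Eventually.of_forall fun v h => absurd h hne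
  filter_upwards [h2] with v hv
  rw [(TopologicalSpace.isBasis_countableBasis (Fin k → ℝ)).dense_iff]
  intro U hU hne
  obtain ⟨n, z, hz⟩ := hv U hU hne
  refine ⟨_, hz, ?_⟩
  have h3 : (q : ℝ) • ((n : ℝ) • v 0 + ∑ i : Fin k, (z i : ℝ) • v i.succ) =
      n • ((q : ℝ) • v 0) + ∑ i : Fin k, z i • ((q : ℝ) • v i.succ) := by
    rw [smul_add, Finset.smul_sum, smul_comm, Nat.cast_smul_eq_nsmul]
    congr 1
    refine Finset.sum_congr rfl fun i _ => ?_
    rw [smul_comm, Int.cast_smul_eq_zsmul]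
  change (q : ℝ) • ((n : ℝ) • v 0 + ∑ i : Fin k, (z i : ℝ) • v i.succ) ∈
    AddSubgroup.closure (Set.range fun i => (q : ℝ) • v i)
  rw [h3]
  have h4 : ∀ i : Fin (k + 1), (q : ℝ) • v i ∈
      AddSubgroup.closure (Set.range fun i => (q : ℝ) • v i) := fun i =>
    AddSubgroup.subset_closure (Set.mem_range_self i)
  exact add_mem (nsmul_mem (h4 0) n) (sum_mem fun i _ => zsmul_mem (h4 i.succ) (z i))

end Pool.Agent.Arch
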