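import Pool.Agent.Arch.Basic

/-!
# B2: a set invariant under a dense set of translations is null or conull

Proof. For `v` in the closure of the set of good translations: continuity of translation in
measure on sets of finite measure, `tendsto_measure_symmDiff_preimage_nhds_zero` (Mathlib), or: for
every ball `B`, `vol (B ∩ ((A + v) \ A)) ≤ vol (B ∩ ((A + v) \ (A + w))) + 0` for good `w`, and this
tends to `0` as `w → v`. So `A + v = A` a.e. for every `v`, and Mathlib's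
`Dynamics/Ergodic/Action/Regular.lean` (`ErgodicVAdd G G μ`) or the Lebesgue density theorem
or Fubini (a.e. `x`, a.e. `v`: `x + v ∈ A ↔ x ∈ A`) finishes.
-/

namespace Pool.Agent.Arch

open MeasureTheory Matrix Filter Topology
open scoped symmDiff

/-- On bounded sets all translates of a set which is invariant under a dense set of translations
agree with it. -/
private theorem b2_ball {k : ℕ} (A : Set (Fin k → ℝ)) (hA : MeasurableSet A)
    (H : Set (Fin k → ℝ)) (hH : Dense H)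
    (h : ∀ v ∈ H, ∀ᵐ x : Fin k → ℝ, (x + v ∈ A ↔ x ∈ A)) (v : Fin k → ℝ) (r : ℝ) :
    volume (Metric.ball (0 : Fin k → ℝ) r ∩ {x | ¬ (x + v ∈ A ↔ x ∈ A)}) = 0 := by
  let tr : (Fin k → ℝ) → C(Fin k → ℝ, Fin k → ℝ) := fun w => ⟨fun x => x + w, by fun_prop⟩
  have hcont : Continuous tr := by
    let f : C((Fin k → ℝ) × (Fin k → ℝ), Fin k → ℝ) :=
      ⟨fun p => p.2 + p.1, by fun_prop⟩
    exact f.curry.continuous
  have hmp : ∀ w, MeasurePreserving (tr w) (volume : Measure (Fin k → ℝ)) volume := fun w =>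
    measurePreserving_add_right volume w
  set R : ℝ := r + (‖v‖ + 1) with hR
  set s : Set (Fin k → ℝ) := A ∩ Metric.ball 0 R with hs
  have hsm : NullMeasurableSet s volume :=
    (hA.inter Metric.isOpen_ball.measurableSet).nullMeasurableSet
  have hsf : volume s ≠ ⊤ :=
    ne_top_of_le_ne_top (measure_ball_lt_top (x := (0 : Fin k → ℝ)) (r := R)).ne
      (measure_mono Set.inter_subset_right)
  have hlim : Tendsto (fun w => volume ((tr w ⁻¹' s) ∆ (tr v ⁻¹' s))) (𝓝[H] v) (𝓝 0) :=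
    tendsto_measure_symmDiff_preimage_nhds_zero
      ((hcont.tendsto v).mono_left nhdsWithin_le_nhds) (Eventually.of_forall hmp) (hmp v) hsm hsf
  have hne : (𝓝[H] v).NeBot := mem_closure_iff_nhdsWithin_neBot.1 (hH v)
  have hball : ∀ᶠ w in 𝓝[H] v, ‖w‖ < ‖v‖ + 1 := by
    refine nhdsWithin_le_nhds ?_
    have : Tendsto (fun w : Fin k → ℝ => ‖w‖) (𝓝 v) (𝓝 ‖v‖) := continuous_norm.tendsto v
    exact this.eventually_lt_const (by linarith)
  have hmem : ∀ᶠ w in 𝓝[H] v, w ∈ H := self_mem_nhdsWithin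
  refine le_antisymm ?_ zero_le
  refine le_of_tendsto_of_tendsto tendsto_const_nhds hlim ?_
  filter_upwards [hball, hmem] with w hw hwH
  have hnull : volume {x : Fin k → ℝ | ¬ (x + w ∈ A ↔ x ∈ A)} = 0 := h w hwH
  calc volume (Metric.ball (0 : Fin k → ℝ) r ∩ {x | ¬ (x + v ∈ A ↔ x ∈ A)})
      ≤ volume (((tr w ⁻¹' s) ∆ (tr v ⁻¹' s)) ∪ {x : Fin k → ℝ | ¬ (x + w ∈ A ↔ x ∈ A)}) := by
        refine measure_mono ?_
        rintro x ⟨hx, hxv⟩
        have hxr : ‖x‖ < r := by simpa using hx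
        have h1 : x + v ∈ Metric.ball (0 : Fin k → ℝ) R := by
          rw [mem_ball_zero_iff]
          exact (norm_add_le _ _).trans_lt (by rw [hR]; linarith)
        have h2 : x + w ∈ Metric.ball (0 : Fin k → ℝ) R := by
          rw [mem_ball_zero_iff]
          exact (norm_add_le _ _).trans_lt (by rw [hR]; linarith)
        by_cases hxw : (x + w ∈ A ↔ x ∈ A)
        · left
          rw [Set.mem_symmDiff]
          change (x + w ∈ s ∧ ¬ x + v ∈ s) ∨ (x + v ∈ s ∧ ¬ x + w ∈ s)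
          have e1 : x + w ∈ s ↔ x + w ∈ A := ⟨fun h => h.1, fun h => ⟨h, h2⟩⟩
          have e2 : x + v ∈ s ↔ x + v ∈ A := ⟨fun h => h.1, fun h => ⟨h, h1⟩⟩
          have h3 : ¬ (x + v ∈ A ↔ x ∈ A) := hxv
          rw [e1, e2]
          tauto
        · right
          exact hxw
    _ ≤ volume ((tr w ⁻¹' s) ∆ (tr v ⁻¹' s)) + volume {x : Fin k → ℝ | ¬ (x + w ∈ A ↔ x ∈ A)} :=
        measure_union_le _ _
    _ = volume ((tr w ⁻¹' s) ∆ (tr v ⁻¹' s)) := by rw [hnull, add_zero]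

private theorem b2_all {k : ℕ} (A : Set (Fin k → ℝ)) (hA : MeasurableSet A)
    (H : Set (Fin k → ℝ)) (hH : Dense H)
    (h : ∀ v ∈ H, ∀ᵐ x : Fin k → ℝ, (x + v ∈ A ↔ x ∈ A)) (v : Fin k → ℝ) :
    ∀ᵐ x : Fin k → ℝ, (x + v ∈ A ↔ x ∈ A) := by
  rw [ae_iff]
  have h1 : {x : Fin k → ℝ | ¬ (x + v ∈ A ↔ x ∈ A)} ⊆
      ⋃ n : ℕ, Metric.ball (0 : Fin k → ℝ) n ∩ {x | ¬ (x + v ∈ A ↔ x ∈ A)} := by
    intro x hx
    obtain ⟨n, hn⟩ := exists_nat_gt ‖x‖
    exact Set.mem_iUnion.2 ⟨n, by simpa using hn, hx⟩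
  exact measure_mono_null h1 (measure_iUnion_null fun n => b2_ball A hA H hH h v n)

theorem trans_const {k : ℕ} (A : Set (Fin k → ℝ)) (hA : MeasurableSet A)
    (H : Set (Fin k → ℝ)) (hH : Dense H)
    (h : ∀ v ∈ H, ∀ᵐ x : Fin k → ℝ, (x + v ∈ A ↔ x ∈ A)) :
    (∀ᵐ x : Fin k → ℝ, x ∈ A) ∨ (∀ᵐ x : Fin k → ℝ, x ∉ A) := by
  rw [← eventuallyConst_set]
  refine aeconst_of_forall_preimage_vadd_ae_eq (Fin k → ℝ) hA.nullMeasurableSet fun v => ?_
  filter_upwards [b2_all A hA H hH h v] with x hx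
  refine propext ?_
  change v + x ∈ A ↔ x ∈ A
  rw [add_comm]
  exact hx

end Pool.Agent.Arch
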