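import Pool.Agent.Arch.B1
import Pool.Agent.Arch.B2

/-!
# B3: ergodicity of the elementary matrices on rows

`m` rows in `R^k`, `m ≥ k + 2`. A measurable set which is a.e. invariant under all the maps
`r_i ↦ r_i + q r_j` (`i ≠ j`) is null or conull.

Proof. Fix `i`. For a.e. choice of the other rows (there are at least `k + 1` of them; project to
`k + 1` of them, B1), the group generated by the `q r_j` is dense in `R^k`; for a.e. choice of the
other rows (Fubini, countably many maps) the slice `{r_i | r ∈ A}` is a.e. invariant under the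
translations by `q r_j`, so under the group generated (`r_i ↦ r_i - q r_j` as well: the map is
invertible and nonsingular), so by B2 the slice is null or conull. Hence `A` is a.e.
equal to a set which does not depend on the row `i` (the set of the other rows for which the
slice is conull). As this holds for every `i`, `A` is null or conull: induction on the number of
rows one has got rid of, e.g. prove for every `s : Finset (Fin m)`: there is a measurable `A_s`
with `A =ᵐ A_s` such that membership in `A_s` does not depend on the rows in `s`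
(`∀ r r', (∀ i ∉ s, r i = r' i) → (r ∈ A_s ↔ r' ∈ A_s)`); for `s = univ`, `A_s` is empty or
everything.
-/

namespace Pool.Agent.Arch

open MeasureTheory Matrix

section b3

variable {n k q : ℕ}

/-- inserting a row, measurable -/
private lemma b3_meas_insert (i : Fin (n + 1)) :
    Measurable fun z : (Fin n → Fin k → ℝ) × (Fin k → ℝ) =>
      (i.insertNth z.2 z.1 : Fin (n + 1) → Fin k → ℝ) := by
  have h := (MeasurableEquiv.piFinSuccAbove (fun _ : Fin (n + 1) => Fin k → ℝ) i).symm.measurable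
  exact h.comp measurable_swap

/-- inserting a row preserves the measure -/
private lemma b3_mp (i : Fin (n + 1)) :
    MeasurePreserving (fun z : (Fin n → Fin k → ℝ) × (Fin k → ℝ) =>
      (i.insertNth z.2 z.1 : Fin (n + 1) → Fin k → ℝ))
      ((volume : Measure (Fin n → Fin k → ℝ)).prod (volume : Measure (Fin k → ℝ))) volume := by
  have h := (volume_preserving_piFinSuccAbove (fun _ : Fin (n + 1) => Fin k → ℝ) i).symm
  exact h.comp Measure.measurePreserving_swap

/-- Fubini -/
private lemma b3_ae (i : Fin (n + 1)) {P : (Fin (n + 1) → Fin k → ℝ) → Prop}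
    (h : ∀ᵐ r : Fin (n + 1) → Fin k → ℝ, P r) :
    ∀ᵐ y : Fin n → Fin k → ℝ, ∀ᵐ x : Fin k → ℝ,
      P (i.insertNth x y : Fin (n + 1) → Fin k → ℝ) :=
  Measure.ae_ae_of_ae_prod ((b3_mp i).quasiMeasurePreserving.ae h)

private lemma b3_ae_conv (i : Fin (n + 1)) {S : Set (Fin (n + 1) → Fin k → ℝ)}
    (hS : MeasurableSet S)
    (h : ∀ᵐ y : Fin n → Fin k → ℝ, ∀ᵐ x : Fin k → ℝ,
      (i.insertNth x y : Fin (n + 1) → Fin k → ℝ) ∈ S) :
    ∀ᵐ r : Fin (n + 1) → Fin k → ℝ, r ∈ S := by
  have h1 : ∀ᵐ z ∂((volume : Measure (Fin n → Fin k → ℝ)).prod (volume : Measure (Fin k → ℝ))),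
      z ∈ (fun z : (Fin n → Fin k → ℝ) × (Fin k → ℝ) =>
        (i.insertNth z.2 z.1 : Fin (n + 1) → Fin k → ℝ)) ⁻¹' S :=
    (Measure.ae_prod_mem_iff_ae_ae_mem ((b3_meas_insert i) hS)).2 h
  have h2 := (b3_mp (k := k) i).map_eq
  rw [← h2]
  exact (ae_map_iff (b3_mp i).aemeasurable (p := fun r => r ∈ S) hS).2 h1

/-- the good translations form a group -/
private lemma b3_closure {A : Set (Fin k → ℝ)} {ι : Type} (w : ι → Fin k → ℝ)
    (h : ∀ j, ∀ᵐ x : Fin k → ℝ, (x + w j ∈ A ↔ x ∈ A)) :
    ∀ v ∈ AddSubgroup.closure (Set.range w), ∀ᵐ x : Fin k → ℝ, (x + v ∈ A ↔ x ∈ A) := by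
  intro v hv
  induction hv using AddSubgroup.closure_induction with
  | mem v hv =>
    obtain ⟨j, rfl⟩ := hv
    exact h j
  | zero => simp
  | add v v' _ _ h1 h2 =>
    have h3 := (measurePreserving_add_right (volume : Measure (Fin k → ℝ)) v).quasiMeasurePreserving.ae h2
    filter_upwards [h1, h3] with x h4 h5
    rw [← add_assoc, h5, h4]
  | neg v _ h1 =>
    have h3 := (measurePreserving_add_right (volume : Measure (Fin k → ℝ)) (-v)).quasiMeasurePreserving.ae h1
    filter_upwards [h3] with x h5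
    rw [neg_add_cancel_right] at h5
    exact h5.symm

/-- restriction to some of the rows is quasi measure preserving -/
private lemma b3_restrict (hn : k + 1 ≤ n) :
    Measure.QuasiMeasurePreserving (fun (y : Fin n → Fin k → ℝ) (a : Fin (k + 1)) =>
      y (Fin.castLE hn a)) volume volume := by
  classical
  set ψ : Fin (k + 1) → Fin n := Fin.castLE hn with hψ
  have hψi : Function.Injective ψ := Fin.castLE_injective hn
  obtain ⟨p, hp⟩ : ∃ p : Fin n → Prop, ∀ i, p i ↔ i ∈ Set.range ψ := ⟨_, fun _ => Iff.rfl⟩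
  let e : {i : Fin n // p i} ≃ Fin (k + 1) :=
    (Equiv.subtypeEquivRight hp).trans (Equiv.ofInjective ψ hψi).symm
  have h1 := volume_preserving_piEquivPiSubtypeProd (fun _ : Fin n => Fin k → ℝ) p
  have h2 : Measure.QuasiMeasurePreserving
      (Prod.fst : ({i : Fin n // p i} → Fin k → ℝ) × ({i : Fin n // ¬ p i} → Fin k → ℝ) → _)
      volume volume := Measure.quasiMeasurePreserving_fst
  have h3 := (volume_measurePreserving_piCongrLeft (fun _ : Fin (k + 1) => Fin k → ℝ)
    e).quasiMeasurePreserving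
  have h4 := h3.comp (h2.comp h1.quasiMeasurePreserving)
  have h5 : (fun (y : Fin n → Fin k → ℝ) (a : Fin (k + 1)) => y (Fin.castLE hn a)) =
      (MeasurableEquiv.piCongrLeft (fun _ : Fin (k + 1) => Fin k → ℝ) e) ∘
        (Prod.fst ∘ (MeasurableEquiv.piEquivPiSubtypeProd (fun _ : Fin n => Fin k → ℝ) p)) := by
    funext y a
    obtain ⟨b, rfl⟩ := e.surjective a
    rw [Function.comp_apply, MeasurableEquiv.coe_piCongrLeft, Equiv.piCongrLeft_apply_apply]
    have h6 : Fin.castLE hn (e b) = b.1 := by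
      have := (Equiv.ofInjective ψ hψi).apply_symm_apply (Equiv.subtypeEquivRight hp b)
      exact congrArg Subtype.val this
    rw [h6]
    rfl
  rw [h5]
  exact h4

/-- the slices are null or conull -/
private lemma b3_slice (hn : k + 1 ≤ n) (hq : 0 < q) (i : Fin (n + 1))
    (A : Set (Fin (n + 1) → Fin k → ℝ)) (hA : MeasurableSet A)
    (hinv : ∀ j : Fin (n + 1), i ≠ j →
      ∀ᵐ r : Fin (n + 1) → Fin k → ℝ, (Function.update r i (r i + (q : ℝ) • r j) ∈ A ↔ r ∈ A)) :
    ∀ᵐ y : Fin n → Fin k → ℝ,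
      (∀ᵐ x : Fin k → ℝ, (i.insertNth x y : Fin (n + 1) → Fin k → ℝ) ∈ A) ∨
      (∀ᵐ x : Fin k → ℝ, (i.insertNth x y : Fin (n + 1) → Fin k → ℝ) ∉ A) := by
  have h1 : ∀ᵐ y : Fin n → Fin k → ℝ, ∀ j : Fin n, ∀ᵐ x : Fin k → ℝ,
      ((i.insertNth (x + (q : ℝ) • y j) y : Fin (n + 1) → Fin k → ℝ) ∈ A ↔
        (i.insertNth x y : Fin (n + 1) → Fin k → ℝ) ∈ A) := by
    rw [ae_all_iff]
    intro j
    have h2 := b3_ae i (hinv (i.succAbove j) (Fin.succAbove_ne i j).symm)
    filter_upwards [h2] with y hy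
    filter_upwards [hy] with x hx
    rw [Fin.insertNth_apply_same, Fin.insertNth_apply_succAbove, Fin.update_insertNth] at hx
    exact hx
  have h2 := (b3_restrict hn).ae (dens k q hq)
  filter_upwards [h1, h2] with y hy1 hy2
  have hm : MeasurableSet {x : Fin k → ℝ | (i.insertNth x y : Fin (n + 1) → Fin k → ℝ) ∈ A} :=
    ((b3_meas_insert i).comp (measurable_const.prodMk measurable_id)) hA
  refine trans_const {x : Fin k → ℝ | (i.insertNth x y : Fin (n + 1) → Fin k → ℝ) ∈ A} hm
    (AddSubgroup.closure (Set.range fun j => (q : ℝ) • y j) : AddSubgroup (Fin k → ℝ)) ?_ ?_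
  · refine hy2.mono ?_
    refine AddSubgroup.closure_mono ?_
    rintro _ ⟨a, rfl⟩
    exact ⟨_, rfl⟩
  · intro v hv
    exact b3_closure (A := {x | (i.insertNth x y : Fin (n + 1) → Fin k → ℝ) ∈ A})
      (fun j => (q : ℝ) • y j) hy1 v hv

/-- getting rid of the dependence on the rows of `s` -/
private lemma b3_indep (A : Set (Fin (n + 1) → Fin k → ℝ)) (hA : MeasurableSet A)
    (hsl : ∀ i : Fin (n + 1), ∀ᵐ y : Fin n → Fin k → ℝ,
      (∀ᵐ x : Fin k → ℝ, (i.insertNth x y : Fin (n + 1) → Fin k → ℝ) ∈ A) ∨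
      (∀ᵐ x : Fin k → ℝ, (i.insertNth x y : Fin (n + 1) → Fin k → ℝ) ∉ A))
    (s : Finset (Fin (n + 1))) :
    ∃ B : Set (Fin (n + 1) → Fin k → ℝ), MeasurableSet B ∧
      (∀ᵐ r : Fin (n + 1) → Fin k → ℝ, (r ∈ A ↔ r ∈ B)) ∧
      ∀ r r' : Fin (n + 1) → Fin k → ℝ, (∀ i ∉ s, r i = r' i) → (r ∈ B ↔ r' ∈ B) := by
  classical
  induction s using Finset.induction_on with
  | empty =>
    refine ⟨A, hA, Filter.Eventually.of_forall fun _ => Iff.rfl, fun r r' h => ?_⟩
    rw [funext fun i => h i (Finset.notMem_empty i)]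
  | insert i s his ih =>
    obtain ⟨B, hB, hAB, hind⟩ := ih
    set C : Set (Fin n → Fin k → ℝ) :=
      {y | ∀ᵐ x : Fin k → ℝ, (i.insertNth x y : Fin (n + 1) → Fin k → ℝ) ∈ B} with hC
    have hCm : MeasurableSet C := by
      have h1 : MeasurableSet ((fun z : (Fin n → Fin k → ℝ) × (Fin k → ℝ) =>
          (i.insertNth z.2 z.1 : Fin (n + 1) → Fin k → ℝ)) ⁻¹' Bᶜ) := (b3_meas_insert i) hB.compl
      have h2 := measurable_measure_prodMk_left (ν := (volume : Measure (Fin k → ℝ))) h1
      exact h2 (measurableSet_singleton 0)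
    have hrm : Measurable fun (r : Fin (n + 1) → Fin k → ℝ) (j : Fin n) => r (i.succAbove j) :=
      measurable_pi_iff.2 fun j => measurable_pi_apply _
    have hrem : ∀ (x : Fin k → ℝ) (y : Fin n → Fin k → ℝ),
        (fun j : Fin n => (i.insertNth x y : Fin (n + 1) → Fin k → ℝ) (i.succAbove j)) = y := by
      intro x y
      funext j
      rw [Fin.insertNth_apply_succAbove]
    refine ⟨(fun (r : Fin (n + 1) → Fin k → ℝ) (j : Fin n) => r (i.succAbove j)) ⁻¹' C,
      hrm hCm, ?_, ?_⟩
    · have hset : MeasurableSet {r : Fin (n + 1) → Fin k → ℝ |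
          (r ∈ A ↔ r ∈ (fun (r : Fin (n + 1) → Fin k → ℝ) (j : Fin n) =>
            r (i.succAbove j)) ⁻¹' C)} :=
        hA.iff (hrm hCm)
      refine b3_ae_conv i hset ?_
      filter_upwards [hsl i, b3_ae i hAB] with y h1 h2
      have h3 : ∀ x : Fin k → ℝ, ((i.insertNth x y : Fin (n + 1) → Fin k → ℝ) ∈
          (fun (r : Fin (n + 1) → Fin k → ℝ) (j : Fin n) => r (i.succAbove j)) ⁻¹' C) ↔ y ∈ C := by
        intro x
        rw [Set.mem_preimage, hrem]
      rcases h1 with h1 | h1
      · have h4 : y ∈ C := by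
          rw [hC, Set.mem_ofPred_eq]
          filter_upwards [h1, h2] with x h5 h6
          exact h6.1 h5
        filter_upwards [h1] with x h5
        exact ⟨fun _ => (h3 x).2 h4, fun _ => h5⟩
      · have h4 : y ∉ C := by
          intro h5
          rw [hC, Set.mem_ofPred_eq] at h5
          have h6 : ∀ᵐ x : Fin k → ℝ, False := by
            filter_upwards [h1, h2, h5] with x h7 h8 h9
            exact h7 (h8.2 h9)
          rw [Filter.eventually_false_iff_eq_bot] at h6
          exact (inferInstance : (ae (volume : Measure (Fin k → ℝ))).NeBot).ne h6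
        filter_upwards [h1] with x h5
        exact ⟨fun h6 => absurd h6 h5, fun h6 => absurd ((h3 x).1 h6) h4⟩
    · intro r r' hrr
      have h1 : ∀ x : Fin k → ℝ,
          ((i.insertNth x (fun j => r (i.succAbove j)) : Fin (n + 1) → Fin k → ℝ) ∈ B ↔
            (i.insertNth x (fun j => r' (i.succAbove j)) : Fin (n + 1) → Fin k → ℝ) ∈ B) := by
        intro x
        refine hind _ _ fun a ha => ?_
        rcases Fin.eq_self_or_eq_succAbove i a with rfl | ⟨j, rfl⟩
        · rw [Fin.insertNth_apply_same, Fin.insertNth_apply_same]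
        · rw [Fin.insertNth_apply_succAbove, Fin.insertNth_apply_succAbove]
          refine hrr _ fun h => ?_
          rcases Finset.mem_insert.1 h with h | h
          · exact Fin.succAbove_ne i j h
          · exact ha h
      show (∀ᵐ x : Fin k → ℝ, _) ↔ (∀ᵐ x : Fin k → ℝ, _)
      simp only [h1]

end b3

theorem erg_rows (m k q : ℕ) (hkm : k + 2 ≤ m) (hq : 0 < q)
    (A : Set (Fin m → Fin k → ℝ)) (hA : MeasurableSet A)
    (hinv : ∀ i j : Fin m, i ≠ j →
      ∀ᵐ r : Fin m → Fin k → ℝ, (Function.update r i (r i + (q : ℝ) • r j) ∈ A ↔ r ∈ A)) :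
    (∀ᵐ r : Fin m → Fin k → ℝ, r ∈ A) ∨ (∀ᵐ r : Fin m → Fin k → ℝ, r ∉ A) := by
  obtain ⟨n, rfl⟩ : ∃ n, m = n + 1 := ⟨m - 1, by omega⟩
  obtain ⟨B, -, hAB, hind⟩ := b3_indep A hA
    (fun i => b3_slice (by omega) hq i A hA (hinv i)) Finset.univ
  by_cases hB : ∃ r, r ∈ B
  · obtain ⟨r, hr⟩ := hB
    left
    filter_upwards [hAB] with r' h
    exact h.2 ((hind r r' fun i hi => absurd (Finset.mem_univ i) hi).1 hr)
  · right
    filter_upwards [hAB] with r' h
    exact fun h1 => hB ⟨r', h.1 h1⟩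

end Pool.Agent.Arch
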