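import Pool.Agent.Arch.A2
import Pool.Agent.Arch.B3

/-!
# B4: ergodicity of the elementary matrices on tuples of vectors

Proof. Transport B3 along the swap of the indices (A1): for `X : Fin k → V m` put
`r i j = X j i`; the action of `1 + q E_{ij}` on every `X j` becomes `r_i ↦ r_i + q r_j`.
The product versions: `V m`, `V m × V m`, ... are `Fin 1 → V m`, `Fin 2 → V m`, ... up to measure
preserving equivalences (`MeasureTheory.volume_preserving_funUnique`,
`volume_preserving_finTwoArrow`, `volume_preserving_piFinSuccAbove`), or use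
`MeasurePreserving` of the obvious maps.
-/

namespace Pool.Agent.Arch

open MeasureTheory Matrix

private theorem b4_act_elemZ {m : ℕ} (i j : Fin m) (hij : i ≠ j) (q : ℤ) (x : V m) (a : Fin m) :
    act (elemZ i j hij q) x a = x a + if a = i then (q : ℝ) * x j else 0 := by
  unfold act elemZ
  have h1 : (Matrix.transvection i j q).map (Int.cast : ℤ → ℝ) =
      Matrix.transvection i j (q : ℝ) := by
    ext a b
    simp only [Matrix.transvection, Matrix.map_apply, Matrix.add_apply, Matrix.one_apply,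
      Matrix.single_apply]
    split_ifs <;> simp
  change ((Matrix.transvection i j q).map (Int.cast : ℤ → ℝ) *ᵥ x) a = _
  rw [h1, Matrix.transvection, Matrix.add_mulVec, Matrix.one_mulVec, Pi.add_apply]
  congr 1
  rw [Matrix.single_mulVec]
  simp [Function.update_apply]

private theorem b4_ae {α β : Type*} [MeasurableSpace α] [MeasurableSpace β] {μ : Measure α}
    {ν : Measure β} {e : α → β} (he : MeasurePreserving e μ ν) {A : Set β}
    (hA : MeasurableSet A) (h : (∀ᵐ x ∂μ, x ∈ e ⁻¹' A) ∨ (∀ᵐ x ∂μ, x ∉ e ⁻¹' A)) :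
    (∀ᵐ x ∂ν, x ∈ A) ∨ (∀ᵐ x ∂ν, x ∉ A) := by
  rw [← he.map_eq]
  rcases h with h | h
  · exact Or.inl ((ae_map_iff he.measurable.aemeasurable hA).2 h)
  · exact Or.inr ((ae_map_iff he.measurable.aemeasurable hA.compl).2 h)

theorem erg (m k q : ℕ) (hkm : k + 2 ≤ m) (hq : 0 < q)
    (A : Set (Fin k → V m)) (hA : MeasurableSet A)
    (hinv : ∀ (i j : Fin m) (hij : i ≠ j),
      ∀ᵐ X : Fin k → V m, (actT (elemZ i j hij (q : ℤ)) X ∈ A ↔ X ∈ A)) :
    (∀ᵐ X : Fin k → V m, X ∈ A) ∨ (∀ᵐ X : Fin k → V m, X ∉ A) := by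
  have he := measurePreserving_swap m k
  refine b4_ae he hA (erg_rows m k q hkm hq _ (he.measurable hA) ?_)
  intro i j hij
  filter_upwards [he.quasiMeasurePreserving.ae (hinv i j hij)] with r hr
  have h1 : actT (elemZ i j hij (q : ℤ)) (fun (b : Fin k) (a : Fin m) => r a b) =
      fun (b : Fin k) (a : Fin m) => (Function.update r i (r i + (q : ℝ) • r j)) a b := by
    funext b a
    unfold actT
    rw [b4_act_elemZ]
    by_cases h : a = i
    · subst h
      simp
    · simp [h]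
  rw [h1] at hr
  exact hr

private theorem b4_transfer {m k q : ℕ} {P : Type} [MeasureSpace P] (e : (Fin k → V m) → P)
    (he : MeasurePreserving e volume volume) (aP : SLZ m → P → P)
    (hcomm : ∀ g X, aP g (e X) = e (actT g X)) (hkm : k + 2 ≤ m) (hq : 0 < q) (A : Set P)
    (hA : MeasurableSet A)
    (hinv : ∀ (i j : Fin m) (hij : i ≠ j),
      ∀ᵐ x : P, (aP (elemZ i j hij (q : ℤ)) x ∈ A ↔ x ∈ A)) :
    (∀ᵐ x : P, x ∈ A) ∨ (∀ᵐ x : P, x ∉ A) := by
  refine b4_ae he hA (erg m k q hkm hq _ (he.measurable hA) ?_)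
  intro i j hij
  filter_upwards [he.quasiMeasurePreserving.ae (hinv i j hij)] with X hX
  rw [hcomm] at hX
  exact hX

private theorem b4_mp3 (m : ℕ) :
    MeasurePreserving (fun X : Fin 3 → V m => (X 0, X 1, X 2)) volume volume := by
  have h1 := volume_preserving_piFinSuccAbove (fun _ : Fin 3 => V m) 0
  have h2 := volume_preserving_finTwoArrow (V m)
  have h3 := (MeasurePreserving.id (volume : Measure (V m))).prod h2
  exact h3.comp h1

private theorem b4_mp4 (m : ℕ) :
    MeasurePreserving (fun X : Fin 4 → V m => (X 0, X 1, X 2, X 3)) volume volume := by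
  have h1 := volume_preserving_piFinSuccAbove (fun _ : Fin 4 => V m) 0
  have h2 := b4_mp3 m
  have h3 := (MeasurePreserving.id (volume : Measure (V m))).prod h2
  exact h3.comp h1

theorem erg1 (m q : ℕ) (hkm : 3 ≤ m) (hq : 0 < q) (A : Set (V m)) (hA : MeasurableSet A)
    (hinv : ∀ (i j : Fin m) (hij : i ≠ j),
      ∀ᵐ x : V m, (act (elemZ i j hij (q : ℤ)) x ∈ A ↔ x ∈ A)) :
    (∀ᵐ x : V m, x ∈ A) ∨ (∀ᵐ x : V m, x ∉ A) := by
  exact b4_transfer (k := 1) (MeasurableEquiv.funUnique (Fin 1) (V m))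
    (volume_preserving_funUnique (Fin 1) (V m)) act (fun g X => rfl) hkm hq A hA hinv

theorem erg2 (m q : ℕ) (hkm : 4 ≤ m) (hq : 0 < q) (A : Set (V m × V m)) (hA : MeasurableSet A)
    (hinv : ∀ (i j : Fin m) (hij : i ≠ j),
      ∀ᵐ x : V m × V m, ((act (elemZ i j hij (q : ℤ)) x.1, act (elemZ i j hij (q : ℤ)) x.2) ∈ A
        ↔ x ∈ A)) :
    (∀ᵐ x : V m × V m, x ∈ A) ∨ (∀ᵐ x : V m × V m, x ∉ A) := by
  exact b4_transfer (k := 2) (MeasurableEquiv.finTwoArrow (α := V m))
    (volume_preserving_finTwoArrow (V m)) (fun g x => (act g x.1, act g x.2))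
    (fun g X => rfl) hkm hq A hA hinv

theorem erg3 (m q : ℕ) (hkm : 5 ≤ m) (hq : 0 < q) (A : Set (V m × V m × V m))
    (hA : MeasurableSet A)
    (hinv : ∀ (i j : Fin m) (hij : i ≠ j),
      ∀ᵐ x : V m × V m × V m, ((act (elemZ i j hij (q : ℤ)) x.1,
        act (elemZ i j hij (q : ℤ)) x.2.1, act (elemZ i j hij (q : ℤ)) x.2.2) ∈ A ↔ x ∈ A)) :
    (∀ᵐ x : V m × V m × V m, x ∈ A) ∨ (∀ᵐ x : V m × V m × V m, x ∉ A) := by
  exact b4_transfer (k := 3) _ (b4_mp3 m)
    (fun g x => (act g x.1, act g x.2.1, act g x.2.2)) (fun g X => rfl) hkm hq A hA hinv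

theorem erg4 (m q : ℕ) (hkm : 6 ≤ m) (hq : 0 < q) (A : Set (V m × V m × V m × V m))
    (hA : MeasurableSet A)
    (hinv : ∀ (i j : Fin m) (hij : i ≠ j),
      ∀ᵐ x : V m × V m × V m × V m, ((act (elemZ i j hij (q : ℤ)) x.1,
        act (elemZ i j hij (q : ℤ)) x.2.1, act (elemZ i j hij (q : ℤ)) x.2.2.1,
        act (elemZ i j hij (q : ℤ)) x.2.2.2) ∈ A ↔ x ∈ A)) :
    (∀ᵐ x : V m × V m × V m × V m, x ∈ A) ∨ (∀ᵐ x : V m × V m × V m × V m, x ∉ A) := by
  exact b4_transfer (k := 4) _ (b4_mp4 m)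
    (fun g x => (act g x.1, act g x.2.1, act g x.2.2.1, act g x.2.2.2)) (fun g X => rfl)
    hkm hq A hA hinv

end Pool.Agent.Arch
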