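import Pool.Agent.Arch.B4

/-!
# B5: invariant functions are a.e. constant

`Y` is any measurable space whose points are separated by countably many measurable sets
(countable discrete spaces, `ℝ`, the Cantor space and its subspaces).

Proof. Let `s_n` be the separating sequence of measurable sets. By `erg1` each `f ⁻¹' s_n` is null
or conull; the set of `x` which lie in all the conull `f ⁻¹' s_n` and outside all the null ones is
conull, so nonempty, and `f` is constant on it. (Mathlib may have this as
`Filter.EventuallyConst`/`ae_eq_const_of...`.)
-/

namespace Pool.Agent.Arch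

open MeasureTheory Matrix

theorem erg_const (m q : ℕ) (hm : 3 ≤ m) (hq : 0 < q) {Y : Type} [MeasurableSpace Y]
    [MeasurableSpace.CountablySeparated Y] (f : V m → Y) (hf : Measurable f)
    (hinv : ∀ (i j : Fin m) (hij : i ≠ j),
      ∀ᵐ x : V m, f (act (elemZ i j hij (q : ℤ)) x) = f x) :
    ∃ y : Y, ∀ᵐ x : V m, f x = y := by
  have : Nonempty Y := ⟨f 0⟩
  refine Filter.exists_eventuallyEq_const_of_forall_separating (l := ae (volume : Measure (V m)))
    (f := f) MeasurableSet fun U hU => ?_
  refine erg1 m q hm hq (f ⁻¹' U) (hf hU) fun i j hij => ?_
  filter_upwards [hinv i j hij] with x hx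
  simp only [Set.mem_preimage, hx]

end Pool.Agent.Arch
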