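import Mathlib

/-!
# The linear action of SL_m(Z) on R^m and on frames; notation of the project
-/

namespace Pool.Agent.Arch

open MeasureTheory Matrix

/-- `R^m`. -/
abbrev V (m : ℕ) : Type := Fin m → ℝ

/-- `SL_m(Z)`. -/
abbrev SLZ (m : ℕ) : Type := Matrix.SpecialLinearGroup (Fin m) ℤ

/-- `SL_m(R)`. -/
abbrev SLR (m : ℕ) : Type := Matrix.SpecialLinearGroup (Fin m) ℝ

/-- Frames: `m`-tuples of vectors of `R^m` (the rows of a square matrix). -/
abbrev Fr (m : ℕ) : Type := Fin m → Fin m → ℝ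

/-- `SL_m(Z)` acts on `R^m`: `x ↦ g x`. -/
noncomputable def act {m : ℕ} (g : SLZ m) (x : V m) : V m :=
  (g.1.map (Int.cast : ℤ → ℝ)) *ᵥ x

/-- The diagonal action on tuples of vectors. -/
noncomputable def actT {m : ℕ} {ι : Type} (g : SLZ m) (X : ι → V m) : ι → V m :=
  fun j => act g (X j)

/-- Row mixing by a real matrix: `(mix h X)_j = Σ_i h_{ji} X_i`. -/
def mix {m : ℕ} (h : SLR m) (X : Fr m) : Fr m :=
  fun j => ∑ i, h.1 j i • X i

/-- The determinant of a frame. -/
noncomputable def dt {m : ℕ} (X : Fr m) : ℝ := (Matrix.of X).det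

/-- Frames with determinant in `(0,1]`. -/
def M1 (m : ℕ) : Set (Fr m) := {X | 0 < dt X ∧ dt X ≤ 1}

/-- The elementary integer matrix `1 + q E_{ij}`: `x_i ↦ x_i + q x_j`. -/
def elemZ {m : ℕ} (i j : Fin m) (hij : i ≠ j) (q : ℤ) : SLZ m :=
  ⟨Matrix.transvection i j q, Matrix.det_transvection_of_ne i j hij q⟩

/-- The elementary real matrix `1 + r E_{ji}`: row `j` of a frame becomes
row `j` plus `r` times row `i`. -/
def elemR {m : ℕ} (j i : Fin m) (hji : j ≠ i) (r : ℝ) : SLR m :=
  ⟨Matrix.transvection j i r, Matrix.det_transvection_of_ne j i hji r⟩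

/-- `Q00 k`: the real matrices `h` of size `k+2` and determinant one whose rows `0` and `1` are
the first two unit vectors; `mix h` fixes the first two vectors of every frame. -/
def Q00 (k : ℕ) : Subgroup (SLR (k + 2)) where
  carrier := {h | (Pi.single 0 1 : V (k + 2)) ᵥ* h.1 = Pi.single 0 1 ∧
    (Pi.single 1 1 : V (k + 2)) ᵥ* h.1 = Pi.single 1 1}
  mul_mem' := by
    rintro a b ⟨ha0, ha1⟩ ⟨hb0, hb1⟩
    refine ⟨?_, ?_⟩
    · rw [Matrix.SpecialLinearGroup.coe_mul, ← Matrix.vecMul_vecMul, ha0, hb0]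
    · rw [Matrix.SpecialLinearGroup.coe_mul, ← Matrix.vecMul_vecMul, ha1, hb1]
  one_mem' := by
    refine ⟨?_, ?_⟩ <;> simp
  inv_mem' := by
    rintro a ⟨ha0, ha1⟩
    have h : a.1 * (a⁻¹).1 = 1 := by
      rw [← Matrix.SpecialLinearGroup.coe_mul, mul_inv_cancel, Matrix.SpecialLinearGroup.coe_one]
    refine ⟨?_, ?_⟩
    · conv_lhs => rw [← ha0]
      rw [Matrix.vecMul_vecMul, h, Matrix.vecMul_one]
    · conv_lhs => rw [← ha1]
      rw [Matrix.vecMul_vecMul, h, Matrix.vecMul_one]

/-- The matrix of `g` acting on `R^m`, as an element of `SL_m(R)`. -/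
noncomputable def toR {m : ℕ} (g : SLZ m) : SLR m :=
  Matrix.SpecialLinearGroup.map (Int.castRingHom ℝ) g

theorem act_eq {m : ℕ} (g : SLZ m) (x : V m) : act g x = (toR g).1 *ᵥ x := rfl

@[simp] theorem act_one {m : ℕ} (x : V m) : act (1 : SLZ m) x = x := by
  rw [act_eq, toR, map_one]; simp

theorem act_mul {m : ℕ} (g h : SLZ m) (x : V m) : act (g * h) x = act g (act h x) := by
  rw [act_eq, act_eq, act_eq, toR, toR, toR, map_mul, Matrix.SpecialLinearGroup.coe_mul,
    Matrix.mulVec_mulVec]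

theorem act_inv_act {m : ℕ} (g : SLZ m) (x : V m) : act g⁻¹ (act g x) = x := by
  rw [← act_mul, inv_mul_cancel, act_one]

theorem act_act_inv {m : ℕ} (g : SLZ m) (x : V m) : act g (act g⁻¹ x) = x := by
  rw [← act_mul, mul_inv_cancel, act_one]

theorem act_add {m : ℕ} (g : SLZ m) (x y : V m) : act g (x + y) = act g x + act g y :=
  Matrix.mulVec_add _ _ _

theorem act_smul {m : ℕ} (g : SLZ m) (a : ℝ) (x : V m) : act g (a • x) = a • act g x :=
  Matrix.mulVec_smul _ _ _

theorem act_sum {m : ℕ} {ι : Type} (s : Finset ι) (g : SLZ m) (f : ι → V m) :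
    act g (∑ i ∈ s, f i) = ∑ i ∈ s, act g (f i) := by
  exact map_sum (Matrix.mulVecLin (toR g).1) f s

@[simp] theorem actT_one {m : ℕ} {ι : Type} (X : ι → V m) : actT (1 : SLZ m) X = X := by
  funext j; simp [actT]

theorem actT_mul {m : ℕ} {ι : Type} (g h : SLZ m) (X : ι → V m) :
    actT (g * h) X = actT g (actT h X) := by
  funext j; simp [actT, act_mul]

theorem actT_inv_actT {m : ℕ} {ι : Type} (g : SLZ m) (X : ι → V m) :
    actT g⁻¹ (actT g X) = X := by
  rw [← actT_mul, inv_mul_cancel, actT_one]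

theorem actT_actT_inv {m : ℕ} {ι : Type} (g : SLZ m) (X : ι → V m) :
    actT g (actT g⁻¹ X) = X := by
  rw [← actT_mul, mul_inv_cancel, actT_one]

/-- The diagonal action commutes with row mixing. -/
theorem mix_actT {m : ℕ} (h : SLR m) (g : SLZ m) (X : Fr m) :
    mix h (actT g X) = actT g (mix h X) := by
  funext j
  simp only [mix, actT]
  rw [act_sum]
  simp only [act_smul]

theorem mix_eq {m : ℕ} (h : SLR m) (X : Fr m) : mix h X = h.1 * Matrix.of X := by
  funext j i
  simp [mix, Matrix.mul_apply, Finset.sum_apply]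

@[simp] theorem mix_one {m : ℕ} (X : Fr m) : mix (1 : SLR m) X = X := by
  rw [mix_eq]; simp; rfl

theorem mix_mul {m : ℕ} (h h' : SLR m) (X : Fr m) : mix (h * h') X = mix h (mix h' X) := by
  rw [mix_eq, mix_eq, mix_eq, Matrix.SpecialLinearGroup.coe_mul, Matrix.mul_assoc]; rfl

theorem dt_mix {m : ℕ} (h : SLR m) (X : Fr m) : dt (mix h X) = dt X := by
  rw [dt, mix_eq]
  have : (Matrix.of (h.1 * Matrix.of X)).det = (h.1 * Matrix.of X).det := rfl
  rw [this, Matrix.det_mul, h.2, one_mul]; rfl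

theorem actT_eq {m : ℕ} (g : SLZ m) (X : Fr m) :
    actT g X = Matrix.of X * (toR g).1ᵀ := by
  funext j i
  simp [actT, act_eq, Matrix.mul_apply, Matrix.mulVec, dotProduct, mul_comm]

theorem dt_actT {m : ℕ} (g : SLZ m) (X : Fr m) : dt (actT g X) = dt X := by
  rw [dt, actT_eq]
  have : (Matrix.of (Matrix.of X * (toR g).1ᵀ)).det = (Matrix.of X * (toR g).1ᵀ).det := rfl
  rw [this, Matrix.det_mul, Matrix.det_transpose, (toR g).2, mul_one]; rfl

theorem mix_mem_M1 {m : ℕ} (h : SLR m) {X : Fr m} : mix h X ∈ M1 m ↔ X ∈ M1 m := by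
  simp [M1, dt_mix]

theorem actT_mem_M1 {m : ℕ} (g : SLZ m) {X : Fr m} : actT g X ∈ M1 m ↔ X ∈ M1 m := by
  simp [M1, dt_actT]

theorem Q00_row0 {k : ℕ} {h : SLR (k + 2)} (hh : h ∈ Q00 k) (X : Fr (k + 2)) :
    mix h X 0 = X 0 := by
  have h0 : h.1 0 = Pi.single 0 1 := by
    have := hh.1
    rwa [Matrix.single_one_vecMul] at this
  simp [mix, h0, Pi.single_apply]

theorem Q00_row1 {k : ℕ} {h : SLR (k + 2)} (hh : h ∈ Q00 k) (X : Fr (k + 2)) :
    mix h X 1 = X 1 := by
  have h0 : h.1 1 = Pi.single 1 1 := by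
    have := hh.2
    rwa [Matrix.single_one_vecMul] at this
  simp [mix, h0, Pi.single_apply]

theorem elemR_mem_Q00 {k : ℕ} {j i : Fin (k + 2)} (hji : j ≠ i) (h0 : j ≠ 0) (h1 : j ≠ 1)
    (r : ℝ) : elemR j i hji r ∈ Q00 k := by
  constructor
  · rw [Matrix.single_one_vecMul]
    funext a
    simp [elemR, Matrix.transvection, h0, Matrix.one_apply, Pi.single_apply, eq_comm]
  · rw [Matrix.single_one_vecMul]
    funext a
    simp [elemR, Matrix.transvection, h1, Matrix.one_apply, Pi.single_apply, eq_comm]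

theorem continuous_act {m : ℕ} (g : SLZ m) : Continuous (act g) := by
  have : act g = fun x => (toR g).1 *ᵥ x := rfl
  rw [this]
  fun_prop

theorem measurable_act {m : ℕ} (g : SLZ m) : Measurable (act g) := (continuous_act g).measurable

theorem continuous_actT {m : ℕ} {ι : Type} (g : SLZ m) :
    Continuous (actT g : (ι → V m) → (ι → V m)) :=
  continuous_pi fun j => (continuous_act g).comp (continuous_apply j)

theorem measurable_actT {m : ℕ} {ι : Type} (g : SLZ m) :
    Measurable (actT g : (ι → V m) → (ι → V m)) :=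
  measurable_pi_lambda _ fun j => (measurable_act g).comp (measurable_pi_apply j)

theorem continuous_mix {m : ℕ} (h : SLR m) : Continuous (mix h) := by
  unfold mix
  fun_prop

theorem measurable_mix {m : ℕ} (h : SLR m) : Measurable (mix h) := (continuous_mix h).measurable

theorem continuous_dt {m : ℕ} : Continuous (dt : Fr m → ℝ) := by
  unfold dt
  exact Continuous.matrix_det (by exact continuous_id)

theorem measurableSet_M1 (m : ℕ) : MeasurableSet (M1 m) :=
  (measurableSet_lt measurable_const continuous_dt.measurable).inter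
    (measurableSet_le continuous_dt.measurable measurable_const)

end Pool.Agent.Arch
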