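import Pool.Agent.Arch.Basic

/-!
# C1: Minkowski: a short integral combination of the rows

Proof. The set `T = {x : Fin m → ℝ | ∀ j, |(x ᵥ* X) j| ≤ 2}` is convex, symmetric, of volume
`4^m / det X ≥ 4^m > 2^m` (image of the cube `[-2,2]^m` under the inverse linear map,
`MeasureTheory.Measure.addHaar_preimage_linearMap` or `Real.map_matrix_volume_pi_eq_smul_volume_pi`).
Minkowski's theorem (`MeasureTheory.exists_ne_zero_mem_lattice_of_measure_mul_two_pow_lt_measure`)
for the lattice `Z^m` (`Submodule.span ℤ (Set.range (Pi.basisFun ℝ (Fin m)))`, with fundamental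
domain of volume one, `ZSpan.fundamentalDomain_pi_basisFun`) gives a nonzero integral vector
in `T`. Or directly by pigeonhole (Blichfeldt).
-/

namespace Pool.Agent.Arch

open MeasureTheory Matrix

private theorem c1_cube (m : ℕ) :
    volume (Set.Icc (fun _ => (-2 : ℝ)) (fun _ => 2) : Set (Fin m → ℝ)) = 4 ^ m := by
  rw [Real.volume_Icc_pi]
  have h : ENNReal.ofReal ((2 : ℝ) - -2) = 4 := by
    rw [show ((2 : ℝ) - -2) = ((4 : ℕ) : ℝ) by norm_num, ENNReal.ofReal_natCast]
    rfl
  simp only [h, Finset.prod_const, Finset.card_univ, Fintype.card_fin]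

private theorem c1_dom (m : ℕ) :
    volume (ZSpan.fundamentalDomain (Pi.basisFun ℝ (Fin m))) = 1 := by
  rw [ZSpan.fundamentalDomain_pi_basisFun, volume_pi, Measure.pi_pi]
  simp

theorem mink {m : ℕ} (hm : 0 < m) (X : Matrix (Fin m) (Fin m) ℝ) (h0 : 0 < X.det)
    (h1 : X.det ≤ 1) :
    ∃ a : Fin m → ℤ, a ≠ 0 ∧ ∀ j, |∑ i, (a i : ℝ) * X i j| ≤ 2 := by
  let f : (Fin m → ℝ) →ₗ[ℝ] (Fin m → ℝ) := Matrix.toLin' Xᵀ
  have hf : ∀ x j, f x j = ∑ i, x i * X i j := by
    intro x j
    simp [f, Matrix.toLin'_apply, Matrix.mulVec, dotProduct, mul_comm]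
  have hdet : LinearMap.det f = X.det := by
    rw [LinearMap.det_toLin', Matrix.det_transpose]
  let s : Set (Fin m → ℝ) := f ⁻¹' (Set.Icc (fun _ => (-2 : ℝ)) (fun _ => 2))
  have hs : ∀ x, x ∈ s ↔ ∀ j, |f x j| ≤ 2 := by
    intro x
    simp only [s, Set.mem_preimage, Set.mem_Icc, Pi.le_def, abs_le]
    exact forall_and.symm
  have hvol : (4 : ENNReal) ^ m ≤ volume s := by
    have h2 : volume s = ENNReal.ofReal |(LinearMap.det f)⁻¹| * 4 ^ m := by
      rw [← c1_cube m]
      exact Measure.addHaar_preimage_linearMap volume (by rw [hdet]; exact h0.ne') _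
    rw [h2, hdet]
    have h3 : (1 : ENNReal) ≤ ENNReal.ofReal |X.det⁻¹| := by
      rw [← ENNReal.ofReal_one]
      apply ENNReal.ofReal_le_ofReal
      rw [abs_of_pos (inv_pos.2 h0)]
      exact (one_le_inv₀ h0).2 h1
    calc (4 : ENNReal) ^ m = 1 * 4 ^ m := (one_mul _).symm
      _ ≤ _ := mul_le_mul_left h3 _
  have hlt : volume (ZSpan.fundamentalDomain (Pi.basisFun ℝ (Fin m))) *
      2 ^ Module.finrank ℝ (Fin m → ℝ) < volume s := by
    rw [c1_dom, one_mul, Module.finrank_fin_fun]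
    refine lt_of_lt_of_le ?_ hvol
    have h4 : (2 : ENNReal) ^ m < 4 ^ m := by
      have h5 : (2 : ℕ) ^ m < 4 ^ m := Nat.pow_lt_pow_left (by norm_num) hm.ne'
      exact_mod_cast h5
    exact h4
  have hsymm : ∀ x ∈ s, -x ∈ s := by
    intro x hx
    rw [hs] at hx ⊢
    intro j
    rw [map_neg, Pi.neg_apply, abs_neg]
    exact hx j
  have hconv : Convex ℝ s := (convex_Icc _ _).linear_preimage f
  have : Countable (Submodule.span ℤ (Set.range (Pi.basisFun ℝ (Fin m)))).toAddSubgroup := by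
    change Countable (Submodule.span ℤ (Set.range (Pi.basisFun ℝ (Fin m))))
    infer_instance
  obtain ⟨⟨x, hx⟩, hne, hmem⟩ := exists_ne_zero_mem_lattice_of_measure_mul_two_pow_lt_measure
    (ZSpan.isAddFundamentalDomain' (Pi.basisFun ℝ (Fin m)) volume) hsymm hconv hlt
  have hx' : x ∈ Submodule.span ℤ (Set.range (Pi.basisFun ℝ (Fin m))) := hx
  rw [Module.Basis.mem_span_iff_repr_mem] at hx'
  choose a ha using hx'
  have ha' : ∀ i, (a i : ℝ) = x i := by
    intro i
    have h6 := ha i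
    simpa using h6
  refine ⟨a, ?_, ?_⟩
  · intro h
    apply hne
    apply Subtype.ext
    funext i
    change x i = 0
    rw [← ha' i, h]
    simp
  · intro j
    have h7 := (hs x).1 hmem j
    rw [hf] at h7
    simp only [ha']
    exact h7

end Pool.Agent.Arch
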