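import Pool.Agent.Arch.Basic

/-!
# C2: every nonzero integral vector is a multiple of the first row of a matrix in SL_n(Z)

`n = m + 2 ≥ 2`.

Proof. Consider the vectors `a ᵥ* γ` (`γ` in `SL_n(Z)`); choose one, `b`, with `Σ |b_i|` minimal. If
two entries `b_i, b_j` (`i ≠ j`) are nonzero, with `|b_i| ≥ |b_j|`, then adding `± b_j` to `b_i`
(right multiplication by a transvection) makes `Σ |b_i|` smaller: contradiction. So `b = g' e_i`
with `g' ≠ 0`. If `i ≠ 0` then adding column `i` to column `0` and subtracting, or a signed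
permutation matrix of determinant one, moves the entry to position `0`, and one may change its
sign (diagonal matrix with two entries `-1`, or another signed permutation). So
`a ᵥ* γ = g e_0` with `g > 0`, and `a = g • (e_0 ᵥ* γ⁻¹) = g • (γ⁻¹) 0`.
-/

namespace Pool.Agent.Arch

open MeasureTheory Matrix

/-- The conclusion of `prim`. -/
def c2_Pr {m : ℕ} (a : Fin (m + 2) → ℤ) : Prop :=
  ∃ (γ : SLZ (m + 2)) (g : ℕ), 0 < g ∧ a = (g : ℤ) • γ.1 0

theorem c2_step {m : ℕ} (a : Fin (m + 2) → ℤ) (T : SLZ (m + 2)) (h : c2_Pr (a ᵥ* T.1)) :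
    c2_Pr a := by
  obtain ⟨γ, g, hg, h⟩ := h
  refine ⟨γ * T⁻¹, g, hg, ?_⟩
  have hT : T.1 * (T⁻¹).1 = 1 := by
    rw [← Matrix.SpecialLinearGroup.coe_mul, mul_inv_cancel, Matrix.SpecialLinearGroup.coe_one]
  have h1 : (a ᵥ* T.1) ᵥ* (T⁻¹).1 = a := by
    rw [Matrix.vecMul_vecMul, hT, Matrix.vecMul_one]
  rw [← h1, h, Matrix.SpecialLinearGroup.coe_mul, Matrix.mul_apply_eq_vecMul,
    Matrix.smul_vecMul]

theorem c2_up {m : ℕ} (a b : Fin (m + 2) → ℤ) (i j : Fin (m + 2)) (hij : i ≠ j) (q : ℤ)
    (hj : b j = a j + a i * q) (hk : ∀ k, k ≠ j → b k = a k) (h : c2_Pr b) : c2_Pr a := by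
  refine c2_step a (elemZ i j hij q) ?_
  have h1 : a ᵥ* (elemZ i j hij q).1 = b := by
    funext k
    change (a ᵥ* (Matrix.transvection i j q)) k = _
    rw [Matrix.transvection, Matrix.vecMul_add, Matrix.vecMul_one, Pi.add_apply]
    by_cases h : k = j
    · subst h
      rw [hj]
      simp [Matrix.vecMul, dotProduct, Matrix.single_apply]
    · rw [hk k h]
      simp [Matrix.vecMul, dotProduct, Ne.symm h]
  rw [h1]
  exact h

theorem c2_pos {m : ℕ} (c : ℤ) (hc : 0 < c) : c2_Pr (Pi.single (0 : Fin (m + 2)) c) := by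
  refine ⟨1, c.natAbs, by omega, ?_⟩
  funext k
  have h : ((c.natAbs : ℕ) : ℤ) = c := by omega
  rw [h]
  simp [Matrix.one_apply, Pi.single_apply, eq_comm]

theorem c2_zero {m : ℕ} (c : ℤ) (hc : c ≠ 0) : c2_Pr (Pi.single (0 : Fin (m + 2)) c) := by
  have h01 : (0 : Fin (m + 2)) ≠ 1 := by simp
  rcases lt_or_gt_of_ne hc with h | h
  · let b1 : Fin (m + 2) → ℤ := fun k => if k = 0 then c else if k = 1 then c else 0
    let b2 : Fin (m + 2) → ℤ := fun k => if k = 0 then -c else if k = 1 then c else 0
    refine c2_up _ b1 0 1 h01 1 ?_ ?_ ?_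
    · simp [b1]
    · intro k hk
      simp [b1, hk, Pi.single_apply]
    refine c2_up _ b2 1 0 h01.symm (-2) ?_ ?_ ?_
    · simp [b1, b2]
      ring
    · intro k hk
      simp [b1, b2, hk]
    refine c2_up _ (Pi.single (0 : Fin (m + 2)) (-c)) 0 1 h01 1 ?_ ?_ ?_
    · simp [b2]
    · intro k hk
      simp [b2, hk, Pi.single_apply]
    exact c2_pos _ (by omega)
  · exact c2_pos c h

theorem c2_single {m : ℕ} (i : Fin (m + 2)) (c : ℤ) (hc : c ≠ 0) : c2_Pr (Pi.single i c) := by
  by_cases hi : i = 0
  · subst hi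
    exact c2_zero c hc
  · let b1 : Fin (m + 2) → ℤ := fun k => if k = 0 then c else if k = i then c else 0
    refine c2_up _ b1 i 0 hi 1 ?_ ?_ ?_
    · simp [b1, Ne.symm hi]
    · intro k hk
      simp [b1, hk, Pi.single_apply]
    refine c2_up _ (Pi.single (0 : Fin (m + 2)) c) 0 i (Ne.symm hi) (-1) ?_ ?_ ?_
    · simp [b1, hi]
    · intro k hk
      simp [b1, hk, Pi.single_apply]
    exact c2_zero c hc

theorem c2_main {m : ℕ} (n : ℕ) : ∀ a : Fin (m + 2) → ℤ, a ≠ 0 → ∑ i, (a i).natAbs = n →
    c2_Pr a := by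
  induction n using Nat.strong_induction_on with
  | _ n ih =>
    intro a ha hn
    obtain ⟨i, hi⟩ := Function.ne_iff.1 ha
    rw [Pi.zero_apply] at hi
    by_cases hex : ∃ j, j ≠ i ∧ a j ≠ 0
    · obtain ⟨j, hji, hj⟩ := hex
      -- wlog the entry at `p` has the larger absolute value
      obtain ⟨p, r, hpr, hp, hr, hle⟩ : ∃ p r, r ≠ p ∧ a p ≠ 0 ∧ a r ≠ 0 ∧
          (a r).natAbs ≤ (a p).natAbs := by
        rcases le_total (a i).natAbs (a j).natAbs with h | h
        · exact ⟨j, i, Ne.symm hji, hj, hi, h⟩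
        · exact ⟨i, j, hji, hi, hj, h⟩
      obtain ⟨e, he, hlt⟩ : ∃ e : ℤ, (e = 1 ∨ e = -1) ∧
          (a p + a r * e).natAbs < (a p).natAbs := by
        rcases le_total 0 (a p * a r) with h | h
        · refine ⟨-1, Or.inr rfl, ?_⟩
          rcases lt_or_gt_of_ne hp with h1 | h1
          · have h2 : a r < 0 := by
              by_contra h3
              have h4 : 0 < a r := lt_of_le_of_ne (not_lt.1 h3) (Ne.symm hr)
              nlinarith
            omega
          · have h2 : 0 < a r := by
              by_contra h3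
              have h4 : a r < 0 := lt_of_le_of_ne (not_lt.1 h3) hr
              nlinarith
            omega
        · refine ⟨1, Or.inl rfl, ?_⟩
          rcases lt_or_gt_of_ne hp with h1 | h1
          · have h2 : 0 < a r := by
              by_contra h3
              have h4 : a r < 0 := lt_of_le_of_ne (not_lt.1 h3) hr
              nlinarith
            omega
          · have h2 : a r < 0 := by
              by_contra h3
              have h4 : 0 < a r := lt_of_le_of_ne (not_lt.1 h3) (Ne.symm hr)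
              nlinarith
            omega
      set b : Fin (m + 2) → ℤ := Function.update a p (a p + a r * e) with hb
      have hbr : b r = a r := by simp [hb, hpr]
      have hbp : b p = a p + a r * e := by simp [hb]
      have hbk : ∀ k, k ≠ p → b k = a k := by
        intro k hk
        simp [hb, hk]
      refine c2_up a b r p hpr e hbp hbk ?_
      refine ih (∑ k, (b k).natAbs) ?_ b ?_ rfl
      · rw [← hn, ← Finset.add_sum_erase _ _ (Finset.mem_univ p),
          ← Finset.add_sum_erase Finset.univ (fun k => (a k).natAbs) (Finset.mem_univ p)]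
        have h1 : ∑ k ∈ Finset.univ.erase p, (b k).natAbs =
            ∑ k ∈ Finset.univ.erase p, (a k).natAbs :=
          Finset.sum_congr rfl fun k hk => by rw [hbk k (Finset.ne_of_mem_erase hk)]
        rw [h1, hbp]
        exact Nat.add_lt_add_right hlt _
      · intro h0
        apply hr
        rw [← hbr, h0, Pi.zero_apply]
    · push Not at hex
      have h1 : a = Pi.single i (a i) := by
        funext k
        by_cases hk : k = i
        · subst hk
          simp
        · rw [Pi.single_eq_of_ne hk, hex k hk]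
      rw [h1]
      exact c2_single i (a i) hi

theorem prim {m : ℕ} (a : Fin (m + 2) → ℤ) (ha : a ≠ 0) :
    ∃ (γ : SLZ (m + 2)) (g : ℕ), 0 < g ∧ a = (g : ℤ) • γ.1 0 :=
  c2_main _ a ha rfl

end Pool.Agent.Arch
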