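import Pool.Agent.Arch.C1
import Pool.Agent.Arch.C2

/-!
# C3: after a change of basis in SL_n(Z) the first row is short and has a positive entry

Proof. C1 gives `a ≠ 0` with all entries of `a ᵥ* X` in `[-2,2]`; `a ᵥ* X ≠ 0` because `X` is
invertible; replacing `a` by `-a` we may assume that some entry is positive. C2 gives
`a = g • γ 0`, so row `0` of `γ X` is `g⁻¹ • (a ᵥ* X)`.
-/

namespace Pool.Agent.Arch

open MeasureTheory Matrix

private theorem c3_short {m : ℕ} (X : Matrix (Fin (m + 2)) (Fin (m + 2)) ℝ) (h0 : 0 < X.det)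
    (h1 : X.det ≤ 1) :
    ∃ a : Fin (m + 2) → ℤ, a ≠ 0 ∧ (∀ j, |∑ i, (a i : ℝ) * X i j| ≤ 2) ∧
      ∃ j, 0 < ∑ i, (a i : ℝ) * X i j := by
  obtain ⟨a, ha, h2⟩ := mink (by omega) X h0 h1
  have hex : ∃ j, ∑ i, (a i : ℝ) * X i j ≠ 0 := by
    by_contra hcon
    push Not at hcon
    have h3 : (fun i => (a i : ℝ)) ᵥ* X = 0 := by
      funext j
      exact hcon j
    have h4 := Matrix.eq_zero_of_vecMul_eq_zero h0.ne' h3
    apply ha
    funext i
    have h5 := congrFun h4 i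
    simpa using h5
  obtain ⟨j, hj⟩ := hex
  rcases lt_or_gt_of_ne hj with hj | hj
  · refine ⟨-a, neg_ne_zero.2 ha, fun j => ?_, j, ?_⟩
    · have h3 : ∑ i, (((-a) i : ℤ) : ℝ) * X i j = - ∑ i, (a i : ℝ) * X i j := by
        rw [← Finset.sum_neg_distrib]
        refine Finset.sum_congr rfl fun i _ => ?_
        simp
      rw [h3, abs_neg]
      exact h2 j
    · have h3 : ∑ i, (((-a) i : ℤ) : ℝ) * X i j = - ∑ i, (a i : ℝ) * X i j := by
        rw [← Finset.sum_neg_distrib]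
        refine Finset.sum_congr rfl fun i _ => ?_
        simp
      rw [h3]
      exact neg_pos.2 hj
  · exact ⟨a, ha, h2, j, hj⟩

theorem goodrow {m : ℕ} (X : Matrix (Fin (m + 2)) (Fin (m + 2)) ℝ) (h0 : 0 < X.det)
    (h1 : X.det ≤ 1) :
    ∃ γ : SLZ (m + 2), (∀ j, |((toR γ).1 * X) 0 j| ≤ 2) ∧ ∃ j, 0 < ((toR γ).1 * X) 0 j := by
  obtain ⟨a, ha, h2, j, hj⟩ := c3_short X h0 h1
  obtain ⟨γ, g, hg, hag⟩ := prim a ha
  have hg' : (1 : ℝ) ≤ g := by exact_mod_cast hg
  have key : ∀ j, ∑ i, (a i : ℝ) * X i j = g * ((toR γ).1 * X) 0 j := by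
    intro j
    rw [Matrix.mul_apply, Finset.mul_sum]
    refine Finset.sum_congr rfl fun i _ => ?_
    have h3 : a i = (g : ℤ) * γ.1 0 i := by
      have := congrFun hag i
      simpa using this
    have h4 : (toR γ).1 0 i = ((γ.1 0 i : ℤ) : ℝ) := rfl
    rw [h3, h4]
    push_cast
    ring
  refine ⟨γ, fun j => ?_, j, ?_⟩
  · have h3 := h2 j
    rw [key, abs_mul, abs_of_nonneg (by linarith : (0 : ℝ) ≤ g)] at h3
    nlinarith [abs_nonneg (((toR γ).1 * X) 0 j)]
  · have h3 := hj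
    rw [key] at h3
    exact (mul_pos_iff_of_pos_left (by linarith)).1 h3

end Pool.Agent.Arch
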