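import Pool.Agent.Arch.A2

/-!
# C4: the recursive covering set has finite volume

`lift S` is the set of frames `X` of size `n+2` (`n+1 ≥ 1`) whose first row `b` lies in the cube
`[-2,2]^{n+2}` with `b_0 > 0`, such that with `s_i = X_{i+1,0}/b_0` (`i < n+1`) all `s_i` are in
`[0,1)` and the frame `Y_{ij} = b_0^{1/(n+1)} (X_{i+1,j+1} - s_i b_{j+1})` of size `n+1` is in `S`.

Claim: if `S` is measurable of finite volume, so is `lift S`.

Proof. `volume_preserving_piFinSuccAbove` (index `0`) splits `X` as (first row `b`, other rows `R`);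
by Fubini `vol (lift S) = ∫_b vol {R | ...} db`. For fixed `b` in the cube with `b_0 > 0` let
`H_b` be the upper triangular matrix of size `n+2` with first row `b` and with diagonal entries
`b_0, θ, ..., θ`, `θ = b_0^{-1/(n+1)}`; its determinant is `b_0 θ^{n+1} = 1`. The rows
`R_i = (s_i, Y_i) ᵥ* H_b`, that is `R_{i,0} = s_i b_0`, `R_{i,j+1} = s_i b_{j+1} + θ Y_{ij}`. By
`mp_mul_right` (A2) the set of `R` has the volume of the set of `(s, Y)` with
`s ∈ [0,1)^{n+1}`, `Y ∈ S`, i.e. the volume of `S` (split off the first column: swap or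
`volume_preserving_piFinSuccAbove` in each row). Hence `vol (lift S) ≤ 4^{n+2} vol S`.
-/

namespace Pool.Agent.Arch

open MeasureTheory Matrix

/-- The recursive covering set. -/
def liftS {n : ℕ} (S : Set (Fr (n + 1))) : Set (Fr (n + 2)) :=
  {X | (∀ j, |X 0 j| ≤ 2) ∧ 0 < X 0 0 ∧
    (∀ i : Fin (n + 1), 0 ≤ X i.succ 0 / X 0 0 ∧ X i.succ 0 / X 0 0 < 1) ∧
    (fun (i j : Fin (n + 1)) => (X 0 0) ^ ((1 : ℝ) / ((n : ℝ) + 1)) *
      (X i.succ j.succ - X i.succ 0 / X 0 0 * X 0 j.succ)) ∈ S}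

private theorem c4_meas {p q : ℕ} (i : Fin p) (j : Fin q) :
    Measurable fun X : Fin p → Fin q → ℝ => X i j :=
  (measurable_pi_apply j).comp (measurable_pi_apply i)

theorem measurableSet_liftS {n : ℕ} (S : Set (Fr (n + 1))) (hS : MeasurableSet S) :
    MeasurableSet (liftS S) := by
  have h1 : MeasurableSet {X : Fr (n + 2) | ∀ j, |X 0 j| ≤ 2} := by
    have : {X : Fr (n + 2) | ∀ j, |X 0 j| ≤ 2} = ⋂ j, {X : Fr (n + 2) | |X 0 j| ≤ 2} := by
      ext X
      simp
    rw [this]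
    exact MeasurableSet.iInter fun j =>
      measurableSet_le (continuous_abs.measurable.comp (c4_meas 0 j)) measurable_const
  have h2 : MeasurableSet {X : Fr (n + 2) | 0 < X 0 0} :=
    measurableSet_lt measurable_const (c4_meas 0 0)
  have h3 : MeasurableSet {X : Fr (n + 2) | ∀ i : Fin (n + 1),
      0 ≤ X i.succ 0 / X 0 0 ∧ X i.succ 0 / X 0 0 < 1} := by
    have : {X : Fr (n + 2) | ∀ i : Fin (n + 1),
      0 ≤ X i.succ 0 / X 0 0 ∧ X i.succ 0 / X 0 0 < 1} = ⋂ i : Fin (n + 1),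
      ({X : Fr (n + 2) | 0 ≤ X i.succ 0 / X 0 0} ∩ {X : Fr (n + 2) | X i.succ 0 / X 0 0 < 1}) := by
      ext X
      simp
    rw [this]
    exact MeasurableSet.iInter fun i =>
      (measurableSet_le measurable_const ((c4_meas i.succ 0).div (c4_meas 0 0))).inter
        (measurableSet_lt ((c4_meas i.succ 0).div (c4_meas 0 0)) measurable_const)
  have h4 : Measurable fun (X : Fr (n + 2)) (i j : Fin (n + 1)) =>
      (X 0 0) ^ ((1 : ℝ) / ((n : ℝ) + 1)) *
        (X i.succ j.succ - X i.succ 0 / X 0 0 * X 0 j.succ) := by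
    refine measurable_pi_lambda _ fun i => measurable_pi_lambda _ fun j => ?_
    exact ((c4_meas 0 0).pow_const _).mul ((c4_meas i.succ j.succ).sub
      (((c4_meas i.succ 0).div (c4_meas 0 0)).mul (c4_meas 0 j.succ)))
  exact h1.inter (h2.inter (h3.inter (h4 hS)))

/-- The matrix with rows `b, θ e_1, …, θ e_{n+1}`. -/
private noncomputable def c4_H {n : ℕ} (b : Fin (n + 2) → ℝ) (θ : ℝ) :
    Matrix (Fin (n + 2)) (Fin (n + 2)) ℝ :=
  Matrix.of (Fin.cons b fun i : Fin (n + 1) => Pi.single i.succ θ)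

private theorem c4_det {n : ℕ} (b : Fin (n + 2) → ℝ) (θ : ℝ) :
    (c4_H b θ).det = b 0 * θ ^ (n + 1) := by
  have h : (c4_H b θ).BlockTriangular id := by
    intro i j hij
    have hij' : j < i := hij
    revert hij'
    refine Fin.cases ?_ (fun i => ?_) i
    · intro hij'
      exact absurd hij' (Fin.not_lt_zero j)
    · intro hij'
      show (Pi.single i.succ θ : Fin (n + 2) → ℝ) j = 0
      exact Pi.single_eq_of_ne hij'.ne _
  rw [Matrix.det_of_isUpperTriangular h, Fin.prod_univ_succ]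
  congr 1
  have h2 : ∀ i : Fin (n + 1), c4_H b θ i.succ i.succ = θ := fun i =>
    Pi.single_eq_same (M := fun _ => ℝ) i.succ θ
  rw [Finset.prod_congr rfl fun i _ => h2 i, Finset.prod_const, Finset.card_univ,
    Fintype.card_fin]

private theorem c4_vecMul_zero {n : ℕ} (b : Fin (n + 2) → ℝ) (θ : ℝ) (z : Fin (n + 2) → ℝ) :
    (z ᵥ* c4_H b θ) 0 = z 0 * b 0 := by
  show ∑ i, z i * c4_H b θ i 0 = _
  rw [Fin.sum_univ_succ]
  have h2 : ∀ i : Fin (n + 1), z i.succ * c4_H b θ i.succ 0 = 0 := fun i => by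
    show z i.succ * (Pi.single i.succ θ : Fin (n + 2) → ℝ) 0 = 0
    rw [Pi.single_eq_of_ne (Fin.succ_ne_zero i).symm, mul_zero]
  rw [Finset.sum_congr rfl fun i _ => h2 i, Finset.sum_const_zero, add_zero]
  rfl

private theorem c4_vecMul_succ {n : ℕ} (b : Fin (n + 2) → ℝ) (θ : ℝ) (z : Fin (n + 2) → ℝ)
    (j : Fin (n + 1)) : (z ᵥ* c4_H b θ) j.succ = z 0 * b j.succ + θ * z j.succ := by
  show ∑ i, z i * c4_H b θ i j.succ = _
  rw [Fin.sum_univ_succ]
  have h2 : ∀ i : Fin (n + 1), z i.succ * c4_H b θ i.succ j.succ =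
      if i = j then θ * z j.succ else 0 := fun i => by
    show z i.succ * (Pi.single i.succ θ : Fin (n + 2) → ℝ) j.succ = _
    by_cases hij : i = j
    · rw [if_pos hij, hij, Pi.single_eq_same, mul_comm]
    · rw [if_neg hij, Pi.single_eq_of_ne (fun h => hij (Fin.succ_injective _ h).symm), mul_zero]
  rw [Finset.sum_congr rfl fun i _ => h2 i, Finset.sum_ite_eq', if_pos (Finset.mem_univ _)]
  rfl

/-- splitting off the first column -/
private theorem c4_split {n : ℕ} (S : Set (Fr (n + 1))) (hS : MeasurableSet S) :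
    volume {Z : Fin (n + 1) → Fin (n + 2) → ℝ | (∀ i, 0 ≤ Z i 0 ∧ Z i 0 < 1) ∧
      (fun (i j : Fin (n + 1)) => Z i j.succ) ∈ S} = volume S := by
  have h1 := volume_preserving_piFinSuccAbove (fun _ : Fin (n + 2) => ℝ) 0
  have h2 := measurePreserving_pi (fun _ : Fin (n + 1) => (volume : Measure (Fin (n + 2) → ℝ)))
    (fun _ : Fin (n + 1) => (volume : Measure (ℝ × (Fin (n + 1) → ℝ)))) (fun _ => h1)
  have h3 := volume_measurePreserving_arrowProdEquivProdArrow ℝ (Fin (n + 1) → ℝ) (Fin (n + 1))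
  have h4 := h3.comp h2
  have h5 : MeasurableSet ((Set.univ.pi fun _ : Fin (n + 1) => Set.Ico (0 : ℝ) 1) ×ˢ S) :=
    (MeasurableSet.univ_pi fun _ => measurableSet_Ico).prod hS
  have h6 := h4.measure_preimage h5.nullMeasurableSet
  have h7 : volume ((Set.univ.pi fun _ : Fin (n + 1) => Set.Ico (0 : ℝ) 1) ×ˢ S) = volume S := by
    rw [Measure.volume_eq_prod, Measure.prod_prod, volume_pi_pi]
    simp
  rw [h7] at h6
  rw [← h6]
  congr 1
  ext Z
  simp only [Set.mem_preimage, Set.mem_prod, Set.mem_univ_pi, Set.mem_Ico]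
  rfl

/-- the fibre over a fixed first row -/
private theorem c4_fibre {n : ℕ} (S : Set (Fr (n + 1))) (hS : MeasurableSet S)
    (b : Fin (n + 2) → ℝ) (hb : 0 < b 0) :
    volume {R : Fin (n + 1) → Fin (n + 2) → ℝ |
      (∀ i : Fin (n + 1), 0 ≤ R i 0 / b 0 ∧ R i 0 / b 0 < 1) ∧
      (fun (i j : Fin (n + 1)) => (b 0) ^ ((1 : ℝ) / ((n : ℝ) + 1)) *
        (R i j.succ - R i 0 / b 0 * b j.succ)) ∈ S} = volume S := by
  set A : Set (Fin (n + 1) → Fin (n + 2) → ℝ) := {R |
      (∀ i : Fin (n + 1), 0 ≤ R i 0 / b 0 ∧ R i 0 / b 0 < 1) ∧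
      (fun (i j : Fin (n + 1)) => (b 0) ^ ((1 : ℝ) / ((n : ℝ) + 1)) *
        (R i j.succ - R i 0 / b 0 * b j.succ)) ∈ S} with hA
  set w : ℝ := (b 0) ^ ((1 : ℝ) / ((n : ℝ) + 1)) with hw
  have hw0 : 0 < w := Real.rpow_pos_of_pos hb _
  have hwn : w ^ (n + 1) = b 0 := by
    rw [hw, ← Real.rpow_natCast, ← Real.rpow_mul hb.le]
    push_cast
    rw [one_div_mul_cancel (by positivity), Real.rpow_one]
  have hdet : |(c4_H b w⁻¹).det| = 1 := by
    rw [c4_det, inv_pow, hwn, mul_inv_cancel₀ hb.ne', abs_one]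
  have hmp := mp_mul_right (p := n + 1) (c4_H b w⁻¹) hdet
  have hAm : MeasurableSet A := by
    have h1 : MeasurableSet {R : Fin (n + 1) → Fin (n + 2) → ℝ |
        ∀ i : Fin (n + 1), 0 ≤ R i 0 / b 0 ∧ R i 0 / b 0 < 1} := by
      have : {R : Fin (n + 1) → Fin (n + 2) → ℝ |
        ∀ i : Fin (n + 1), 0 ≤ R i 0 / b 0 ∧ R i 0 / b 0 < 1} = ⋂ i : Fin (n + 1),
        ({R : Fin (n + 1) → Fin (n + 2) → ℝ | 0 ≤ R i 0 / b 0} ∩
          {R : Fin (n + 1) → Fin (n + 2) → ℝ | R i 0 / b 0 < 1}) := by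
        ext R
        simp
      rw [this]
      exact MeasurableSet.iInter fun i =>
        (measurableSet_le measurable_const ((c4_meas i 0).div_const _)).inter
          (measurableSet_lt ((c4_meas i 0).div_const _) measurable_const)
    have h2 : Measurable fun (R : Fin (n + 1) → Fin (n + 2) → ℝ) (i j : Fin (n + 1)) =>
        w * (R i j.succ - R i 0 / b 0 * b j.succ) := by
      refine measurable_pi_lambda _ fun i => measurable_pi_lambda _ fun j => ?_
      exact ((c4_meas i j.succ).sub (((c4_meas i 0).div_const _).mul_const _)).const_mul _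
    exact h1.inter (h2 hS)
  rw [← hmp.measure_preimage hAm.nullMeasurableSet, ← c4_split S hS]
  congr 1
  ext Z
  simp only [Set.mem_preimage, hA, Set.mem_ofPred_eq, c4_vecMul_zero, c4_vecMul_succ,
    mul_div_cancel_right₀ _ hb.ne']
  have h3 : ∀ i j : Fin (n + 1), w * (Z i 0 * b j.succ + w⁻¹ * Z i j.succ -
      Z i 0 * b j.succ) = Z i j.succ := fun i j => by
    rw [add_sub_cancel_left, ← mul_assoc, mul_inv_cancel₀ hw0.ne', one_mul]
  simp only [h3]

theorem volume_liftS {n : ℕ} (S : Set (Fr (n + 1))) (hS : MeasurableSet S)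
    (hf : volume S ≠ ⊤) : volume (liftS S) ≠ ⊤ := by
  have h1 := (volume_preserving_piFinSuccAbove (fun _ : Fin (n + 2) => Fin (n + 2) → ℝ) 0).symm
  have hm := measurableSet_liftS S hS
  rw [← h1.measure_preimage hm.nullMeasurableSet, Measure.volume_eq_prod,
    Measure.prod_apply (h1.measurable hm)]
  have h2 : ∀ b : Fin (n + 2) → ℝ, volume (Prod.mk b ⁻¹'
      ((MeasurableEquiv.piFinSuccAbove (fun _ : Fin (n + 2) => Fin (n + 2) → ℝ) 0).symm ⁻¹'
        liftS S)) ≤ (Set.Icc (fun _ => -2) (fun _ => 2)).indicator (fun _ => volume S) b := by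
    intro b
    by_cases hb : (∀ j, |b j| ≤ 2) ∧ 0 < b 0
    · have hb1 : b ∈ Set.Icc (fun _ => (-2 : ℝ)) (fun _ => 2) :=
        ⟨fun j => (abs_le.1 (hb.1 j)).1, fun j => (abs_le.1 (hb.1 j)).2⟩
      rw [Set.indicator_of_mem hb1, ← c4_fibre S hS b hb.2]
      refine measure_mono fun R hR => ?_
      exact hR.2.2
    · have h3 : Prod.mk b ⁻¹'
          ((MeasurableEquiv.piFinSuccAbove (fun _ : Fin (n + 2) => Fin (n + 2) → ℝ) 0).symm ⁻¹'
            liftS S) = ∅ := by
        refine Set.eq_empty_of_forall_notMem fun R hR => hb ?_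
        exact ⟨hR.1, hR.2.1⟩
      rw [h3, measure_empty]
      exact zero_le
  refine ne_top_of_le_ne_top ?_ (lintegral_mono h2)
  rw [lintegral_indicator measurableSet_Icc, setLIntegral_const]
  refine ENNReal.mul_ne_top hf ?_
  exact (isCompact_Icc.measure_lt_top).ne

end Pool.Agent.Arch
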