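import Pool.Agent.Arch.C4

/-!
# C5: the recursive covering set covers

Suppose every frame `Y` of size `n+1` with `0 < det Y ≤ 1` is moved into `S` by left
multiplication by some element of `SL_{n+1}(Z)`. Let `X` be a frame of size `n+2` with
`0 < det X ≤ 1`, first row in `[-2,2]^{n+2}` and `X_{00} > 0`. Then some `γ` in `SL_{n+2}(Z)`
moves `X` into `liftS S`.

Proof. With `s_i = X_{i+1,0}/b_0`, `Y'_{ij} = X_{i+1,j+1} - s_i b_{j+1}` one has
`det X = b_0 det Y'` (subtract `s_i` times the first row from row `i+1`, then expand along the first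
column; `Matrix.det_succ_column_zero` or block triangular determinants), so
`Y = b_0^{1/(n+1)} Y'` has `det Y = det X`. Choose `A` in `SL_{n+1}(Z)` with `A Y ∈ S` and the
integral vector `v` with `v + A s ∈ [0,1)^{n+1}` (`v_i = - ⌊(A s)_i⌋`). Let `γ` be the block matrix
`[[1, 0], [v, A]]`. The first row of `γ X` is `b`, the new `s` is `v + A s`, and the new `Y` is `A Y`.
-/

namespace Pool.Agent.Arch

open MeasureTheory Matrix

/-- the block matrix `[[c, t], [l, A]]` -/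
private def c5_blk {R : Type} {n : ℕ} (c : R) (t l : Fin (n + 1) → R)
    (A : Matrix (Fin (n + 1)) (Fin (n + 1)) R) : Matrix (Fin (n + 2)) (Fin (n + 2)) R :=
  Matrix.of (Fin.cons (Fin.cons c t) fun i => Fin.cons (l i) (A i))

private theorem c5_det_row {R : Type} [CommRing R] {n : ℕ} (c : R) (l : Fin (n + 1) → R)
    (A : Matrix (Fin (n + 1)) (Fin (n + 1)) R) : (c5_blk c 0 l A).det = c * A.det := by
  rw [Matrix.det_succ_row_zero, Fin.sum_univ_succ]
  have h1 : ∀ j : Fin (n + 1), c5_blk c 0 l A 0 j.succ = 0 := fun _ => rfl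
  have h2 : c5_blk c 0 l A 0 0 = c := rfl
  have h3 : (c5_blk c 0 l A).submatrix Fin.succ (Fin.succAbove 0) = A := by
    ext i j
    rfl
  simp only [h1, h2, h3, mul_zero, zero_mul, Finset.sum_const_zero, add_zero, Fin.val_zero,
    pow_zero, one_mul]

private theorem c5_det_col {R : Type} [CommRing R] {n : ℕ} (c : R) (t : Fin (n + 1) → R)
    (A : Matrix (Fin (n + 1)) (Fin (n + 1)) R) : (c5_blk c t 0 A).det = c * A.det := by
  rw [Matrix.det_succ_column_zero, Fin.sum_univ_succ]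
  have h1 : ∀ i : Fin (n + 1), c5_blk c t 0 A i.succ 0 = 0 := fun _ => rfl
  have h2 : c5_blk c t 0 A 0 0 = c := rfl
  have h3 : (c5_blk c t 0 A).submatrix (Fin.succAbove 0) Fin.succ = A := by
    ext i j
    rfl
  simp only [h1, h2, h3, mul_zero, zero_mul, Finset.sum_const_zero, add_zero, Fin.val_zero,
    pow_zero, one_mul]

private theorem c5_blk_mul_zero {R : Type} [CommRing R] {n : ℕ} (l : Fin (n + 1) → R)
    (A : Matrix (Fin (n + 1)) (Fin (n + 1)) R) (X : Matrix (Fin (n + 2)) (Fin (n + 2)) R)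
    (j : Fin (n + 2)) : (c5_blk 1 0 l A * X) 0 j = X 0 j := by
  rw [Matrix.mul_apply, Fin.sum_univ_succ]
  have h1 : ∀ k : Fin (n + 1), c5_blk 1 0 l A 0 k.succ = 0 := fun _ => rfl
  have h2 : c5_blk 1 0 l A 0 0 = 1 := rfl
  simp only [h1, h2, zero_mul, Finset.sum_const_zero, add_zero, one_mul]

private theorem c5_blk_mul_succ {R : Type} [CommRing R] {n : ℕ} (l : Fin (n + 1) → R)
    (A : Matrix (Fin (n + 1)) (Fin (n + 1)) R) (X : Matrix (Fin (n + 2)) (Fin (n + 2)) R)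
    (i : Fin (n + 1)) (j : Fin (n + 2)) :
    (c5_blk 1 0 l A * X) i.succ j = l i * X 0 j + ∑ k, A i k * X k.succ j := by
  rw [Matrix.mul_apply, Fin.sum_univ_succ]
  rfl

private theorem c5_det {n : ℕ} (X : Fr (n + 2)) (hb0 : 0 < X 0 0) :
    dt X = X 0 0 * (Matrix.of fun (i j : Fin (n + 1)) =>
      X i.succ j.succ - X i.succ 0 / X 0 0 * X 0 j.succ).det := by
  have h1 : Matrix.of X = c5_blk 1 0 (fun i => X i.succ 0 / X 0 0) 1 *
      c5_blk (X 0 0) (fun j => X 0 j.succ) 0 (Matrix.of fun (i j : Fin (n + 1)) =>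
        X i.succ j.succ - X i.succ 0 / X 0 0 * X 0 j.succ) := by
    ext i j
    refine Fin.cases ?_ (fun i => ?_) i
    · rw [c5_blk_mul_zero]
      refine Fin.cases rfl (fun j => rfl) j
    · rw [c5_blk_mul_succ]
      have h2 : ∀ Z : Matrix (Fin (n + 2)) (Fin (n + 2)) ℝ,
          ∑ k, (1 : Matrix (Fin (n + 1)) (Fin (n + 1)) ℝ) i k * Z k.succ j = Z i.succ j := by
        intro Z
        simp [Matrix.one_apply]
      rw [h2]
      refine Fin.cases ?_ (fun j => ?_) j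
      · show X i.succ 0 = X i.succ 0 / X 0 0 * X 0 0 + 0
        rw [add_zero, div_mul_cancel₀ _ hb0.ne']
      · show X i.succ j.succ = X i.succ 0 / X 0 0 * X 0 j.succ +
          (X i.succ j.succ - X i.succ 0 / X 0 0 * X 0 j.succ)
        ring
  rw [dt, h1, Matrix.det_mul, c5_det_row, c5_det_col, Matrix.det_one, one_mul, one_mul]

theorem cover_liftS {n : ℕ} (S : Set (Fr (n + 1)))
    (hS : ∀ Y : Fr (n + 1), 0 < dt Y → dt Y ≤ 1 →
      ∃ γ : SLZ (n + 1), (((toR γ).1 * Matrix.of Y : Matrix _ _ ℝ) : Fr (n + 1)) ∈ S)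
    (X : Fr (n + 2)) (h0 : 0 < dt X) (h1 : dt X ≤ 1) (hb : ∀ j, |X 0 j| ≤ 2)
    (hb0 : 0 < X 0 0) :
    ∃ γ : SLZ (n + 2), (((toR γ).1 * Matrix.of X : Matrix _ _ ℝ) : Fr (n + 2)) ∈ liftS S := by
  set w : ℝ := (X 0 0) ^ ((1 : ℝ) / ((n : ℝ) + 1)) with hw
  have hwn : w ^ (n + 1) = X 0 0 := by
    rw [hw, ← Real.rpow_natCast, ← Real.rpow_mul hb0.le]
    push_cast
    rw [one_div_mul_cancel (by positivity), Real.rpow_one]
  set Y : Fr (n + 1) := fun i j => w * (X i.succ j.succ - X i.succ 0 / X 0 0 * X 0 j.succ)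
    with hY
  have hdY : dt Y = dt X := by
    have e : Matrix.of Y = w • (Matrix.of fun (i j : Fin (n + 1)) =>
        X i.succ j.succ - X i.succ 0 / X 0 0 * X 0 j.succ) := by
      ext i j
      rfl
    rw [dt, e, Matrix.det_smul, Fintype.card_fin, hwn, ← c5_det X hb0]
  obtain ⟨A, hA⟩ := hS Y (hdY ▸ h0) (hdY ▸ h1)
  set s : Fin (n + 1) → ℝ := fun i => X i.succ 0 / X 0 0 with hs
  set v : Fin (n + 1) → ℤ := fun i => -⌊∑ k, ((A.1 i k : ℤ) : ℝ) * s k⌋ with hv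
  refine ⟨⟨c5_blk 1 0 v A.1, by rw [c5_det_row, A.2, one_mul]⟩, ?_⟩
  have hγ : (toR (⟨c5_blk 1 0 v A.1, by rw [c5_det_row, A.2, one_mul]⟩ : SLZ (n + 2))).1 =
      c5_blk 1 0 (fun i => ((v i : ℤ) : ℝ)) (A.1.map (Int.cast : ℤ → ℝ)) := by
    ext i j
    refine Fin.cases (Fin.cases ?_ (fun j => ?_) j) (fun i => Fin.cases ?_ (fun j => ?_) j) i
    · exact Int.cast_one
    · exact Int.cast_zero
    · rfl
    · rfl
  rw [hγ]
  have r0 := c5_blk_mul_zero (fun i => ((v i : ℤ) : ℝ)) (A.1.map (Int.cast : ℤ → ℝ)) (Matrix.of X)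
  have r1 := c5_blk_mul_succ (fun i => ((v i : ℤ) : ℝ)) (A.1.map (Int.cast : ℤ → ℝ)) (Matrix.of X)
  have hs1 : ∀ i, (c5_blk 1 0 (fun i => ((v i : ℤ) : ℝ)) (A.1.map (Int.cast : ℤ → ℝ)) *
      Matrix.of X) i.succ 0 / (c5_blk 1 0 (fun i => ((v i : ℤ) : ℝ))
        (A.1.map (Int.cast : ℤ → ℝ)) * Matrix.of X) 0 0 =
      Int.fract (∑ k, ((A.1 i k : ℤ) : ℝ) * s k) := by
    intro i
    rw [r0, r1]
    show (((v i : ℤ) : ℝ) * X 0 0 + ∑ k, ((A.1 i k : ℤ) : ℝ) * X k.succ 0) / X 0 0 = _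
    have e : ∑ k, ((A.1 i k : ℤ) : ℝ) * X k.succ 0 =
        (∑ k, ((A.1 i k : ℤ) : ℝ) * s k) * X 0 0 := by
      rw [Finset.sum_mul]
      refine Finset.sum_congr rfl fun k _ => ?_
      rw [hs, mul_assoc, div_mul_cancel₀ _ hb0.ne']
    rw [e, ← add_mul, mul_div_cancel_right₀ _ hb0.ne']
    show ((-⌊∑ k, ((A.1 i k : ℤ) : ℝ) * s k⌋ : ℤ) : ℝ) + ∑ k, ((A.1 i k : ℤ) : ℝ) * s k = _
    rw [Int.cast_neg, Int.fract]
    ring
  refine ⟨fun j => ?_, ?_, fun i => ?_, ?_⟩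
  · rw [r0]
    exact hb j
  · rw [r0]
    exact hb0
  · rw [hs1]
    exact ⟨Int.fract_nonneg _, Int.fract_lt_one _⟩
  · refine Eq.mpr (congrArg (fun Z : Fr (n + 1) => Z ∈ S)
      (funext fun i => funext fun j => ?_)) hA
    rw [hs1, r0, r0, r1]
    show w * ((((v i : ℤ) : ℝ) * X 0 j.succ + ∑ k, ((A.1 i k : ℤ) : ℝ) * X k.succ j.succ) -
      Int.fract (∑ k, ((A.1 i k : ℤ) : ℝ) * s k) * X 0 j.succ) =
      ((toR A).1 * Matrix.of Y) i j
    have e1 : ((toR A).1 * Matrix.of Y) i j = ∑ k, ((A.1 i k : ℤ) : ℝ) * Y k j := rfl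
    have e2 : ∑ k, ((A.1 i k : ℤ) : ℝ) * Y k j =
        w * (∑ k, ((A.1 i k : ℤ) : ℝ) * X k.succ j.succ -
          (∑ k, ((A.1 i k : ℤ) : ℝ) * s k) * X 0 j.succ) := by
      rw [Finset.sum_mul, ← Finset.sum_sub_distrib, Finset.mul_sum]
      refine Finset.sum_congr rfl fun k _ => ?_
      show ((A.1 i k : ℤ) : ℝ) * (w * (X k.succ j.succ - X k.succ 0 / X 0 0 * X 0 j.succ)) =
        w * (((A.1 i k : ℤ) : ℝ) * X k.succ j.succ -
          ((A.1 i k : ℤ) : ℝ) * (X k.succ 0 / X 0 0) * X 0 j.succ)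
      ring
    rw [e1, e2]
    have e3 : ((v i : ℤ) : ℝ) = -((⌊∑ k, ((A.1 i k : ℤ) : ℝ) * s k⌋ : ℤ) : ℝ) := by
      rw [hv]
      push_cast
      rfl
    rw [e3, Int.fract]
    ring

end Pool.Agent.Arch
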