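import Pool.Agent.Arch.C3
import Pool.Agent.Arch.C5

/-!
# C6: a covering set of finite volume

Proof by induction on `m`. `m = 1`: `S = {X | 0 < dt X ≤ 1}` has volume one (a frame is one real
number), `γ = 1`. Step `m + 1 → m + 2`: let `S` be the set for `m + 1`. For a column index `j` let
`P_j` be a real matrix of determinant one such that right multiplication by `P_j` moves column
`j` to column `0` (swap of the columns `0` and `j` and a sign; `P_0 = 1`). The new set is the union
over `j` of `{X | X P_j ∈ liftS S}`, of finite volume by C4 and `mp_mul_right`. Covering: given `X`,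
C3 gives `γ` and `j` with the first row of `γ X` in the cube and its entry `j` positive; then
`γ X P_j` satisfies the hypotheses of C5 (`det` unchanged), so `γ' γ X P_j ∈ liftS S`.
-/

namespace Pool.Agent.Arch

open MeasureTheory Matrix

private def c6_sgn {n : ℕ} (j : Fin (n + 1)) (b : Fin (n + 1)) : ℝ :=
  if b = j ∧ j ≠ 0 then -1 else 1

/-- the signed permutation matrix which moves column `j` to column `0` -/
private noncomputable def c6_P {n : ℕ} (j : Fin (n + 1)) : Matrix (Fin (n + 1)) (Fin (n + 1)) ℝ :=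
  (Matrix.diagonal (c6_sgn j)).submatrix (Equiv.swap 0 j) id

private lemma c6_abs {n : ℕ} (j b : Fin (n + 1)) : |c6_sgn j b| = 1 := by
  unfold c6_sgn
  split_ifs <;> simp

private lemma c6_det {n : ℕ} (j : Fin (n + 1)) : (c6_P j).det = 1 := by
  rw [c6_P, Matrix.det_permute, Matrix.det_diagonal]
  by_cases hj : j = 0
  · subst hj
    simp [c6_sgn]
  · have h : ∏ i, c6_sgn j i = -1 := by
      rw [Finset.prod_eq_single j]
      · simp [c6_sgn, hj]
      · intro b _ hb
        simp [c6_sgn, hb]
      · intro h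
        exact absurd (Finset.mem_univ j) h
    rw [h, Equiv.Perm.sign_swap (Ne.symm hj)]
    simp

private lemma c6_vecMul {n : ℕ} (j : Fin (n + 1)) (x : Fin (n + 1) → ℝ) (b : Fin (n + 1)) :
    (x ᵥ* c6_P j) b = x (Equiv.swap 0 j b) * c6_sgn j b := by
  rw [Matrix.vecMul, dotProduct, Finset.sum_eq_single (Equiv.swap 0 j b)]
  · rw [c6_P, Matrix.submatrix_apply, Equiv.swap_apply_self, id, Matrix.diagonal_apply_eq]
  · intro a _ ha
    rw [c6_P, Matrix.submatrix_apply, id, Matrix.diagonal_apply_ne, mul_zero]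
    intro h
    apply ha
    rw [← h, Equiv.swap_apply_self]
  · intro h
    exact absurd (Finset.mem_univ _) h

theorem fv (m : ℕ) (hm : 1 ≤ m) : ∃ S : Set (Fr m), MeasurableSet S ∧ volume S ≠ ⊤ ∧
    ∀ X : Fr m, 0 < dt X → dt X ≤ 1 →
      ∃ γ : SLZ m, (((toR γ).1 * Matrix.of X : Matrix _ _ ℝ) : Fr m) ∈ S := by
  induction m, hm using Nat.le_induction with
  | base =>
    refine ⟨M1 1, measurableSet_M1 1, ?_, fun X h0 h1 => ⟨1, ?_⟩⟩
    · have hsub : M1 1 ⊆ Set.Icc (0 : Fr 1) 1 := by
        intro X hX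
        have h : dt X = X 0 0 := by
          rw [dt, Matrix.det_fin_one, Matrix.of_apply]
        rw [M1, Set.mem_ofPred_eq, h] at hX
        refine ⟨fun i j => ?_, fun i j => ?_⟩
        · rw [Subsingleton.elim i 0, Subsingleton.elim j 0]
          exact hX.1.le
        · rw [Subsingleton.elim i 0, Subsingleton.elim j 0]
          exact hX.2
      exact ((measure_mono hsub).trans_lt isCompact_Icc.measure_lt_top).ne
    · have h : (((toR (1 : SLZ 1)).1 * Matrix.of X : Matrix _ _ ℝ) : Fr 1) = X := by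
        rw [toR, map_one, Matrix.SpecialLinearGroup.coe_one, Matrix.one_mul]
        rfl
      rw [h]
      exact ⟨h0, h1⟩
  | succ m hm ih =>
    obtain ⟨n, rfl⟩ : ∃ n, m = n + 1 := ⟨m - 1, by omega⟩
    obtain ⟨S, hS, hf, hc⟩ := ih
    have hmp : ∀ j : Fin (n + 2), MeasurePreserving
        (fun (X : Fin (n + 2) → Fin (n + 2) → ℝ) (k : Fin (n + 2)) => X k ᵥ* c6_P j)
        volume volume := fun j => mp_mul_right _ (by rw [c6_det, abs_one])
    refine ⟨⋃ j : Fin (n + 2), (fun (X : Fin (n + 2) → Fin (n + 2) → ℝ)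
      (k : Fin (n + 2)) => X k ᵥ* c6_P j) ⁻¹' liftS S, ?_, ?_, fun X h0 h1 => ?_⟩
    · exact MeasurableSet.iUnion fun j => (hmp j).measurable (measurableSet_liftS S hS)
    · refine ne_top_of_le_ne_top ?_ (measure_iUnion_le _)
      rw [tsum_fintype]
      refine ENNReal.sum_ne_top.2 fun j _ => ?_
      rw [(hmp j).measure_preimage (measurableSet_liftS S hS).nullMeasurableSet]
      exact volume_liftS S hS hf
    · obtain ⟨γ, hγ, j, hj⟩ := goodrow (Matrix.of X) h0 h1
      set Y : Matrix (Fin (n + 2)) (Fin (n + 2)) ℝ := (toR γ).1 * Matrix.of X with hY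
      have hYd : Y.det = dt X := by
        rw [hY, Matrix.det_mul, (toR γ).2, one_mul]
        rfl
      have hZd : dt (Y * c6_P j : Matrix _ _ ℝ) = dt X := by
        have h : dt (Y * c6_P j : Matrix _ _ ℝ) = (Y * c6_P j).det := rfl
        rw [h, Matrix.det_mul, c6_det, mul_one, hYd]
      have hZ : ∀ k b, (Y * c6_P j) k b = Y k (Equiv.swap 0 j b) * c6_sgn j b := by
        intro k b
        rw [← c6_vecMul]
        rfl
      obtain ⟨γ', hγ'⟩ := cover_liftS S hc (Y * c6_P j : Matrix _ _ ℝ) (by rw [hZd]; exact h0)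
        (by rw [hZd]; exact h1) (fun b => by
          rw [hZ, abs_mul, c6_abs, mul_one]
          exact hγ _) (by
          rw [hZ, Equiv.swap_apply_left]
          have h : c6_sgn j 0 = 1 := by
            unfold c6_sgn
            rw [if_neg]
            rintro ⟨h, h'⟩
            exact h' h.symm
          rw [h, mul_one]
          exact hj)
      refine ⟨γ' * γ, Set.mem_iUnion.2 ⟨j, ?_⟩⟩
      change (fun k => ((toR (γ' * γ)).1 * Matrix.of X : Matrix _ _ ℝ) k ᵥ* c6_P j) ∈ liftS S
      have h : (fun k => ((toR (γ' * γ)).1 * Matrix.of X : Matrix _ _ ℝ) k ᵥ* c6_P j) =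
          ((toR γ').1 * Matrix.of (Y * c6_P j : Matrix _ _ ℝ) : Matrix _ _ ℝ) := by
        have e : ((toR γ').1 * Matrix.of (Y * c6_P j : Matrix _ _ ℝ) : Matrix _ _ ℝ) =
            ((toR (γ' * γ)).1 * Matrix.of X) * c6_P j := by
          have e1 : (toR (γ' * γ)).1 = (toR γ').1 * (toR γ).1 := by
            rw [toR, toR, toR, map_mul, Matrix.SpecialLinearGroup.coe_mul]
          rw [e1, Matrix.mul_assoc (toR γ').1, Matrix.mul_assoc (toR γ').1, ← hY]
          rfl
        rw [e]
        rfl
      rw [h]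
      exact hγ'

end Pool.Agent.Arch
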