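import Pool.Agent.Arch.Basic

/-!
# C7: a Borel fundamental domain for the diagonal action on M1 (no volume statement)

Proof. Fix a measurable injection `ι : Fr m → ℝ` (`MeasureTheory.exists_measurableEmbedding_real`
or `MeasurableSpace.exists_measurable_injective...`; `Fr m` is standard Borel). Let
`D = {X ∈ M1 | ∀ γ, ‖X‖ < ‖actT γ X‖ ∨ (‖X‖ = ‖actT γ X‖ ∧ ι X ≤ ι (actT γ X))}`: countable
intersection of measurable sets (`SLZ m` is countable).
Existence: for `X ∈ M1` and `R` real the set `{γ | ‖actT γ X‖ ≤ R}` is finite: `actT γ X = X γᵀ`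
(`actT_eq`), so `γᵀ = X⁻¹ (actT γ X)` has bounded integral entries. So `‖actT γ X‖` attains its
minimum, at finitely many `γ`; among them take one with `ι (actT γ X)` minimal.
Uniqueness: if `X` and `Y = actT γ X` both lie in `D` then `‖X‖ ≤ ‖Y‖ ≤ ‖X‖` and then
`ι X = ι Y`, so `X = Y`, and `actT γ X = X` with `X` invertible gives `γ = 1`.
`κ X` is the unique `γ` with `actT γ X ∈ D` for `X ∈ M1`, and `1` outside `M1`; for
`X ∈ M1`, `κ X = γ` iff `actT γ X ∈ D`, so `κ ⁻¹' {γ}` is measurable.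
-/

namespace Pool.Agent.Arch

open MeasureTheory Matrix

private theorem c7_toR_injective (m : ℕ) : Function.Injective (toR : SLZ m → SLR m) := by
  intro g h hgh
  ext i j
  have h1 := congrArg (fun M : SLR m => M.1 i j) hgh
  simpa [toR] using h1

private theorem c7_toR_apply {m : ℕ} (g : SLZ m) (i j : Fin m) :
    (toR g).1 i j = ((g.1 i j : ℤ) : ℝ) := rfl

private theorem c7_det_unit {m : ℕ} {X : Fr m} (hX : X ∈ M1 m) : IsUnit (Matrix.of X).det :=
  isUnit_iff_ne_zero.2 (ne_of_gt hX.1)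

/-- Recover `gᵀ` from `actT g X`. -/
private theorem c7_recover {m : ℕ} {X : Fr m} (hX : X ∈ M1 m) (g : SLZ m) :
    (toR g).1ᵀ = (Matrix.of X)⁻¹ * Matrix.of (actT g X) := by
  have h : Matrix.of (actT g X) = Matrix.of X * (toR g).1ᵀ := actT_eq g X
  rw [h, ← Matrix.mul_assoc, Matrix.nonsing_inv_mul _ (c7_det_unit hX), Matrix.one_mul]

private theorem c7_free {m : ℕ} {X : Fr m} (hX : X ∈ M1 m) {g h : SLZ m}
    (hgh : actT g X = actT h X) : g = h := by
  apply c7_toR_injective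
  have h1 : (toR g).1ᵀ = (toR h).1ᵀ := by
    rw [c7_recover hX g, c7_recover hX h, hgh]
  exact Subtype.ext (Matrix.transpose_injective h1)

private theorem c7_finite {m : ℕ} {X : Fr m} (hX : X ∈ M1 m) (R : ℝ) :
    {g : SLZ m | ‖actT g X‖ ≤ R}.Finite := by
  set C : ℝ := ∑ i, ∑ k, |(Matrix.of X)⁻¹ i k| with hC
  obtain ⟨B, hB⟩ := exists_nat_gt (C * R)
  have hfin : (Set.pi Set.univ fun _ : Fin m => Set.pi Set.univ fun _ : Fin m =>
      Set.Icc (-(B : ℤ)) (B : ℤ)).Finite :=
    Set.Finite.pi fun _ => Set.Finite.pi fun _ => Set.finite_Icc _ _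
  refine Set.Finite.of_injOn (f := fun g : SLZ m => fun i j => g.1 i j) (t := _) ?_ ?_ hfin
  · intro g hg
    have hR : 0 ≤ R := (norm_nonneg _).trans hg
    rw [Set.mem_univ_pi]
    intro i
    rw [Set.mem_univ_pi]
    intro j
    have h1 : (toR g).1ᵀ j i = ∑ k, (Matrix.of X)⁻¹ j k * actT g X k i := by
      rw [c7_recover hX g, Matrix.mul_apply]
      rfl
    have h2 : |((g.1 i j : ℤ) : ℝ)| ≤ C * R := by
      have h3 : (toR g).1ᵀ j i = ((g.1 i j : ℤ) : ℝ) := rfl
      rw [← h3, h1]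
      refine (Finset.abs_sum_le_sum_abs _ _).trans ?_
      have h4 : ∀ k ∈ Finset.univ, |(Matrix.of X)⁻¹ j k * actT g X k i| ≤
          |(Matrix.of X)⁻¹ j k| * R := by
        intro k _
        rw [abs_mul]
        refine mul_le_mul_of_nonneg_left ?_ (abs_nonneg _)
        have h5 : ‖actT g X k i‖ ≤ ‖actT g X‖ :=
          (norm_le_pi_norm (actT g X k) i).trans (norm_le_pi_norm (actT g X) k)
        rw [← Real.norm_eq_abs]
        exact h5.trans hg
      refine (Finset.sum_le_sum h4).trans ?_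
      rw [← Finset.sum_mul]
      refine mul_le_mul_of_nonneg_right ?_ hR
      exact Finset.single_le_sum (f := fun i => ∑ k, |(Matrix.of X)⁻¹ i k|)
        (fun i _ => Finset.sum_nonneg fun k _ => abs_nonneg _) (Finset.mem_univ j)
    have h6 := (abs_le.1 (h2.trans hB.le))
    constructor
    · have : (-(B : ℤ) : ℝ) ≤ ((g.1 i j : ℤ) : ℝ) := by push_cast; exact h6.1
      exact_mod_cast this
    · exact_mod_cast h6.2
  · intro g _ h _ hgh
    ext i j
    exact congrFun (congrFun hgh i) j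

/-- The fundamental domain. -/
private def c7_D (m : ℕ) (f : Fr m → ℝ) : Set (Fr m) :=
  {X | X ∈ M1 m ∧ ∀ g : SLZ m, ‖X‖ < ‖actT g X‖ ∨ (‖X‖ = ‖actT g X‖ ∧ f X ≤ f (actT g X))}

private theorem c7_exists {m : ℕ} (f : Fr m → ℝ) {X : Fr m} (hX : X ∈ M1 m) :
    ∃ g : SLZ m, actT g X ∈ c7_D m f := by
  obtain ⟨g, hg, hmin⟩ := Set.exists_min_image {g : SLZ m | ‖actT g X‖ ≤ ‖X‖}
    (fun g => toLex (‖actT g X‖, f (actT g X))) (c7_finite hX ‖X‖) ⟨1, by simp⟩
  refine ⟨g, (actT_mem_M1 g).2 hX, fun h => ?_⟩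
  rw [← actT_mul]
  by_cases hh : ‖actT (h * g) X‖ ≤ ‖X‖
  · have h1 := hmin (h * g) hh
    rw [Prod.Lex.toLex_le_toLex] at h1
    exact h1
  · left
    exact lt_of_le_of_lt hg (not_le.1 hh)

private theorem c7_unique {m : ℕ} (f : Fr m → ℝ) (hf : Function.Injective f) {X : Fr m}
    (hX : X ∈ M1 m) {g h : SLZ m} (hg : actT g X ∈ c7_D m f) (hh : actT h X ∈ c7_D m f) :
    g = h := by
  have key : ∀ g h : SLZ m, actT g X ∈ c7_D m f → (‖actT g X‖ < ‖actT h X‖ ∨
      (‖actT g X‖ = ‖actT h X‖ ∧ f (actT g X) ≤ f (actT h X))) := by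
    intro g h hg
    have h1 := hg.2 (h * g⁻¹)
    have h2 : actT (h * g⁻¹) (actT g X) = actT h X := by
      rw [← actT_mul, inv_mul_cancel_right]
    rwa [h2] at h1
  refine c7_free hX (hf ?_)
  rcases key g h hg with h1 | ⟨h1, h2⟩
  · rcases key h g hh with h3 | ⟨h3, -⟩
    · exact absurd h3 (not_lt.2 h1.le)
    · exact absurd h3 (ne_of_gt h1)
  · rcases key h g hh with h3 | ⟨-, h4⟩
    · exact absurd h1 (ne_of_gt h3)
    · exact le_antisymm h2 h4

private theorem c7_countable (m : ℕ) : Countable (SLZ m) :=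
  Function.Injective.countable (f := fun g : SLZ m => fun i j => g.1 i j) fun g h hgh => by
    ext i j
    exact congrFun (congrFun hgh i) j

private theorem c7_meas {m : ℕ} (f : Fr m → ℝ) (hf : Measurable f) :
    MeasurableSet (c7_D m f) := by
  have := c7_countable m
  have h1 : c7_D m f = M1 m ∩ ⋂ g : SLZ m, ({X | ‖X‖ < ‖actT g X‖} ∪
      ({X | ‖X‖ = ‖actT g X‖} ∩ {X | f X ≤ f (actT g X)})) := by
    ext X
    simp only [c7_D, Set.mem_ofPred_eq, Set.mem_inter_iff, Set.mem_iInter, Set.mem_union]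
  rw [h1]
  refine (measurableSet_M1 m).inter (MeasurableSet.iInter fun g => ?_)
  have h2 : Measurable fun X : Fr m => ‖actT g X‖ := measurable_norm.comp (measurable_actT g)
  exact (measurableSet_lt measurable_norm h2).union ((measurableSet_eq_fun measurable_norm h2).inter
    (measurableSet_le hf (hf.comp (measurable_actT g))))

theorem exists_domain (m : ℕ) : ∃ (D : Set (Fr m)) (κ : Fr m → SLZ m),
    MeasurableSet D ∧ D ⊆ M1 m ∧ (∀ g, MeasurableSet (κ ⁻¹' {g})) ∧
    (∀ X ∈ M1 m, actT (κ X) X ∈ D) ∧ (∀ X ∈ M1 m, ∀ g, actT g X ∈ D → g = κ X) := by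
  classical
  obtain ⟨f, hf⟩ := MeasureTheory.exists_measurableEmbedding_real (Fr m)
  set κ : Fr m → SLZ m := fun X =>
    if hX : X ∈ M1 m then Classical.choose (c7_exists f hX) else 1 with hκ
  have hκ1 : ∀ X ∈ M1 m, actT (κ X) X ∈ c7_D m f := by
    intro X hX
    simp only [hκ, dif_pos hX]
    exact Classical.choose_spec (c7_exists f hX)
  have hκ2 : ∀ X ∈ M1 m, ∀ g, actT g X ∈ c7_D m f → g = κ X := fun X hX g hg =>
    c7_unique f hf.injective hX hg (hκ1 X hX)
  refine ⟨c7_D m f, κ, c7_meas f hf.measurable, fun X hX => hX.1, fun g => ?_, hκ1, hκ2⟩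
  have h1 : κ ⁻¹' {g} = (M1 m ∩ (actT g) ⁻¹' (c7_D m f)) ∪ ((M1 m)ᶜ ∩ {_X | (1 : SLZ m) = g}) := by
    ext X
    simp only [Set.mem_preimage, Set.mem_singleton_iff, Set.mem_union, Set.mem_inter_iff,
      Set.mem_compl_iff, Set.mem_ofPred_eq]
    by_cases hX : X ∈ M1 m
    · simp only [hX, true_and, not_true_eq_false, false_and, or_false]
      constructor
      · rintro rfl
        exact hκ1 X hX
      · intro h
        exact (hκ2 X hX g h).symm
    · simp only [hX, false_and, not_false_eq_true, true_and, false_or]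
      simp only [hκ, dif_neg hX]
  rw [h1]
  exact ((measurableSet_M1 m).inter (measurable_actT g (c7_meas f hf.measurable))).union
    ((measurableSet_M1 m).compl.inter (MeasurableSet.const _))

end Pool.Agent.Arch
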