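import Pool.Agent.Arch.C6
import Pool.Agent.Arch.C7

/-!
# C8: the fundamental domain has finite positive volume

Proof. Let `S` be the set of C6 and `T = {X | Xᵀ ∈ S}` (transpose, A1: same volume). As
`(actT γ X)ᵀ = γ Xᵀ` (`actT_eq`), every `X ∈ M1` is moved into `T` by some `γ`. Then
`vol D ≤ Σ_γ vol {X ∈ D | actT γ X ∈ T} = Σ_γ vol {Z ∈ T | actT γ⁻¹ Z ∈ D} ≤ vol T`, because
the sets `{Z | actT γ⁻¹ Z ∈ D}` are pairwise disjoint (uniqueness in C7).
Positive volume: `M1` is contained in the union of the countably many sets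
`{X | actT γ X ∈ D}`, all of volume `vol D`, and `M1` has positive volume (it contains a nonempty
open set, e.g. `{0 < dt X < 1}`).
-/

namespace Pool.Agent.Arch

open MeasureTheory Matrix

/-- A Borel fundamental domain of finite volume, with the folding map `κ`. -/
structure FundDom (m : ℕ) (D : Set (Fr m)) (κ : Fr m → SLZ m) : Prop where
  meas : MeasurableSet D
  sub : D ⊆ M1 m
  measκ : ∀ g, MeasurableSet (κ ⁻¹' {g})
  mem : ∀ X ∈ M1 m, actT (κ X) X ∈ D
  uniq : ∀ X ∈ M1 m, ∀ g, actT g X ∈ D → g = κ X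
  fin : volume D ≠ ⊤
  pos : volume D ≠ 0

private theorem c8_countable (m : ℕ) : Countable (SLZ m) :=
  Function.Injective.countable (f := fun g : SLZ m => fun i j => g.1 i j) fun g h hgh => by
    ext i j
    exact congrFun (congrFun hgh i) j

private theorem c8_pos (m : ℕ) (hm : 1 ≤ m) : volume (M1 m) ≠ 0 := by
  have hopen : IsOpen {X : Fr m | 0 < dt X ∧ dt X < 1} :=
    (isOpen_lt continuous_const continuous_dt).inter (isOpen_lt continuous_dt continuous_const)
  have hne : {X : Fr m | 0 < dt X ∧ dt X < 1}.Nonempty := by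
    refine ⟨((1 / 2 : ℝ) • (1 : Matrix (Fin m) (Fin m) ℝ)), ?_⟩
    have h1 : dt (((1 / 2 : ℝ) • (1 : Matrix (Fin m) (Fin m) ℝ) : Matrix (Fin m) (Fin m) ℝ)) =
        (1 / 2 : ℝ) ^ m := by
      change ((1 / 2 : ℝ) • (1 : Matrix (Fin m) (Fin m) ℝ)).det = _
      rw [Matrix.det_smul, Matrix.det_one, mul_one, Fintype.card_fin]
    constructor
    · rw [h1]
      positivity
    · rw [h1]
      exact pow_lt_one₀ (by norm_num) (by norm_num) (by omega)
  have hpos := hopen.measure_pos volume hne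
  intro h0
  have hle : volume {X : Fr m | 0 < dt X ∧ dt X < 1} ≤ volume (M1 m) :=
    measure_mono fun X hX => ⟨hX.1, hX.2.le⟩
  rw [h0] at hle
  exact absurd hpos (not_lt.2 hle)

theorem exists_fundDom (m : ℕ) (hm : 1 ≤ m) :
    ∃ (D : Set (Fr m)) (κ : Fr m → SLZ m), FundDom m D κ := by
  obtain ⟨S, hSm, hSfin, hS⟩ := fv m hm
  obtain ⟨D, κ, hDm, hDM, hκm, hκ1, hκ2⟩ := exists_domain m
  have hcount := c8_countable m
  refine ⟨D, κ, hDm, hDM, hκm, hκ1, hκ2, ?_, ?_⟩
  · set sw : Fr m → Fr m := fun X i j => X j i with hsw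
    have hmp : MeasurePreserving sw volume volume := measurePreserving_swap m m
    set T : Set (Fr m) := sw ⁻¹' S with hT
    have hTm : MeasurableSet T := hmp.measurable hSm
    have hTvol : volume T = volume S := hmp.measure_preimage hSm.nullMeasurableSet
    have hcov : D ⊆ ⋃ g : SLZ m, D ∩ (actT g) ⁻¹' T := by
      intro X hX
      have hXM := hDM hX
      have hdt : dt (sw X) = dt X := by
        change (Matrix.of fun i j => X j i).det = (Matrix.of X).det
        rw [← Matrix.det_transpose]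
        rfl
      obtain ⟨g, hg⟩ := hS (sw X) (by rw [hdt]; exact hXM.1) (by rw [hdt]; exact hXM.2)
      refine Set.mem_iUnion.2 ⟨g, hX, ?_⟩
      change sw (actT g X) ∈ S
      have e : sw (actT g X) = ((toR g).1 * Matrix.of (sw X) : Matrix _ _ ℝ) := by
        rw [actT_eq]
        funext i j
        change (Matrix.of X * (toR g).1ᵀ) j i = ((toR g).1 * Matrix.of (sw X)) i j
        rw [Matrix.mul_apply, Matrix.mul_apply]
        exact Finset.sum_congr rfl fun k _ => mul_comm _ _
      rw [e]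
      exact hg
    have heach : ∀ g : SLZ m, volume (D ∩ (actT g) ⁻¹' T) =
        volume (T ∩ (actT g⁻¹) ⁻¹' D) := by
      intro g
      have e : D ∩ (actT g) ⁻¹' T = (actT g) ⁻¹' (T ∩ (actT g⁻¹) ⁻¹' D) := by
        ext X
        simp only [Set.mem_inter_iff, Set.mem_preimage, actT_inv_actT]
        exact and_comm
      rw [e]
      exact (mp_actT g).measure_preimage
        (hTm.inter (measurable_actT g⁻¹ hDm)).nullMeasurableSet
    have hdisj : Pairwise (Function.onFun Disjoint fun g : SLZ m => T ∩ (actT g⁻¹) ⁻¹' D) := by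
      intro g h hgh
      rw [Function.onFun, Set.disjoint_left]
      rintro Z ⟨-, hZ1⟩ ⟨-, hZ2⟩
      have hZM : Z ∈ M1 m := (actT_mem_M1 g⁻¹).1 (hDM hZ1)
      exact hgh (inv_injective ((hκ2 Z hZM _ hZ1).trans (hκ2 Z hZM _ hZ2).symm))
    have hle : volume D ≤ volume S := by
      calc volume D ≤ volume (⋃ g : SLZ m, D ∩ (actT g) ⁻¹' T) := measure_mono hcov
        _ ≤ ∑' g : SLZ m, volume (D ∩ (actT g) ⁻¹' T) := measure_iUnion_le _
        _ = ∑' g : SLZ m, volume (T ∩ (actT g⁻¹) ⁻¹' D) := by simp only [heach]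
        _ = volume (⋃ g : SLZ m, T ∩ (actT g⁻¹) ⁻¹' D) :=
          (measure_iUnion hdisj fun g => hTm.inter (measurable_actT g⁻¹ hDm)).symm
        _ ≤ volume T := measure_mono (Set.iUnion_subset fun g => Set.inter_subset_left)
        _ = volume S := hTvol
    exact ne_top_of_le_ne_top hSfin hle
  · intro h0
    apply c8_pos m hm
    have hcov : M1 m ⊆ ⋃ g : SLZ m, (actT g) ⁻¹' D := fun X hX =>
      Set.mem_iUnion.2 ⟨κ X, hκ1 X hX⟩
    refine measure_mono_null hcov (measure_iUnion_null fun g => ?_)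
    rw [(mp_actT g).measure_preimage hDm.nullMeasurableSet, h0]

end Pool.Agent.Arch
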