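import Mathlib

/-!
# D1: functional calculus of two commuting unitaries

`T2 = (R/Z)^2`. For commuting unitaries `U`, `V` of a complex Hilbert space there is a star
homomorphism `Φ : C(T2, ℂ) → B(H)` with `Φ(e^{2πiθ_1}) = U`, `Φ(e^{2πiθ_2}) = V`.

Proof. Let `A` be the closure of the star subalgebra of `H →L[ℂ] H` generated by `U` and `V`; it
is commutative (`StarAlgebra.adjoinCommRingOfComm`-type instances, closure), so a commutative
unital C*-algebra, and `gelfandStarTransform A : A ≃⋆ₐ[ℂ] C(characterSpace ℂ A, ℂ)`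
(Mathlib `Analysis/CStarAlgebra/ContinuousFunctionalCalculus/Basic.lean`). For a character `χ`,
`|χ U| = |χ V| = 1`, so `χ ↦ (χ U, χ V)` is a continuous map `τ` to `Circle × Circle`, i.e. (by
`AddCircle.homeomorphCircle'`) to `T2`; `Φ f` is the inverse Gelfand transform of `f ∘ τ`.
Alternative without Gelfand theory: define `Φ` on Laurent polynomials, prove the norm bound
`‖Φ p‖ ≤ ‖p‖_∞` with the continuous functional calculus of normal operators or with the vector
measures obtained from Fejer densities `N^{-2} ‖Σ_{0 ≤ a,b < N} e(-aθ_1-bθ_2) U^a V^b ξ‖²`, and extend.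
-/

namespace Pool.Agent.Arch

open MeasureTheory

/-- The two-dimensional torus. -/
abbrev T2 : Type := UnitAddCircle × UnitAddCircle

/-- The character `e^{2πiθ_1}`. -/
noncomputable def e1 : C(T2, ℂ) := (fourier 1 : C(UnitAddCircle, ℂ)).comp ContinuousMap.fst

/-- The character `e^{2πiθ_2}`. -/
noncomputable def e2 : C(T2, ℂ) := (fourier 1 : C(UnitAddCircle, ℂ)).comp ContinuousMap.snd

variable {H : Type} [NormedAddCommGroup H] [InnerProductSpace ℂ H] [CompleteSpace H]

/-- `Φ` is a functional calculus for the pair `(U, V)`. -/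
def IsCalc (U V : H ≃ₗᵢ[ℂ] H) (Φ : C(T2, ℂ) →⋆ₐ[ℂ] (H →L[ℂ] H)) : Prop :=
  Φ e1 = (U.toContinuousLinearEquiv : H →L[ℂ] H) ∧
  Φ e2 = (V.toContinuousLinearEquiv : H →L[ℂ] H)

/-- A closed commutative star subalgebra which contains the two unitaries. -/
private theorem d1_sub (u v : H →L[ℂ] H) (hu : star u * u = 1) (hu' : u * star u = 1)
    (hv : star v * v = 1) (hv' : v * star v = 1) (huv : u * v = v * u) :
    ∃ S : StarSubalgebra ℂ (H →L[ℂ] H), u ∈ S ∧ v ∈ S ∧ IsClosed (S : Set (H →L[ℂ] H)) ∧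
      ∀ x ∈ S, ∀ y ∈ S, x * y = y * x := by
  have h1 : star u * v = v * star u := by
    calc star u * v = star u * v * (u * star u) := by rw [hu', mul_one]
      _ = star u * (v * u) * star u := by simp only [mul_assoc]
      _ = star u * (u * v) * star u := by rw [huv]
      _ = (star u * u) * v * star u := by simp only [mul_assoc]
      _ = v * star u := by rw [hu, one_mul]
  have h2 : star v * u = u * star v := by
    calc star v * u = star v * u * (v * star v) := by rw [hv', mul_one]
      _ = star v * (u * v) * star v := by simp only [mul_assoc]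
      _ = star v * (v * u) * star v := by rw [huv]
      _ = (star v * v) * u * star v := by simp only [mul_assoc]
      _ = u * star v := by rw [hv, one_mul]
  set T : StarSubalgebra ℂ (H →L[ℂ] H) := StarSubalgebra.centralizer ℂ {u, v} with hT
  have hTu : u ∈ T := by
    rw [hT, StarSubalgebra.mem_centralizer_iff]
    rintro g (rfl | hg)
    · exact ⟨rfl, by rw [hu, hu']⟩
    · rw [Set.mem_singleton_iff] at hg
      subst hg
      exact ⟨huv.symm, h2⟩
  have hTv : v ∈ T := by
    rw [hT, StarSubalgebra.mem_centralizer_iff]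
    rintro g (rfl | hg)
    · exact ⟨huv, h1⟩
    · rw [Set.mem_singleton_iff] at hg
      subst hg
      exact ⟨rfl, by rw [hv, hv']⟩
  have hle : StarSubalgebra.centralizer ℂ (T : Set (H →L[ℂ] H)) ≤ T := by
    refine StarSubalgebra.centralizer_le ℂ {u, v} (T : Set (H →L[ℂ] H)) ?_
    rintro g (rfl | hg)
    · exact hTu
    · rw [Set.mem_singleton_iff] at hg
      subst hg
      exact hTv
  refine ⟨StarSubalgebra.centralizer ℂ (T : Set (H →L[ℂ] H)), ?_, ?_, ?_, ?_⟩
  · rw [StarSubalgebra.mem_centralizer_iff]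
    intro g hg
    have h3 : ∀ g ∈ T, g * u = u * g := by
      intro g hg
      rw [hT, StarSubalgebra.mem_centralizer_iff] at hg
      exact ((hg u (by simp)).1).symm
    exact ⟨h3 g hg, h3 (star g) (star_mem hg)⟩
  · rw [StarSubalgebra.mem_centralizer_iff]
    intro g hg
    have h3 : ∀ g ∈ T, g * v = v * g := by
      intro g hg
      rw [hT, StarSubalgebra.mem_centralizer_iff] at hg
      exact ((hg v (by simp)).1).symm
    exact ⟨h3 g hg, h3 (star g) (star_mem hg)⟩
  · rw [StarSubalgebra.coe_centralizer]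
    exact Set.isClosed_centralizer _
  · intro x hx y hy
    have h4 := (StarSubalgebra.mem_centralizer_iff ℂ).1 hy x (hle hx)
    exact h4.1

theorem exists_calc (U V : H ≃ₗᵢ[ℂ] H) (hUV : ∀ x, U (V x) = V (U x)) :
    ∃ Φ : C(T2, ℂ) →⋆ₐ[ℂ] (H →L[ℂ] H), IsCalc U V Φ := by
  set u : H →L[ℂ] H := (U.toContinuousLinearEquiv : H →L[ℂ] H) with hu
  set v : H →L[ℂ] H := (V.toContinuousLinearEquiv : H →L[ℂ] H) with hv
  have hstar : ∀ W : H ≃ₗᵢ[ℂ] H,
      star (W.toContinuousLinearEquiv : H →L[ℂ] H) * (W.toContinuousLinearEquiv : H →L[ℂ] H) = 1 ∧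
      (W.toContinuousLinearEquiv : H →L[ℂ] H) * star (W.toContinuousLinearEquiv : H →L[ℂ] H) = 1 := by
    intro W
    have h1 := (Unitary.linearIsometryEquiv.symm W).2
    rw [Unitary.mem_iff] at h1
    exact h1
  obtain ⟨hu1, hu2⟩ := hstar U
  obtain ⟨hv1, hv2⟩ := hstar V
  have huv : u * v = v * u := by
    ext x
    exact hUV x
  obtain ⟨S, hSu, hSv, hclosed, hcomm⟩ := d1_sub u v hu1 hu2 hv1 hv2 huv
  have : IsClosed (S : Set (H →L[ℂ] H)) := hclosed
  let _ : CommCStarAlgebra S :=
    { StarSubalgebra.cstarAlgebra S with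
      mul_comm := fun x y => Subtype.ext (hcomm x.1 x.2 y.1 y.2) }
  set u' : S := ⟨u, hSu⟩ with hu'
  set v' : S := ⟨v, hSv⟩ with hv'
  have hnorm : ∀ (w : S), star w * w = 1 → ∀ χ : WeakDual.characterSpace ℂ S,
      χ w ∈ Submonoid.unitSphere ℂ := by
    intro w hw χ
    have h1 : star (χ w) * χ w = 1 := by
      rw [← map_star, ← map_mul, hw, map_one]
    have h2 : ‖χ w‖ ^ 2 = 1 := by
      have h3 := congrArg norm h1
      rw [norm_mul, norm_star, norm_one] at h3
      rw [sq, h3]
    have h3 : ‖χ w‖ = 1 := by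
      have := norm_nonneg (χ w)
      nlinarith
    exact mem_sphere_zero_iff_norm.2 h3
  have hu1' : star u' * u' = 1 := Subtype.ext hu1
  have hv1' : star v' * v' = 1 := Subtype.ext hv1
  have hcont : ∀ (w : S) (hw : star w * w = 1),
      Continuous fun χ : WeakDual.characterSpace ℂ S => (⟨χ w, hnorm w hw χ⟩ : Circle) := by
    intro w hw
    exact Continuous.subtype_mk (map_continuous (WeakDual.gelfandTransform ℂ S w)) _
  set h := AddCircle.homeomorphCircle (one_ne_zero : (1 : ℝ) ≠ 0) with hh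
  let τ : C(WeakDual.characterSpace ℂ S, T2) :=
    { toFun := fun χ => (h.symm ⟨χ u', hnorm u' hu1' χ⟩, h.symm ⟨χ v', hnorm v' hv1' χ⟩)
      continuous_toFun := (h.symm.continuous.comp (hcont u' hu1')).prodMk
        (h.symm.continuous.comp (hcont v' hv1')) }
  have hfour : ∀ c : Circle, (fourier 1 (h.symm c) : ℂ) = (c : ℂ) := by
    intro c
    rw [fourier_one, ← AddCircle.homeomorphCircle_apply (one_ne_zero : (1 : ℝ) ≠ 0), ← hh,
      Homeomorph.apply_symm_apply]
  let G : C(WeakDual.characterSpace ℂ S, ℂ) →⋆ₐ[ℂ] S :=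
    ((gelfandStarTransform S).symm : C(WeakDual.characterSpace ℂ S, ℂ) →⋆ₐ[ℂ] S)
  let Φ : C(T2, ℂ) →⋆ₐ[ℂ] (H →L[ℂ] H) :=
    (S.subtype).comp (G.comp (τ.compStarAlgHom' ℂ ℂ))
  have key : ∀ (w : S) (f : C(T2, ℂ)), (∀ χ : WeakDual.characterSpace ℂ S, f (τ χ) = χ w) →
      Φ f = (w : H →L[ℂ] H) := by
    intro w f hf
    have h1 : f.comp τ = gelfandStarTransform S w := by
      ext χ
      exact hf χ
    change ((gelfandStarTransform S).symm (f.comp τ) : S).1 = w.1
    rw [h1]
    exact congrArg Subtype.val ((gelfandStarTransform S).symm_apply_apply w)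
  refine ⟨Φ, ?_, ?_⟩
  · exact key u' e1 fun χ => hfour _
  · exact key v' e2 fun χ => hfour _

end Pool.Agent.Arch
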