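import Pool.Agent.Arch.D1

/-!
# D2: spectral measures of vectors

For a star homomorphism `Φ : C(T2, ℂ) → B(H)` and a vector `ξ` there is a finite measure `μ` on
`T2` with `∫ f dμ = ⟪ξ, Φ(f) ξ⟫` for every continuous `f`.

Proof. On real functions `f` the form `f ↦ re ⟪ξ, Φ(f) ξ⟫` is linear and positive: for `f ≥ 0` write
`f = g²` with `g = √f`; `Φ(g)` is self adjoint, so `⟪ξ, Φ(f) ξ⟫ = ‖Φ(g) ξ‖² ≥ 0`. Riesz-Markov-
Kakutani (`RealRMK`, `Mathlib/MeasureTheory/Integral/RieszMarkovKakutani/Real.lean`, `T2` is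
compact so `C_c = C`) gives `μ`; complex `f` by real and imaginary parts (`Φ(f)` for real `f` is
self adjoint, so the inner product is real).
-/

namespace Pool.Agent.Arch

open MeasureTheory

variable {H : Type} [NormedAddCommGroup H] [InnerProductSpace ℂ H] [CompleteSpace H]

/-- `μ` is the spectral measure of the vector `ξ`. -/
def IsSpec (Φ : C(T2, ℂ) →⋆ₐ[ℂ] (H →L[ℂ] H)) (ξ : H) (μ : Measure T2) : Prop :=
  ∀ f : C(T2, ℂ), ∫ θ, f θ ∂μ = inner ℂ ξ (Φ f ξ)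

/-- Real functions as complex functions. -/
private def d2_c (f : C(T2, ℝ)) : C(T2, ℂ) :=
  ⟨fun θ => (f θ : ℂ), Complex.continuous_ofReal.comp f.continuous⟩

private theorem d2_c_add (f g : C(T2, ℝ)) : d2_c (f + g) = d2_c f + d2_c g := by
  ext θ; simp [d2_c]

private theorem d2_c_smul (a : ℝ) (f : C(T2, ℝ)) : d2_c (a • f) = (a : ℂ) • d2_c f := by
  ext θ; simp [d2_c]

private theorem d2_c_mul (f g : C(T2, ℝ)) : d2_c (f * g) = d2_c f * d2_c g := by
  ext θ; simp [d2_c]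

private theorem d2_c_star (f : C(T2, ℝ)) : star (d2_c f) = d2_c f := by
  ext θ; simp [d2_c]

private theorem d2_adj (Φ : C(T2, ℂ) →⋆ₐ[ℂ] (H →L[ℂ] H)) (f : C(T2, ℝ)) (x y : H) :
    inner ℂ (Φ (d2_c f) x) y = inner ℂ x (Φ (d2_c f) y) := by
  have h : Φ (d2_c f) = star (Φ (d2_c f)) := by rw [← map_star, d2_c_star]
  conv_lhs => rw [h, ContinuousLinearMap.star_eq_adjoint, ContinuousLinearMap.adjoint_inner_left]

private theorem d2_im (Φ : C(T2, ℂ) →⋆ₐ[ℂ] (H →L[ℂ] H)) (f : C(T2, ℝ)) (x : H) :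
    (inner ℂ x (Φ (d2_c f) x)).im = 0 := by
  have h := inner_conj_symm (𝕜 := ℂ) x (Φ (d2_c f) x)
  rw [d2_adj] at h
  exact Complex.conj_eq_iff_im.mp h

private theorem d2_pos (Φ : C(T2, ℂ) →⋆ₐ[ℂ] (H →L[ℂ] H)) (f : C(T2, ℝ)) (hf : ∀ θ, 0 ≤ f θ)
    (x : H) : 0 ≤ (inner ℂ x (Φ (d2_c f) x)).re := by
  let g : C(T2, ℝ) := ⟨fun θ => Real.sqrt (f θ), Real.continuous_sqrt.comp f.continuous⟩
  have hg : f = g * g := by
    ext θ; exact (Real.mul_self_sqrt (hf θ)).symm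
  rw [hg, d2_c_mul, map_mul, ContinuousLinearMap.mul_apply, ← d2_adj]
  exact inner_self_nonneg (𝕜 := ℂ)

/-- The positive functional of the vector `ξ`. -/
private noncomputable def d2_L (Φ : C(T2, ℂ) →⋆ₐ[ℂ] (H →L[ℂ] H)) (ξ : H) :
    CompactlySupportedContinuousMap T2 ℝ →ₗ[ℝ] ℝ where
  toFun f := (inner ℂ ξ (Φ (d2_c f.toContinuousMap) ξ)).re
  map_add' f g := by
    have : (f + g).toContinuousMap = f.toContinuousMap + g.toContinuousMap := rfl
    rw [this, d2_c_add, map_add, ContinuousLinearMap.add_apply, inner_add_right, Complex.add_re]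
  map_smul' a f := by
    have : (a • f).toContinuousMap = a • f.toContinuousMap := rfl
    rw [this, d2_c_smul, map_smul, ContinuousLinearMap.smul_apply, inner_smul_right]
    simp

private noncomputable def d2_Λ (Φ : C(T2, ℂ) →⋆ₐ[ℂ] (H →L[ℂ] H)) (ξ : H) :
    CompactlySupportedContinuousMap T2 ℝ →ₚ[ℝ] ℝ :=
  PositiveLinearMap.mk₀ (d2_L Φ ξ) fun f hf => d2_pos Φ f.toContinuousMap (fun θ => hf θ) ξ

theorem exists_spec (Φ : C(T2, ℂ) →⋆ₐ[ℂ] (H →L[ℂ] H)) (ξ : H) :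
    ∃ μ : Measure T2, IsFiniteMeasure μ ∧ IsSpec Φ ξ μ := by
  have hreal : ∀ f : C(T2, ℝ), ((∫ θ, f θ ∂(RealRMK.rieszMeasure (d2_Λ Φ ξ)) : ℝ) : ℂ)
      = inner ℂ ξ (Φ (d2_c f) ξ) := by
    intro f
    have h := RealRMK.integral_rieszMeasure (d2_Λ Φ ξ)
      (⟨f, HasCompactSupport.of_compactSpace f⟩ : CompactlySupportedContinuousMap T2 ℝ)
    have h' : ∫ θ, f θ ∂(RealRMK.rieszMeasure (d2_Λ Φ ξ))
        = (inner ℂ ξ (Φ (d2_c f) ξ)).re := h
    rw [h']
    apply Complex.ext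
    · simp
    · rw [d2_im]; simp
  refine ⟨RealRMK.rieszMeasure (d2_Λ Φ ξ), inferInstance, ?_⟩
  intro f
  let fr : C(T2, ℝ) := ⟨fun θ => (f θ).re, Complex.continuous_re.comp f.continuous⟩
  let fi : C(T2, ℝ) := ⟨fun θ => (f θ).im, Complex.continuous_im.comp f.continuous⟩
  have hf : f = d2_c fr + Complex.I • d2_c fi := by
    ext θ
    simp only [d2_c, fr, fi, ContinuousMap.add_apply, ContinuousMap.coe_mk,
      ContinuousMap.smul_apply, smul_eq_mul]
    rw [mul_comm]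
    exact (Complex.re_add_im (f θ)).symm
  have hint : ∀ g : C(T2, ℂ), Integrable (fun θ => g θ) (RealRMK.rieszMeasure (d2_Λ Φ ξ)) := by
    intro g
    exact g.continuous.integrable_of_hasCompactSupport (HasCompactSupport.of_compactSpace g)
  have h1 : ∫ θ, f θ ∂(RealRMK.rieszMeasure (d2_Λ Φ ξ))
      = (∫ θ, (d2_c fr) θ ∂(RealRMK.rieszMeasure (d2_Λ Φ ξ)))
        + Complex.I * ∫ θ, (d2_c fi) θ ∂(RealRMK.rieszMeasure (d2_Λ Φ ξ)) := by
    conv_lhs => rw [hf]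
    have : (fun θ => (d2_c fr + Complex.I • d2_c fi : C(T2, ℂ)) θ)
      = fun θ => (d2_c fr) θ + Complex.I * (d2_c fi) θ := by
      funext θ; simp
    rw [this, integral_add (hint _) ((hint _).const_mul _), integral_const_mul]
  have h2 : ∀ g : C(T2, ℝ), ∫ θ, (d2_c g) θ ∂(RealRMK.rieszMeasure (d2_Λ Φ ξ))
      = inner ℂ ξ (Φ (d2_c g) ξ) := by
    intro g
    rw [← hreal g, ← integral_complex_ofReal]
    rfl
  rw [h1, h2, h2]
  conv_rhs => rw [hf]
  rw [map_add, map_smul, ContinuousLinearMap.add_apply, ContinuousLinearMap.smul_apply,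
    inner_add_right, inner_smul_right]

end Pool.Agent.Arch
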