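import Pool.Agent.Arch.D2

/-!
# D3: close vectors have close spectral measures (total variation)

Proof. For continuous `f : T2 → [0,1]`:
`|∫ f dμ - ∫ f dν| = |⟪ξ, Φ f ξ⟫ - ⟪η, Φ f η⟫| ≤ |⟪ξ - η, Φ f ξ⟫| + |⟪η, Φ f (ξ - η)⟫|
  ≤ (‖ξ‖ + ‖η‖) ‖ξ - η‖`
because `‖Φ f‖ ≤ ‖f‖ ≤ 1` (star homomorphisms of C*-algebras are contractions,
`NonUnitalStarAlgHom.norm_apply_le`). For a Borel set `B` and `δ > 0` choose (regularity of
finite measures on a compact metric space, for `μ + ν`) a closed `K ⊆ B` and an open `O ⊇ B`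
with `(μ + ν)(O \ K) < δ` and a Urysohn function `1_K ≤ f ≤ 1_O`
(or `MeasureTheory.Measure.WeaklyRegular` and `exists_continuous_...` lemmas).
-/

namespace Pool.Agent.Arch

open MeasureTheory

/-- If the integrals of all continuous functions with values in `[0,1]` satisfy
`∫ f dμ ≤ ∫ f dν + C`, then `μ B ≤ ν B + C` for all Borel sets `B`. -/
private theorem d3_approx (μ ν : Measure T2) [IsFiniteMeasure μ] [IsFiniteMeasure ν] (C : ℝ)
    (h : ∀ f : C(T2, ℝ), (∀ x, f x ∈ Set.Icc (0 : ℝ) 1) →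
      ∫ θ, f θ ∂μ ≤ ∫ θ, f θ ∂ν + C)
    (B : Set T2) (hB : MeasurableSet B) : μ.real B ≤ ν.real B + C := by
  refine le_of_forall_pos_le_add fun ε hε => ?_
  have hε2 : ENNReal.ofReal (ε / 2) ≠ 0 := by
    rw [Ne, ENNReal.ofReal_eq_zero, not_le]
    exact half_pos hε
  obtain ⟨O, hBO, hO, hOν⟩ := B.exists_isOpen_lt_add (μ := ν) (measure_ne_top ν B) hε2
  obtain ⟨K, hKB, hK, hKμ⟩ := hB.exists_isClosed_lt_add (μ := μ) (measure_ne_top μ B) hε2
  have hdis : Disjoint Oᶜ K := by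
    rw [Set.disjoint_left]
    intro x hx hxK
    exact hx (hBO (hKB hxK))
  obtain ⟨f, hf0, hf1, hf⟩ := exists_continuous_zero_one_of_isClosed hO.isClosed_compl hK hdis
  have hfc : Continuous f := f.continuous
  have hi : ∀ ρ : Measure T2, IsFiniteMeasure ρ → Integrable (fun θ => f θ) ρ := by
    intro ρ _
    exact Integrable.of_bound hfc.aestronglyMeasurable 1 (Filter.Eventually.of_forall fun x => by
      rw [Real.norm_eq_abs, abs_of_nonneg (hf x).1]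
      exact (hf x).2)
  have h1 : μ.real K ≤ ∫ θ, f θ ∂μ := by
    rw [← integral_indicator_one hK.measurableSet]
    refine integral_mono ((integrable_const (1 : ℝ)).indicator hK.measurableSet)
      (hi μ inferInstance) fun x => ?_
    by_cases hx : x ∈ K
    · simp only [Set.indicator_of_mem hx, Pi.one_apply]
      rw [hf1 hx]
      rfl
    · simp only [Set.indicator_of_notMem hx]
      exact (hf x).1
  have h2 : ∫ θ, f θ ∂ν ≤ ν.real O := by
    rw [← integral_indicator_one hO.measurableSet]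
    refine integral_mono (hi ν inferInstance)
      ((integrable_const (1 : ℝ)).indicator hO.measurableSet) fun x => ?_
    by_cases hx : x ∈ O
    · simp only [Set.indicator_of_mem hx, Pi.one_apply]
      exact (hf x).2
    · simp only [Set.indicator_of_notMem hx]
      rw [hf0 hx]
      rfl
  have h3 : μ.real B ≤ μ.real K + ε / 2 := by
    have h4 := ENNReal.toReal_mono (ENNReal.add_ne_top.2
      ⟨measure_ne_top μ K, ENNReal.ofReal_ne_top⟩) hKμ.le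
    rw [ENNReal.toReal_add (measure_ne_top μ K) ENNReal.ofReal_ne_top,
      ENNReal.toReal_ofReal (half_pos hε).le] at h4
    exact h4
  have h4 : ν.real O ≤ ν.real B + ε / 2 := by
    have h5 := ENNReal.toReal_mono (ENNReal.add_ne_top.2
      ⟨measure_ne_top ν B, ENNReal.ofReal_ne_top⟩) hOν.le
    rw [ENNReal.toReal_add (measure_ne_top ν B) ENNReal.ofReal_ne_top,
      ENNReal.toReal_ofReal (half_pos hε).le] at h5
    exact h5
  have h5 := h f hf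
  linarith

variable {H : Type} [NormedAddCommGroup H] [InnerProductSpace ℂ H] [CompleteSpace H]

private theorem d3_int (Φ : C(T2, ℂ) →⋆ₐ[ℂ] (H →L[ℂ] H)) (ξ η : H) (μ ν : Measure T2)
    (hμ : IsSpec Φ ξ μ) (hν : IsSpec Φ η ν) (f : C(T2, ℝ))
    (hf : ∀ x, f x ∈ Set.Icc (0 : ℝ) 1) :
    |∫ θ, f θ ∂μ - ∫ θ, f θ ∂ν| ≤ (‖ξ‖ + ‖η‖) * ‖ξ - η‖ := by
  let F : C(T2, ℂ) := ⟨fun x => (f x : ℂ), Complex.continuous_ofReal.comp f.continuous⟩
  have hF : ‖F‖ ≤ 1 := by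
    rw [ContinuousMap.norm_le _ zero_le_one]
    intro x
    change ‖((f x : ℝ) : ℂ)‖ ≤ 1
    rw [Complex.norm_real, Real.norm_eq_abs, abs_of_nonneg (hf x).1]
    exact (hf x).2
  have hΦ : ‖Φ F‖ ≤ 1 := (NonUnitalStarAlgHom.norm_apply_le Φ F).trans hF
  have h1 : ((∫ θ, f θ ∂μ : ℝ) : ℂ) = inner ℂ ξ (Φ F ξ) := by
    rw [← hμ F]
    exact integral_complex_ofReal.symm
  have h2 : ((∫ θ, f θ ∂ν : ℝ) : ℂ) = inner ℂ η (Φ F η) := by
    rw [← hν F]
    exact integral_complex_ofReal.symm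
  have h3 : ((∫ θ, f θ ∂μ - ∫ θ, f θ ∂ν : ℝ) : ℂ) =
      inner ℂ (ξ - η) (Φ F ξ) + inner ℂ η (Φ F (ξ - η)) := by
    rw [Complex.ofReal_sub, h1, h2, map_sub, inner_sub_left, inner_sub_right]
    ring
  have h4 : |∫ θ, f θ ∂μ - ∫ θ, f θ ∂ν| =
      ‖((∫ θ, f θ ∂μ - ∫ θ, f θ ∂ν : ℝ) : ℂ)‖ := by
    rw [Complex.norm_real, Real.norm_eq_abs]
  rw [h4, h3]
  have h5 : ∀ x : H, ‖Φ F x‖ ≤ ‖x‖ := fun x =>
    ((Φ F).le_opNorm x).trans (mul_le_of_le_one_left (norm_nonneg x) hΦ)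
  calc ‖(inner ℂ (ξ - η) (Φ F ξ) + inner ℂ η (Φ F (ξ - η)) : ℂ)‖
      ≤ ‖(inner ℂ (ξ - η) (Φ F ξ) : ℂ)‖ + ‖(inner ℂ η (Φ F (ξ - η)) : ℂ)‖ := norm_add_le _ _
    _ ≤ ‖ξ - η‖ * ‖ξ‖ + ‖η‖ * ‖ξ - η‖ := by
        refine add_le_add ((norm_inner_le_norm _ _).trans ?_) ((norm_inner_le_norm _ _).trans ?_)
        · exact mul_le_mul_of_nonneg_left (h5 ξ) (norm_nonneg _)
        · exact mul_le_mul_of_nonneg_left (h5 (ξ - η)) (norm_nonneg _)
    _ = (‖ξ‖ + ‖η‖) * ‖ξ - η‖ := by ring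

theorem spec_close (Φ : C(T2, ℂ) →⋆ₐ[ℂ] (H →L[ℂ] H)) (ξ η : H) (μ ν : Measure T2)
    [IsFiniteMeasure μ] [IsFiniteMeasure ν] (hμ : IsSpec Φ ξ μ) (hν : IsSpec Φ η ν)
    (B : Set T2) (hB : MeasurableSet B) :
    |μ.real B - ν.real B| ≤ (‖ξ‖ + ‖η‖) * ‖ξ - η‖ := by
  rw [abs_le]
  constructor
  · have h := d3_approx ν μ ((‖ξ‖ + ‖η‖) * ‖ξ - η‖) (fun f hf => by
      have := (abs_le.1 (d3_int Φ ξ η μ ν hμ hν f hf)).1
      linarith) B hB
    linarith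
  · have h := d3_approx μ ν ((‖ξ‖ + ‖η‖) * ‖ξ - η‖) (fun f hf => by
      have := (abs_le.1 (d3_int Φ ξ η μ ν hμ hν f hf)).2
      linarith) B hB
    linarith

end Pool.Agent.Arch
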