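import Pool.Agent.Arch.D2

/-!
# D4: the spectral measure of the image of a vector under a normalising unitary

Let `W` be a unitary with `W U = U W` and `W V = U V W`. Then `W⁻¹ U^a V^b W = U^{a-b} V^b`, so for
`ν` the spectral measure of `W ξ` and `μ` that of `ξ`
`∫ e(aθ_1 + bθ_2) dν = ⟪Wξ, U^a V^b W ξ⟫ = ⟪ξ, U^{a-b} V^b ξ⟫ = ∫ e((a-b)θ_1 + bθ_2) dμ
  = ∫ e(aθ_1 + b(θ_2 - θ_1)) dμ`.
Trigonometric polynomials are dense in `C(T2, ℂ)` (Stone-Weierstrass; or: the two star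
homomorphisms `f ↦ W⁻¹ Φ(f) W` and `f ↦ Φ(f ∘ shear)` are continuous and agree on `e1`, `e2`, hence on
the star subalgebra generated by them, which is dense), and finite measures on the compact
metric space `T2` with the same integrals of continuous functions are equal
(`MeasureTheory.ext_of_forall_integral_eq_of_IsFiniteMeasure`). So
`ν = μ.map (θ ↦ (θ_1, θ_2 - θ_1))`. Same with `W⁻¹` and with the roles of `U` and `V` exchanged.
-/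

namespace Pool.Agent.Arch

open MeasureTheory
open scoped CStarAlgebra

variable {H : Type} [NormedAddCommGroup H] [InnerProductSpace ℂ H] [CompleteSpace H]

private theorem d4_e1_apply (θ : T2) : e1 θ = (AddCircle.toCircle θ.1 : ℂ) := by
  simp [e1]

private theorem d4_e2_apply (θ : T2) : e2 θ = (AddCircle.toCircle θ.2 : ℂ) := by
  simp [e2]

/-- `e1` and `e2` generate a dense star subalgebra -/
private theorem d4_dense :
    (StarAlgebra.adjoin ℂ ({e1, e2} : Set C(T2, ℂ))).topologicalClosure = ⊤ := by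
  apply ContinuousMap.starSubalgebra_topologicalClosure_eq_top_of_separatesPoints
  intro x y hxy
  by_cases h : x.1 = y.1
  · have h2 : x.2 ≠ y.2 := fun h2 => hxy (Prod.ext h h2)
    refine ⟨_, ⟨e2, StarAlgebra.subset_adjoin ℂ _ (by simp), rfl⟩, ?_⟩
    change e2 x ≠ e2 y
    rw [d4_e2_apply, d4_e2_apply]
    intro hc
    exact h2 (AddCircle.injective_toCircle one_ne_zero (Circle.coe_injective hc))
  · refine ⟨_, ⟨e1, StarAlgebra.subset_adjoin ℂ _ (by simp), rfl⟩, ?_⟩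
    change e1 x ≠ e1 y
    rw [d4_e1_apply, d4_e1_apply]
    intro hc
    exact h (AddCircle.injective_toCircle one_ne_zero (Circle.coe_injective hc))

private theorem d4_conj (Φ : C(T2, ℂ) →⋆ₐ[ℂ] (H →L[ℂ] H)) (W : H ≃ₗᵢ[ℂ] H) (T : C(T2, T2))
    (h1 : ∀ x, Φ e1 (W x) = W (Φ (e1.comp T) x))
    (h2 : ∀ x, Φ e2 (W x) = W (Φ (e2.comp T) x))
    (f : C(T2, ℂ)) (x : H) : Φ f (W x) = W (Φ (f.comp T) x) := by
  let C1 : (H →L[ℂ] H) →⋆ₐ[ℂ] (H →L[ℂ] H) :=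
    (W.symm.conjStarAlgEquiv : (H →L[ℂ] H) ≃⋆ₐ[ℂ] (H →L[ℂ] H))
  let Ψ1 : C(T2, ℂ) →⋆ₐ[ℂ] (H →L[ℂ] H) := C1.comp Φ
  let Ψ2 : C(T2, ℂ) →⋆ₐ[ℂ] (H →L[ℂ] H) := Φ.comp (ContinuousMap.compStarAlgHom' ℂ ℂ T)
  have e1' : ∀ (g : C(T2, ℂ)) (y : H), Ψ1 g y = W.symm (Φ g (W y)) := fun g y => rfl
  have e2' : ∀ (g : C(T2, ℂ)) (y : H), Ψ2 g y = Φ (g.comp T) y := fun g y => rfl
  have hc1 : Continuous Ψ1 := map_continuous Ψ1
  have hc2 : Continuous Ψ2 := map_continuous Ψ2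
  have hle : StarAlgebra.adjoin ℂ ({e1, e2} : Set C(T2, ℂ)) ≤ StarAlgHom.equalizer Ψ1 Ψ2 := by
    apply StarAlgHom.adjoin_le_equalizer
    intro g hg
    rcases hg with rfl | hg
    · ext y
      rw [e1', e2', h1, LinearIsometryEquiv.symm_apply_apply]
    · rw [Set.mem_singleton_iff] at hg
      subst hg
      ext y
      rw [e1', e2', h2, LinearIsometryEquiv.symm_apply_apply]
  have hcl : IsClosed ((StarAlgHom.equalizer Ψ1 Ψ2 : StarSubalgebra ℂ C(T2, ℂ)) :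
      Set C(T2, ℂ)) := isClosed_eq hc1 hc2
  have htop := StarSubalgebra.topologicalClosure_minimal hle hcl
  rw [d4_dense] at htop
  have hf : Ψ1 f = Ψ2 f := htop (StarSubalgebra.mem_top (R := ℂ) (x := f))
  have h3 := congrArg (fun A : H →L[ℂ] H => A x) hf
  simp only [e1', e2'] at h3
  rw [← h3, LinearIsometryEquiv.apply_symm_apply]

private theorem d4_main (Φ : C(T2, ℂ) →⋆ₐ[ℂ] (H →L[ℂ] H)) (W : H ≃ₗᵢ[ℂ] H) (T : C(T2, T2))
    (h1 : ∀ x, Φ e1 (W x) = W (Φ (e1.comp T) x))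
    (h2 : ∀ x, Φ e2 (W x) = W (Φ (e2.comp T) x))
    (ξ : H) (μ ν : Measure T2) [IsFiniteMeasure μ] [IsFiniteMeasure ν]
    (hμ : IsSpec Φ ξ μ) (hν : IsSpec Φ (W ξ) ν) : ν = μ.map T := by
  have hT : Measurable T := T.continuous.measurable
  have : IsFiniteMeasure (μ.map T) := Measure.isFiniteMeasure_map μ T
  apply ext_of_forall_integral_eq_of_IsFiniteMeasure
  intro f
  rw [integral_map hT.aemeasurable f.continuous.aestronglyMeasurable]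
  let g : C(T2, ℂ) := ⟨fun θ => (f θ : ℂ), Complex.continuous_ofReal.comp f.continuous⟩
  have k1 := hν g
  have k2 := hμ (g.comp T)
  rw [d4_conj Φ W T h1 h2, LinearIsometryEquiv.inner_map_map, ← k2] at k1
  have k3 : ((∫ θ, f θ ∂ν : ℝ) : ℂ) = ((∫ θ, f (T θ) ∂μ : ℝ) : ℂ) := by
    rw [← integral_complex_ofReal, ← integral_complex_ofReal]
    exact k1
  exact_mod_cast k3

private theorem d4_e1_mul (S : C(T2, T2)) (hS : ∀ θ, (S θ).2 + θ.1 = θ.2) :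
    e1 * e2.comp S = e2 := by
  ext θ
  rw [ContinuousMap.mul_apply, ContinuousMap.comp_apply, d4_e1_apply, d4_e2_apply, d4_e2_apply,
    ← hS θ, AddCircle.toCircle_add, Circle.coe_mul, mul_comm]

private theorem d4_e2_mul (S : C(T2, T2)) (hS : ∀ θ, (S θ).1 + θ.2 = θ.1) :
    e2 * e1.comp S = e1 := by
  ext θ
  rw [ContinuousMap.mul_apply, ContinuousMap.comp_apply, d4_e1_apply, d4_e2_apply, d4_e1_apply,
    ← hS θ, AddCircle.toCircle_add, Circle.coe_mul, mul_comm]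

private theorem d4_e2_comp (S : C(T2, T2)) (hS : ∀ θ, (S θ).2 = θ.1 + θ.2) :
    e2.comp S = e1 * e2 := by
  ext θ
  rw [ContinuousMap.mul_apply, ContinuousMap.comp_apply, d4_e1_apply, d4_e2_apply, d4_e2_apply,
    hS θ, AddCircle.toCircle_add, Circle.coe_mul]

private theorem d4_e1_comp (S : C(T2, T2)) (hS : ∀ θ, (S θ).1 = θ.1 + θ.2) :
    e1.comp S = e1 * e2 := by
  ext θ
  rw [ContinuousMap.mul_apply, ContinuousMap.comp_apply, d4_e1_apply, d4_e1_apply, d4_e2_apply,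
    hS θ, AddCircle.toCircle_add, Circle.coe_mul]

private theorem d4_e1_fix (S : C(T2, T2)) (hS : ∀ θ, (S θ).1 = θ.1) : e1.comp S = e1 := by
  ext θ
  rw [ContinuousMap.comp_apply, d4_e1_apply, d4_e1_apply, hS θ]

private theorem d4_e2_fix (S : C(T2, T2)) (hS : ∀ θ, (S θ).2 = θ.2) : e2.comp S = e2 := by
  ext θ
  rw [ContinuousMap.comp_apply, d4_e2_apply, d4_e2_apply, hS θ]

private theorem d4_calc1 {U V : H ≃ₗᵢ[ℂ] H} {Φ : C(T2, ℂ) →⋆ₐ[ℂ] (H →L[ℂ] H)}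
    (hΦ : IsCalc U V Φ) (x : H) : Φ e1 x = U x := by
  rw [hΦ.1]; rfl

private theorem d4_calc2 {U V : H ≃ₗᵢ[ℂ] H} {Φ : C(T2, ℂ) →⋆ₐ[ℂ] (H →L[ℂ] H)}
    (hΦ : IsCalc U V Φ) (x : H) : Φ e2 x = V x := by
  rw [hΦ.2]; rfl

private theorem d4_mul (Φ : C(T2, ℂ) →⋆ₐ[ℂ] (H →L[ℂ] H)) (f g : C(T2, ℂ)) (x : H) :
    Φ (f * g) x = Φ f (Φ g x) := by
  rw [map_mul]; rfl

theorem spec_shear (U V W : H ≃ₗᵢ[ℂ] H) (Φ : C(T2, ℂ) →⋆ₐ[ℂ] (H →L[ℂ] H)) (hΦ : IsCalc U V Φ)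
    (h1 : ∀ x, W (U x) = U (W x)) (h2 : ∀ x, W (V x) = U (V (W x)))
    (ξ : H) (μ ν : Measure T2) [IsFiniteMeasure μ] [IsFiniteMeasure ν]
    (hμ : IsSpec Φ ξ μ) (hν : IsSpec Φ (W ξ) ν) :
    ν = μ.map (fun θ : T2 => (θ.1, θ.2 - θ.1)) := by
  let S : C(T2, T2) := ⟨fun θ => (θ.1, θ.2 - θ.1), by fun_prop⟩
  refine d4_main Φ W S ?_ ?_ ξ μ ν hμ hν
  · intro x
    rw [d4_e1_fix S fun _ => rfl, d4_calc1 hΦ, d4_calc1 hΦ, h1]
  · intro x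
    have k1 : U (Φ (e2.comp S) x) = V x := by
      rw [← d4_calc1 hΦ, ← d4_mul, d4_e1_mul S fun θ => sub_add_cancel θ.2 θ.1, d4_calc2 hΦ]
    rw [d4_calc2 hΦ]
    apply U.injective
    rw [← h2, ← h1, k1]

theorem spec_shear_inv (U V W : H ≃ₗᵢ[ℂ] H) (Φ : C(T2, ℂ) →⋆ₐ[ℂ] (H →L[ℂ] H))
    (hΦ : IsCalc U V Φ)
    (h1 : ∀ x, W (U x) = U (W x)) (h2 : ∀ x, W (V x) = U (V (W x)))
    (ξ : H) (μ ν : Measure T2) [IsFiniteMeasure μ] [IsFiniteMeasure ν]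
    (hμ : IsSpec Φ ξ μ) (hν : IsSpec Φ (W.symm ξ) ν) :
    ν = μ.map (fun θ : T2 => (θ.1, θ.2 + θ.1)) := by
  let S : C(T2, T2) := ⟨fun θ => (θ.1, θ.2 + θ.1), by fun_prop⟩
  refine d4_main Φ W.symm S ?_ ?_ ξ μ ν hμ hν
  · intro x
    apply W.injective
    rw [d4_e1_fix S fun _ => rfl, d4_calc1 hΦ, d4_calc1 hΦ, h1,
      LinearIsometryEquiv.apply_symm_apply, LinearIsometryEquiv.apply_symm_apply]
  · intro x
    apply W.injective
    rw [d4_e2_comp S fun θ => add_comm θ.2 θ.1, d4_mul, d4_calc2 hΦ, d4_calc2 hΦ, d4_calc1 hΦ, h2,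
      LinearIsometryEquiv.apply_symm_apply, LinearIsometryEquiv.apply_symm_apply]

theorem spec_shear' (U V W : H ≃ₗᵢ[ℂ] H) (Φ : C(T2, ℂ) →⋆ₐ[ℂ] (H →L[ℂ] H)) (hΦ : IsCalc U V Φ)
    (h1 : ∀ x, W (V x) = V (W x)) (h2 : ∀ x, W (U x) = U (V (W x)))
    (ξ : H) (μ ν : Measure T2) [IsFiniteMeasure μ] [IsFiniteMeasure ν]
    (hμ : IsSpec Φ ξ μ) (hν : IsSpec Φ (W ξ) ν) :
    ν = μ.map (fun θ : T2 => (θ.1 - θ.2, θ.2)) := by
  let S : C(T2, T2) := ⟨fun θ => (θ.1 - θ.2, θ.2), by fun_prop⟩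
  refine d4_main Φ W S ?_ ?_ ξ μ ν hμ hν
  · intro x
    have k1 : V (Φ (e1.comp S) x) = U x := by
      rw [← d4_calc2 hΦ, ← d4_mul, d4_e2_mul S fun θ => sub_add_cancel θ.1 θ.2, d4_calc1 hΦ]
    have k2 : ∀ y, U (V y) = V (U y) := by
      intro y
      rw [← d4_calc1 hΦ, ← d4_calc2 hΦ, ← d4_mul, mul_comm, d4_mul, d4_calc1 hΦ, d4_calc2 hΦ]
    rw [d4_calc1 hΦ]
    apply V.injective
    rw [← k2, ← h2, ← h1, k1]
  · intro x
    rw [d4_e2_fix S fun _ => rfl, d4_calc2 hΦ, d4_calc2 hΦ, h1]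

theorem spec_shear_inv' (U V W : H ≃ₗᵢ[ℂ] H) (Φ : C(T2, ℂ) →⋆ₐ[ℂ] (H →L[ℂ] H))
    (hΦ : IsCalc U V Φ)
    (h1 : ∀ x, W (V x) = V (W x)) (h2 : ∀ x, W (U x) = U (V (W x)))
    (ξ : H) (μ ν : Measure T2) [IsFiniteMeasure μ] [IsFiniteMeasure ν]
    (hμ : IsSpec Φ ξ μ) (hν : IsSpec Φ (W.symm ξ) ν) :
    ν = μ.map (fun θ : T2 => (θ.1 + θ.2, θ.2)) := by
  let S : C(T2, T2) := ⟨fun θ => (θ.1 + θ.2, θ.2), by fun_prop⟩
  refine d4_main Φ W.symm S ?_ ?_ ξ μ ν hμ hν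
  · intro x
    apply W.injective
    rw [d4_e1_comp S fun _ => rfl, d4_mul, d4_calc2 hΦ, d4_calc1 hΦ, d4_calc1 hΦ, h2,
      LinearIsometryEquiv.apply_symm_apply, LinearIsometryEquiv.apply_symm_apply]
  · intro x
    apply W.injective
    rw [d4_e2_fix S fun _ => rfl, d4_calc2 hΦ, d4_calc2 hΦ, h1,
      LinearIsometryEquiv.apply_symm_apply, LinearIsometryEquiv.apply_symm_apply]

end Pool.Agent.Arch
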