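import Pool.Agent.Arch.D2

/-!
# D5: two integral estimates

(a) `‖U ξ - ξ‖² = ∫ |e(θ_1) - 1|² dμ` and `|e(θ) - 1|² = 2 - 2 cos 2πθ ≥ 2` when the distance
`‖θ‖` of `θ` to `0` in `R/Z` is at least `1/4`; hence `2 μ{‖θ_1‖ ≥ 1/4} ≤ ‖U ξ - ξ‖²`; same for `V`
and `θ_2`.
(b) `‖U^a V^b ξ - ξ‖² = ∫ |e(aθ_1 + bθ_2) - 1|² dμ ≤ 4 μ(T2 \ {0})`, the integrand vanishes at `0`
and is at most `4`.
(c) `μ(T2) = ‖ξ‖²` (take `f = 1`).
Proof of the identities: `‖Φ f ξ‖² = ⟪ξ, Φ(f* f) ξ⟫ = ∫ |f|² dμ` and `U^a V^b = Φ(e1^a e2^b)`.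
-/

namespace Pool.Agent.Arch

open MeasureTheory

variable {H : Type} [NormedAddCommGroup H] [InnerProductSpace ℂ H] [CompleteSpace H]

private lemma d5_norm_sq (Φ : C(T2, ℂ) →⋆ₐ[ℂ] (H →L[ℂ] H)) (ξ : H) (μ : Measure T2)
    (hμ : IsSpec Φ ξ μ) (f : C(T2, ℂ)) : ∫ θ, ‖f θ‖ ^ 2 ∂μ = ‖Φ f ξ‖ ^ 2 := by
  have h1 := hμ (star f * f)
  have h2 : inner ℂ ξ (Φ (star f * f) ξ) = ((‖Φ f ξ‖ ^ 2 : ℝ) : ℂ) := by
    rw [map_mul, map_star, mul_apply_eq_comp, ContinuousLinearMap.star_eq_adjoint,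
      ContinuousLinearMap.adjoint_inner_right, inner_self_eq_norm_sq_to_K]
    norm_cast
  have h3 : ∫ θ, (star f * f) θ ∂μ = ((∫ θ, ‖f θ‖ ^ 2 ∂μ : ℝ) : ℂ) := by
    rw [← integral_complex_ofReal]
    refine integral_congr_ae (Filter.Eventually.of_forall fun θ => ?_)
    change star (f θ) * f θ = ((‖f θ‖ ^ 2 : ℝ) : ℂ)
    rw [Complex.star_def, mul_comm, Complex.mul_conj, Complex.normSq_eq_norm_sq]
  rw [h2, h3] at h1
  exact_mod_cast h1

private lemma d5_integrable (μ : Measure T2) [IsFiniteMeasure μ] (f : C(T2, ℂ)) :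
    Integrable (fun θ => ‖f θ‖ ^ 2) μ := by
  have hc : Continuous fun θ => ‖f θ‖ ^ 2 := by fun_prop
  exact hc.integrable_of_hasCompactSupport (HasCompactSupport.of_compactSpace _)

theorem spec_univ (Φ : C(T2, ℂ) →⋆ₐ[ℂ] (H →L[ℂ] H)) (ξ : H) (μ : Measure T2)
    [IsFiniteMeasure μ] (hμ : IsSpec Φ ξ μ) : μ.real Set.univ = ‖ξ‖ ^ 2 := by
  have h := d5_norm_sq Φ ξ μ hμ 1
  rw [map_one, one_apply_eq_self] at h
  rw [← h]
  simp

/-- points of the circle far from `0` -/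
private lemma d5_far (t : UnitAddCircle) (ht : 1 / 4 ≤ ‖t‖) :
    2 ≤ ‖(fourier 1 t : ℂ) - 1‖ ^ 2 := by
  obtain ⟨x, rfl⟩ := QuotientAddGroup.mk_surjective t
  change 1 / 4 ≤ ‖(x : UnitAddCircle)‖ at ht
  rw [UnitAddCircle.norm_eq] at ht
  have h1 : |x - round x| ≤ 1 / 2 := abs_sub_round x
  have h2 : (fourier 1 (x : UnitAddCircle) : ℂ) = Complex.exp (((2 * Real.pi * x : ℝ) : ℂ) * Complex.I) := by
    rw [fourier_coe_apply]
    congr 1
    push_cast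
    ring
  have h3 : ‖(fourier 1 (x : UnitAddCircle) : ℂ) - 1‖ ^ 2 = 2 - 2 * Real.cos (2 * Real.pi * x) := by
    rw [h2, ← Complex.normSq_eq_norm_sq, Complex.exp_mul_I, Complex.normSq_apply]
    simp only [Complex.sub_re, Complex.add_re, Complex.mul_re, Complex.I_re, Complex.I_im,
      Complex.sub_im, Complex.add_im, Complex.mul_im, Complex.one_re, Complex.one_im,
      ← Complex.ofReal_cos, ← Complex.ofReal_sin, Complex.ofReal_re, Complex.ofReal_im]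
    have := Real.sin_sq_add_cos_sq (2 * Real.pi * x)
    nlinarith
  have h4 : Real.cos (2 * Real.pi * x) = Real.cos (2 * Real.pi * |x - round x|) := by
    have e : Real.cos (2 * Real.pi * (x - round x)) = Real.cos (2 * Real.pi * x) := by
      have : 2 * Real.pi * (x - round x) = 2 * Real.pi * x - (round x : ℤ) * (2 * Real.pi) := by
        ring
      rw [this, Real.cos_sub_int_mul_two_pi]
    rcases abs_choice (x - round x) with h | h
    · rw [h, e]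
    · rw [h, mul_neg, Real.cos_neg, e]
  have h5 : Real.cos (2 * Real.pi * |x - round x|) ≤ 0 := by
    have hp := Real.pi_pos
    refine Real.cos_nonpos_of_pi_div_two_le_of_le ?_ ?_
    · nlinarith
    · nlinarith
  rw [h3, h4]
  linarith

private lemma d5_cheb (μ : Measure T2) [IsFiniteMeasure μ] (f : C(T2, ℂ)) (S : Set T2)
    (hS : MeasurableSet S) (h : ∀ θ ∈ S, 2 ≤ ‖f θ‖ ^ 2) :
    2 * μ.real S ≤ ∫ θ, ‖f θ‖ ^ 2 ∂μ := by
  have h1 : ∫ θ, S.indicator (fun _ => (2 : ℝ)) θ ∂μ = 2 * μ.real S := by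
    rw [integral_indicator hS, setIntegral_const, smul_eq_mul, mul_comm]
  rw [← h1]
  refine integral_mono ((integrable_const _).indicator hS) (d5_integrable μ f) fun θ => ?_
  by_cases hθ : θ ∈ S
  · rw [Set.indicator_of_mem hθ]
    exact h θ hθ
  · rw [Set.indicator_of_notMem hθ]
    positivity

theorem spec_far1 (U V : H ≃ₗᵢ[ℂ] H) (Φ : C(T2, ℂ) →⋆ₐ[ℂ] (H →L[ℂ] H)) (hΦ : IsCalc U V Φ)
    (ξ : H) (μ : Measure T2) [IsFiniteMeasure μ] (hμ : IsSpec Φ ξ μ) :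
    2 * μ.real {θ : T2 | 1 / 4 ≤ ‖θ.1‖} ≤ ‖U ξ - ξ‖ ^ 2 := by
  have h := d5_norm_sq Φ ξ μ hμ (e1 - 1)
  have h1 : Φ (e1 - 1) ξ = U ξ - ξ := by
    rw [map_sub, map_one, hΦ.1]
    rfl
  rw [h1] at h
  rw [← h]
  refine d5_cheb μ _ _ (measurableSet_le measurable_const (by fun_prop)) fun θ hθ => ?_
  exact d5_far θ.1 hθ

theorem spec_far2 (U V : H ≃ₗᵢ[ℂ] H) (Φ : C(T2, ℂ) →⋆ₐ[ℂ] (H →L[ℂ] H)) (hΦ : IsCalc U V Φ)
    (ξ : H) (μ : Measure T2) [IsFiniteMeasure μ] (hμ : IsSpec Φ ξ μ) :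
    2 * μ.real {θ : T2 | 1 / 4 ≤ ‖θ.2‖} ≤ ‖V ξ - ξ‖ ^ 2 := by
  have h := d5_norm_sq Φ ξ μ hμ (e2 - 1)
  have h1 : Φ (e2 - 1) ξ = V ξ - ξ := by
    rw [map_sub, map_one, hΦ.2]
    rfl
  rw [h1] at h
  rw [← h]
  refine d5_cheb μ _ _ (measurableSet_le measurable_const (by fun_prop)) fun θ hθ => ?_
  exact d5_far θ.2 hθ

/-- powers under a multiplicative family -/
private lemma d5_zpow (Φ : C(T2, ℂ) →⋆ₐ[ℂ] (H →L[ℂ] H)) (U : H ≃ₗᵢ[ℂ] H) (E : ℤ → C(T2, ℂ))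
    (h0 : E 0 = 1) (hadd : ∀ m n, E (m + n) = E m * E n)
    (h1 : Φ (E 1) = (U.toContinuousLinearEquiv : H →L[ℂ] H)) (a : ℤ) :
    ∀ x, Φ (E a) x = (U ^ a) x := by
  have hU : ∀ x, Φ (E 1) x = U x := fun x => by
    rw [h1]
    rfl
  induction a using Int.induction_on with
  | zero =>
    intro x
    rw [h0, map_one, zpow_zero]
    rfl
  | succ n ih =>
    intro x
    rw [hadd, map_mul, mul_apply_eq_comp, ih, hU, zpow_add, zpow_one]
    rfl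
  | pred n ih =>
    intro x
    have h2 : Φ (E (-(n : ℤ) - 1)) x = Φ (E (-(n : ℤ))) (U⁻¹ x) := by
      have h3 : E (-(n : ℤ)) = E (-(n : ℤ) - 1) * E 1 := by
        rw [← hadd, sub_add_cancel]
      rw [h3, map_mul, mul_apply_eq_comp, hU]
      congr 1
      exact (U.apply_symm_apply x).symm
    rw [h2, ih, sub_eq_add_neg, zpow_add, zpow_neg_one]
    rfl

theorem spec_word (U V : H ≃ₗᵢ[ℂ] H) (Φ : C(T2, ℂ) →⋆ₐ[ℂ] (H →L[ℂ] H)) (hΦ : IsCalc U V Φ)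
    (ξ : H) (μ : Measure T2) [IsFiniteMeasure μ] (hμ : IsSpec Φ ξ μ) (a b : ℤ) :
    ‖(U ^ a) ((V ^ b) ξ) - ξ‖ ^ 2 ≤ 4 * μ.real ({0}ᶜ : Set T2) := by
  let E1 : ℤ → C(T2, ℂ) := fun n => (fourier n : C(UnitAddCircle, ℂ)).comp ContinuousMap.fst
  let E2 : ℤ → C(T2, ℂ) := fun n => (fourier n : C(UnitAddCircle, ℂ)).comp ContinuousMap.snd
  have hU := d5_zpow Φ U E1 (by ext θ; exact fourier_zero) (fun m n => by
    ext θ
    exact fourier_add) hΦ.1 a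
  have hV := d5_zpow Φ V E2 (by ext θ; exact fourier_zero) (fun m n => by
    ext θ
    exact fourier_add) hΦ.2 b
  have h := d5_norm_sq Φ ξ μ hμ (E1 a * E2 b - 1)
  have h1 : Φ (E1 a * E2 b - 1) ξ = (U ^ a) ((V ^ b) ξ) - ξ := by
    rw [map_sub, map_one, map_mul, ContinuousLinearMap.sub_apply, mul_apply_eq_comp,
      hV, hU]
    rfl
  rw [h1] at h
  rw [← h]
  have hS : MeasurableSet ({0}ᶜ : Set T2) := (measurableSet_singleton 0).compl
  have h2 : ∫ θ, ({0}ᶜ : Set T2).indicator (fun _ => (4 : ℝ)) θ ∂μ = 4 * μ.real ({0}ᶜ : Set T2) := by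
    rw [integral_indicator hS, setIntegral_const, smul_eq_mul, mul_comm]
  rw [← h2]
  refine integral_mono (d5_integrable μ _) ((integrable_const _).indicator hS) fun θ => ?_
  have hval : (E1 a * E2 b - 1) θ = (fourier a θ.1 : ℂ) * fourier b θ.2 - 1 := rfl
  by_cases hθ : θ = 0
  · rw [Set.indicator_of_notMem (by simpa using hθ)]
    change ‖(E1 a * E2 b - 1) θ‖ ^ 2 ≤ 0
    rw [hval, hθ]
    simp
  · rw [Set.indicator_of_mem (by simpa using hθ)]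
    change ‖(E1 a * E2 b - 1) θ‖ ^ 2 ≤ 4
    have h3 : ‖(E1 a * E2 b - 1) θ‖ ≤ 2 := by
      rw [hval]
      refine (norm_sub_le _ _).trans ?_
      rw [norm_mul, norm_one]
      have e1 : ‖(fourier a θ.1 : ℂ)‖ = 1 := by
        rw [fourier_apply]
        exact Circle.norm_coe _
      have e2 : ‖(fourier b θ.2 : ℂ)‖ = 1 := by
        rw [fourier_apply]
        exact Circle.norm_coe _
      rw [e1, e2]
      norm_num
    nlinarith [norm_nonneg ((E1 a * E2 b - 1) θ)]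

end Pool.Agent.Arch
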