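import Mathlib

/-!
# D6: Burger's lemma on the torus (pure measure theory)

Let `μ` be a finite measure on `T2 = (R/Z)^2`, almost invariant (`|μ(s⁻¹ B) - μ(B)| ≤ b`) under the
four shears, and with `μ{‖θ_1‖ ≥ 1/4 or ‖θ_2‖ ≥ 1/4} ≤ a`. Then `μ(T2 \ {0}) ≤ 4 b + 3 a`.

Proof. Let `π : R² → T2` be the projection, `Q = {x > 0, y ≥ 0} ∪ {x < 0, y ≤ 0}` and
`B = π(Q ∩ (-1/4,1/4)²)`. The map `u(x,y) = (x+y, y)` maps `Q` onto `{x > y ≥ 0} ∪ {x < y ≤ 0}` and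
`v(x,y) = (x, x+y)` maps `Q` onto `{y ≥ x > 0} ∪ {y ≤ x < 0}`: disjoint, with union `Q`. As `π` is
injective on `(-1/2,1/2)²`, the sets `uB` and `vB` are disjoint subsets of
`π(Q ∩ (-1/2,1/2)²) ⊆ B ∪ {‖θ_1‖ ≥ 1/4 or ‖θ_2‖ ≥ 1/4}`. So `μ(uB) + μ(vB) ≤ μ(B) + a`, while
`μ(uB), μ(vB) ≥ μ(B) - b`; hence `μ(B) ≤ 2b + a`. Let `Q' = {x ≤ 0, y > 0} ∪ {x ≥ 0, y < 0}`, the
complement of `Q` and `0`. Same with `u⁻¹`, `v⁻¹`: `u⁻¹ Q' = {(x-y, y)}`: `{x' ≤ -y', y' > 0}` and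
antipodes; `v⁻¹ Q' = {(x, y-x)}`: `{x' ≤ 0, y' > -x'}` and antipodes, i.e. `{-y' < x' ≤ 0}`;
disjoint with union `Q'`. So `μ(B') ≤ 2b + a`. Finally `T2 \ {0}` is the union of `B`, `B'` and the
far set. A convenient way to handle `B`: describe sets of `T2` through the representative in
`[-1/2, 1/2)` (`AddCircle.equivIco`), e.g. `B = {θ | (r θ_1, r θ_2) ∈ Q ∩ (-1/4,1/4)²}` with
`r θ` the representative; for `θ` in `B`, `r (θ_1 + θ_2) = r θ_1 + r θ_2`.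
-/

namespace Pool.Agent.Arch

open MeasureTheory

/-- the representative in `[-1/2, 1/2)` -/
private noncomputable def d6_r (θ : UnitAddCircle) : ℝ :=
  (AddCircle.equivIco (1 : ℝ) (-1 / 2) θ : ℝ)

private theorem d6_mem (θ : UnitAddCircle) : -1 / 2 ≤ d6_r θ ∧ d6_r θ < 1 / 2 := by
  have h := (AddCircle.equivIco (1 : ℝ) (-1 / 2) θ).2
  refine ⟨h.1, ?_⟩
  have h2 := h.2
  change d6_r θ < -1 / 2 + 1 at h2
  linarith

private theorem d6_coe (θ : UnitAddCircle) : ((d6_r θ : ℝ) : UnitAddCircle) = θ :=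
  AddCircle.coe_equivIco

private theorem d6_eq {x : ℝ} (h1 : -1 / 2 ≤ x) (h2 : x < 1 / 2) :
    d6_r (x : UnitAddCircle) = x := by
  have hx : x ∈ Set.Ico (-1 / 2 : ℝ) (-1 / 2 + 1) := ⟨h1, by linarith⟩
  have h := AddCircle.equivIco_coe_eq (p := (1 : ℝ)) hx
  exact congrArg Subtype.val h

private theorem d6_norm (θ : UnitAddCircle) : ‖θ‖ = |d6_r θ| := by
  have h := d6_mem θ
  have h1 : |d6_r θ| ≤ |(1 : ℝ)| / 2 := by
    rw [abs_one, abs_le]
    constructor <;> linarith [h.1, h.2]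
  have h2 := (AddCircle.norm_coe_eq_abs_iff (p := (1 : ℝ)) one_ne_zero).2 h1
  calc ‖θ‖ = ‖((d6_r θ : ℝ) : UnitAddCircle)‖ := by rw [d6_coe]
    _ = |d6_r θ| := h2

private theorem d6_add {α β : UnitAddCircle} (hα : |d6_r α| < 1 / 4) (hβ : |d6_r β| < 1 / 4) :
    d6_r (α + β) = d6_r α + d6_r β := by
  rw [abs_lt] at hα hβ
  have h : ((d6_r α + d6_r β : ℝ) : UnitAddCircle) = α + β := by
    rw [AddCircle.coe_add, d6_coe, d6_coe]
  rw [← h]
  exact d6_eq (by linarith [hα.1, hβ.1]) (by linarith [hα.2, hβ.2])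

private theorem d6_neg {β : UnitAddCircle} (hβ : |d6_r β| < 1 / 4) :
    d6_r (-β) = -d6_r β := by
  rw [abs_lt] at hβ
  have h : ((-d6_r β : ℝ) : UnitAddCircle) = -β := by
    rw [AddCircle.coe_neg, d6_coe]
  rw [← h]
  exact d6_eq (by linarith [hβ.2]) (by linarith [hβ.1])

private theorem d6_zero {θ : UnitAddCircle} (h : d6_r θ = 0) : θ = 0 := by
  rw [← d6_coe θ, h]
  rfl

private theorem d6_meas : Measurable d6_r :=
  measurable_subtype_coe.comp (AddCircle.measurableEquivIco (1 : ℝ) (-1 / 2)).measurable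

/-- the set of the `(x, y)` in `Q`, `|x| < 1/4`, `|y| < 1/4` -/
private def d6_Q : Set (ℝ × ℝ) :=
  {p | (|p.1| < 1 / 4 ∧ |p.2| < 1 / 4) ∧ ((0 < p.1 ∧ 0 ≤ p.2) ∨ (p.1 < 0 ∧ p.2 ≤ 0))}

/-- the set of the `(x, y)` in `Q'`, `|x| < 1/4`, `|y| < 1/4` -/
private def d6_Q' : Set (ℝ × ℝ) :=
  {p | (|p.1| < 1 / 4 ∧ |p.2| < 1 / 4) ∧ ((p.1 ≤ 0 ∧ 0 < p.2) ∨ (0 ≤ p.1 ∧ p.2 < 0))}

private theorem d6_mQ : MeasurableSet d6_Q := by
  have h1 : Measurable fun p : ℝ × ℝ => p.1 := measurable_fst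
  have h2 : Measurable fun p : ℝ × ℝ => p.2 := measurable_snd
  have h3 : Measurable fun p : ℝ × ℝ => |p.1| := continuous_fst.abs.measurable
  have h4 : Measurable fun p : ℝ × ℝ => |p.2| := continuous_snd.abs.measurable
  exact ((measurableSet_lt h3 measurable_const).inter (measurableSet_lt h4 measurable_const)).inter
    (((measurableSet_lt measurable_const h1).inter (measurableSet_le measurable_const h2)).union
      ((measurableSet_lt h1 measurable_const).inter (measurableSet_le h2 measurable_const)))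

private theorem d6_mQ' : MeasurableSet d6_Q' := by
  have h1 : Measurable fun p : ℝ × ℝ => p.1 := measurable_fst
  have h2 : Measurable fun p : ℝ × ℝ => p.2 := measurable_snd
  have h3 : Measurable fun p : ℝ × ℝ => |p.1| := continuous_fst.abs.measurable
  have h4 : Measurable fun p : ℝ × ℝ => |p.2| := continuous_snd.abs.measurable
  exact ((measurableSet_lt h3 measurable_const).inter (measurableSet_lt h4 measurable_const)).inter
    (((measurableSet_le h1 measurable_const).inter (measurableSet_lt measurable_const h2)).union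
      ((measurableSet_le measurable_const h1).inter (measurableSet_lt h2 measurable_const)))

private noncomputable def d6_R (θ : UnitAddCircle × UnitAddCircle) : ℝ × ℝ :=
  (d6_r θ.1, d6_r θ.2)

private theorem d6_mR : Measurable d6_R :=
  (d6_meas.comp measurable_fst).prodMk (d6_meas.comp measurable_snd)

/-- two disjoint sets with union in `B ∪ F` -/
private theorem d6_two {μ : Measure (UnitAddCircle × UnitAddCircle)} [IsFiniteMeasure μ]
    {a b : ℝ} {B F S T : Set (UnitAddCircle × UnitAddCircle)} (ha : μ.real F ≤ a)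
    (hS : |μ.real S - μ.real B| ≤ b) (hT : |μ.real T - μ.real B| ≤ b) (hmT : MeasurableSet T)
    (hd : Disjoint S T) (hST : S ∪ T ⊆ B ∪ F) : μ.real B ≤ 2 * b + a := by
  have h1 := measureReal_union (μ := μ) hd hmT
  have h2 : μ.real (S ∪ T) ≤ μ.real (B ∪ F) := measureReal_mono hST
  have h3 := measureReal_union_le (μ := μ) B F
  have h4 := (abs_le.1 hS).1
  have h5 := (abs_le.1 hT).1
  linarith

theorem burger (μ : Measure (UnitAddCircle × UnitAddCircle)) [IsFiniteMeasure μ] (a b : ℝ)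
    (ha : μ.real {θ | 1 / 4 ≤ ‖θ.1‖ ∨ 1 / 4 ≤ ‖θ.2‖} ≤ a)
    (h1 : ∀ B : Set (UnitAddCircle × UnitAddCircle), MeasurableSet B →
      |μ.real ((fun θ => (θ.1, θ.2 - θ.1)) ⁻¹' B) - μ.real B| ≤ b)
    (h2 : ∀ B : Set (UnitAddCircle × UnitAddCircle), MeasurableSet B →
      |μ.real ((fun θ => (θ.1, θ.2 + θ.1)) ⁻¹' B) - μ.real B| ≤ b)
    (h3 : ∀ B : Set (UnitAddCircle × UnitAddCircle), MeasurableSet B →
      |μ.real ((fun θ => (θ.1 - θ.2, θ.2)) ⁻¹' B) - μ.real B| ≤ b)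
    (h4 : ∀ B : Set (UnitAddCircle × UnitAddCircle), MeasurableSet B →
      |μ.real ((fun θ => (θ.1 + θ.2, θ.2)) ⁻¹' B) - μ.real B| ≤ b) :
    μ.real ({0}ᶜ : Set (UnitAddCircle × UnitAddCircle)) ≤ 4 * b + 3 * a := by
  set F : Set (UnitAddCircle × UnitAddCircle) := {θ | 1 / 4 ≤ ‖θ.1‖ ∨ 1 / 4 ≤ ‖θ.2‖} with hF
  have hfar : ∀ θ : UnitAddCircle × UnitAddCircle, θ ∉ F → |d6_r θ.1| < 1 / 4 ∧
      |d6_r θ.2| < 1 / 4 := by
    intro θ hθ
    rw [hF, Set.mem_setOf_eq, not_or, not_le, not_le, d6_norm, d6_norm] at hθ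
    exact hθ
  have hmB : MeasurableSet (d6_R ⁻¹' d6_Q) := d6_mR d6_mQ
  have hmB' : MeasurableSet (d6_R ⁻¹' d6_Q') := d6_mR d6_mQ'
  -- the sets `B` and its images
  have hB : μ.real (d6_R ⁻¹' d6_Q) ≤ 2 * b + a := by
    refine d6_two (S := (fun θ : UnitAddCircle × UnitAddCircle => (θ.1 - θ.2, θ.2)) ⁻¹'
      (d6_R ⁻¹' d6_Q)) (T := (fun θ : UnitAddCircle × UnitAddCircle => (θ.1, θ.2 - θ.1)) ⁻¹'
      (d6_R ⁻¹' d6_Q)) ha (h3 _ hmB) (h1 _ hmB) ?_ ?_ ?_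
    · exact (measurable_fst.prodMk (measurable_snd.sub measurable_fst)) hmB
    · rw [Set.disjoint_left]
      rintro ⟨p, q⟩ hS hT
      obtain ⟨⟨s1, s2⟩, s3⟩ := hS
      obtain ⟨⟨t1, t2⟩, t3⟩ := hT
      change |d6_r (p - q)| < 1 / 4 at s1
      change |d6_r q| < 1 / 4 at s2
      change (0 < d6_r (p - q) ∧ 0 ≤ d6_r q) ∨ (d6_r (p - q) < 0 ∧ d6_r q ≤ 0) at s3
      change |d6_r p| < 1 / 4 at t1
      change |d6_r (q - p)| < 1 / 4 at t2
      change (0 < d6_r p ∧ 0 ≤ d6_r (q - p)) ∨ (d6_r p < 0 ∧ d6_r (q - p) ≤ 0) at t3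
      have e1 := d6_add s1 s2
      have e2 := d6_add t2 t1
      rw [sub_add_cancel] at e1 e2
      rcases s3 with ⟨u1, u2⟩ | ⟨u1, u2⟩ <;> rcases t3 with ⟨w1, w2⟩ | ⟨w1, w2⟩ <;> linarith
    · rintro ⟨p, q⟩ hθ
      by_cases hn : (p, q) ∈ F
      · exact Or.inr hn
      left
      obtain ⟨n1, n2⟩ := hfar _ hn
      change |d6_r p| < 1 / 4 at n1
      change |d6_r q| < 1 / 4 at n2
      refine ⟨⟨n1, n2⟩, ?_⟩
      change (0 < d6_r p ∧ 0 ≤ d6_r q) ∨ (d6_r p < 0 ∧ d6_r q ≤ 0)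
      rcases hθ with ⟨⟨s1, s2⟩, s3⟩ | ⟨⟨t1, t2⟩, t3⟩
      · change |d6_r (p - q)| < 1 / 4 at s1
        change |d6_r q| < 1 / 4 at s2
        change (0 < d6_r (p - q) ∧ 0 ≤ d6_r q) ∨ (d6_r (p - q) < 0 ∧ d6_r q ≤ 0) at s3
        have e1 := d6_add s1 s2
        rw [sub_add_cancel] at e1
        rcases s3 with ⟨u1, u2⟩ | ⟨u1, u2⟩
        · left
          constructor <;> linarith
        · right
          constructor <;> linarith
      · change |d6_r p| < 1 / 4 at t1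
        change |d6_r (q - p)| < 1 / 4 at t2
        change (0 < d6_r p ∧ 0 ≤ d6_r (q - p)) ∨ (d6_r p < 0 ∧ d6_r (q - p) ≤ 0) at t3
        have e2 := d6_add t2 t1
        rw [sub_add_cancel] at e2
        rcases t3 with ⟨w1, w2⟩ | ⟨w1, w2⟩
        · left
          constructor <;> linarith
        · right
          constructor <;> linarith
  have hB' : μ.real (d6_R ⁻¹' d6_Q') ≤ 2 * b + a := by
    refine d6_two (S := (fun θ : UnitAddCircle × UnitAddCircle => (θ.1 + θ.2, θ.2)) ⁻¹'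
      (d6_R ⁻¹' d6_Q')) (T := (fun θ : UnitAddCircle × UnitAddCircle => (θ.1, θ.2 + θ.1)) ⁻¹'
      (d6_R ⁻¹' d6_Q')) ha (h4 _ hmB') (h2 _ hmB') ?_ ?_ ?_
    · exact (measurable_fst.prodMk (measurable_snd.add measurable_fst)) hmB'
    · rw [Set.disjoint_left]
      rintro ⟨p, q⟩ hS hT
      obtain ⟨⟨s1, s2⟩, s3⟩ := hS
      obtain ⟨⟨t1, t2⟩, t3⟩ := hT
      change |d6_r (p + q)| < 1 / 4 at s1
      change |d6_r q| < 1 / 4 at s2
      change (d6_r (p + q) ≤ 0 ∧ 0 < d6_r q) ∨ (0 ≤ d6_r (p + q) ∧ d6_r q < 0) at s3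
      change |d6_r p| < 1 / 4 at t1
      change |d6_r (q + p)| < 1 / 4 at t2
      change (d6_r p ≤ 0 ∧ 0 < d6_r (q + p)) ∨ (0 ≤ d6_r p ∧ d6_r (q + p) < 0) at t3
      rw [add_comm q p] at t3
      rcases s3 with ⟨u1, u2⟩ | ⟨u1, u2⟩ <;> rcases t3 with ⟨w1, w2⟩ | ⟨w1, w2⟩
      · linarith
      · have e := d6_add t1 s2
        linarith
      · have e := d6_add t1 s2
        linarith
      · linarith
    · rintro ⟨p, q⟩ hθ
      by_cases hn : (p, q) ∈ F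
      · exact Or.inr hn
      left
      obtain ⟨n1, n2⟩ := hfar _ hn
      change |d6_r p| < 1 / 4 at n1
      change |d6_r q| < 1 / 4 at n2
      have e := d6_add n1 n2
      refine ⟨⟨n1, n2⟩, ?_⟩
      change (d6_r p ≤ 0 ∧ 0 < d6_r q) ∨ (0 ≤ d6_r p ∧ d6_r q < 0)
      rcases hθ with ⟨-, s3⟩ | ⟨-, t3⟩
      · change (d6_r (p + q) ≤ 0 ∧ 0 < d6_r q) ∨ (0 ≤ d6_r (p + q) ∧ d6_r q < 0) at s3
        rcases s3 with ⟨u1, u2⟩ | ⟨u1, u2⟩
        · left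
          constructor <;> linarith
        · right
          constructor <;> linarith
      · change (d6_r p ≤ 0 ∧ 0 < d6_r (q + p)) ∨ (0 ≤ d6_r p ∧ d6_r (q + p) < 0) at t3
        rw [add_comm q p] at t3
        rcases t3 with ⟨w1, w2⟩ | ⟨w1, w2⟩
        · left
          constructor <;> linarith
        · right
          constructor <;> linarith
  have hsub : ({0}ᶜ : Set (UnitAddCircle × UnitAddCircle)) ⊆
      (d6_R ⁻¹' d6_Q ∪ d6_R ⁻¹' d6_Q') ∪ F := by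
    rintro ⟨p, q⟩ hθ
    by_cases hn : (p, q) ∈ F
    · exact Or.inr hn
    left
    obtain ⟨n1, n2⟩ := hfar _ hn
    change |d6_r p| < 1 / 4 at n1
    change |d6_r q| < 1 / 4 at n2
    rcases lt_trichotomy (d6_r p) 0 with hp | hp | hp
    · rcases le_or_gt (d6_r q) 0 with hq | hq
      · exact Or.inl ⟨⟨n1, n2⟩, Or.inr ⟨hp, hq⟩⟩
      · exact Or.inr ⟨⟨n1, n2⟩, Or.inl ⟨hp.le, hq⟩⟩
    · rcases lt_trichotomy (d6_r q) 0 with hq | hq | hq
      · exact Or.inr ⟨⟨n1, n2⟩, Or.inr ⟨hp.ge, hq⟩⟩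
      · exact absurd (Prod.ext (d6_zero hp) (d6_zero hq)) hθ
      · exact Or.inr ⟨⟨n1, n2⟩, Or.inl ⟨hp.le, hq⟩⟩
    · rcases le_or_gt 0 (d6_r q) with hq | hq
      · exact Or.inl ⟨⟨n1, n2⟩, Or.inl ⟨hp, hq⟩⟩
      · exact Or.inr ⟨⟨n1, n2⟩, Or.inr ⟨hp.le, hq⟩⟩
  have g1 : μ.real ({0}ᶜ : Set (UnitAddCircle × UnitAddCircle)) ≤
      μ.real ((d6_R ⁻¹' d6_Q ∪ d6_R ⁻¹' d6_Q') ∪ F) := measureReal_mono hsub
  have g2 := measureReal_union_le (μ := μ) (d6_R ⁻¹' d6_Q ∪ d6_R ⁻¹' d6_Q') F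
  have g3 := measureReal_union_le (μ := μ) (d6_R ⁻¹' d6_Q) (d6_R ⁻¹' d6_Q')
  linarith

end Pool.Agent.Arch
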