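import Pool.Agent.Arch.D3
import Pool.Agent.Arch.D4
import Pool.Agent.Arch.D5
import Pool.Agent.Arch.D6

/-!
# D7: relative property (T) as a statement on four unitaries

Proof. Take `Φ` (D1) and the spectral measures of `ξ`, `W ξ`, `W⁻¹ ξ`, `W' ξ`, `W'⁻¹ ξ` (D2). By
D4 they are images of `μ` (the measure of `ξ`) under the shears, and by D3
`|μ(s⁻¹ B) - μ(B)| ≤ (‖ξ‖ + ‖W ξ‖) ‖W ξ - ξ‖ ≤ 2 ε ‖ξ‖²` (`‖W⁻¹ ξ - ξ‖ = ‖ξ - W ξ‖`). D5: the far set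
has measure at most `ε² ‖ξ‖²`. D6 with `a = ε² ‖ξ‖²`, `b = 2 ε ‖ξ‖²`:
`μ(T2 \ {0}) ≤ (8 ε + 3 ε²) ‖ξ‖²`; D5 (b).
-/

namespace Pool.Agent.Arch

open MeasureTheory

variable {H : Type} [NormedAddCommGroup H] [InnerProductSpace ℂ H] [CompleteSpace H]

/-- One shear: the spectral measure of `ξ` is almost invariant. -/
private theorem d7_shear (Φ : C(T2, ℂ) →⋆ₐ[ℂ] (H →L[ℂ] H)) (ξ η : H) (μ : Measure T2)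
    [IsFiniteMeasure μ] (hμ : IsSpec Φ ξ μ) (s : T2 → T2) (hs : Measurable s)
    (hmap : ∀ ν : Measure T2, IsFiniteMeasure ν → IsSpec Φ η ν → ν = μ.map s)
    (hn : ‖η‖ = ‖ξ‖) (ε : ℝ) (hd : ‖η - ξ‖ ≤ ε * ‖ξ‖) (B : Set T2) (hB : MeasurableSet B) :
    |μ.real (s ⁻¹' B) - μ.real B| ≤ 2 * ε * ‖ξ‖ ^ 2 := by
  obtain ⟨ν, hνf, hν⟩ := exists_spec Φ η
  have hm := hmap ν hνf hν
  have h1 : ν.real B = μ.real (s ⁻¹' B) := by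
    rw [hm, measureReal_def, Measure.map_apply hs hB, measureReal_def]
  rw [← h1]
  refine (spec_close Φ η ξ ν μ hν hμ B hB).trans ?_
  rw [hn]
  have h0 : 0 ≤ ‖ξ‖ := norm_nonneg _
  nlinarith [mul_le_mul_of_nonneg_left hd (by positivity : 0 ≤ ‖ξ‖ + ‖ξ‖)]

theorem relT (U V W W' : H ≃ₗᵢ[ℂ] H) (hUV : ∀ x, U (V x) = V (U x))
    (h1 : ∀ x, W (U x) = U (W x)) (h2 : ∀ x, W (V x) = U (V (W x)))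
    (h3 : ∀ x, W' (V x) = V (W' x)) (h4 : ∀ x, W' (U x) = U (V (W' x)))
    (ξ : H) (ε : ℝ) (hε : 0 ≤ ε)
    (hU : ‖U ξ - ξ‖ ≤ ε * ‖ξ‖) (hV : ‖V ξ - ξ‖ ≤ ε * ‖ξ‖)
    (hW : ‖W ξ - ξ‖ ≤ ε * ‖ξ‖) (hW' : ‖W' ξ - ξ‖ ≤ ε * ‖ξ‖) (a b : ℤ) :
    ‖(U ^ a) ((V ^ b) ξ) - ξ‖ ^ 2 ≤ (32 * ε + 12 * ε ^ 2) * ‖ξ‖ ^ 2 := by
  obtain ⟨Φ, hΦ⟩ := exists_calc U V hUV
  obtain ⟨μ, hμf, hμ⟩ := exists_spec Φ ξ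
  have hinv : ∀ X : H ≃ₗᵢ[ℂ] H, ‖X ξ - ξ‖ ≤ ε * ‖ξ‖ → ‖X.symm ξ - ξ‖ ≤ ε * ‖ξ‖ := by
    intro X hX
    have : ‖X.symm ξ - ξ‖ = ‖X ξ - ξ‖ := by
      rw [← X.norm_map (X.symm ξ - ξ), map_sub, X.apply_symm_apply, norm_sub_rev]
    rw [this]; exact hX
  have hfar : μ.real {θ : T2 | 1 / 4 ≤ ‖θ.1‖ ∨ 1 / 4 ≤ ‖θ.2‖} ≤ ε ^ 2 * ‖ξ‖ ^ 2 := by
    have e1 := spec_far1 U V Φ hΦ ξ μ hμ
    have e2 := spec_far2 U V Φ hΦ ξ μ hμ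
    have e3 : μ.real {θ : T2 | 1 / 4 ≤ ‖θ.1‖ ∨ 1 / 4 ≤ ‖θ.2‖} ≤
        μ.real {θ : T2 | 1 / 4 ≤ ‖θ.1‖} + μ.real {θ : T2 | 1 / 4 ≤ ‖θ.2‖} := by
      rw [Set.ofPred_or]
      exact measureReal_union_le _ _
    have f1 : ‖U ξ - ξ‖ ^ 2 ≤ ε ^ 2 * ‖ξ‖ ^ 2 := by
      rw [← mul_pow]; exact pow_le_pow_left₀ (norm_nonneg _) hU 2
    have f2 : ‖V ξ - ξ‖ ^ 2 ≤ ε ^ 2 * ‖ξ‖ ^ 2 := by
      rw [← mul_pow]; exact pow_le_pow_left₀ (norm_nonneg _) hV 2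
    linarith
  have hb := burger μ (ε ^ 2 * ‖ξ‖ ^ 2) (2 * ε * ‖ξ‖ ^ 2) hfar
    (fun B hB => d7_shear Φ ξ (W ξ) μ hμ _ (by fun_prop)
      (fun ν hνf hν => spec_shear U V W Φ hΦ h1 h2 ξ μ ν hμ hν) (W.norm_map ξ) ε hW B hB)
    (fun B hB => d7_shear Φ ξ (W.symm ξ) μ hμ _ (by fun_prop)
      (fun ν hνf hν => spec_shear_inv U V W Φ hΦ h1 h2 ξ μ ν hμ hν) (W.symm.norm_map ξ) ε
      (hinv W hW) B hB)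
    (fun B hB => d7_shear Φ ξ (W' ξ) μ hμ _ (by fun_prop)
      (fun ν hνf hν => spec_shear' U V W' Φ hΦ h3 h4 ξ μ ν hμ hν) (W'.norm_map ξ) ε hW' B hB)
    (fun B hB => d7_shear Φ ξ (W'.symm ξ) μ hμ _ (by fun_prop)
      (fun ν hνf hν => spec_shear_inv' U V W' Φ hΦ h3 h4 ξ μ ν hμ hν) (W'.symm.norm_map ξ) ε
      (hinv W' hW') B hB)
  have hw := spec_word U V Φ hΦ ξ μ hμ a b
  refine hw.trans ?_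
  nlinarith

end Pool.Agent.Arch
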