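import Mathlib

/-!
# Archimedean orders on Z^n: definitions

The positive cone of an Archimedean group order on `Z^n` is a point of the Cantor space
`2^(Z^n)`; `GL_n(Z)` acts on these cones by `A . P = A(P)`, and `ERel n` is the orbit
equivalence relation.
-/

namespace Pool.Agent.Arch

open MeasureTheory Matrix

/-- `P` is the positive cone of an Archimedean group order on `Z^n`
(`P x = true` means `0 < x`). -/
structure IsArch {n : ℕ} (P : (Fin n → ℤ) → Bool) : Prop where
  zero : P 0 = false
  add : ∀ x y, P x = true → P y = true → P (x + y) = true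
  total : ∀ x, x ≠ 0 → P x = true ∨ P (-x) = true
  arch : ∀ x y, P x = true → ∃ k : ℕ, P (k • x - y) = true

/-- The standard Borel space `Ar(Z^n)`, a subspace of the Cantor space `2^(Z^n)`. -/
abbrev Ar (n : ℕ) : Type := {P : (Fin n → ℤ) → Bool // IsArch P}

/-- `E_n`: `P E_n Q` iff `A(P) = Q` for some `A` in `GL_n(Z)`. -/
def ERel (n : ℕ) (P Q : Ar n) : Prop :=
  ∃ A : GL (Fin n) ℤ, ∀ x : Fin n → ℤ, Q.1 (A.1.mulVec x) = P.1 x

/-- Borel reducibility of a relation `R` on `X` to a relation `S` on `Y`. -/
def BorelRed {X Y : Type} [MeasurableSpace X] [MeasurableSpace Y]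
    (R : X → X → Prop) (S : Y → Y → Prop) : Prop :=
  ∃ f : X → Y, Measurable f ∧ ∀ x x', R x x' ↔ S (f x) (f x')

end Pool.Agent.Arch
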