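import Pool.Agent.Arch.Basic

/-!
# E1: bounded generation of Q00 by elementary matrices

Every `h` in `Q00 k` is a product of at most `K` (depending on `k` only) elementary matrices
`elemR j i r` with `j ≠ 0, 1`.

Proof. `h` has rows `e_0`, `e_1` and then `(B | A)` with `det A = 1`. Row operations on the
rows `≥ 2` are left multiplications by `elemR j i r`, `j ≥ 2`. Gaussian elimination: bring `A` to
the identity with boundedly many operations `row j += r row i`, `i, j ≥ 2` (for each column in
turn: make some other entry of the column nonzero if necessary, then the pivot equal to `1` using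
one operation, then clear the column; the last pivot is automatically `1` because the
determinant is one). Then `2k` operations `row j += r row 0/1` clear `B`. The inverse of an
elementary matrix is elementary. A convenient formulation: let `S N` be the set of products of
at most `N` elementary matrices of the allowed kind; `S N * S M ⊆ S (N + M)`, `(S N)⁻¹ = S N`; show by
induction on the number of columns already cleared that `h ∈ S (K_c)`.
For `k = 0`, `Q00 0 = {1}`; for `k = 1` only `B` has to be cleared.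
-/

namespace Pool.Agent.Arch

open Matrix

/-- `e` is one of the allowed elementary matrices -/
private def e1_E (k : ℕ) (e : SLR (k + 2)) : Prop :=
  ∃ (j i : Fin (k + 2)) (hji : j ≠ i), j ≠ 0 ∧ j ≠ 1 ∧ ∃ r : ℝ, e = elemR j i hji r

/-- `h'` is reached from `h` by at most `N` allowed row operations -/
private def e1_R (k N : ℕ) (h h' : SLR (k + 2)) : Prop :=
  ∃ l : List (SLR (k + 2)), l.length ≤ N ∧ (∀ e ∈ l, e1_E k e) ∧ h' = l.prod * h

private theorem e1_R_refl (k : ℕ) (h : SLR (k + 2)) : e1_R k 0 h h :=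
  ⟨[], le_rfl, by simp, by simp⟩

private theorem e1_R_trans {k N M : ℕ} {a b c : SLR (k + 2)} (h1 : e1_R k N a b)
    (h2 : e1_R k M b c) : e1_R k (N + M) a c := by
  obtain ⟨l1, hl1, he1, hb⟩ := h1
  obtain ⟨l2, hl2, he2, hc⟩ := h2
  refine ⟨l2 ++ l1, ?_, ?_, ?_⟩
  · rw [List.length_append]; omega
  · intro e he
    rcases List.mem_append.1 he with he | he
    · exact he2 e he
    · exact he1 e he
  · rw [hc, hb, List.prod_append, mul_assoc]

private theorem e1_R_mono {k N M : ℕ} {a b : SLR (k + 2)} (h1 : e1_R k N a b)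
    (h : N ≤ M) : e1_R k M a b := by
  obtain ⟨l, hl, he, hb⟩ := h1
  exact ⟨l, hl.trans h, he, hb⟩

private theorem e1_R_step {k : ℕ} (h : SLR (k + 2)) (j i : Fin (k + 2)) (hji : j ≠ i)
    (h0 : j ≠ 0) (h1 : j ≠ 1) (r : ℝ) : e1_R k 1 h (elemR j i hji r * h) := by
  refine ⟨[elemR j i hji r], by simp, ?_, by simp⟩
  intro e he
  rw [List.mem_singleton] at he
  exact ⟨j, i, hji, h0, h1, r, he⟩

private theorem e1_entry {m : ℕ} (j i : Fin m) (hji : j ≠ i) (r : ℝ) (h : SLR m)
    (a b : Fin m) :
    (elemR j i hji r * h).1 a b = if a = j then h.1 a b + r * h.1 i b else h.1 a b := by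
  rw [Matrix.SpecialLinearGroup.coe_mul]
  change (Matrix.transvection j i r * h.1) a b = _
  by_cases haj : a = j
  · subst haj
    rw [if_pos rfl, Matrix.transvection_mul_apply_same]
  · rw [if_neg haj, Matrix.transvection_mul_apply_of_ne _ _ _ _ haj]

/-- add multiples of row `i` to all the rows in `s` -/
private theorem e1_clear {k : ℕ} (h : SLR (k + 2)) (i : Fin (k + 2)) (c : Fin (k + 2) → ℝ)
    (s : Finset (Fin (k + 2))) (hi : i ∉ s) (h0 : (0 : Fin (k + 2)) ∉ s)
    (h1 : (1 : Fin (k + 2)) ∉ s) :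
    ∃ h' : SLR (k + 2), e1_R k s.card h h' ∧
      ∀ a b, h'.1 a b = if a ∈ s then h.1 a b + c a * h.1 i b else h.1 a b := by
  classical
  induction s using Finset.induction_on with
  | empty => exact ⟨h, by simpa using e1_R_refl k h, by intro a b; simp⟩
  | insert j s hj ih =>
    have hi' : i ≠ j ∧ i ∉ s := by
      rw [Finset.mem_insert, not_or] at hi
      exact hi
    have h0' : (0 : Fin (k + 2)) ≠ j ∧ (0 : Fin (k + 2)) ∉ s := by
      rw [Finset.mem_insert, not_or] at h0
      exact h0
    have h1' : (1 : Fin (k + 2)) ≠ j ∧ (1 : Fin (k + 2)) ∉ s := by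
      rw [Finset.mem_insert, not_or] at h1
      exact h1
    obtain ⟨h', hR, hh'⟩ := ih hi'.2 h0'.2 h1'.2
    refine ⟨elemR j i hi'.1.symm (c j) * h', ?_, ?_⟩
    · rw [Finset.card_insert_of_notMem hj]
      exact e1_R_trans hR (e1_R_step h' j i hi'.1.symm h0'.1.symm h1'.1.symm (c j))
    · intro a b
      rw [e1_entry]
      by_cases haj : a = j
      · subst haj
        rw [if_pos rfl, if_pos (Finset.mem_insert_self _ _), hh' a b, if_neg hj, hh' i b,
          if_neg hi'.2]
      · rw [if_neg haj, hh' a b]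
        by_cases has : a ∈ s
        · rw [if_pos has, if_pos (Finset.mem_insert_of_mem has)]
        · rw [if_neg has, if_neg]
          rw [Finset.mem_insert, not_or]
          exact ⟨haj, has⟩

/-- the first `t` columns are unit vectors -/
private def e1_Cl {k : ℕ} (t : ℕ) (h : SLR (k + 2)) : Prop :=
  ∀ i : Fin (k + 2), (i : ℕ) < t → ∀ j, h.1 j i = if j = i then 1 else 0

/-- the rows `0` and `1` are unit vectors -/
private def e1_Ro {k : ℕ} (h : SLR (k + 2)) : Prop :=
  (∀ i, h.1 0 i = if (0 : Fin (k + 2)) = i then 1 else 0) ∧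
    (∀ i, h.1 1 i = if (1 : Fin (k + 2)) = i then 1 else 0)

/-- clearing the column `i` with pivot one -/
private theorem e1_col {k t : ℕ} (h : SLR (k + 2)) (i : Fin (k + 2)) (hit : (i : ℕ) = t)
    (hro : e1_Ro h) (hcl : e1_Cl t h) (hp : h.1 i i = 1) :
    ∃ h' : SLR (k + 2), e1_R k (k + 2) h h' ∧ e1_Ro h' ∧ e1_Cl (t + 1) h' := by
  classical
  obtain ⟨h', hR, hh'⟩ := e1_clear h i (fun a => - h.1 a i)
    (Finset.univ.filter fun a : Fin (k + 2) => a ≠ i ∧ a ≠ 0 ∧ a ≠ 1) (by simp) (by simp)
    (by simp)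
  have hmem : ∀ a : Fin (k + 2), a ∈ (Finset.univ.filter
      fun a : Fin (k + 2) => a ≠ i ∧ a ≠ 0 ∧ a ≠ 1) ↔ a ≠ i ∧ a ≠ 0 ∧ a ≠ 1 := by
    intro a
    simp
  refine ⟨h', e1_R_mono hR ?_, ⟨?_, ?_⟩, ?_⟩
  · exact (Finset.card_le_univ _).trans (by simp)
  · intro b
    rw [hh' 0 b, if_neg]
    · exact hro.1 b
    · rw [hmem]; simp
  · intro b
    rw [hh' 1 b, if_neg]
    · exact hro.2 b
    · rw [hmem]; simp
  · intro b hb a
    rw [hh' a b]
    rcases Nat.lt_succ_iff_lt_or_eq.1 hb with hb | hb
    · have hib : h.1 i b = 0 := by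
        rw [hcl b hb i, if_neg]
        intro hib
        rw [hib] at hit
        omega
      rw [hib, mul_zero, add_zero, ite_self]
      exact hcl b hb a
    · have hbi : b = i := Fin.ext (by omega)
      subst hbi
      by_cases ha : a ≠ b ∧ a ≠ 0 ∧ a ≠ 1
      · rw [if_pos ((hmem a).2 ha), hp, if_neg ha.1]
        ring
      · rw [if_neg (fun hc => ha ((hmem a).1 hc))]
        by_cases hab : a = b
        · rw [if_pos hab, hab, hp]
        · rw [if_neg hab]
          by_cases ha0 : a = 0
          · subst ha0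
            rw [hro.1 b, if_neg hab]
          · have ha1 : a = 1 := by
              by_contra hne
              exact ha ⟨hab, ha0, hne⟩
            subst ha1
            rw [hro.2 b, if_neg hab]

/-- a row operation with a row `≥ t` as source -/
private theorem e1_rowop {k t : ℕ} (ht : 2 ≤ t) (h : SLR (k + 2)) (j i : Fin (k + 2))
    (hji : j ≠ i) (hj : t ≤ (j : ℕ)) (hi : t ≤ (i : ℕ)) (r : ℝ) (hro : e1_Ro h)
    (hcl : e1_Cl t h) :
    e1_R k 1 h (elemR j i hji r * h) ∧ e1_Ro (elemR j i hji r * h) ∧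
      e1_Cl t (elemR j i hji r * h) := by
  have hj0 : j ≠ 0 := by
    intro h0
    rw [h0] at hj
    simp at hj
    omega
  have hj1 : j ≠ 1 := by
    intro h0
    rw [h0] at hj
    simp at hj
    omega
  refine ⟨e1_R_step h j i hji hj0 hj1 r, ⟨?_, ?_⟩, ?_⟩
  · intro b
    rw [e1_entry, if_neg hj0.symm]
    exact hro.1 b
  · intro b
    rw [e1_entry, if_neg hj1.symm]
    exact hro.2 b
  · intro b hb a
    rw [e1_entry]
    have hib : h.1 i b = 0 := by
      rw [hcl b hb i, if_neg]
      intro hib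
      rw [hib] at hi
      omega
    rw [hib, mul_zero, add_zero, ite_self]
    exact hcl b hb a

/-- some entry of the column `t` in the rows `≥ t` is not zero -/
private theorem e1_nonzero {k t : ℕ} (h : SLR (k + 2)) (i : Fin (k + 2)) (hit : (i : ℕ) = t)
    (hcl : e1_Cl t h) : ∃ j : Fin (k + 2), t ≤ (j : ℕ) ∧ h.1 j i ≠ 0 := by
  classical
  by_contra hcon
  push Not at hcon
  have hdet : h.1.det = 0 := by
    rw [← Matrix.exists_mulVec_eq_zero_iff]
    refine ⟨fun b => if (b : ℕ) < t then - h.1 b i else if b = i then 1 else 0, ?_, ?_⟩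
    · intro h0
      have := congrFun h0 i
      simp [hit] at this
    · funext a
      have h1 : ∀ b : Fin (k + 2), h.1 a b *
          (if (b : ℕ) < t then - h.1 b i else if b = i then 1 else 0) =
          (if a = b then (if (a : ℕ) < t then - h.1 a i else 0) else 0) +
            (if b = i then h.1 a i else 0) := by
        intro b
        by_cases hb : (b : ℕ) < t
        · rw [if_pos hb, hcl b hb a]
          have hbi : b ≠ i := by
            intro hbi
            rw [hbi] at hb
            omega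
          rw [if_neg hbi, add_zero]
          by_cases hab : a = b
          · subst hab
            simp [hb]
          · simp [hab]
        · rw [if_neg hb]
          by_cases hbi : b = i
          · subst hbi
            by_cases hab : a = b
            · subst hab
              simp [hb]
            · simp [hab]
          · by_cases hab : a = b
            · subst hab
              simp [hb, hbi]
            · simp [hab, hbi]
      simp only [Matrix.mulVec, dotProduct, Pi.zero_apply]
      rw [Finset.sum_congr rfl (fun b _ => h1 b), Finset.sum_add_distrib,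
        Finset.sum_ite_eq, Finset.sum_ite_eq']
      simp only [Finset.mem_univ, if_true]
      by_cases ha : (a : ℕ) < t
      · rw [if_pos ha]; ring
      · rw [if_neg ha, hcon a (by omega)]; ring
  rw [h.2] at hdet
  exact one_ne_zero hdet

/-- the last pivot is one -/
private theorem e1_last {k : ℕ} (h : SLR (k + 2)) (i : Fin (k + 2)) (hit : (i : ℕ) = k + 1)
    (hcl : e1_Cl (k + 1) h) : h.1 i i = 1 := by
  classical
  have hup : h.1.BlockTriangular id := by
    intro a b hab
    have hab' : (b : ℕ) < (a : ℕ) := hab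
    have := a.2
    rw [hcl b (by omega) a, if_neg]
    intro hh
    rw [hh] at hab'
    omega
  have hdet := Matrix.det_of_isUpperTriangular hup
  rw [h.2] at hdet
  rw [Finset.prod_eq_single i] at hdet
  · exact hdet.symm
  · intro b _ hb
    have hb' : (b : ℕ) < k + 1 := by
      have := b.2
      have : (b : ℕ) ≠ (i : ℕ) := fun hc => hb (Fin.ext hc)
      omega
    rw [hcl b hb' b, if_pos rfl]
  · intro hc
    exact absurd (Finset.mem_univ i) hc

/-- one step of the elimination -/
private theorem e1_step {k t : ℕ} (ht : 2 ≤ t) (htk : t < k + 2) (h : SLR (k + 2))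
    (hro : e1_Ro h) (hcl : e1_Cl t h) :
    ∃ h' : SLR (k + 2), e1_R k (k + 4) h h' ∧ e1_Ro h' ∧ e1_Cl (t + 1) h' := by
  classical
  by_cases htl : t = k + 1
  · subst htl
    obtain ⟨h', hR, hro', hcl'⟩ := e1_col h ⟨k + 1, htk⟩ rfl hro hcl
      (e1_last h ⟨k + 1, htk⟩ rfl hcl)
    exact ⟨h', e1_R_mono hR (by omega), hro', hcl'⟩
  · -- pivot row `i`, helping row `j`
    have hj2 : t + 1 < k + 2 := by omega
    have hij : (⟨t, htk⟩ : Fin (k + 2)) ≠ ⟨t + 1, hj2⟩ := by
      intro hc
      have := congrArg Fin.val hc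
      simp at this
    obtain ⟨g, hgR, hgro, hgcl, hg⟩ : ∃ g : SLR (k + 2), e1_R k 1 h g ∧ e1_Ro g ∧ e1_Cl t g ∧
        g.1 ⟨t + 1, hj2⟩ ⟨t, htk⟩ ≠ 0 := by
      by_cases hne : h.1 ⟨t + 1, hj2⟩ ⟨t, htk⟩ = 0
      · obtain ⟨j, hj, hjne⟩ := e1_nonzero h ⟨t, htk⟩ rfl hcl
        have hjj : (⟨t + 1, hj2⟩ : Fin (k + 2)) ≠ j := by
          intro hc
          rw [← hc] at hjne
          exact hjne hne
        obtain ⟨h1, h2, h3⟩ := e1_rowop ht h ⟨t + 1, hj2⟩ j hjj (by simp) hj 1 hro hcl
        refine ⟨_, h1, h2, h3, ?_⟩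
        rw [e1_entry, if_pos rfl, hne, zero_add, one_mul]
        exact hjne
      · exact ⟨h, e1_R_mono (e1_R_refl k h) (by omega), hro, hcl, hne⟩
    obtain ⟨h1, h2, h3⟩ := e1_rowop ht g ⟨t, htk⟩ ⟨t + 1, hj2⟩ hij (by simp) (by simp)
      ((1 - g.1 ⟨t, htk⟩ ⟨t, htk⟩) / g.1 ⟨t + 1, hj2⟩ ⟨t, htk⟩) hgro hgcl
    obtain ⟨h', hR', hro', hcl'⟩ := e1_col _ ⟨t, htk⟩ rfl h2 h3 (by
      rw [e1_entry, if_pos rfl, div_mul_cancel₀ _ hg]
      ring)
    refine ⟨h', e1_R_mono (e1_R_trans (e1_R_trans hgR h1) hR') (by omega), hro', hcl'⟩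

/-- the elimination from the column `2` on -/
private theorem e1_iter {k : ℕ} (d : ℕ) : ∀ (t : ℕ), 2 ≤ t → t + d = k + 2 →
    ∀ h : SLR (k + 2), e1_Ro h → e1_Cl t h → e1_R k (d * (k + 4)) h 1 := by
  induction d with
  | zero =>
    intro t _ htd h _ hcl
    have h1 : h = 1 := by
      apply Subtype.ext
      funext a b
      rw [hcl b (by have := b.2; omega) a, Matrix.SpecialLinearGroup.coe_one,
        Matrix.one_apply]
    rw [h1, zero_mul]
    exact e1_R_refl k 1
  | succ d ih =>
    intro t ht htd h hro hcl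
    obtain ⟨h', hR, hro', hcl'⟩ := e1_step ht (by omega) h hro hcl
    have h2 := ih (t + 1) (by omega) (by omega) h' hro' hcl'
    exact e1_R_mono (e1_R_trans hR h2) (le_of_eq (by ring))

private theorem e1_inv {m : ℕ} (j i : Fin m) (hji : j ≠ i) (r : ℝ) :
    (elemR j i hji r)⁻¹ = elemR j i hji (-r) := by
  rw [inv_eq_iff_mul_eq_one]
  apply Subtype.ext
  rw [Matrix.SpecialLinearGroup.coe_mul]
  change Matrix.transvection j i r * Matrix.transvection j i (-r) = 1
  rw [Matrix.transvection_mul_transvection_same _ _ hji, add_neg_cancel,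
    Matrix.transvection_zero]

theorem bounded_gen (k : ℕ) : ∃ K : ℕ, ∀ h ∈ Q00 k, ∃ l : List (SLR (k + 2)), l.length ≤ K ∧
    (∀ e ∈ l, ∃ (j i : Fin (k + 2)) (hji : j ≠ i), j ≠ 0 ∧ j ≠ 1 ∧ ∃ r : ℝ, e = elemR j i hji r) ∧
    l.prod = h := by
  classical
  refine ⟨(k + 2) + (k + 2) + k * (k + 4), ?_⟩
  intro h hh
  have hro : e1_Ro h := by
    have h0 : h.1 0 = Pi.single 0 1 := by
      have := hh.1
      rwa [Matrix.single_one_vecMul] at this
    have h1 : h.1 1 = Pi.single 1 1 := by
      have := hh.2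
      rwa [Matrix.single_one_vecMul] at this
    refine ⟨fun i => ?_, fun i => ?_⟩
    · rw [h0, Pi.single_apply]
      simp only [eq_comm]
    · rw [h1, Pi.single_apply]
      simp only [eq_comm]
  obtain ⟨g, hgR, hgro, hgcl⟩ := e1_col (t := 0) h 0 (by simp) hro
    (by intro i hi; exact absurd hi (Nat.not_lt_zero _)) (by rw [hro.1]; simp)
  obtain ⟨g', hgR', hgro', hgcl'⟩ := e1_col (t := 1) g 1 (by simp) hgro hgcl
    (by rw [hgro.2]; simp)
  have h3 := e1_iter k 2 le_rfl (by omega) g' hgro' hgcl'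
  obtain ⟨l, hl, he, hprod⟩ := e1_R_trans (e1_R_trans hgR hgR') h3
  refine ⟨(l.map (fun x => x⁻¹)).reverse, ?_, ?_, ?_⟩
  · simpa using hl
  · intro e hel
    rw [List.mem_reverse, List.mem_map] at hel
    obtain ⟨x, hx, rfl⟩ := hel
    obtain ⟨j, i, hji, hj0, hj1, r, rfl⟩ := he x hx
    exact ⟨j, i, hji, hj0, hj1, -r, e1_inv j i hji r⟩
  · rw [← List.prod_inv_reverse]
    exact (eq_inv_of_mul_eq_one_right hprod.symm).symm

end Pool.Agent.Arch
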