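import Mathlib

/-!
# E2: a vector moved a little by a whole group is close to an invariant vector

Proof. Let `C` be the closed convex hull of the orbit of `ξ`: a nonempty closed convex set
contained in the closed ball of radius `κ` around `ξ`, invariant under all `π g`. It has a unique
point `η` of minimal norm (`exists_norm_eq_iInf_of_complete_convex`,
`norm_eq_iInf_iff_real_inner_le_zero`, applied to the real inner product structure, or the
parallelogram identity); `π g η` has the same norm and lies in `C`, so `π g η = η`.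
-/

namespace Pool.Agent.Arch

theorem circumcenter {G H : Type} [Group G] [NormedAddCommGroup H] [InnerProductSpace ℂ H]
    [CompleteSpace H] (π : G →* (H ≃ₗᵢ[ℂ] H)) (ξ : H) (κ : ℝ) (hκ : ∀ g, ‖π g ξ - ξ‖ ≤ κ) :
    ∃ η : H, (∀ g, π g η = η) ∧ ‖η - ξ‖ ≤ κ := by
  classical
  let _ : InnerProductSpace ℝ H := InnerProductSpace.complexToReal
  set C : Set H := closure (convexHull ℝ (Set.range fun g => π g ξ)) with hC
  have hCc : Convex ℝ C := (convex_convexHull ℝ _).closure
  have hCcl : IsClosed C := isClosed_closure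
  have hne : C.Nonempty := by
    refine ⟨ξ, subset_closure (subset_convexHull ℝ _ ⟨1, ?_⟩)⟩
    simp
  have hball : C ⊆ Metric.closedBall ξ κ := by
    refine closure_minimal (convexHull_min ?_ (convex_closedBall ξ κ)) Metric.isClosed_closedBall
    rintro _ ⟨g, rfl⟩
    rw [Metric.mem_closedBall, dist_eq_norm]
    exact hκ g
  have hinv : ∀ g, ∀ x ∈ C, π g x ∈ C := by
    intro g
    have h1 : C ⊆ (fun x => π g x) ⁻¹' C := by
      refine closure_minimal (convexHull_min ?_ ?_) (hCcl.preimage (π g).continuous)
      · rintro _ ⟨h, rfl⟩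
        refine subset_closure (subset_convexHull ℝ _ ⟨g * h, ?_⟩)
        simp [map_mul]
      · intro x hx y hy a b ha hb hab
        have h2 := hCc hx hy ha hb hab
        have h3 : π g (a • x + b • y) = a • π g x + b • π g y := by
          rw [map_add]
          congr 1
          · have := (π g).map_smul (a : ℂ) x
            simpa using this
          · have := (π g).map_smul (b : ℂ) y
            simpa using this
        show π g (a • x + b • y) ∈ C
        rw [h3]
        exact h2
    exact fun x hx => h1 hx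
  obtain ⟨η, hηC, hη⟩ :=
    exists_norm_eq_iInf_of_complete_convex (F := H) hne hCcl.isComplete hCc 0
  have hmin : ∀ w ∈ C, ‖η‖ ≤ ‖w‖ := by
    intro w hw
    have h1 : (⨅ w : C, ‖(0 : H) - w‖) ≤ ‖(0 : H) - w‖ :=
      ciInf_le (f := fun w : C => ‖(0 : H) - w‖)
        ⟨0, by rintro _ ⟨w, rfl⟩; exact norm_nonneg _⟩ ⟨w, hw⟩
    rw [← hη] at h1
    simpa using h1
  refine ⟨η, fun g => ?_, ?_⟩
  · have hg := hinv g η hηC
    have hmid : (1 / 2 : ℝ) • π g η + (1 / 2 : ℝ) • η ∈ C :=
      hCc hg hηC (by norm_num) (by norm_num) (by norm_num)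
    have h1 := hmin _ hmid
    have h2 : ‖π g η‖ = ‖η‖ := (π g).norm_map η
    have h3 := parallelogram_law_with_norm ℂ (π g η) η
    have h4 : ‖(1 / 2 : ℝ) • π g η + (1 / 2 : ℝ) • η‖ = (1 / 2) * ‖π g η + η‖ := by
      rw [← smul_add, norm_smul]
      norm_num
    rw [h4] at h1
    rw [h2] at h3
    have h5 : ‖π g η - η‖ * ‖π g η - η‖ ≤ 0 := by
      nlinarith [norm_nonneg η, norm_nonneg (π g η + η)]
    have h6 : ‖π g η - η‖ = 0 := by
      nlinarith [norm_nonneg (π g η - η)]
    exact sub_eq_zero.1 (norm_eq_zero.1 h6)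
  · have := hball hηC
    rwa [Metric.mem_closedBall, dist_eq_norm] at this

end Pool.Agent.Arch
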