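import Mathlib

/-!
# E3: Steinhaus uniformity

Let `φ_J ≥ 0` be measurable functions on the line with `φ_J(s - s') ≤ φ_J(s) + φ_J(s')` which tend to
`0` pointwise as `J → ∞`. Then they tend to `0` uniformly on `[0, 1/2]`.

Proof. Let `ε > 0`. The sets `A_J = {s ∈ [0,1] | φ_J(s) > ε/2}` have measure tending to `0`
(dominated convergence / convergence in measure, `tendstoInMeasure_of_tendsto_ae` on the finite
measure `volume.restrict [0,1]`), so eventually `|A_J| < 1/4`. Let `G = [0,1] \ A_J`, `|G| > 3/4`.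
For `s ∈ [0, 1/2]`, `G` and `G + s` are subsets of `[0, 3/2]`; `(G + s) ∩ [s, 1]` has measure
`> 3/4 - s` because `G` misses at most... : `|(G + s) ∩ [s,1]| = |G ∩ [0, 1-s]| > 1 - s - 1/4`, and
`|G ∩ [s, 1]| > 1 - s - 1/4`; both lie in `[s,1]` of length `1 - s`, and
`2 (1 - s - 1/4) ≥ 1 - s` because `1 - s ≥ 1/2`. So they meet: `s = g - g'` with `g, g' ∈ G`,
`φ_J(s) ≤ φ_J(g) + φ_J(g') ≤ ε`.
-/

namespace Pool.Agent.Arch

open MeasureTheory Filter Topology

theorem steinhaus (φ : ℕ → ℝ → ℝ) (hm : ∀ J, Measurable (φ J)) (h0 : ∀ J s, 0 ≤ φ J s)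
    (hsub : ∀ J s s', φ J (s - s') ≤ φ J s + φ J s')
    (hlim : ∀ s, Tendsto (fun J => φ J s) atTop (𝓝 0)) (ε : ℝ) (hε : 0 < ε) :
    ∀ᶠ J in atTop, ∀ s ∈ Set.Icc (0 : ℝ) (1 / 2), φ J s ≤ ε := by
  have hT : TendstoInMeasure (volume.restrict (Set.Icc (0 : ℝ) 1)) φ atTop (fun _ => (0 : ℝ)) :=
    tendstoInMeasure_of_tendsto_ae (fun J => (hm J).aestronglyMeasurable)
      (Filter.Eventually.of_forall hlim)
  rw [tendstoInMeasure_iff_dist] at hT
  have hq : (0 : ENNReal) < 1 / 4 := by norm_num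
  have hE := (hT (ε / 2) (by positivity)).eventually (gt_mem_nhds hq)
  filter_upwards [hE] with J hJ s hs
  set A : Set ℝ := {x | ε / 2 ≤ dist (φ J x) 0} with hA
  have hAm : MeasurableSet A :=
    measurableSet_le measurable_const ((hm J).dist measurable_const)
  have hmA : volume.restrict (Set.Icc (0 : ℝ) 1) A = volume (A ∩ Set.Icc 0 1) :=
    Measure.restrict_apply hAm
  have hJ' : volume (A ∩ Set.Icc (0 : ℝ) 1) < 1 / 4 := by
    rw [← hmA]; exact hJ
  have hgood : ∃ g ∈ Set.Icc s 1, g ∉ A ∧ g + -s ∉ A := by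
    by_contra hcon
    push Not at hcon
    have hsub' : Set.Icc s 1 ⊆ (A ∩ Set.Icc 0 1) ∪
        (fun x : ℝ => x + -s) ⁻¹' (A ∩ Set.Icc 0 1) := by
      intro g hg
      have h1 := hcon g hg
      have hs0 := hs.1
      by_cases hgA : g ∈ A
      · exact Or.inl ⟨hgA, hs0.trans hg.1, hg.2⟩
      · refine Or.inr ⟨h1 hgA, ?_, ?_⟩
        · have := hg.1
          simp only
          linarith
        · have := hg.2
          simp only
          linarith
    have hle : volume (Set.Icc s 1) ≤ volume (A ∩ Set.Icc (0 : ℝ) 1) +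
        volume (A ∩ Set.Icc (0 : ℝ) 1) := by
      calc volume (Set.Icc s 1) ≤ volume ((A ∩ Set.Icc 0 1) ∪
            (fun x : ℝ => x + -s) ⁻¹' (A ∩ Set.Icc 0 1)) := measure_mono hsub'
        _ ≤ volume (A ∩ Set.Icc (0 : ℝ) 1) +
            volume ((fun x : ℝ => x + -s) ⁻¹' (A ∩ Set.Icc 0 1)) := measure_union_le _ _
        _ = _ := by rw [measure_preimage_add_right]
    rw [Real.volume_Icc] at hle
    have hlt : volume (A ∩ Set.Icc (0 : ℝ) 1) + volume (A ∩ Set.Icc (0 : ℝ) 1) <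
        1 / 4 + 1 / 4 := ENNReal.add_lt_add hJ' hJ'
    have hhalf : (1 / 4 : ENNReal) + 1 / 4 = ENNReal.ofReal (1 / 2) := by
      rw [show (1 / 4 : ENNReal) = ENNReal.ofReal (1 / 4) by
        rw [ENNReal.ofReal_div_of_pos (by norm_num)]; simp]
      rw [← ENNReal.ofReal_add (by norm_num) (by norm_num)]
      norm_num
    rw [hhalf] at hlt
    have h3 : ENNReal.ofReal (1 / 2) ≤ ENNReal.ofReal (1 - s) :=
      ENNReal.ofReal_le_ofReal (by have := hs.2; linarith)
    exact absurd (lt_of_le_of_lt (h3.trans hle) hlt) (lt_irrefl _)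
  obtain ⟨g, -, hg1, hg2⟩ := hgood
  have e1 : φ J g < ε / 2 := by
    have : ¬ ε / 2 ≤ dist (φ J g) 0 := hg1
    rw [Real.dist_eq, sub_zero, abs_of_nonneg (h0 J g)] at this
    exact not_le.mp this
  have e2 : φ J (g + -s) < ε / 2 := by
    have : ¬ ε / 2 ≤ dist (φ J (g + -s)) 0 := hg2
    rw [Real.dist_eq, sub_zero, abs_of_nonneg (h0 J _)] at this
    exact not_le.mp this
  have e3 := hsub J g (g + -s)
  rw [show g - (g + -s) = s by ring] at e3
  linarith

end Pool.Agent.Arch
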