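import Pool.Agent.Arch.C8
import Pool.Agent.Arch.A3

/-!
# F0: cocycles, the twisted action; definitions

`c` is a strict Borel cocycle of `SL_m(Z)` acting on `R^m` with values in a countable group `L`.
`D`, `κ` is a fundamental domain for the diagonal action on frames of determinant in `(0,1]`.
For `h` in `SL_{k+2}(R)` the folded action on `D × L` is
`(X, l) ↦ (κ(hX) h X, c(κ(hX), y_t(X)) l c(κ(hX), X_0)⁻¹)`, `y_t(X) = cos t X_0 + sin t X_1`.
-/

namespace Pool.Agent.Arch

open MeasureTheory Matrix Filter Topology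

/-- A strict Borel cocycle. -/
structure IsCocycle {m : ℕ} {L : Type} [Group L] (c : SLZ m → V m → L) : Prop where
  meas : ∀ g l, MeasurableSet {x | c g x = l}
  mul : ∀ g h x, c (g * h) x = c g (act h x) * c h x

/-- `y_t(X) = cos t X_0 + sin t X_1`. -/
noncomputable def ang {k : ℕ} (t : ℝ) (X : Fr (k + 2)) : V (k + 2) :=
  Real.cos t • X 0 + Real.sin t • X 1

/-- The folded action of a real matrix on `frames × L`. -/
noncomputable def tw {k : ℕ} {L : Type} [Group L] (c : SLZ (k + 2) → V (k + 2) → L)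
    (κ : Fr (k + 2) → SLZ (k + 2)) (t : ℝ) (h : SLR (k + 2)) (p : Fr (k + 2) × L) :
    Fr (k + 2) × L :=
  (actT (κ (mix h p.1)) (mix h p.1),
    c (κ (mix h p.1)) (ang t p.1) * p.2 * (c (κ (mix h p.1)) (p.1 0))⁻¹)

/-- The measure `vol|_D × count` on `frames × L`. -/
noncomputable def muD {m : ℕ} {L : Type} [MeasurableSpace L] (D : Set (Fr m)) :
    Measure (Fr m × L) :=
  (volume.restrict D).prod Measure.count

/-- The set where the two cocycles `c(·, y_t)` and `c(·, X_0)` differ at the folding element. -/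
def bad {k : ℕ} {L : Type} [Group L] (c : SLZ (k + 2) → V (k + 2) → L)
    (κ : Fr (k + 2) → SLZ (k + 2)) (D : Set (Fr (k + 2))) (t : ℝ) (h : SLR (k + 2)) :
    Set (Fr (k + 2)) :=
  {X | X ∈ D ∧ c (κ (mix h X)) (ang t X) ≠ c (κ (mix h X)) (X 0)}

theorem IsCocycle.one {m : ℕ} {L : Type} [Group L] {c : SLZ m → V m → L} (hc : IsCocycle c)
    (x : V m) : c 1 x = 1 := by
  have h := hc.mul 1 1 x
  rw [mul_one, act_one] at h
  exact (mul_eq_left.mp h.symm)

theorem IsCocycle.inv {m : ℕ} {L : Type} [Group L] {c : SLZ m → V m → L} (hc : IsCocycle c)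
    (g : SLZ m) (x : V m) : c g⁻¹ (act g x) = (c g x)⁻¹ := by
  have h := hc.mul g⁻¹ g x
  rw [inv_mul_cancel, hc.one] at h
  exact eq_inv_of_mul_eq_one_left h.symm

theorem ang_actT {k : ℕ} (t : ℝ) (g : SLZ (k + 2)) (X : Fr (k + 2)) :
    ang t (actT g X) = act g (ang t X) := by
  simp [ang, actT, act_add, act_smul]

theorem ang_mix {k : ℕ} (t : ℝ) {h : SLR (k + 2)} (hh : h ∈ Q00 k) (X : Fr (k + 2)) :
    ang t (mix h X) = ang t X := by
  simp [ang, Q00_row0 hh, Q00_row1 hh]

theorem continuous_ang {k : ℕ} : Continuous fun q : ℝ × Fr (k + 2) => ang q.1 q.2 := by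
  unfold ang
  fun_prop

end Pool.Agent.Arch
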