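import Pool.Agent.Arch.F0

/-!
# F1: the folded action is an action

Proof. For `X ∈ D ⊆ M1`, `h ∈ Q00`: `mix h X ∈ M1`, so `κ₁ = κ(mix h X)` folds into `D`. For the
composition put `X₁ = actT κ₁ (mix h X)`, `κ₂ = κ(mix h' X₁)`; `mix h' X₁ = actT κ₁ (mix (h' h) X)`
(`mix_actT`, `mix_mul`), and `actT (κ₂ κ₁) (mix (h' h) X) ∈ D`, so by uniqueness
`κ₂ κ₁ = κ(mix (h' h) X)`. In the second coordinate use `ang_actT`, `ang_mix`, `Q00_row0` and the
cocycle identity `c(κ₂ κ₁, z) = c(κ₂, act κ₁ z) c(κ₁, z)` for `z = y_t(X)` and `z = X_0`.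
-/

namespace Pool.Agent.Arch

open MeasureTheory Matrix Filter Topology

variable {k : ℕ} {L : Type} [Group L] {c : SLZ (k + 2) → V (k + 2) → L}
  {D : Set (Fr (k + 2))} {κ : Fr (k + 2) → SLZ (k + 2)}

theorem tw_mem (hD : FundDom (k + 2) D κ) (t : ℝ) (h : SLR (k + 2)) (p : Fr (k + 2) × L)
    (hp : p.1 ∈ D) : (tw c κ t h p).1 ∈ D :=
  hD.mem _ ((mix_mem_M1 h).2 (hD.sub hp))

theorem tw_one (hc : IsCocycle c) (hD : FundDom (k + 2) D κ) (t : ℝ) (p : Fr (k + 2) × L)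
    (hp : p.1 ∈ D) : tw c κ t 1 p = p := by
  have h1 : κ p.1 = 1 := (hD.uniq p.1 (hD.sub hp) 1 (by rwa [actT_one])).symm
  unfold tw
  rw [mix_one, h1, actT_one, hc.one, hc.one, one_mul, inv_one, mul_one]

theorem tw_mul (hc : IsCocycle c) (hD : FundDom (k + 2) D κ) (t : ℝ) (h h' : SLR (k + 2))
    (hh : h ∈ Q00 k) (hh' : h' ∈ Q00 k) (p : Fr (k + 2) × L) (hp : p.1 ∈ D) :
    tw c κ t h' (tw c κ t h p) = tw c κ t (h' * h) p := by
  obtain ⟨X, l⟩ := p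
  have hX : X ∈ M1 (k + 2) := hD.sub hp
  have hX1 : actT (κ (mix h X)) (mix h X) ∈ D := hD.mem _ ((mix_mem_M1 h).2 hX)
  have e1 : mix h' (actT (κ (mix h X)) (mix h X)) =
      actT (κ (mix h X)) (mix (h' * h) X) := by
    rw [mix_actT, mix_mul]
  have hM : mix h' (actT (κ (mix h X)) (mix h X)) ∈ M1 (k + 2) :=
    (mix_mem_M1 h').2 (hD.sub hX1)
  have e2 : κ (mix h' (actT (κ (mix h X)) (mix h X))) * κ (mix h X) =
      κ (mix (h' * h) X) := by
    apply hD.uniq _ ((mix_mem_M1 (h' * h)).2 hX)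
    rw [actT_mul, ← e1]
    exact hD.mem _ hM
  have e3 : ang t (actT (κ (mix h X)) (mix h X)) = act (κ (mix h X)) (ang t X) := by
    rw [ang_actT, ang_mix t hh]
  have e4 : actT (κ (mix h X)) (mix h X) 0 = act (κ (mix h X)) (X 0) := by
    simp only [actT]
    rw [Q00_row0 hh]
  unfold tw
  refine Prod.ext ?_ ?_
  · show actT (κ (mix h' (actT (κ (mix h X)) (mix h X)))) (mix h' (actT (κ (mix h X)) (mix h X)))
      = actT (κ (mix (h' * h) X)) (mix (h' * h) X)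
    rw [← e2, actT_mul, ← e1]
  · show c (κ (mix h' (actT (κ (mix h X)) (mix h X)))) (ang t (actT (κ (mix h X)) (mix h X))) *
        (c (κ (mix h X)) (ang t X) * l * (c (κ (mix h X)) (X 0))⁻¹) *
        (c (κ (mix h' (actT (κ (mix h X)) (mix h X))))
          (actT (κ (mix h X)) (mix h X) 0))⁻¹ =
      c (κ (mix (h' * h) X)) (ang t X) * l * (c (κ (mix (h' * h) X)) (X 0))⁻¹
    rw [← e2, hc.mul, hc.mul, e3, e4, _root_.mul_inv_rev]
    simp only [mul_assoc]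

end Pool.Agent.Arch
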