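import Pool.Agent.Arch.F1

/-!
# F2: the folded action preserves the measure

Proof. Measurability of `tw c κ t h`: the map is measurable on each of the countably many
measurable pieces `{p | κ(mix h p.1) = γ, c γ (ang t p.1) = a, c γ (p.1 0) = b}`, on which it is
`(X, l) ↦ (actT γ (mix h X), a l b⁻¹)`.
It maps `D × L` to `D × L` (F1) and `tw h⁻¹` is its inverse there (F1), so it is a bijection of
`D × L`, and on each piece it is the restriction of a measure preserving map of
`volume × count` (A2, and left/right translations preserve the counting measure). Hence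
`μ_D(tw⁻¹ E) = Σ_pieces (vol × count)(piece ∩ D × L ∩ tw⁻¹ E) = Σ (vol × count)(tw(piece) ∩ E ∩ D × L)
= μ_D(E)`.
-/

namespace Pool.Agent.Arch

open MeasureTheory Matrix Filter Topology

variable {k : ℕ} {L : Type} [Group L] [Countable L] [MeasurableSpace L] [DiscreteMeasurableSpace L]
  {c : SLZ (k + 2) → V (k + 2) → L} {D : Set (Fr (k + 2))} {κ : Fr (k + 2) → SLZ (k + 2)}

private theorem f2_countable (m : ℕ) : Countable (SLZ m) := by
  have h : Countable (Matrix (Fin m) (Fin m) ℤ) := inferInstanceAs (Countable (Fin m → Fin m → ℤ))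
  exact Subtype.coe_injective.countable

private theorem f2_meas_κ (hD : FundDom (k + 2) D κ) (h : SLR (k + 2)) (g : SLZ (k + 2)) :
    MeasurableSet {p : Fr (k + 2) × L | κ (mix h p.1) = g} :=
  ((measurable_mix h).comp measurable_fst) (hD.measκ g)

private theorem f2_meas_c (hc : IsCocycle c) (g : SLZ (k + 2)) (l : L)
    {f : Fr (k + 2) × L → V (k + 2)} (hf : Measurable f) :
    MeasurableSet {p : Fr (k + 2) × L | c g (f p) = l} :=
  hf (hc.meas g l)

private theorem f2_meas_cκ (hc : IsCocycle c) (hD : FundDom (k + 2) D κ) (h : SLR (k + 2))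
    {f : Fr (k + 2) × L → V (k + 2)} (hf : Measurable f) :
    Measurable fun p : Fr (k + 2) × L => c (κ (mix h p.1)) (f p) := by
  have := f2_countable (k + 2)
  refine measurable_to_countable' fun l => ?_
  have e : (fun p : Fr (k + 2) × L => c (κ (mix h p.1)) (f p)) ⁻¹' {l} =
      ⋃ g : SLZ (k + 2), {p : Fr (k + 2) × L | κ (mix h p.1) = g} ∩
        {p : Fr (k + 2) × L | c g (f p) = l} := by
    ext p
    simp only [Set.mem_preimage, Set.mem_singleton_iff, Set.mem_iUnion, Set.mem_inter_iff,
      Set.mem_setOf_eq]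
    constructor
    · intro h1
      exact ⟨_, rfl, h1⟩
    · rintro ⟨g, rfl, h1⟩
      exact h1
  rw [e]
  exact MeasurableSet.iUnion fun g => (f2_meas_κ hD h g).inter (f2_meas_c hc g l hf)

private theorem f2_meas_ang (t : ℝ) : Measurable fun p : Fr (k + 2) × L => ang t p.1 := by
  have h1 : Continuous fun X : Fr (k + 2) => ang t X :=
    continuous_ang.comp (continuous_const.prodMk continuous_id)
  exact h1.measurable.comp measurable_fst

private theorem f2_meas_zero : Measurable fun p : Fr (k + 2) × L => p.1 0 :=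
  (measurable_pi_apply 0).comp measurable_fst

/-- decomposition of a measure by a countable index -/
private theorem f2_sum {Ω ι : Type*} [MeasurableSpace Ω] [Countable ι] (m : Measure Ω)
    (idx : Ω → ι) (hidx : ∀ i, MeasurableSet (idx ⁻¹' {i})) {s : Set Ω} (hs : MeasurableSet s) :
    m s = ∑' i, m (s ∩ idx ⁻¹' {i}) := by
  rw [← measure_iUnion]
  · rw [← Set.inter_iUnion, ← Set.preimage_iUnion, Set.iUnion_of_singleton, Set.preimage_univ,
      Set.inter_univ]
  · intro i j hij
    rw [Function.onFun, Set.disjoint_left]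
    rintro x ⟨-, hi⟩ ⟨-, hj⟩
    exact hij (hi.symm.trans hj)
  · exact fun i => hs.inter (hidx i)

/-- a bijection of `S` which is piecewise measure preserving -/
private theorem f2_mp {Ω ι : Type*} [MeasurableSpace Ω] [Countable ι] {m : Measure Ω}
    {S : Set Ω} (hS : MeasurableSet S) {f g : Ω → Ω} (hf : Measurable f) (hg : Measurable g)
    (hfS : ∀ x ∈ S, f x ∈ S) (hgS : ∀ x ∈ S, g x ∈ S) (hgf : ∀ x ∈ S, g (f x) = x)
    (hfg : ∀ x ∈ S, f (g x) = x) (idx : Ω → ι) (hidx : ∀ i, MeasurableSet (idx ⁻¹' {i}))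
    (F : ι → Ω → Ω) (hF : ∀ i, MeasurePreserving (F i) m m)
    (hinj : ∀ i, Function.Injective (F i)) (hfF : ∀ x, f x = F (idx x) x) :
    MeasurePreserving f (m.restrict S) (m.restrict S) := by
  refine ⟨hf, Measure.ext fun E hE => ?_⟩
  rw [Measure.map_apply hf hE, Measure.restrict_apply (hf hE), Measure.restrict_apply hE]
  rw [f2_sum m idx hidx ((hf hE).inter hS),
    f2_sum m (idx ∘ g) (fun i => hg (hidx i)) (hE.inter hS)]
  refine tsum_congr fun i => ?_
  have hA : MeasurableSet (E ∩ S ∩ (idx ∘ g) ⁻¹' {i}) := (hE.inter hS).inter (hg (hidx i))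
  have e : f ⁻¹' E ∩ S ∩ idx ⁻¹' {i} = F i ⁻¹' (E ∩ S ∩ (idx ∘ g) ⁻¹' {i}) := by
    ext x
    constructor
    · rintro ⟨⟨h1, h2⟩, h3⟩
      have h4 : idx x = i := h3
      have h5 : F i x = f x := by rw [hfF, h4]
      have h6 : F i x ∈ S := by
        rw [h5]
        exact hfS x h2
      refine ⟨⟨?_, h6⟩, ?_⟩
      · rw [h5]
        exact h1
      · change idx (g (F i x)) = i
        rw [h5, hgf x h2, h4]
    · rintro ⟨⟨h1, h2⟩, h3⟩
      have h4 : idx (g (F i x)) = i := h3
      have h5 : F i (g (F i x)) = F i x := by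
        have h6 := hfg _ h2
        rw [hfF, h4] at h6
        exact h6
      have h6 : g (F i x) = x := hinj i h5
      rw [h6] at h4
      have h7 : x ∈ S := by
        rw [← h6]
        exact hgS _ h2
      refine ⟨⟨?_, h7⟩, h4⟩
      change f x ∈ E
      rw [hfF, h4]
      exact h1
  rw [e]
  exact (hF i).measure_preimage hA.nullMeasurableSet

private theorem f2_count (a b : L) :
    MeasurePreserving (fun l : L => a * l * b⁻¹) Measure.count Measure.count := by
  refine ⟨Measurable.of_discrete, Measure.ext fun E hE => ?_⟩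
  rw [Measure.map_apply Measurable.of_discrete hE]
  have hinj : Function.Injective fun l : L => a⁻¹ * l * b := by
    intro x y hxy
    simpa using hxy
  have e : (fun l : L => a * l * b⁻¹) ⁻¹' E = (fun l : L => a⁻¹ * l * b) '' E := by
    ext l
    constructor
    · intro h
      refine ⟨_, h, ?_⟩
      simp only
      group
    · rintro ⟨l', h, rfl⟩
      change a * (a⁻¹ * l' * b) * b⁻¹ ∈ E
      have : a * (a⁻¹ * l' * b) * b⁻¹ = l' := by group
      rw [this]
      exact h
  rw [e, Measure.count_injective_image hinj]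

private theorem f2_muD (hD : FundDom (k + 2) D κ) :
    (muD D : Measure (Fr (k + 2) × L)) =
      ((volume : Measure (Fr (k + 2))).prod Measure.count).restrict (D ×ˢ Set.univ) := by
  rw [← Measure.prod_restrict, Measure.restrict_univ]
  rfl

theorem measurable_tw (hc : IsCocycle c) (hD : FundDom (k + 2) D κ) (t : ℝ) (h : SLR (k + 2)) :
    Measurable (tw c κ t h : Fr (k + 2) × L → Fr (k + 2) × L) := by
  have := f2_countable (k + 2)
  refine Measurable.prodMk ?_ ?_
  · intro E hE
    have e : (fun p : Fr (k + 2) × L => actT (κ (mix h p.1)) (mix h p.1)) ⁻¹' E =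
        ⋃ g : SLZ (k + 2), {p : Fr (k + 2) × L | κ (mix h p.1) = g} ∩
          {p : Fr (k + 2) × L | actT g (mix h p.1) ∈ E} := by
      ext p
      simp only [Set.mem_preimage, Set.mem_iUnion, Set.mem_inter_iff, Set.mem_setOf_eq]
      constructor
      · intro h1
        exact ⟨_, rfl, h1⟩
      · rintro ⟨g, rfl, h1⟩
        exact h1
    rw [e]
    refine MeasurableSet.iUnion fun g => (f2_meas_κ hD h g).inter ?_
    exact ((measurable_actT g).comp ((measurable_mix h).comp measurable_fst)) hE
  · have h1 := f2_meas_cκ (L := L) hc hD h (f2_meas_ang (L := L) t)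
    have h2 := f2_meas_cκ (L := L) hc hD h (f2_meas_zero (L := L) (k := k))
    have h3 : Measurable fun q : L × L × L => q.1 * q.2.1 * q.2.2⁻¹ := Measurable.of_discrete
    exact h3.comp (h1.prodMk (measurable_snd.prodMk h2))

theorem mp_tw (hc : IsCocycle c) (hD : FundDom (k + 2) D κ) (t : ℝ) (h : SLR (k + 2))
    (hh : h ∈ Q00 k) :
    MeasurePreserving (tw c κ t h : Fr (k + 2) × L → Fr (k + 2) × L) (muD D) (muD D) := by
  have := f2_countable (k + 2)
  have hh' : h⁻¹ ∈ Q00 k := inv_mem hh
  rw [f2_muD hD]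
  refine f2_mp (ι := SLZ (k + 2) × L × L) (g := tw c κ t h⁻¹) (hD.meas.prod MeasurableSet.univ)
    (measurable_tw hc hD t h) (measurable_tw hc hD t h⁻¹) ?_ ?_ ?_ ?_
    (fun p => (κ (mix h p.1), c (κ (mix h p.1)) (ang t p.1), c (κ (mix h p.1)) (p.1 0))) ?_
    (fun i p => (actT i.1 (mix h p.1), i.2.1 * p.2 * i.2.2⁻¹)) ?_ ?_ ?_
  · exact fun x hx => ⟨tw_mem hD t h x hx.1, trivial⟩
  · exact fun x hx => ⟨tw_mem hD t h⁻¹ x hx.1, trivial⟩
  · intro x hx
    rw [tw_mul hc hD t h h⁻¹ hh hh' x hx.1, inv_mul_cancel, tw_one hc hD t x hx.1]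
  · intro x hx
    rw [tw_mul hc hD t h⁻¹ h hh' hh x hx.1, mul_inv_cancel, tw_one hc hD t x hx.1]
  · rintro ⟨g, a, b⟩
    have e : (fun p : Fr (k + 2) × L => (κ (mix h p.1), c (κ (mix h p.1)) (ang t p.1),
        c (κ (mix h p.1)) (p.1 0))) ⁻¹' {(g, a, b)} =
        {p : Fr (k + 2) × L | κ (mix h p.1) = g} ∩ ({p : Fr (k + 2) × L | c g (ang t p.1) = a} ∩
          {p : Fr (k + 2) × L | c g (p.1 0) = b}) := by
      ext p
      simp only [Set.mem_preimage, Set.mem_singleton_iff, Prod.mk.injEq, Set.mem_inter_iff,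
        Set.mem_setOf_eq]
      constructor
      · rintro ⟨h1, h2, h3⟩
        subst h1
        exact ⟨rfl, h2, h3⟩
      · rintro ⟨h1, h2, h3⟩
        subst h1
        exact ⟨rfl, h2, h3⟩
    rw [e]
    exact (f2_meas_κ hD h g).inter ((f2_meas_c hc g a (f2_meas_ang t)).inter
      (f2_meas_c hc g b f2_meas_zero))
  · rintro ⟨g, a, b⟩
    exact ((mp_actT g).comp (mp_mix h)).prod (f2_count a b)
  · rintro ⟨g, a, b⟩ x y hxy
    obtain ⟨h1, h2⟩ := Prod.mk.inj hxy
    refine Prod.ext ?_ ?_
    · have h3 := congrArg (fun X => mix h⁻¹ (actT g⁻¹ X)) h1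
      simp only [actT_inv_actT, ← mix_mul, inv_mul_cancel, mix_one] at h3
      exact h3
    · exact mul_left_cancel (mul_right_cancel h2)
  · exact fun x => rfl

end Pool.Agent.Arch
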