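import Pool.Agent.Arch.F2

/-!
# F3: the unitary representation of Q00 on L²(D × L)

`(π_t(h) f)(p) = f(tw h⁻¹ p)` for almost every `p`.

Proof. `MeasureTheory.Lp.compMeasurePreservingₗᵢ` (or `Lp.compMeasurePreserving`) with F2 gives
linear isometries; by F1 (a.e. equality on `D × L`; `muD D` is concentrated on it) composition:
`π(h)(π(h') f) = f ∘ tw(h'⁻¹) ∘ tw(h⁻¹) = f ∘ tw((h h')⁻¹)`, `π(1) = id`; so each is invertible.
-/

namespace Pool.Agent.Arch

open MeasureTheory Matrix Filter Topology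

variable {k : ℕ} {L : Type} [Group L] [Countable L] [MeasurableSpace L] [DiscreteMeasurableSpace L]
  {c : SLZ (k + 2) → V (k + 2) → L} {D : Set (Fr (k + 2))} {κ : Fr (k + 2) → SLZ (k + 2)}

omit [Group L] [Countable L] [DiscreteMeasurableSpace L] in
/-- `muD D` is concentrated on `D × L`. -/
theorem ae_mem_D (hD : FundDom (k + 2) D κ) :
    ∀ᵐ p ∂(muD D : Measure (Fr (k + 2) × L)), p.1 ∈ D := by
  have h1 : ∀ᵐ X ∂(volume.restrict D : Measure (Fr (k + 2))), X ∈ D :=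
    ae_restrict_mem hD.meas
  have h2 : Measure.QuasiMeasurePreserving (Prod.fst : Fr (k + 2) × L → Fr (k + 2))
      ((volume.restrict D).prod (Measure.count : Measure L)) (volume.restrict D) :=
    Measure.quasiMeasurePreserving_fst
  exact h2.ae h1

/-- The isometry given by `h`. -/
noncomputable def repI (hc : IsCocycle c) (hD : FundDom (k + 2) D κ) (t : ℝ) (h : Q00 k) :
    Lp ℂ 2 (muD D : Measure (Fr (k + 2) × L)) →ₗᵢ[ℂ]
        Lp ℂ 2 (muD D : Measure (Fr (k + 2) × L)) :=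
  Lp.compMeasurePreservingₗᵢ ℂ (tw c κ t (h⁻¹ : Q00 k).1)
    (mp_tw hc hD t (h⁻¹ : Q00 k).1 (h⁻¹ : Q00 k).2)

theorem repI_ae (hc : IsCocycle c) (hD : FundDom (k + 2) D κ) (t : ℝ) (h : Q00 k)
    (f : Lp ℂ 2 (muD D : Measure (Fr (k + 2) × L))) :
    (repI hc hD t h f : Fr (k + 2) × L → ℂ) =ᵐ[muD D] fun p => f (tw c κ t (h⁻¹ : Q00 k).1 p) :=
  Lp.coeFn_compMeasurePreserving f (mp_tw hc hD t (h⁻¹ : Q00 k).1 (h⁻¹ : Q00 k).2)

theorem repI_mul (hc : IsCocycle c) (hD : FundDom (k + 2) D κ) (t : ℝ) (h h' : Q00 k)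
    (f : Lp ℂ 2 (muD D : Measure (Fr (k + 2) × L))) :
    repI hc hD t (h * h') f = repI hc hD t h (repI hc hD t h' f) := by
  apply Lp.ext
  refine (repI_ae hc hD t (h * h') f).trans ?_
  refine EventuallyEq.trans ?_ (repI_ae hc hD t h (repI hc hD t h' f)).symm
  have h1 := (mp_tw hc hD t (h⁻¹ : Q00 k).1 (h⁻¹ : Q00 k).2).quasiMeasurePreserving.ae
    (repI_ae hc hD t h' f)
  filter_upwards [h1, ae_mem_D (L := L) hD] with p hp hpD
  rw [hp, tw_mul hc hD t (h⁻¹ : Q00 k).1 (h'⁻¹ : Q00 k).1 (h⁻¹ : Q00 k).2 (h'⁻¹ : Q00 k).2 p hpD,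
    _root_.mul_inv_rev]
  rfl

theorem repI_one (hc : IsCocycle c) (hD : FundDom (k + 2) D κ) (t : ℝ)
    (f : Lp ℂ 2 (muD D : Measure (Fr (k + 2) × L))) :
    repI hc hD t 1 f = f := by
  apply Lp.ext
  refine (repI_ae hc hD t 1 f).trans ?_
  filter_upwards [ae_mem_D (L := L) hD] with p hpD
  have : ((1 : Q00 k)⁻¹ : Q00 k).1 = 1 := by rw [inv_one]; rfl
  rw [this, tw_one hc hD t p hpD]

/-- The isometric equivalence given by `h`. -/
noncomputable def repE (hc : IsCocycle c) (hD : FundDom (k + 2) D κ) (t : ℝ) (h : Q00 k) :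
    Lp ℂ 2 (muD D : Measure (Fr (k + 2) × L)) ≃ₗᵢ[ℂ]
        Lp ℂ 2 (muD D : Measure (Fr (k + 2) × L)) where
  toLinearEquiv := LinearEquiv.ofLinearMap (repI hc hD t h).toLinearMap
    (repI hc hD t h⁻¹).toLinearMap
    (by
      ext1 f
      change repI hc hD t h (repI hc hD t h⁻¹ f) = f
      rw [← repI_mul, mul_inv_cancel, repI_one])
    (by
      ext1 f
      change repI hc hD t h⁻¹ (repI hc hD t h f) = f
      rw [← repI_mul, inv_mul_cancel, repI_one])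
  norm_map' f := (repI hc hD t h).norm_map f

theorem exists_rep (hc : IsCocycle c) (hD : FundDom (k + 2) D κ) (t : ℝ) :
    ∃ π : Q00 k →* (Lp ℂ 2 (muD D : Measure (Fr (k + 2) × L)) ≃ₗᵢ[ℂ]
        Lp ℂ 2 (muD D : Measure (Fr (k + 2) × L))),
      ∀ (h : Q00 k) (f : Lp ℂ 2 (muD D : Measure (Fr (k + 2) × L))),
        (π h f : Fr (k + 2) × L → ℂ) =ᵐ[muD D] fun p => f (tw c κ t (h⁻¹ : Q00 k).1 p) := by
  refine ⟨MonoidHom.mk' (repE hc hD t) ?_, ?_⟩
  · intro h h'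
    apply LinearIsometryEquiv.ext
    intro f
    exact repI_mul hc hD t h h' f
  · intro h f
    exact repI_ae hc hD t h f

/-- The representation. -/
noncomputable def rep (hc : IsCocycle c) (hD : FundDom (k + 2) D κ) (t : ℝ) :
    Q00 k →* (Lp ℂ 2 (muD D : Measure (Fr (k + 2) × L)) ≃ₗᵢ[ℂ]
        Lp ℂ 2 (muD D : Measure (Fr (k + 2) × L))) :=
  (exists_rep hc hD t).choose

theorem rep_ae (hc : IsCocycle c) (hD : FundDom (k + 2) D κ) (t : ℝ) (h : Q00 k)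
    (f : Lp ℂ 2 (muD D : Measure (Fr (k + 2) × L))) :
    (rep hc hD t h f : Fr (k + 2) × L → ℂ) =ᵐ[muD D]
      fun p => f (tw c κ t (h⁻¹ : Q00 k).1 p) :=
  (exists_rep hc hD t).choose_spec h f

end Pool.Agent.Arch
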