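import Pool.Agent.Arch.F3

/-!
# F4: the vector xi and its displacement

`xi` is the indicator function of `D × {1}`; `‖xi‖² = vol D` and
`‖π_t(h) xi - xi‖² = 2 vol (bad t h⁻¹)`.

Proof. `xi (tw h⁻¹ (X, l)) = 1` iff `c(κ, y_t) l c(κ, X_0)⁻¹ = 1` (`κ = κ(h⁻¹ X)`), that is iff
`l = c(κ, y_t)⁻¹ c(κ, X_0)`. So for `X ∈ D` outside the bad set both functions are the indicator of
`l = 1`, and for `X` in the bad set they are the indicators of two different points of `L`: the
integral over `L` (counting measure) of the square of the difference is `2` on the bad set and `0`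
outside. The bad set is measurable (countable union over the values of `κ` and of `c`).
-/

namespace Pool.Agent.Arch

open MeasureTheory Matrix Filter Topology

theorem norm_sq_of_ind {α : Type*} [MeasurableSpace α] {μ : Measure α} (f : Lp ℂ 2 μ)
    {W : Set α} (hW : MeasurableSet W)
    (h : ∀ᵐ p ∂μ, ‖f p‖ = W.indicator (fun _ => (1 : ℝ)) p) : ‖f‖ ^ 2 = (μ W).toReal := by
  rw [Lp.norm_def]
  have h1 : eLpNorm f 2 μ = eLpNorm (W.indicator fun _ => (1 : ℝ)) 2 μ := by
    apply eLpNorm_congr_norm_ae
    filter_upwards [h] with p hp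
    rw [hp]
    by_cases hpW : p ∈ W <;> simp [hpW]
  rw [h1, eLpNorm_indicator_const hW (by norm_num) (by norm_num)]
  simp only [enorm_one, one_mul, ENNReal.toReal_ofNat]
  rw [← ENNReal.toReal_rpow, ← Real.rpow_natCast, ← Real.rpow_mul ENNReal.toReal_nonneg]
  norm_num

theorem countable_SLZ (m : ℕ) : Countable (SLZ m) := by
  have : Countable (Matrix (Fin m) (Fin m) ℤ) := inferInstanceAs (Countable (Fin m → Fin m → ℤ))
  exact Subtype.val_injective.countable

variable {k : ℕ} {L : Type} [Group L] [Countable L] [MeasurableSpace L] [DiscreteMeasurableSpace L]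
  {c : SLZ (k + 2) → V (k + 2) → L} {D : Set (Fr (k + 2))} {κ : Fr (k + 2) → SLZ (k + 2)}

omit [DiscreteMeasurableSpace L] in
theorem measurable_coc (hc : IsCocycle c) (g : SLZ (k + 2)) : Measurable (c g) := by
  apply measurable_to_countable'
  intro l
  exact hc.meas g l

theorem measurable_ang' (t : ℝ) : Measurable (ang t : Fr (k + 2) → V (k + 2)) := by
  have h : Continuous (ang t : Fr (k + 2) → V (k + 2)) :=
    continuous_ang.comp (continuous_const.prodMk continuous_id)
  exact h.measurable

omit [DiscreteMeasurableSpace L] in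
/-- The value of the cocycle at the folding element is measurable. -/
theorem measurable_fold (hc : IsCocycle c) (hD : FundDom (k + 2) D κ) (h : SLR (k + 2))
    {u : Fr (k + 2) → V (k + 2)} (hu : Measurable u) :
    Measurable fun X => c (κ (mix h X)) (u X) := by
  apply measurable_to_countable'
  intro l
  have := countable_SLZ (k + 2)
  have h1 : (fun X => c (κ (mix h X)) (u X)) ⁻¹' {l}
      = ⋃ g : SLZ (k + 2), (mix h ⁻¹' (κ ⁻¹' {g})) ∩ (u ⁻¹' {x | c g x = l}) := by
    ext X
    simp
  rw [h1]
  exact MeasurableSet.iUnion fun g =>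
    ((measurable_mix h) (hD.measκ g)).inter (hu (hc.meas g l))

theorem measurableSet_bad (hc : IsCocycle c) (hD : FundDom (k + 2) D κ) (t : ℝ)
    (h : SLR (k + 2)) : MeasurableSet (bad c κ D t h) := by
  have h1 := measurable_fold hc hD h (measurable_ang' t)
  have h2 := measurable_fold hc hD h (measurable_pi_apply (0 : Fin (k + 2)))
  have h3 : MeasurableSet {X : Fr (k + 2) | c (κ (mix h X)) (ang t X) = c (κ (mix h X)) (X 0)} :=
    measurableSet_eq_fun h1 h2
  exact hD.meas.inter h3.compl

theorem muD_base (hD : FundDom (k + 2) D κ) :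
    MeasurableSet (D ×ˢ ({1} : Set L)) ∧
      (muD D : Measure (Fr (k + 2) × L)) (D ×ˢ ({1} : Set L)) = volume D := by
  refine ⟨hD.meas.prod (MeasurableSet.of_discrete), ?_⟩
  rw [muD, Measure.prod_prod, Measure.count_singleton, mul_one, Measure.restrict_apply_self]

/-- The base vector. -/
noncomputable def xi (L : Type) [Group L] [Countable L] [MeasurableSpace L]
    [DiscreteMeasurableSpace L] (hD : FundDom (k + 2) D κ) :
    Lp ℂ 2 (muD D : Measure (Fr (k + 2) × L)) :=
  indicatorConstLp 2 (muD_base (L := L) hD).1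
    (by rw [(muD_base (L := L) hD).2]; exact hD.fin) (1 : ℂ)

theorem xi_ae (hD : FundDom (k + 2) D κ) :
    (xi L hD : Fr (k + 2) × L → ℂ) =ᵐ[muD D] (D ×ˢ ({1} : Set L)).indicator fun _ => (1 : ℂ) :=
  indicatorConstLp_coeFn

theorem norm_xi (hD : FundDom (k + 2) D κ) : ‖xi L hD‖ ^ 2 = (volume D).toReal := by
  rw [norm_sq_of_ind (xi L hD) (muD_base (L := L) hD).1, (muD_base (L := L) hD).2]
  filter_upwards [xi_ae (L := L) hD] with p hp
  rw [hp]
  by_cases h : p ∈ D ×ˢ ({1} : Set L)
  · rw [Set.indicator_of_mem h, Set.indicator_of_mem h, norm_one]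
  · rw [Set.indicator_of_notMem h, Set.indicator_of_notMem h, norm_zero]

theorem xi_displacement (hc : IsCocycle c) (hD : FundDom (k + 2) D κ) (t : ℝ) (h : Q00 k) :
    ‖rep hc hD t h (xi L hD) - xi L hD‖ ^ 2
      = 2 * (volume (bad c κ D t (h⁻¹ : Q00 k).1)).toReal := by
  classical
  set g : SLR (k + 2) := (h⁻¹ : Q00 k).1 with hg
  set a : Fr (k + 2) → L := fun X => c (κ (mix g X)) (ang t X) with ha
  set b : Fr (k + 2) → L := fun X => c (κ (mix g X)) (X 0) with hb
  have hma : Measurable a := measurable_fold hc hD g (measurable_ang' t)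
  have hmb : Measurable b := measurable_fold hc hD g (measurable_pi_apply (0 : Fin (k + 2)))
  have hbad : bad c κ D t g = D ∩ {X | a X ≠ b X} := rfl
  set W : Set (Fr (k + 2) × L) :=
    {p | p.1 ∈ bad c κ D t g ∧ (p.2 = 1 ∨ p.2 = (a p.1)⁻¹ * b p.1)} with hWdef
  have hmW : MeasurableSet W := by
    have h1 : MeasurableSet {p : Fr (k + 2) × L | p.1 ∈ bad c κ D t g} :=
      measurable_fst (measurableSet_bad hc hD t g)
    have h2 : MeasurableSet {p : Fr (k + 2) × L | p.2 = 1} :=
      measurable_snd (MeasurableSet.of_discrete (s := ({1} : Set L)))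
    have h4 : Measurable fun p : Fr (k + 2) × L => (a p.1)⁻¹ * b p.1 := by
      have h5 : Measurable fun q : L × L => q.1⁻¹ * q.2 := Measurable.of_discrete
      exact h5.comp ((hma.comp measurable_fst).prodMk (hmb.comp measurable_fst))
    have h3 : MeasurableSet {p : Fr (k + 2) × L | p.2 = (a p.1)⁻¹ * b p.1} :=
      measurableSet_eq_fun measurable_snd h4
    exact h1.inter (h2.union h3)
  have hW : (muD D : Measure (Fr (k + 2) × L)) W = 2 * volume (bad c κ D t g) := by
    rw [muD, Measure.prod_apply hmW]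
    have h1 : ∀ X : Fr (k + 2), Measure.count (Prod.mk X ⁻¹' W)
        = (bad c κ D t g).indicator (fun _ => (2 : ENNReal)) X := by
      intro X
      by_cases hX : X ∈ bad c κ D t g
      · have hne : (1 : L) ≠ (a X)⁻¹ * b X := by
          intro h0
          apply hX.2
          have : a X = b X := by
            have := congrArg (fun z => a X * z) h0
            simpa using this
          exact this
        have h2 : Prod.mk X ⁻¹' W = (({1, (a X)⁻¹ * b X} : Finset L) : Set L) := by
          ext l
          simp [hWdef, hX]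
        rw [h2, Measure.count_apply_finset, Finset.card_pair hne, Set.indicator_of_mem hX]
        norm_num
      · have h2 : Prod.mk X ⁻¹' W = ∅ := by
          ext l
          simp [hWdef, hX]
        rw [h2, measure_empty, Set.indicator_of_notMem hX]
    simp_rw [h1]
    rw [lintegral_indicator_const (measurableSet_bad hc hD t g),
      Measure.restrict_apply (measurableSet_bad hc hD t g)]
    congr 2
    rw [hbad]
    exact Set.inter_eq_left.mpr Set.inter_subset_left
  rw [norm_sq_of_ind _ hmW, hW, ENNReal.toReal_mul, ENNReal.toReal_ofNat]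
  have h1 := (mp_tw (D := D) (κ := κ) hc hD t g (h⁻¹ : Q00 k).2).quasiMeasurePreserving.ae
    (xi_ae (L := L) hD)
  filter_upwards [Lp.coeFn_sub (rep hc hD t h (xi L hD)) (xi L hD),
    rep_ae hc hD t h (xi L hD), h1, xi_ae (L := L) hD, ae_mem_D (L := L) hD]
    with p hp1 hp2 hp3 hp4 hpD
  rw [hp1, Pi.sub_apply, hp2, hp3, hp4]
  have hmem : (tw c κ t g p) ∈ D ×ˢ ({1} : Set L) ↔ p.2 = (a p.1)⁻¹ * b p.1 := by
    have hm := tw_mem (c := c) hD t g p hpD
    constructor
    · intro hh
      have h2 : a p.1 * p.2 * (b p.1)⁻¹ = 1 := hh.2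
      have h3 : a p.1 * p.2 = b p.1 := mul_inv_eq_one.mp h2
      rw [← h3]; group
    · intro hh
      refine ⟨hm, ?_⟩
      change a p.1 * p.2 * (b p.1)⁻¹ = 1
      rw [hh]; group
  have hmem2 : p ∈ D ×ˢ ({1} : Set L) ↔ p.2 = 1 := by
    constructor
    · intro hh; exact hh.2
    · intro hh; exact ⟨hpD, hh⟩
  by_cases hab : a p.1 = b p.1
  · have h2 : (tw c κ t g p) ∈ D ×ˢ ({1} : Set L) ↔ p ∈ D ×ˢ ({1} : Set L) := by
      rw [hmem, hmem2, hab, inv_mul_cancel]
    have hpW : p ∉ W := fun hh => hh.1.2 hab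
    rw [Set.indicator_of_notMem hpW]
    by_cases h3 : p ∈ D ×ˢ ({1} : Set L)
    · rw [Set.indicator_of_mem h3, Set.indicator_of_mem (h2.mpr h3)]; simp
    · rw [Set.indicator_of_notMem h3, Set.indicator_of_notMem (fun h4 => h3 (h2.mp h4))]; simp
  · have hbadp : p.1 ∈ bad c κ D t g := ⟨hpD, hab⟩
    have hne : (1 : L) ≠ (a p.1)⁻¹ * b p.1 := by
      intro h0
      apply hab
      have := congrArg (fun z => a p.1 * z) h0
      simpa using this
    by_cases h3 : p.2 = 1
    · have h4 : p ∈ W := ⟨hbadp, Or.inl h3⟩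
      have h5 : (tw c κ t g p) ∉ D ×ˢ ({1} : Set L) := by
        rw [hmem, h3]; exact hne
      rw [Set.indicator_of_mem h4, Set.indicator_of_mem (hmem2.mpr h3),
        Set.indicator_of_notMem h5]
      simp
    · by_cases h6 : p.2 = (a p.1)⁻¹ * b p.1
      · have h4 : p ∈ W := ⟨hbadp, Or.inr h6⟩
        have h5 : p ∉ D ×ˢ ({1} : Set L) := by
          rw [hmem2]; exact h3
        rw [Set.indicator_of_mem h4, Set.indicator_of_mem (hmem.mpr h6),
          Set.indicator_of_notMem h5]
        simp
      · have h4 : p ∉ W := by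
          rintro ⟨-, h7 | h7⟩
          · exact h3 h7
          · exact h6 h7
        have h5 : p ∉ D ×ˢ ({1} : Set L) := by
          rw [hmem2]; exact h3
        have h8 : (tw c κ t g p) ∉ D ×ˢ ({1} : Set L) := by
          rw [hmem]; exact h6
        rw [Set.indicator_of_notMem h4, Set.indicator_of_notMem h5, Set.indicator_of_notMem h8]
        simp

end Pool.Agent.Arch
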