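import Pool.Agent.Arch.F0

/-!
# F5: the bad sets become small when `t → 0`

Proof. (1) Let `f : V (k+2) → L` have measurable fibres, `A` a set of frames of finite measure.
Then `vol {X ∈ A | f(y_t(X)) ≠ f(X_0)} → 0` as `t → 0`: the set is the disjoint union over `l` of
`{X ∈ A | f(X_0) = l, f(y_t X) ≠ l}`; with `A_l = {X ∈ A | f(X_0) = l}` and `R_t = mix (r t)` the
rotation of A3 (`(R_t X)_0 = y_t X`), this piece is contained in `A_l \ R_t⁻¹ A_l` up to ... :
`f((R_t X)_0) ≠ l` implies `R_t X ∉ A_l`; and `vol (A_l \ R_t⁻¹ A_l) → 0`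
(`MeasureTheory.tendsto_measure_symmDiff_preimage_nhds_zero`, measure preserving maps depending
continuously on `t`, A2, A3). Sum over `l` by dominated convergence
(`tendsto_tsum_of_dominated_convergence`, bound `vol A_l`, summable).
(2) For fixed `h` the bad set is the disjoint union over `γ` of
`{X ∈ D | κ(mix h X) = γ, c γ (y_t X) ≠ c γ (X_0)}`; dominated convergence again, with the bound
`vol {X ∈ D | κ(mix h X) = γ}`, whose sum is `vol D < ∞`.
-/

namespace Pool.Agent.Arch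

open MeasureTheory Matrix Filter Topology

variable {k : ℕ} {L : Type} [Group L] [Countable L]
  {c : SLZ (k + 2) → V (k + 2) → L} {D : Set (Fr (k + 2))} {κ : Fr (k + 2) → SLZ (k + 2)}

/-- Dominated convergence for sums in `[0, ∞]`. -/
private theorem f5_tsum {ι : Type} [Countable ι] (F : ℝ → ι → ENNReal) (b : ι → ENNReal)
    (hb : ∑' i, b i ≠ ⊤) (hF : ∀ t i, F t i ≤ b i)
    (hlim : ∀ i, Tendsto (fun t => F t i) (𝓝 0) (𝓝 0)) :
    Tendsto (fun t => ∑' i, F t i) (𝓝 0) (𝓝 0) := by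
  let _ : MeasurableSpace ι := ⊤
  have h := tendsto_lintegral_filter_of_dominated_convergence (μ := Measure.count) (F := F)
    (f := fun _ => 0) (l := 𝓝 (0 : ℝ)) b (Eventually.of_forall fun t => measurable_from_top)
    (Eventually.of_forall fun t => Eventually.of_forall fun i => hF t i)
    (by rwa [lintegral_count]) (Eventually.of_forall fun i => hlim i)
  simpa [lintegral_count] using h

/-- Small sets may be checked on the pieces of a countable measurable partition. -/
private theorem f5_split {ι : Type} [Countable ι] {m : ℕ} (p : Fr m → ι)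
    (hp : ∀ i, MeasurableSet (p ⁻¹' {i})) (A : Set (Fr m)) (hA : MeasurableSet A)
    (hA' : volume A ≠ ⊤) (S : ℝ → Set (Fr m)) (hS : ∀ t, S t ⊆ A)
    (h : ∀ i, Tendsto (fun t => volume (S t ∩ p ⁻¹' {i})) (𝓝 0) (𝓝 0)) :
    Tendsto (fun t : ℝ => volume (S t)) (𝓝 0) (𝓝 0) := by
  have hcov : ∀ B : Set (Fr m), B = ⋃ i, B ∩ p ⁻¹' {i} := by
    intro B
    ext X
    simp
  have hsum : ∑' i, volume (A ∩ p ⁻¹' {i}) ≠ ⊤ := by
    rw [← measure_iUnion, ← hcov A]
    · exact hA'
    · intro i j hij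
      rw [Function.onFun, Set.disjoint_left]
      rintro X ⟨_, hi⟩ ⟨_, hj⟩
      exact hij (hi.symm.trans hj)
    · exact fun i => hA.inter (hp i)
  have h1 := f5_tsum (fun t i => volume (S t ∩ p ⁻¹' {i})) (fun i => volume (A ∩ p ⁻¹' {i})) hsum
    (fun t i => measure_mono (Set.inter_subset_inter_left _ (hS t))) h
  refine tendsto_of_tendsto_of_tendsto_of_le_of_le tendsto_const_nhds h1 (fun _ => zero_le)
    (fun t => ?_)
  calc volume (S t) = volume (⋃ i, S t ∩ p ⁻¹' {i}) := by rw [← hcov (S t)]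
    _ ≤ ∑' i, volume (S t ∩ p ⁻¹' {i}) := measure_iUnion_le _

theorem tendsto_diff {M : Type} [Countable M] (f : V (k + 2) → M)
    (hf : ∀ l, MeasurableSet (f ⁻¹' {l})) (A : Set (Fr (k + 2))) (hA : MeasurableSet A)
    (hA' : volume A ≠ ⊤) :
    Tendsto (fun t : ℝ => volume {X | X ∈ A ∧ f (ang t X) ≠ f (X 0)}) (𝓝 0) (𝓝 0) := by
  obtain ⟨r, hr, hr0, hr1, -⟩ := exists_rotF k
  have hp0 : Measurable fun X : Fr (k + 2) => X 0 := measurable_pi_apply 0
  have hp : ∀ l, MeasurableSet ((fun X : Fr (k + 2) => f (X 0)) ⁻¹' {l}) :=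
    fun l => hp0 (hf l)
  refine f5_split (fun X : Fr (k + 2) => f (X 0)) hp A hA hA' _ (fun t X hX => hX.1) ?_
  intro l
  have hcont : Continuous fun q : ℝ × Fr (k + 2) => mix (r q.1) q.2 := by
    have h1 : Continuous fun q : ℝ × Fr (k + 2) => (r q.1).1 := hr.comp continuous_fst
    unfold mix
    refine continuous_pi fun j => ?_
    refine continuous_finsetSum _ fun i _ => ?_
    exact (h1.matrix_elem j i).smul ((continuous_apply i).comp continuous_snd)
  let G : C(ℝ, C(Fr (k + 2), Fr (k + 2))) := (⟨_, hcont⟩ : C(ℝ × Fr (k + 2), Fr (k + 2))).curry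
  have hG : ∀ t, ⇑(G t) = mix (r t) := fun t => rfl
  have hAl : MeasurableSet (A ∩ (fun X : Fr (k + 2) => f (X 0)) ⁻¹' {l}) := hA.inter (hp l)
  have key := tendsto_measure_symmDiff_preimage_nhds_zero (μ := (volume : Measure (Fr (k + 2))))
    (ν := (volume : Measure (Fr (k + 2)))) (l := 𝓝 (0 : ℝ)) (f := fun t => G t) (g := G 0)
    (s := A ∩ (fun X : Fr (k + 2) => f (X 0)) ⁻¹' {l}) (G.continuous.tendsto 0)
    (Eventually.of_forall fun t => by rw [hG]; exact mp_mix (r t))
    (by rw [hG]; exact mp_mix (r 0)) hAl.nullMeasurableSet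
    (ne_top_of_le_ne_top hA' (measure_mono Set.inter_subset_left))
  refine tendsto_of_tendsto_of_tendsto_of_le_of_le tendsto_const_nhds key (fun _ => zero_le)
    (fun t => measure_mono ?_)
  rintro X ⟨⟨hXA, hne⟩, hXl⟩
  right
  refine ⟨?_, ?_⟩
  · change mix (r 0) X ∈ A ∩ (fun X : Fr (k + 2) => f (X 0)) ⁻¹' {l}
    rw [hr0, mix_one]
    exact ⟨hXA, hXl⟩
  · intro hX
    have h2 : f (mix (r t) X 0) = l := hX.2
    rw [hr1] at h2
    exact hne (h2.trans hXl.symm)

theorem tendsto_bad (hc : IsCocycle c) (hD : FundDom (k + 2) D κ) (h : SLR (k + 2)) :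
    Tendsto (fun t : ℝ => volume (bad c κ D t h)) (𝓝 0) (𝓝 0) := by
  have hcount : Countable (SLZ (k + 2)) := by
    have : Countable (Matrix (Fin (k + 2)) (Fin (k + 2)) ℤ) :=
      inferInstanceAs (Countable (Fin (k + 2) → Fin (k + 2) → ℤ))
    exact inferInstanceAs (Countable {A : Matrix (Fin (k + 2)) (Fin (k + 2)) ℤ // A.det = 1})
  have hp : ∀ γ, MeasurableSet ((fun X : Fr (k + 2) => κ (mix h X)) ⁻¹' {γ}) :=
    fun γ => (measurable_mix h) (hD.measκ γ)
  refine f5_split (fun X : Fr (k + 2) => κ (mix h X)) hp D hD.meas hD.fin _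
    (fun t X hX => hX.1) ?_
  intro γ
  have key := tendsto_diff (c γ) (fun l => hc.meas γ l)
    (D ∩ (fun X : Fr (k + 2) => κ (mix h X)) ⁻¹' {γ}) (hD.meas.inter (hp γ))
    (ne_top_of_le_ne_top hD.fin (measure_mono Set.inter_subset_left))
  refine tendsto_of_tendsto_of_tendsto_of_le_of_le tendsto_const_nhds key (fun _ => zero_le)
    (fun t => measure_mono ?_)
  rintro X ⟨⟨hXD, hne⟩, hXγ⟩
  have hXγ' : κ (mix h X) = γ := hXγ
  refine ⟨⟨hXD, hXγ⟩, ?_⟩
  rw [hXγ'] at hne
  exact hne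

end Pool.Agent.Arch
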