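import Pool.Agent.Arch.F0

/-!
# F6: measurability in the parameter of an elementary matrix

Proof. The set `{(s, X) | X ∈ bad c κ D t (elemR j i s)}` is measurable in `ℝ × Fr (k+2)`: it is the
countable union over `γ` and pairs `a ≠ b` in `L` of `{X ∈ D, κ(mix (elemR j i s) X) = γ,
c γ (ang t X) = a, c γ (X_0) = b}`, and `(s, X) ↦ mix (elemR j i s) X` is continuous. Then
`measurable_measure_prodMk_left`.
-/

namespace Pool.Agent.Arch

open MeasureTheory Matrix Filter Topology

variable {k : ℕ} {L : Type} [Group L] [Countable L]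
  {c : SLZ (k + 2) → V (k + 2) → L} {D : Set (Fr (k + 2))} {κ : Fr (k + 2) → SLZ (k + 2)}

theorem f6_countable (m : ℕ) : Countable (SLZ m) := by
  have : Countable (Matrix (Fin m) (Fin m) ℤ) :=
    inferInstanceAs (Countable (Fin m → Fin m → ℤ))
  exact inferInstanceAs (Countable {A : Matrix (Fin m) (Fin m) ℤ // A.det = 1})

theorem f6_continuous (j i : Fin (k + 2)) (hji : j ≠ i) :
    Continuous fun q : ℝ × Fr (k + 2) => mix (elemR j i hji q.1) q.2 := by
  refine continuous_pi fun a => ?_
  simp only [mix]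
  refine continuous_finsetSum _ fun b _ => ?_
  have h1 : Continuous fun q : ℝ × Fr (k + 2) => (elemR j i hji q.1).1 a b := by
    simp only [elemR, Matrix.transvection, Matrix.add_apply, Matrix.single_apply]
    refine continuous_const.add ?_
    split_ifs
    · exact continuous_fst
    · exact continuous_const
  have h2 : Continuous fun q : ℝ × Fr (k + 2) => q.2 b :=
    (continuous_apply b).comp continuous_snd
  exact h1.smul h2

theorem measurable_bad_elem (hc : IsCocycle c) (hD : FundDom (k + 2) D κ) (t : ℝ)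
    (j i : Fin (k + 2)) (hji : j ≠ i) :
    Measurable (fun s : ℝ => (volume (bad c κ D t (elemR j i hji s))).toReal) := by
  have := f6_countable (k + 2)
  set Φ : ℝ × Fr (k + 2) → Fr (k + 2) := fun q => mix (elemR j i hji q.1) q.2 with hΦ
  have hΦm : Measurable Φ := (f6_continuous j i hji).measurable
  have hang : Measurable fun q : ℝ × Fr (k + 2) => ang t q.2 := by
    have h3 : Continuous fun q : ℝ × Fr (k + 2) => ang t q.2 := by
      unfold ang
      fun_prop
    exact h3.measurable
  have h0 : Measurable fun q : ℝ × Fr (k + 2) => q.2 0 :=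
    (measurable_pi_apply 0).comp measurable_snd
  set E : Set (ℝ × Fr (k + 2)) := {q | q.2 ∈ D ∧
    c (κ (Φ q)) (ang t q.2) ≠ c (κ (Φ q)) (q.2 0)} with hE
  have hE' : E = (Prod.snd ⁻¹' D) ∩ ⋃ γ : SLZ (k + 2), (Φ ⁻¹' (κ ⁻¹' {γ})) ∩
      (⋃ a : L, ((fun q : ℝ × Fr (k + 2) => ang t q.2) ⁻¹' {x | c γ x = a}) ∩
        ((fun q : ℝ × Fr (k + 2) => q.2 0) ⁻¹' {x | c γ x = a}))ᶜ := by
    ext q
    simp only [hE, Set.mem_ofPred_eq, Set.mem_inter_iff, Set.mem_preimage, Set.mem_iUnion,
      Set.mem_singleton_iff, Set.mem_compl_iff, not_exists, not_and]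
    constructor
    · rintro ⟨hq, hne⟩
      exact ⟨hq, κ (Φ q), rfl, fun a ha hb => hne (ha.trans hb.symm)⟩
    · rintro ⟨hq, γ, hγ, hne⟩
      subst hγ
      exact ⟨hq, fun heq => hne _ rfl heq.symm⟩
  have hEm : MeasurableSet E := by
    rw [hE']
    refine (measurable_snd hD.meas).inter (MeasurableSet.iUnion fun γ => ?_)
    refine (hΦm (hD.measκ γ)).inter (MeasurableSet.compl (MeasurableSet.iUnion fun a => ?_))
    exact (hang (hc.meas γ a)).inter (h0 (hc.meas γ a))
  have h := (measurable_measure_prodMk_left (ν := (volume : Measure (Fr (k + 2)))) hEm)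
  exact h.ennreal_toReal

end Pool.Agent.Arch
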