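import Pool.Agent.Arch.D7
import Pool.Agent.Arch.E1
import Pool.Agent.Arch.E2
import Pool.Agent.Arch.E3
import Pool.Agent.Arch.F4
import Pool.Agent.Arch.F5
import Pool.Agent.Arch.F6

/-!
# F7: elementary matrices move xi little, uniformly in the real parameter

Let `t_J → 0`. For every `ε > 0`, for all large `J`: for all `j ≠ 0, 1`, `i ≠ j` and ALL real `r`,
`‖π_{t_J}(elemR j i r) xi - xi‖ ≤ ε ‖xi‖`. Here `k ≥ 3`.

Proof. Fix `ε` and a small `δ` with `32 δ + 12 δ² ≤ ε²`. For each pair `(j, i)` the functions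
`φ_J(s) = ‖π_{t_J}(elemR j i s) xi - xi‖` satisfy the hypotheses of `steinhaus` (E3): measurable (F4,
F6, square root; `(elemR j i s)⁻¹ = elemR j i (-s)`), `φ_J(s - s') ≤ φ_J(s) + φ_J(s')` because
`elemR (s - s') = elemR s * (elemR s')⁻¹` and `π` is isometric, and `φ_J(s) → 0` (F4, F5). So for large
`J`, `φ_J(s) ≤ δ ‖xi‖` for all `s ∈ [0, 1/2]`, for the finitely many pairs; also
`‖π(elemR j i 1) xi - xi‖ ≤ 2 φ_J(1/2)`: choose `δ/2`. Given `j ≥ 2` and `i ≠ j` choose `l ≥ 2` with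
`l ≠ i, j` (`k ≥ 3`), and `s ∈ (0, 1/2]`. Apply D7 to `U = π(elemR j i s)`, `V = π(elemR l i s)`,
`W = π(elemR j l 1)`, `W' = π(elemR l j 1)`: the relations hold because
`E_jl(1) E_li(s) = E_ji(s) E_li(s) E_jl(1)` and `E_lj(1) E_ji(s) = E_ji(s) E_li(s) E_lj(1)`, and the others
commute. With `b = 0`: `‖π(elemR j i (a s)) xi - xi‖ ≤ ε ‖xi‖` for all integers `a`. Every real `r`
is `a s` with `s ∈ (0, 1/2]` and `a` an integer (`a = ⌈2|r|⌉ ...`, sign; `r = 0` trivial).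
-/

namespace Pool.Agent.Arch

open MeasureTheory Matrix Filter Topology

/-- The one-parameter group of elementary matrices. -/
private noncomputable def f7_hom {k : ℕ} {j i : Fin (k + 2)} (hji : j ≠ i) (h0 : j ≠ 0)
    (h1 : j ≠ 1) : Multiplicative ℝ →* Q00 k where
  toFun r := ⟨elemR j i hji r.toAdd, elemR_mem_Q00 hji h0 h1 r.toAdd⟩
  map_one' := by
    apply Subtype.ext
    apply Subtype.ext
    simp [elemR]
  map_mul' r r' := by
    apply Subtype.ext
    apply Subtype.ext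
    simp only [elemR, toAdd_mul, Subgroup.coe_mul, Matrix.SpecialLinearGroup.coe_mul]
    exact (Matrix.transvection_mul_transvection_same j i hji _ _).symm

private theorem f7_comm {k : ℕ} {j i l : Fin (k + 2)} (hji : j ≠ i) (hli : l ≠ i) (r s : ℝ) :
    elemR j i hji r * elemR l i hli s = elemR l i hli s * elemR j i hji r := by
  apply Subtype.ext
  have e1 : Matrix.single j i r * Matrix.single l i s = 0 :=
    Matrix.single_mul_single_of_ne _ _ _ _ hli.symm _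
  have e2 : Matrix.single l i s * Matrix.single j i r = 0 :=
    Matrix.single_mul_single_of_ne _ _ _ _ hji.symm _
  simp only [elemR, Matrix.SpecialLinearGroup.coe_mul, Matrix.transvection, mul_add, add_mul,
    one_mul, mul_one, e1, e2]
  abel

private theorem f7_comm2 {k : ℕ} {j i l : Fin (k + 2)} (hji : j ≠ i) (hjl : j ≠ l) (r s : ℝ) :
    elemR j l hjl r * elemR j i hji s = elemR j i hji s * elemR j l hjl r := by
  apply Subtype.ext
  have e1 : Matrix.single j l r * Matrix.single j i s = 0 :=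
    Matrix.single_mul_single_of_ne _ _ _ _ hjl.symm _
  have e2 : Matrix.single j i s * Matrix.single j l r = 0 :=
    Matrix.single_mul_single_of_ne _ _ _ _ hji.symm _
  simp only [elemR, Matrix.SpecialLinearGroup.coe_mul, Matrix.transvection, mul_add, add_mul,
    one_mul, mul_one, e1, e2]
  abel

private theorem f7_rel {k : ℕ} {j i l : Fin (k + 2)} (hji : j ≠ i) (hjl : j ≠ l) (hli : l ≠ i)
    (s : ℝ) :
    elemR j l hjl 1 * elemR l i hli s = elemR j i hji s * (elemR l i hli s * elemR j l hjl 1) := by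
  apply Subtype.ext
  have e1 : Matrix.single j i s * Matrix.single l i s = 0 :=
    Matrix.single_mul_single_of_ne _ _ _ _ hli.symm _
  have e2 : Matrix.single j i s * Matrix.single j l (1 : ℝ) = 0 :=
    Matrix.single_mul_single_of_ne _ _ _ _ hji.symm _
  have e3 : Matrix.single l i s * Matrix.single j l (1 : ℝ) = 0 :=
    Matrix.single_mul_single_of_ne _ _ _ _ hji.symm _
  have e4 : Matrix.single j l (1 : ℝ) * Matrix.single l i s = Matrix.single j i (1 * s) :=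
    Matrix.single_mul_single_same _ _ _ _ _
  simp only [elemR, Matrix.SpecialLinearGroup.coe_mul, Matrix.transvection, mul_add, add_mul,
    one_mul, mul_one, e1, e2, e3, e4, mul_zero]
  abel

variable {k : ℕ} {L : Type} [Group L] [Countable L] [MeasurableSpace L] [DiscreteMeasurableSpace L]
  {c : SLZ (k + 2) → V (k + 2) → L} {D : Set (Fr (k + 2))} {κ : Fr (k + 2) → SLZ (k + 2)}

private theorem f7_sub {G H : Type} [Group G] [NormedAddCommGroup H] [InnerProductSpace ℂ H]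
    (π : G →* (H ≃ₗᵢ[ℂ] H)) (ξ : H) (a b : G) :
    ‖π (a * b) ξ - ξ‖ ≤ ‖π a ξ - ξ‖ + ‖π b ξ - ξ‖ := by
  have h : π (a * b) ξ - ξ = π a (π b ξ - ξ) + (π a ξ - ξ) := by
    rw [map_mul, map_sub]
    show π a (π b ξ) - ξ = _
    abel
  rw [h]
  refine (norm_add_le _ _).trans ?_
  rw [LinearIsometryEquiv.norm_map]
  exact (add_comm _ _).le

private theorem f7_inv {G H : Type} [Group G] [NormedAddCommGroup H] [InnerProductSpace ℂ H]
    (π : G →* (H ≃ₗᵢ[ℂ] H)) (ξ : H) (a : G) :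
    ‖π a⁻¹ ξ - ξ‖ = ‖π a ξ - ξ‖ := by
  have h : π a (π a⁻¹ ξ) = ξ := by
    have : π a * π a⁻¹ = 1 := by rw [← map_mul, mul_inv_cancel, map_one]
    have h2 := congrArg (fun x : H ≃ₗᵢ[ℂ] H => x ξ) this
    exact h2
  rw [← (π a).norm_map (π a⁻¹ ξ - ξ), map_sub, h, norm_sub_rev]

/-- Steinhaus uniformity for one pair. -/
private theorem f7_pair (hc : IsCocycle c) (hD : FundDom (k + 2) D κ) (t : ℕ → ℝ)
    (ht : Tendsto t atTop (𝓝 0)) (ε : ℝ) (hε : 0 < ε) (j i : Fin (k + 2)) (hji : j ≠ i)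
    (h0 : j ≠ 0) (h1 : j ≠ 1) :
    ∀ᶠ J in atTop, ∀ s ∈ Set.Icc (0 : ℝ) (1 / 2),
      ‖rep hc hD (t J) ⟨elemR j i hji s, elemR_mem_Q00 hji h0 h1 s⟩ (xi L hD) - xi L hD‖ ≤ ε := by
  have hval : ∀ J s,
      ‖rep hc hD (t J) ⟨elemR j i hji s, elemR_mem_Q00 hji h0 h1 s⟩ (xi L hD) - xi L hD‖ ^ 2
        = 2 * (volume (bad c κ D (t J) (elemR j i hji (-s)))).toReal := by
    intro J s
    have h := xi_displacement hc hD (t J) ⟨elemR j i hji s, elemR_mem_Q00 hji h0 h1 s⟩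
    have h2 : (⟨elemR j i hji s, elemR_mem_Q00 hji h0 h1 s⟩ : Q00 k)⁻¹
        = ⟨elemR j i hji (-s), elemR_mem_Q00 hji h0 h1 (-s)⟩ := by
      have := map_inv (f7_hom hji h0 h1) (Multiplicative.ofAdd s)
      rw [← ofAdd_neg] at this
      exact this.symm
    rw [h2] at h
    exact h
  have hval' : ∀ J s,
      ‖rep hc hD (t J) ⟨elemR j i hji s, elemR_mem_Q00 hji h0 h1 s⟩ (xi L hD) - xi L hD‖
        = Real.sqrt (2 * (volume (bad c κ D (t J) (elemR j i hji (-s)))).toReal) := by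
    intro J s
    rw [← hval J s, Real.sqrt_sq (norm_nonneg _)]
  refine steinhaus (fun J s =>
    ‖rep hc hD (t J) ⟨elemR j i hji s, elemR_mem_Q00 hji h0 h1 s⟩ (xi L hD) - xi L hD‖)
    ?_ (fun J s => norm_nonneg _) ?_ ?_ ε hε
  · intro J
    simp only [hval']
    exact (((measurable_bad_elem hc hD (t J) j i hji).comp measurable_neg).const_mul 2).sqrt
  · intro J s s'
    have h2 : (⟨elemR j i hji (s - s'), elemR_mem_Q00 hji h0 h1 (s - s')⟩ : Q00 k)
        = ⟨elemR j i hji s, elemR_mem_Q00 hji h0 h1 s⟩ *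
          (⟨elemR j i hji s', elemR_mem_Q00 hji h0 h1 s'⟩ : Q00 k)⁻¹ := by
      have h3 := map_div (f7_hom hji h0 h1) (Multiplicative.ofAdd s) (Multiplicative.ofAdd s')
      rw [← ofAdd_sub, div_eq_mul_inv] at h3
      exact h3
    show ‖rep hc hD (t J) ⟨elemR j i hji (s - s'), elemR_mem_Q00 hji h0 h1 (s - s')⟩ (xi L hD)
      - xi L hD‖ ≤ _
    rw [h2]
    refine (f7_sub _ _ _ _).trans ?_
    rw [f7_inv]
  · intro s
    simp only [hval']
    have h3 := (tendsto_bad hc hD (elemR j i hji (-s))).comp ht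
    have h4 : Tendsto (fun J => 2 * (volume (bad c κ D (t J) (elemR j i hji (-s)))).toReal) atTop
        (𝓝 (2 * (0 : ENNReal).toReal)) :=
      ((ENNReal.tendsto_toReal ENNReal.zero_ne_top).comp h3).const_mul 2
    have h5 := h4.sqrt
    simpa using h5

theorem elem_uniform (hk : 3 ≤ k) (hc : IsCocycle c) (hD : FundDom (k + 2) D κ) (t : ℕ → ℝ)
    (ht : Tendsto t atTop (𝓝 0)) (ε : ℝ) (hε : 0 < ε) :
    ∀ᶠ J in atTop, ∀ (j i : Fin (k + 2)) (hji : j ≠ i) (h0 : j ≠ 0) (h1 : j ≠ 1) (r : ℝ),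
      ‖rep hc hD (t J) ⟨elemR j i hji r, elemR_mem_Q00 hji h0 h1 r⟩ (xi L hD) - xi L hD‖
        ≤ ε * ‖xi L hD‖ := by
  have hxi : 0 < ‖xi L hD‖ := by
    have h := norm_xi (L := L) hD
    have h2 : 0 < (volume D).toReal := ENNReal.toReal_pos hD.pos hD.fin
    rw [← h] at h2
    rcases (norm_nonneg (xi L hD)).lt_or_eq with h3 | h3
    · exact h3
    · rw [← h3] at h2
      norm_num at h2
  obtain ⟨δ, hδ, hδ1, hδε⟩ : ∃ δ : ℝ, 0 < δ ∧ δ ≤ 1 ∧ 44 * δ ≤ ε ^ 2 := by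
    refine ⟨min 1 (ε ^ 2 / 44), by positivity, min_le_left _ _, ?_⟩
    have := min_le_right (1 : ℝ) (ε ^ 2 / 44)
    linarith
  have hδ2 : 32 * δ + 12 * δ ^ 2 ≤ ε ^ 2 := by nlinarith
  have hall : ∀ᶠ J in atTop, ∀ (j i : Fin (k + 2)) (hji : j ≠ i) (h0 : j ≠ 0) (h1 : j ≠ 1),
      ∀ s ∈ Set.Icc (0 : ℝ) (1 / 2),
      ‖rep hc hD (t J) ⟨elemR j i hji s, elemR_mem_Q00 hji h0 h1 s⟩ (xi L hD) - xi L hD‖
        ≤ δ / 2 * ‖xi L hD‖ := by
    refine Filter.eventually_all.2 fun j => Filter.eventually_all.2 fun i => ?_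
    by_cases h : j ≠ i ∧ j ≠ 0 ∧ j ≠ 1
    · filter_upwards [f7_pair hc hD t ht (δ / 2 * ‖xi L hD‖) (by positivity) j i h.1 h.2.1 h.2.2]
        with J hJ hji h0 h1
      exact hJ
    · exact Filter.Eventually.of_forall fun J hji h0 h1 => absurd ⟨hji, h0, h1⟩ h
  filter_upwards [hall] with J hJ j i hji h0 h1 r
  obtain ⟨l, hl⟩ : ∃ l : Fin (k + 2), l ∉ ({0, 1, i, j} : Finset (Fin (k + 2))) := by
    by_contra hcon
    push Not at hcon
    have h2 : (Finset.univ : Finset (Fin (k + 2))) ⊆ {0, 1, i, j} := fun x _ => hcon x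
    have h3 := Finset.card_le_card h2
    have h4 : ({0, 1, i, j} : Finset (Fin (k + 2))).card ≤ 4 := Finset.card_le_four
    rw [Finset.card_univ, Fintype.card_fin] at h3
    omega
  simp only [Finset.mem_insert, Finset.mem_singleton, not_or] at hl
  obtain ⟨hl0, hl1, hli, hlj⟩ := hl
  have hjl : j ≠ l := fun h => hlj h.symm
  -- the unit elements
  have hunit : ∀ (a b : Fin (k + 2)) (hab : a ≠ b) (h0 : a ≠ 0) (h1 : a ≠ 1),
      ‖rep hc hD (t J) ⟨elemR a b hab 1, elemR_mem_Q00 hab h0 h1 1⟩ (xi L hD) - xi L hD‖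
        ≤ δ * ‖xi L hD‖ := by
    intro a b hab h0 h1
    have h2 : (⟨elemR a b hab 1, elemR_mem_Q00 hab h0 h1 1⟩ : Q00 k)
        = ⟨elemR a b hab (1 / 2), elemR_mem_Q00 hab h0 h1 (1 / 2)⟩ *
          (⟨elemR a b hab (1 / 2), elemR_mem_Q00 hab h0 h1 (1 / 2)⟩ : Q00 k) := by
      have h3 := map_mul (f7_hom hab h0 h1) (Multiplicative.ofAdd (1 / 2 : ℝ))
        (Multiplicative.ofAdd (1 / 2 : ℝ))
      rw [← ofAdd_add, add_halves] at h3
      exact h3
    rw [h2]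
    refine (f7_sub _ _ _ _).trans ?_
    have h4 := hJ a b hab h0 h1 (1 / 2) ⟨by norm_num, le_refl _⟩
    linarith
  -- write `r = a s`
  obtain ⟨n, hn⟩ := exists_nat_ge (2 * |r|)
  obtain ⟨a, s, hs0, hs1, has⟩ : ∃ (a : ℤ) (s : ℝ), 0 ≤ s ∧ s ≤ 1 / 2 ∧ r = a • s := by
    have hn1 : (0 : ℝ) < (n : ℝ) + 1 := by positivity
    have hs : |r| / ((n : ℝ) + 1) ≤ 1 / 2 := by
      rw [div_le_iff₀ hn1]; linarith
    rcases le_total 0 r with hr | hr
    · refine ⟨(n : ℤ) + 1, |r| / ((n : ℝ) + 1), by positivity, hs, ?_⟩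
      rw [zsmul_eq_mul]
      push_cast
      rw [mul_div_cancel₀ _ hn1.ne', abs_of_nonneg hr]
    · refine ⟨-((n : ℤ) + 1), |r| / ((n : ℝ) + 1), by positivity, hs, ?_⟩
      rw [zsmul_eq_mul]
      push_cast
      rw [neg_mul, mul_div_cancel₀ _ hn1.ne', abs_of_nonpos hr, neg_neg]
  have hpow : (⟨elemR j i hji r, elemR_mem_Q00 hji h0 h1 r⟩ : Q00 k)
      = (⟨elemR j i hji s, elemR_mem_Q00 hji h0 h1 s⟩ : Q00 k) ^ a := by
    have h3 := map_zpow (f7_hom hji h0 h1) (Multiplicative.ofAdd s) a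
    rw [← ofAdd_zsmul, ← has] at h3
    exact h3
  set π := rep hc hD (t J) with hπ
  have key := relT (π ⟨elemR j i hji s, elemR_mem_Q00 hji h0 h1 s⟩)
    (π ⟨elemR l i hli s, elemR_mem_Q00 hli hl0 hl1 s⟩)
    (π ⟨elemR j l hjl 1, elemR_mem_Q00 hjl h0 h1 1⟩)
    (π ⟨elemR l j hlj 1, elemR_mem_Q00 hlj hl0 hl1 1⟩)
    (by
      intro x
      have h2 : (⟨elemR j i hji s, elemR_mem_Q00 hji h0 h1 s⟩ : Q00 k) *
          ⟨elemR l i hli s, elemR_mem_Q00 hli hl0 hl1 s⟩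
          = ⟨elemR l i hli s, elemR_mem_Q00 hli hl0 hl1 s⟩ *
            ⟨elemR j i hji s, elemR_mem_Q00 hji h0 h1 s⟩ := Subtype.ext (f7_comm hji hli s s)
      have h3 := congrArg (fun g => π g x) h2
      simp only [map_mul] at h3
      exact h3)
    (by
      intro x
      have h2 : (⟨elemR j l hjl 1, elemR_mem_Q00 hjl h0 h1 1⟩ : Q00 k) *
          ⟨elemR j i hji s, elemR_mem_Q00 hji h0 h1 s⟩
          = ⟨elemR j i hji s, elemR_mem_Q00 hji h0 h1 s⟩ *
            ⟨elemR j l hjl 1, elemR_mem_Q00 hjl h0 h1 1⟩ := Subtype.ext (f7_comm2 hji hjl 1 s)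
      have h3 := congrArg (fun g => π g x) h2
      simp only [map_mul] at h3
      exact h3)
    (by
      intro x
      have h2 : (⟨elemR j l hjl 1, elemR_mem_Q00 hjl h0 h1 1⟩ : Q00 k) *
          ⟨elemR l i hli s, elemR_mem_Q00 hli hl0 hl1 s⟩
          = ⟨elemR j i hji s, elemR_mem_Q00 hji h0 h1 s⟩ *
            (⟨elemR l i hli s, elemR_mem_Q00 hli hl0 hl1 s⟩ *
            ⟨elemR j l hjl 1, elemR_mem_Q00 hjl h0 h1 1⟩) := Subtype.ext (f7_rel hji hjl hli s)
      have h3 := congrArg (fun g => π g x) h2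
      simp only [map_mul] at h3
      exact h3)
    (by
      intro x
      have h2 : (⟨elemR l j hlj 1, elemR_mem_Q00 hlj hl0 hl1 1⟩ : Q00 k) *
          ⟨elemR l i hli s, elemR_mem_Q00 hli hl0 hl1 s⟩
          = ⟨elemR l i hli s, elemR_mem_Q00 hli hl0 hl1 s⟩ *
            ⟨elemR l j hlj 1, elemR_mem_Q00 hlj hl0 hl1 1⟩ := Subtype.ext (f7_comm2 hli hlj 1 s)
      have h3 := congrArg (fun g => π g x) h2
      simp only [map_mul] at h3
      exact h3)
    (by
      intro x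
      have h2 : (⟨elemR l j hlj 1, elemR_mem_Q00 hlj hl0 hl1 1⟩ : Q00 k) *
          ⟨elemR j i hji s, elemR_mem_Q00 hji h0 h1 s⟩
          = ⟨elemR j i hji s, elemR_mem_Q00 hji h0 h1 s⟩ *
            (⟨elemR l i hli s, elemR_mem_Q00 hli hl0 hl1 s⟩ *
            ⟨elemR l j hlj 1, elemR_mem_Q00 hlj hl0 hl1 1⟩) := by
        apply Subtype.ext
        have h5 := f7_rel hli hlj hji s
        have h6 := f7_comm hji hli s s
        show elemR l j hlj 1 * elemR j i hji s =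
          elemR j i hji s * (elemR l i hli s * elemR l j hlj 1)
        rw [h5, ← mul_assoc, ← mul_assoc, h6]
      have h3 := congrArg (fun g => π g x) h2
      simp only [map_mul] at h3
      exact h3)
    (xi L hD) δ hδ.le
    ((hJ j i hji h0 h1 s ⟨hs0, hs1⟩).trans (by nlinarith))
    ((hJ l i hli hl0 hl1 s ⟨hs0, hs1⟩).trans (by nlinarith))
    (hunit j l hjl h0 h1) (hunit l j hlj hl0 hl1) a 0
  rw [zpow_zero] at key
  have key2 : ‖π ⟨elemR j i hji r, elemR_mem_Q00 hji h0 h1 r⟩ (xi L hD) - xi L hD‖ ^ 2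
      ≤ (32 * δ + 12 * δ ^ 2) * ‖xi L hD‖ ^ 2 := by
    rw [hpow, map_zpow]
    exact key
  have key3 : ‖π ⟨elemR j i hji r, elemR_mem_Q00 hji h0 h1 r⟩ (xi L hD) - xi L hD‖ ^ 2
      ≤ (ε * ‖xi L hD‖) ^ 2 := by
    refine key2.trans ?_
    rw [mul_pow]
    exact mul_le_mul_of_nonneg_right hδ2 (by positivity)
  exact le_of_sq_le_sq key3 (by positivity)

end Pool.Agent.Arch
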