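import Pool.Agent.Arch.F7

/-!
# F8: an invariant vector close to xi

Proof. With `K` of E1 and `ε' = ε / (K + 1)` in F7, `‖π(h) xi - xi‖ ≤ K ε' ‖xi‖ ≤ ε ‖xi‖` for every
`h ∈ Q00` (the displacement is subadditive: `‖π(ab) ξ - ξ‖ ≤ ‖π(b) ξ - ξ‖ + ‖π(a) ξ - ξ‖`, induction on
the list; the product in `Q00 k` of the elements of the list). Then E2.
-/

namespace Pool.Agent.Arch

open MeasureTheory Matrix Filter Topology

private theorem f8_list {G H : Type} [Group G] [NormedAddCommGroup H] [InnerProductSpace ℂ H]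
    (π : G →* (H ≃ₗᵢ[ℂ] H)) (ξ : H) (δ : ℝ) (l : List G) (hl : ∀ e ∈ l, ‖π e ξ - ξ‖ ≤ δ) :
    ‖π l.prod ξ - ξ‖ ≤ l.length * δ := by
  induction l with
  | nil => simp
  | cons a l ih =>
    have h1 := ih fun e he => hl e (List.mem_cons_of_mem a he)
    have h2 := hl a List.mem_cons_self
    have h3 : π (a * l.prod) ξ - ξ = π a (π l.prod ξ - ξ) + (π a ξ - ξ) := by
      rw [map_mul, LinearIsometryEquiv.coe_mul, Function.comp_apply, map_sub]
      abel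
    rw [List.prod_cons, h3]
    refine (norm_add_le _ _).trans ?_
    rw [(π a).norm_map, List.length_cons]
    push_cast
    linarith

private theorem f8_lift {k : ℕ} (l : List (SLR (k + 2)))
    (hl : ∀ e ∈ l, ∃ (j i : Fin (k + 2)) (hji : j ≠ i), j ≠ 0 ∧ j ≠ 1 ∧
      ∃ r : ℝ, e = elemR j i hji r) :
    ∃ l' : List (Q00 k), l'.length = l.length ∧ ((l'.prod : Q00 k) : SLR (k + 2)) = l.prod ∧
      ∀ e ∈ l', ∃ (j i : Fin (k + 2)) (hji : j ≠ i) (h0 : j ≠ 0) (h1 : j ≠ 1) (r : ℝ),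
        e = ⟨elemR j i hji r, elemR_mem_Q00 hji h0 h1 r⟩ := by
  induction l with
  | nil => exact ⟨[], rfl, rfl, by simp⟩
  | cons a l ih =>
    obtain ⟨l', h1, h2, h3⟩ := ih fun e he => hl e (List.mem_cons_of_mem a he)
    obtain ⟨j, i, hji, h0, h1', r, hr⟩ := hl a List.mem_cons_self
    refine ⟨⟨elemR j i hji r, elemR_mem_Q00 hji h0 h1' r⟩ :: l', by simp [h1], ?_, ?_⟩
    · rw [List.prod_cons, List.prod_cons, Subgroup.coe_mul, h2, hr]
    · intro e he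
      rcases List.mem_cons.1 he with rfl | he
      · exact ⟨j, i, hji, h0, h1', r, rfl⟩
      · exact h3 e he

variable {k : ℕ} {L : Type} [Group L] [Countable L] [MeasurableSpace L] [DiscreteMeasurableSpace L]
  {c : SLZ (k + 2) → V (k + 2) → L} {D : Set (Fr (k + 2))} {κ : Fr (k + 2) → SLZ (k + 2)}

theorem exists_inv_vector (hk : 3 ≤ k) (hc : IsCocycle c) (hD : FundDom (k + 2) D κ) (t : ℕ → ℝ)
    (ht : Tendsto t atTop (𝓝 0)) (ε : ℝ) (hε : 0 < ε) :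
    ∀ᶠ J in atTop, ∃ η : Lp ℂ 2 (muD D : Measure (Fr (k + 2) × L)),
      (∀ h : Q00 k, rep hc hD (t J) h η = η) ∧ ‖η - xi L hD‖ ≤ ε * ‖xi L hD‖ := by
  obtain ⟨K, hK⟩ := bounded_gen k
  have hK0 : (0 : ℝ) < (K : ℝ) + 1 := by positivity
  filter_upwards [elem_uniform hk hc hD t ht (ε / (K + 1)) (by positivity)] with J hJ
  refine circumcenter (rep hc hD (t J)) (xi L hD) (ε * ‖xi L hD‖) fun h => ?_
  obtain ⟨l, hl1, hl2, hl3⟩ := hK h.1 h.2
  obtain ⟨l', h1, h2, h3⟩ := f8_lift l hl2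
  have h4 : l'.prod = h := Subtype.ext (h2.trans hl3)
  have h5 := f8_list (rep hc hD (t J)) (xi L hD) (ε / (K + 1) * ‖xi L hD‖) l' fun e he => by
    obtain ⟨j, i, hji, h0, h1', r, rfl⟩ := h3 e he
    exact hJ j i hji h0 h1' r
  rw [h4, h1] at h5
  refine h5.trans ?_
  have h6 : (l.length : ℝ) ≤ (K : ℝ) + 1 := by
    have : (l.length : ℝ) ≤ K := by exact_mod_cast hl1
    linarith
  have h7 : 0 ≤ ε / (K + 1) * ‖xi L hD‖ := by positivity
  calc (l.length : ℝ) * (ε / (K + 1) * ‖xi L hD‖)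
      ≤ ((K : ℝ) + 1) * (ε / (K + 1) * ‖xi L hD‖) := mul_le_mul_of_nonneg_right h6 h7
    _ = ε * ‖xi L hD‖ := by field_simp

end Pool.Agent.Arch
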