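import Pool.Agent.Arch.F4

/-!
# G1: the dominating index of a function on D × L

`dom e X = some l` iff `Σ_{l'} |e(X,l')|² < ∞` and `Σ_{l'} |e(X,l')|² < 2 |e(X,l)|²`; such an `l` is
unique (two different ones would have `|e(X,l)|² + |e(X,l')|² > Σ`).
-/

namespace Pool.Agent.Arch

open MeasureTheory Matrix Filter Topology
open scoped ENNReal

/-- The dominating condition. -/
def IsDom {L : Type} (u : L → ℂ) (l : L) : Prop :=
  (∑' l', ‖u l'‖ₑ ^ 2 < ⊤) ∧ (∑' l', ‖u l'‖ₑ ^ 2 < 2 * ‖u l‖ₑ ^ 2)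

theorem IsDom.unique {L : Type} {u : L → ℂ} {l l' : L} (h : IsDom u l) (h' : IsDom u l') :
    l = l' := by
  classical
  by_contra hne
  have h1 : ‖u l‖ₑ ^ 2 + ‖u l'‖ₑ ^ 2 ≤ ∑' l', ‖u l'‖ₑ ^ 2 := by
    have h2 := ENNReal.sum_le_tsum (f := fun l' => ‖u l'‖ₑ ^ 2) {l, l'}
    rwa [Finset.sum_pair hne] at h2
  rcases le_total (‖u l‖ₑ ^ 2) (‖u l'‖ₑ ^ 2) with h3 | h3
  · refine absurd h.2 (not_lt.2 (le_trans ?_ h1))
    rw [two_mul]
    gcongr
  · refine absurd h'.2 (not_lt.2 (le_trans ?_ h1))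
    rw [two_mul]
    gcongr

open Classical in
/-- The dominating index. -/
noncomputable def domI {L : Type} (u : L → ℂ) : Option L :=
  if h : ∃ l, IsDom u l then some h.choose else none

theorem domI_eq_some {L : Type} {u : L → ℂ} {l : L} : domI u = some l ↔ IsDom u l := by
  unfold domI
  constructor
  · intro h
    split_ifs at h with h1
    · rw [← Option.some.inj h]
      exact h1.choose_spec
  · intro h
    have h1 : ∃ l, IsDom u l := ⟨l, h⟩
    rw [dif_pos h1]
    exact congrArg some (h1.choose_spec.unique h)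

private theorem g1_equiv {L : Type} (σ : L ≃ L) (u : L → ℂ) (l : L) :
    IsDom (fun l => u (σ l)) l ↔ IsDom u (σ l) := by
  unfold IsDom
  rw [Equiv.tsum_eq σ fun l' => ‖u l'‖ₑ ^ 2]

/-- Transport under a permutation of the index set. -/
theorem domI_equiv {L : Type} (σ : L ≃ L) (u : L → ℂ) :
    domI u = (domI fun l => u (σ l)).map σ := by
  cases h : domI fun l => u (σ l) with
  | none =>
    cases h1 : domI u with
    | none => rfl
    | some l =>
      have h2 := domI_eq_some.1 h1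
      have h3 : IsDom (fun l => u (σ l)) (σ.symm l) := by
        rw [g1_equiv, Equiv.apply_symm_apply]
        exact h2
      rw [domI_eq_some.2 h3] at h
      cases h
  | some l =>
    rw [Option.map_some]
    exact domI_eq_some.2 ((g1_equiv σ u l).1 (domI_eq_some.1 h))

private theorem g1_meas {Ω L : Type} [MeasurableSpace Ω] [Countable L] (e : Ω × L → ℂ)
    (he : ∀ l, Measurable fun X => e (X, l)) (l : L) :
    MeasurableSet {X | domI (fun l => e (X, l)) = some l} := by
  have h1 : {X | domI (fun l => e (X, l)) = some l} =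
      {X | ∑' l', ‖e (X, l')‖ₑ ^ 2 < ⊤} ∩
        {X | ∑' l', ‖e (X, l')‖ₑ ^ 2 < 2 * ‖e (X, l)‖ₑ ^ 2} := by
    ext X
    exact domI_eq_some
  have h2 : Measurable fun X => ∑' l', ‖e (X, l')‖ₑ ^ 2 :=
    Measurable.tsum fun l' => (he l').enorm.pow_const 2
  rw [h1]
  exact (measurableSet_lt h2 measurable_const).inter
    (measurableSet_lt h2 (((he l).enorm.pow_const 2).const_mul 2))

theorem measurableSet_domI {Ω L : Type} [MeasurableSpace Ω] [Countable L] (e : Ω × L → ℂ)
    (he : ∀ l, Measurable fun X => e (X, l)) (o : Option L) :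
    MeasurableSet {X | domI (fun l => e (X, l)) = o} := by
  cases o with
  | some l => exact g1_meas e he l
  | none =>
    have h1 : {X | domI (fun l => e (X, l)) = none} =
        (⋃ l, {X | domI (fun l => e (X, l)) = some l})ᶜ := by
      ext X
      simp only [Set.mem_ofPred_eq, Set.mem_compl_iff, Set.mem_iUnion, not_exists]
      constructor
      · intro h l
        rw [h]
        exact (Option.some_ne_none l).symm
      · intro h
        cases h2 : domI (fun l => e (X, l)) with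
        | none => rfl
        | some l => exact absurd h2 (h l)
    rw [h1]
    exact (MeasurableSet.iUnion fun l => g1_meas e he l).compl

/-- If `u` is close to the delta function at `a` then `a` dominates. -/
theorem domI_close {L : Type} [DecidableEq L] (u : L → ℂ) (a : L)
    (h : ∑' l, ‖u l - (if l = a then 1 else 0)‖ₑ ^ 2 < ENNReal.ofReal (1 / 16)) :
    domI u = some a := by
  rename_i inst
  obtain rfl : inst = fun x y => Classical.propDecidable (x = y) := Subsingleton.elim _ _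
  classical
  rw [domI_eq_some]
  have hT : ∑' l, (if l = a then 0 else ‖u l‖ₑ ^ 2) =
      ∑' l, (if l = a then 0 else ‖u l - (if l = a then 1 else 0)‖ₑ ^ 2) := by
    refine tsum_congr fun l => ?_
    by_cases hl : l = a
    · rw [if_pos hl, if_pos hl]
    · rw [if_neg hl, if_neg hl, if_neg hl, sub_zero]
  have hsplit := ENNReal.tsum_eq_add_tsum_ite
    (f := fun l => ‖u l - (if l = a then 1 else 0)‖ₑ ^ 2) a
  have hsplit' := ENNReal.tsum_eq_add_tsum_ite (f := fun l => ‖u l‖ₑ ^ 2) a
  rw [hsplit] at h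
  have ha : ‖u a - 1‖ₑ ^ 2 < ENNReal.ofReal (1 / 16) := by
    refine lt_of_le_of_lt ?_ h
    rw [if_pos rfl]
    exact le_self_add
  have hT' : ∑' l, (if l = a then 0 else ‖u l‖ₑ ^ 2) < ENNReal.ofReal (1 / 16) := by
    rw [hT]
    exact lt_of_le_of_lt le_add_self h
  have hn : ‖u a - 1‖ < 1 / 4 := by
    rw [← ofReal_norm, ← ENNReal.ofReal_pow (norm_nonneg _),
      ENNReal.ofReal_lt_ofReal_iff (by norm_num)] at ha
    nlinarith [norm_nonneg (u a - 1)]
  have hn' : 3 / 4 ≤ ‖u a‖ := by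
    have h1 : ‖(1 : ℂ)‖ ≤ ‖u a‖ + ‖u a - 1‖ := by
      have h2 : (1 : ℂ) = u a - (u a - 1) := by ring
      calc ‖(1 : ℂ)‖ = ‖u a - (u a - 1)‖ := by rw [← h2]
        _ ≤ _ := norm_sub_le _ _
    rw [norm_one] at h1
    linarith
  have hua : ENNReal.ofReal (1 / 16) ≤ ‖u a‖ₑ ^ 2 := by
    rw [← ofReal_norm, ← ENNReal.ofReal_pow (norm_nonneg _)]
    exact ENNReal.ofReal_le_ofReal (by nlinarith)
  have hfin : ‖u a‖ₑ ^ 2 ≠ ⊤ := ENNReal.pow_ne_top enorm_ne_top
  have hlt : ∑' l', ‖u l'‖ₑ ^ 2 < 2 * ‖u a‖ₑ ^ 2 := by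
    rw [hsplit', two_mul]
    exact ENNReal.add_lt_add_left hfin (hT'.trans_le hua)
  exact ⟨hlt.trans_le le_top, hlt⟩

end Pool.Agent.Arch
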