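import Pool.Agent.Arch.G1

/-!
# G2: the partial intertwiner defined by an invariant vector

`ext c κ t e X`: fold `X` into `D`, take the dominating index, unfold.

* equivariance under the integer matrices holds for every `X ∈ M1`: with `κ(actT γ X) = κ(X) γ⁻¹`
  (uniqueness) one has `actT (κ(γX)) (γX) = actT (κ X) X` and
  `c(κ X γ⁻¹, γ z) = c(κ X, z) c(γ⁻¹, γ z) = c(κ X, z) c(γ, z)⁻¹` (`IsCocycle.inv`).
* invariance under `mix h`, `h ∈ Q00`, for a.e. `X ∈ D`, when `e ∘ tw h = e` a.e. on `D × L`: by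
  `ae_prod` on the countable set `L`, for a.e. `X ∈ D` and all `l`, `e(tw h (X,l)) = e(X,l)`; i.e. with
  `κ₁ = κ(mix h X)`, `a = c(κ₁, y_t X)`, `b = c(κ₁, X_0)`: `e(X₁, a l b⁻¹) = e(X, l)`, so (`domI_equiv`)
  `domI e(X₁, ·) = (domI e(X, ·)).map (a · b⁻¹)` and therefore `ext (mix h X) = domI e(X, ·) = ext X`
  (for `X ∈ D`, `κ X = 1`). Then for a.e. `X ∈ M1`: `M1` is the countable union of the sets
  `{X | κ X = γ}`, mapped into `D` by the measure preserving map `actT γ`; use the equivariance.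
-/

namespace Pool.Agent.Arch

open MeasureTheory Matrix Filter Topology
open scoped ENNReal

variable {k : ℕ} {L : Type} [Group L]
  {c : SLZ (k + 2) → V (k + 2) → L} {D : Set (Fr (k + 2))} {κ : Fr (k + 2) → SLZ (k + 2)}

/-- The partial intertwiner. -/
noncomputable def extI (c : SLZ (k + 2) → V (k + 2) → L) (κ : Fr (k + 2) → SLZ (k + 2)) (t : ℝ)
    (e : Fr (k + 2) × L → ℂ) (X : Fr (k + 2)) : Option L :=
  (domI fun l => e (actT (κ X) X, l)).map
    fun l => (c (κ X) (ang t X))⁻¹ * l * c (κ X) (X 0)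

private theorem g2_countable (m : ℕ) : Countable (SLZ m) :=
  Function.Injective.countable (f := fun g : SLZ m => fun i j => g.1 i j) fun g h hgh => by
    ext i j
    exact congrFun (congrFun hgh i) j

private theorem g2_map_id {A : Type} {f : A → A} (hf : ∀ l, f l = l) (o : Option A) :
    o.map f = o := by
  cases o with
  | none => rfl
  | some l => rw [Option.map_some, hf]

private theorem g2_fold (hD : FundDom (k + 2) D κ) (g : SLZ (k + 2)) (X : Fr (k + 2))
    (hX : X ∈ M1 (k + 2)) : κ (actT g X) * g = κ X := by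
  refine hD.uniq X hX _ ?_
  rw [actT_mul]
  exact hD.mem _ ((actT_mem_M1 g).2 hX)

theorem extI_act (hc : IsCocycle c) (hD : FundDom (k + 2) D κ) (t : ℝ) (e : Fr (k + 2) × L → ℂ)
    (g : SLZ (k + 2)) (X : Fr (k + 2)) (hX : X ∈ M1 (k + 2)) :
    extI c κ t e (actT g X) =
      (extI c κ t e X).map fun l => c g (ang t X) * l * (c g (X 0))⁻¹ := by
  have h1 : κ X = κ (actT g X) * g := (g2_fold hD g X hX).symm
  have h2 : actT (κ (actT g X)) (actT g X) = actT (κ X) X := by
    rw [← actT_mul, ← h1]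
  have h3 : ∀ x, c (κ (actT g X)) (act g x) = c (κ X) x * (c g x)⁻¹ := by
    intro x
    rw [h1, hc.mul, mul_inv_cancel_right]
  have h4 : actT g X 0 = act g (X 0) := rfl
  unfold extI
  rw [h2, ang_actT, h4, h3, h3, Option.map_map]
  congr 1
  funext l
  simp only [Function.comp_apply]
  group

theorem measurableSet_extI [Countable L] (hc : IsCocycle c) (hD : FundDom (k + 2) D κ) (t : ℝ)
    (e : Fr (k + 2) × L → ℂ) (he : ∀ l, Measurable fun X => e (X, l)) (o : Option L) :
    MeasurableSet {X | extI c κ t e X = o} := by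
  have hcount := g2_countable (k + 2)
  have heq : {X | extI c κ t e X = o} = ⋃ (γ : SLZ (k + 2)) (a : L) (b : L),
      (κ ⁻¹' {γ} ∩ {X | c γ (ang t X) = a} ∩ {X | c γ (X 0) = b}) ∩
        {X | domI (fun l => e (actT γ X, l)) = o.map fun l => a * l * b⁻¹} := by
    ext X
    simp only [Set.mem_ofPred_eq, Set.mem_iUnion, Set.mem_inter_iff, Set.mem_preimage,
      Set.mem_singleton_iff]
    constructor
    · intro h
      refine ⟨κ X, _, _, ⟨⟨rfl, rfl⟩, rfl⟩, ?_⟩
      rw [← h, extI, Option.map_map]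
      refine (g2_map_id (fun l => ?_) _).symm
      simp only [Function.comp_apply]
      group
    · rintro ⟨γ, a, b, ⟨⟨rfl, rfl⟩, rfl⟩, h⟩
      rw [extI, h, Option.map_map]
      refine g2_map_id (fun l => ?_) _
      simp only [Function.comp_apply]
      group
  rw [heq]
  refine MeasurableSet.iUnion fun γ => MeasurableSet.iUnion fun a => MeasurableSet.iUnion fun b =>
    (((hD.measκ γ).inter ?_).inter ?_).inter ?_
  · have h1 : Measurable (ang t : Fr (k + 2) → V (k + 2)) :=
      (continuous_ang.comp (Continuous.prodMk_right t)).measurable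
    exact h1 (hc.meas γ a)
  · have h1 : Measurable (fun X : Fr (k + 2) => X 0) := measurable_pi_apply _
    exact h1 (hc.meas γ b)
  · exact (measurable_actT γ) (measurableSet_domI e he _)

theorem extI_mix [Countable L] [MeasurableSpace L] [DiscreteMeasurableSpace L]
    (hc : IsCocycle c) (hD : FundDom (k + 2) D κ) (t : ℝ)
    (e : Fr (k + 2) × L → ℂ) (h : SLR (k + 2)) (hh : h ∈ Q00 k)
    (hinv : (fun p => e (tw c κ t h p)) =ᵐ[muD D] e) :
    ∀ᵐ X ∂(volume.restrict (M1 (k + 2))), extI c κ t e (mix h X) = extI c κ t e X := by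
  have hcount := g2_countable (k + 2)
  -- almost every point of the fundamental domain
  have h1 : ∀ᵐ Y ∂(volume : Measure (Fr (k + 2))), Y ∈ D →
      extI c κ t e (mix h Y) = extI c κ t e Y := by
    have h2 : ∀ᵐ Y ∂(volume.restrict D), ∀ᵐ l ∂(Measure.count : Measure L),
        e (tw c κ t h (Y, l)) = e (Y, l) := Measure.ae_ae_of_ae_prod hinv
    rw [ae_restrict_iff' hD.meas] at h2
    filter_upwards [h2] with X hX hXD
    have h3 : ∀ l, e (tw c κ t h (X, l)) = e (X, l) := Measure.ae_count_iff.1 (hX hXD)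
    have hκ : κ X = 1 := (hD.uniq X (hD.sub hXD) 1 (by rwa [actT_one])).symm
    have h4 : extI c κ t e X = domI fun l => e (X, l) := by
      rw [extI, hκ, actT_one, hc.one, hc.one]
      exact g2_map_id (fun l => by rw [inv_one, one_mul, mul_one]) _
    rw [h4, extI, ang_mix t hh, Q00_row0 hh]
    let σ : L ≃ L :=
      { toFun := fun l => c (κ (mix h X)) (ang t X) * l * (c (κ (mix h X)) (X 0))⁻¹
        invFun := fun l => (c (κ (mix h X)) (ang t X))⁻¹ * l * c (κ (mix h X)) (X 0)
        left_inv := fun l => by group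
        right_inv := fun l => by group }
    rw [domI_equiv σ]
    have h5 : (fun l => e (actT (κ (mix h X)) (mix h X), σ l)) = fun l => e (X, l) := by
      funext l
      exact h3 l
    rw [h5, Option.map_map]
    exact g2_map_id (fun l => σ.left_inv l) _
  have hall : ∀ᵐ X ∂(volume : Measure (Fr (k + 2))), ∀ γ : SLZ (k + 2), actT γ X ∈ D →
      extI c κ t e (mix h (actT γ X)) = extI c κ t e (actT γ X) := by
    rw [ae_all_iff]
    intro γ
    exact (mp_actT γ).quasiMeasurePreserving.ae h1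
  rw [ae_restrict_iff' (measurableSet_M1 _)]
  filter_upwards [hall] with X hX hXM
  have h2 := hX (κ X) (hD.mem X hXM)
  have hY : actT (κ X) X ∈ M1 (k + 2) := hD.sub (hD.mem X hXM)
  have e1 : X = actT (κ X)⁻¹ (actT (κ X) X) := (actT_inv_actT _ _).symm
  have e2 : mix h X = actT (κ X)⁻¹ (mix h (actT (κ X) X)) := by
    rw [← mix_actT, ← e1]
  have e3 := extI_act hc hD t e (κ X)⁻¹ (mix h (actT (κ X) X)) ((mix_mem_M1 h).2 hY)
  have e4 := extI_act hc hD t e (κ X)⁻¹ (actT (κ X) X) hY
  rw [← e2, h2, ang_mix t hh, Q00_row0 hh, ← e4, ← e1] at e3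
  exact e3

end Pool.Agent.Arch
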