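import Pool.Agent.Arch.G2

/-!
# G3: extraction of the partial intertwiner from an invariant vector

Proof. Let `e` be a measurable representative of `η` (`Lp.stronglyMeasurable`). Take
`g = extI c κ t e`. Measurability, equivariance: G2. Invariance under `h`: apply
`rep_ae` to `h⁻¹` and `hη`: `e ∘ tw h = e` a.e., G2. Non-null: `‖η - xi‖² ≤ (1/100) vol D`, and
`‖η - xi‖² = ∫_D Σ_l |e(X,l) - [l = 1]|²`; by Markov the set of `X ∈ D` where the inner sum is
at least `1/16` has volume at most `(16/100) vol D < vol D`; on the rest `domI = some 1`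
(`domI_close`) and for `X ∈ D`, `κ X = 1` so `extI = some 1`.
-/

namespace Pool.Agent.Arch

open MeasureTheory Matrix Filter Topology
open scoped ENNReal

variable {k : ℕ} {L : Type} [Group L] [Countable L] [MeasurableSpace L] [DiscreteMeasurableSpace L]
  {c : SLZ (k + 2) → V (k + 2) → L} {D : Set (Fr (k + 2))} {κ : Fr (k + 2) → SLZ (k + 2)}

private lemma g3_normsq {Ω : Type} [MeasurableSpace Ω] {μ : Measure Ω} (f : Lp ℂ 2 μ) :
    ∫⁻ x, ‖f x‖ₑ ^ 2 ∂μ ≠ ⊤ ∧ ‖f‖ ^ 2 = (∫⁻ x, ‖f x‖ₑ ^ 2 ∂μ).toReal := by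
  have h : eLpNorm f 2 μ ^ 2 = ∫⁻ x, ‖f x‖ₑ ^ 2 ∂μ := by
    rw [eLpNorm_eq_lintegral_rpow_enorm_toReal (by norm_num) (by norm_num)]
    have h2 : (2 : ℝ≥0∞).toReal = 2 := by simp
    rw [h2, ← ENNReal.rpow_natCast, ← ENNReal.rpow_mul]
    norm_num
  constructor
  · rw [← h]
    exact ENNReal.pow_ne_top (Lp.eLpNorm_ne_top f)
  · rw [← h, ENNReal.toReal_pow, Lp.norm_def]

theorem exists_partial (hc : IsCocycle c) (hD : FundDom (k + 2) D κ) (t : ℝ)
    (η : Lp ℂ 2 (muD D : Measure (Fr (k + 2) × L)))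
    (hη : ∀ h : Q00 k, rep hc hD t h η = η) (hη2 : ‖η - xi L hD‖ ≤ (1 / 10) * ‖xi L hD‖) :
    ∃ g : Fr (k + 2) → Option L, (∀ o, MeasurableSet {X | g X = o}) ∧
      (∀ (γ : SLZ (k + 2)) (X : Fr (k + 2)), X ∈ M1 (k + 2) →
        g (actT γ X) = (g X).map fun l => c γ (ang t X) * l * (c γ (X 0))⁻¹) ∧
      (∀ h ∈ Q00 k, ∀ᵐ X ∂(volume.restrict (M1 (k + 2))), g (mix h X) = g X) ∧
      volume {X | X ∈ M1 (k + 2) ∧ g X ≠ none} ≠ 0 := by
  classical
  set e : Fr (k + 2) × L → ℂ := fun p => η p with he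
  have hem : Measurable e := (Lp.stronglyMeasurable η).measurable
  have hel : ∀ l, Measurable fun X => e (X, l) := fun l => hem.comp measurable_prodMk_right
  refine ⟨extI c κ t e, measurableSet_extI hc hD t e hel, extI_act hc hD t e, ?_, ?_⟩
  · intro h hh
    refine extI_mix hc hD t e h hh ?_
    have h1 := rep_ae hc hD t (⟨h, hh⟩ : Q00 k)⁻¹ η
    rw [hη, inv_inv] at h1
    exact h1.symm
  · intro h0
    have hfun : (fun p : Fr (k + 2) × L => ‖(η - xi L hD) p‖ₑ ^ 2) =ᵐ[muD D]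
        fun p => ‖e p - (D ×ˢ ({1} : Set L)).indicator (fun _ => (1 : ℂ)) p‖ₑ ^ 2 := by
      have h1 := Lp.coeFn_sub η (xi L hD)
      have h2 : (xi L hD : Fr (k + 2) × L → ℂ) =ᵐ[muD D]
          (D ×ˢ ({1} : Set L)).indicator fun _ => (1 : ℂ) := indicatorConstLp_coeFn
      filter_upwards [h1, h2] with p hp1 hp2
      rw [hp1, Pi.sub_apply, hp2]
    have hms : Measurable fun p : Fr (k + 2) × L =>
        ‖e p - (D ×ˢ ({1} : Set L)).indicator (fun _ => (1 : ℂ)) p‖ₑ ^ 2 :=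
      ((hem.sub (measurable_const.indicator (muD_base (L := L) hD).1)).enorm).pow_const 2
    have hI : ∫⁻ p, ‖(η - xi L hD) p‖ₑ ^ 2 ∂(muD D) = ∫⁻ X in D, ∑' l : L,
        ‖e (X, l) - (D ×ˢ ({1} : Set L)).indicator (fun _ => (1 : ℂ)) (X, l)‖ₑ ^ 2 := by
      rw [lintegral_congr_ae hfun, muD, lintegral_prod _ hms.aemeasurable]
      simp only [lintegral_count]
    have hlow : ENNReal.ofReal (1 / 16) * volume D ≤
        ∫⁻ p, ‖(η - xi L hD) p‖ₑ ^ 2 ∂(muD D) := by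
      rw [hI, ← setLIntegral_const]
      refine setLIntegral_mono_ae' hD.meas ?_
      have h2 : ∀ᵐ X ∂(volume : Measure (Fr (k + 2))),
          ¬ (X ∈ M1 (k + 2) ∧ extI c κ t e X ≠ none) := measure_eq_zero_iff_ae_notMem.1 h0
      filter_upwards [h2] with X hX hXD
      by_contra hlt
      push Not at hlt
      refine hX ⟨hD.sub hXD, ?_⟩
      have hk1 : κ X = 1 := (hD.uniq X (hD.sub hXD) 1 (by rwa [actT_one])).symm
      have h3 : domI (fun l => e (X, l)) = some 1 := by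
        refine domI_close _ 1 (lt_of_eq_of_lt (tsum_congr fun l => ?_) hlt)
        by_cases hl : l = 1
        · simp [hl, hXD]
        · simp [hl]
      rw [extI, hk1, actT_one, h3]
      simp
    obtain ⟨hfin, hsq⟩ := g3_normsq (η - xi L hD)
    have h4 := ENNReal.toReal_mono hfin hlow
    rw [← hsq, ENNReal.toReal_mul, ENNReal.toReal_ofReal (by norm_num)] at h4
    have h5 : ‖η - xi L hD‖ ^ 2 ≤ ((1 / 10) * ‖xi L hD‖) ^ 2 :=
      pow_le_pow_left₀ (norm_nonneg _) hη2 2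
    rw [mul_pow, norm_xi] at h5
    have h6 : 0 < (volume D).toReal := ENNReal.toReal_pos hD.pos hD.fin
    linarith

end Pool.Agent.Arch
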