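import Pool.Agent.Arch.Defs
import Pool.Agent.Arch.Basic

/-!
# I0: pairing, cones of vectors; definitions
-/

namespace Pool.Agent.Arch

open MeasureTheory Matrix

/-- The pairing of an integral vector with a real vector. -/
noncomputable def dotp {n : ℕ} (x : Fin n → ℤ) (y : Fin n → ℝ) : ℝ := ∑ i, (x i : ℝ) * y i

/-- Rational independence of the coordinates. -/
def Indep {m : ℕ} (x : V m) : Prop := ∀ a : Fin m → ℤ, a ≠ 0 → dotp a x ≠ 0

/-- The cone of a vector. -/
noncomputable def coneF {m : ℕ} (x : V m) : (Fin m → ℤ) → Bool := fun a => decide (0 < dotp a x)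

theorem dotp_add {n : ℕ} (x x' : Fin n → ℤ) (y : Fin n → ℝ) :
    dotp (x + x') y = dotp x y + dotp x' y := by
  simp [dotp, add_mul, Finset.sum_add_distrib]

theorem dotp_neg {n : ℕ} (x : Fin n → ℤ) (y : Fin n → ℝ) : dotp (-x) y = -dotp x y := by
  simp [dotp]

theorem dotp_zero {n : ℕ} (y : Fin n → ℝ) : dotp (0 : Fin n → ℤ) y = 0 := by
  simp [dotp]

theorem dotp_sub {n : ℕ} (x x' : Fin n → ℤ) (y : Fin n → ℝ) :
    dotp (x - x') y = dotp x y - dotp x' y := by
  rw [sub_eq_add_neg, dotp_add, dotp_neg, sub_eq_add_neg]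

theorem dotp_zsmul {n : ℕ} (a : ℤ) (x : Fin n → ℤ) (y : Fin n → ℝ) :
    dotp (a • x) y = a * dotp x y := by
  simp [dotp, Finset.mul_sum, mul_assoc]

theorem dotp_nsmul {n : ℕ} (a : ℕ) (x : Fin n → ℤ) (y : Fin n → ℝ) :
    dotp (a • x) y = a * dotp x y := by
  simp [dotp, Finset.mul_sum, mul_assoc]

theorem dotp_smul {n : ℕ} (s : ℝ) (x : Fin n → ℤ) (y : Fin n → ℝ) :
    dotp x (s • y) = s * dotp x y := by
  simp [dotp, Finset.mul_sum, mul_left_comm]

/-- Moving a matrix across the pairing. -/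
theorem dotp_mulVec {n : ℕ} (A : Matrix (Fin n) (Fin n) ℤ) (x : Fin n → ℤ) (y : Fin n → ℝ) :
    dotp (A *ᵥ x) y = dotp x ((A.map (Int.cast : ℤ → ℝ))ᵀ *ᵥ y) := by
  simp only [dotp, Matrix.mulVec, dotProduct, Matrix.transpose_apply, Matrix.map_apply]
  push_cast
  simp only [Finset.sum_mul, Finset.mul_sum]
  rw [Finset.sum_comm]
  refine Finset.sum_congr rfl fun i _ => Finset.sum_congr rfl fun j _ => by ring

end Pool.Agent.Arch
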