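import Pool.Agent.Arch.I0

/-!
# I1: every Archimedean cone is the cone of a vector, in a Borel way

Proof. `n = 0`: trivial. `n ≥ 1`: let `e` be the first unit vector or its negative, whichever is
positive, and for `x : Fin n → ℤ` put `ν(x) = sup {p/q | q > 0, P (q • x - p • e) = true}` (`p`, `q`
integers). By the Archimedean property the set is nonempty and bounded above; `ν` is
additive (the usual proof of Hoelder's theorem: `ν(x) ≥ r = p/q` for `qx > pe`, and
`ν(x) ≤ p/q` when `qx < pe`; add the inequalities), `ν(e) = 1`, and `P x` implies `ν(x) > 0` (there is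
`k` with `e < k x`, so `ν(x) ≥ 1/k`), `P(-x)` implies `ν(x) < 0`. With `y_i = ν(e_i)`,
`ν(x) = dotp x y`. (Or use Mathlib's `Archimedean.exists_orderAddMonoidHom_real_injective` or
`OrderAddMonoidHom` embedding of Archimedean groups and rescale so that `ν(e) = 1`.)
Measurability: `ν(e_i)` is a supremum over the countable set of rationals `r` of
`if P (q • e_i - p • e) then r else -∞`, and the choice of `e` is a measurable function of `P`. In
formulas: `{P | r < Y P i}` is a countable union of sets defined by the values of `P` at finitely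
many points.
-/

namespace Pool.Agent.Arch

open MeasureTheory Matrix

/-- The strict order given by `P`. -/
private def i1_lt {n : ℕ} (P : Ar n) (a b : Fin n → ℤ) : Prop := P.1 (b - a) = true

/-- The order given by `P`. -/
private def i1_le {n : ℕ} (P : Ar n) (a b : Fin n → ℤ) : Prop := a = b ∨ i1_lt P a b

private theorem i1_irrefl {n : ℕ} (P : Ar n) (a : Fin n → ℤ) : ¬ i1_lt P a a := by
  intro h
  rw [i1_lt, sub_self, P.2.zero] at h
  exact Bool.false_ne_true h

private theorem i1_trans {n : ℕ} (P : Ar n) {a b c : Fin n → ℤ} (h : i1_lt P a b)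
    (h' : i1_lt P b c) : i1_lt P a c := by
  have h1 := P.2.add _ _ h h'
  have e : (b - a) + (c - b) = c - a := by abel
  rwa [e] at h1

private theorem i1_le_trans {n : ℕ} (P : Ar n) (a b c : Fin n → ℤ) :
    i1_le P a b → i1_le P b c → i1_le P a c := by
  rintro (h | h) (h' | h')
  · exact Or.inl (h.trans h')
  · subst h
    exact Or.inr h'
  · subst h'
    exact Or.inr h
  · exact Or.inr (i1_trans P h h')

private theorem i1_lt_iff {n : ℕ} (P : Ar n) (a b : Fin n → ℤ) :
    i1_lt P a b ↔ i1_le P a b ∧ ¬ i1_le P b a := by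
  constructor
  · intro h
    refine ⟨Or.inr h, ?_⟩
    rintro (h' | h')
    · subst h'
      exact i1_irrefl P _ h
    · exact i1_irrefl P _ (i1_trans P h h')
  · rintro ⟨h | h, h'⟩
    · exact absurd (Or.inl h.symm) h'
    · exact h

private theorem i1_antisymm {n : ℕ} (P : Ar n) (a b : Fin n → ℤ) :
    i1_le P a b → i1_le P b a → a = b := by
  rintro (h | h) (h' | h')
  · exact h
  · exact h
  · exact h'.symm
  · exact absurd (i1_trans P h h') (i1_irrefl P _)

private theorem i1_total {n : ℕ} (P : Ar n) (a b : Fin n → ℤ) : i1_le P a b ∨ i1_le P b a := by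
  by_cases h : a = b
  · exact Or.inl (Or.inl h)
  · rcases P.2.total _ (sub_ne_zero.2 (Ne.symm h)) with h2 | h2
    · exact Or.inl (Or.inr h2)
    · rw [neg_sub] at h2
      exact Or.inr (Or.inr h2)

private theorem i1_add {n : ℕ} (P : Ar n) (a b : Fin n → ℤ) (h : i1_le P a b)
    (c : Fin n → ℤ) : i1_le P (a + c) (b + c) := by
  rcases h with h | h
  · exact Or.inl (by rw [h])
  · refine Or.inr ?_
    rw [i1_lt, add_sub_add_right_eq_sub]
    exact h

/-- `Z^n` with the order given by `P`. -/
private def I1G {n : ℕ} (_ : Ar n) : Type := Fin n → ℤ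

private instance {n : ℕ} (P : Ar n) : AddCommGroup (I1G P) :=
  inferInstanceAs (AddCommGroup (Fin n → ℤ))

open scoped Classical in
private noncomputable instance {n : ℕ} (P : Ar n) : LinearOrder (I1G P) where
  le := i1_le P
  lt := i1_lt P
  le_refl _ := Or.inl rfl
  le_trans := i1_le_trans P
  lt_iff_le_not_ge := i1_lt_iff P
  le_antisymm := i1_antisymm P
  le_total := i1_total P
  toDecidableLE := Classical.decRel _

private instance {n : ℕ} (P : Ar n) : IsOrderedAddMonoid (I1G P) where
  add_le_add_left := i1_add P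

private theorem i1_zero_lt {n : ℕ} (P : Ar n) (x : Fin n → ℤ) :
    i1_lt P 0 x ↔ P.1 x = true := by
  rw [i1_lt, sub_zero]

private instance {n : ℕ} (P : Ar n) : Archimedean (I1G P) where
  arch x y hy := by
    obtain ⟨k, hk⟩ := P.2.arch y x ((i1_zero_lt P y).1 hy)
    exact ⟨k, Or.inr hk⟩

/-- Hoelder's theorem for one cone. -/
private theorem i1_exists {n : ℕ} (P : Ar n) : ∃ y : V n, ∀ x : Fin n → ℤ,
    P.1 x = true ↔ 0 < dotp x y := by
  obtain ⟨f, hf⟩ := Archimedean.exists_orderAddMonoidHom_real_injective (I1G P)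
  have hs : StrictMono f := f.monotone'.strictMono_of_injective hf
  let g : (Fin n → ℤ) →+ ℝ := (f : I1G P →+ ℝ)
  have hg : ∀ x : Fin n → ℤ, g x = dotp x fun i => g (Pi.single i 1) := by
    intro x
    have h1 : x = ∑ i, x i • (Pi.single i (1 : ℤ) : Fin n → ℤ) := by
      funext j
      rw [Finset.sum_apply, Finset.sum_eq_single j]
      · simp
      · intro b _ hb
        simp [Pi.single_eq_of_ne hb.symm]
      · intro h
        exact absurd (Finset.mem_univ j) h
    conv_lhs => rw [h1]
    rw [map_sum, dotp]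
    refine Finset.sum_congr rfl fun i _ => ?_
    rw [map_zsmul, zsmul_eq_mul]
  refine ⟨fun i => g (Pi.single i 1), fun x => ?_⟩
  rw [← hg]
  constructor
  · intro h
    have h1 : (0 : I1G P) < (x : I1G P) := (i1_zero_lt P x).2 h
    have h2 := hs h1
    rw [map_zero] at h2
    exact h2
  · intro h
    have h1 : f (0 : I1G P) < f (x : I1G P) := by
      rw [map_zero]
      exact h
    exact (i1_zero_lt P x).1 (hs.lt_iff_lt.1 h1)

/-- The first unit vector or its negative. -/
private def i1_e {n : ℕ} (P : Ar (n + 1)) : Fin (n + 1) → ℤ :=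
  if P.1 (Pi.single 0 1) = true then Pi.single 0 1 else -Pi.single 0 1

private theorem i1_e_pos {n : ℕ} (P : Ar (n + 1)) : P.1 (i1_e P) = true := by
  unfold i1_e
  split_ifs with h
  · exact h
  · have h1 : (Pi.single 0 1 : Fin (n + 1) → ℤ) ≠ 0 := by
      intro h0
      have h2 := congrFun h0 0
      simp at h2
    exact (P.2.total _ h1).resolve_left h

/-- The normalized vector. -/
private theorem i1_exists' {n : ℕ} (P : Ar (n + 1)) : ∃ y : V (n + 1),
    dotp (i1_e P) y = 1 ∧ ∀ x : Fin (n + 1) → ℤ, P.1 x = true ↔ 0 < dotp x y := by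
  obtain ⟨y, hy⟩ := i1_exists P
  have h0 : 0 < dotp (i1_e P) y := (hy _).1 (i1_e_pos P)
  refine ⟨(dotp (i1_e P) y)⁻¹ • y, ?_, fun x => ?_⟩
  · rw [dotp_smul, inv_mul_cancel₀ h0.ne']
  · rw [dotp_smul, hy, mul_pos_iff_of_pos_left (inv_pos.2 h0)]

private theorem i1_single {n : ℕ} (i : Fin n) (y : V n) : dotp (Pi.single i 1) y = y i := by
  rw [dotp, Finset.sum_eq_single i]
  · simp
  · intro b _ hb
    simp [Pi.single_eq_of_ne hb]
  · intro h
    exact absurd (Finset.mem_univ i) h

/-- The evaluation at a point is measurable. -/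
private theorem i1_meas {n : ℕ} (x : Fin n → ℤ) : MeasurableSet {P : Ar n | P.1 x = true} := by
  have h1 : Measurable fun P : Ar n => P.1 x := (measurable_pi_apply x).comp measurable_subtype_coe
  exact h1 (measurableSet_singleton true)

private theorem i1_meas_e {n : ℕ} (x : Fin (n + 1) → ℤ) (p : ℤ) :
    MeasurableSet {P : Ar (n + 1) | P.1 (x - p • i1_e P) = true} := by
  have h1 : {P : Ar (n + 1) | P.1 (x - p • i1_e P) = true} =
      ({P : Ar (n + 1) | P.1 (Pi.single 0 1) = true} ∩
        {P : Ar (n + 1) | P.1 (x - p • Pi.single 0 1) = true}) ∪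
      ({P : Ar (n + 1) | P.1 (Pi.single 0 1) = true}ᶜ ∩
        {P : Ar (n + 1) | P.1 (x - p • -Pi.single 0 1) = true}) := by
    ext P
    by_cases h : P.1 (Pi.single 0 1) = true
    · simp [i1_e, h]
    · simp [i1_e, h]
  rw [h1]
  exact ((i1_meas _).inter (i1_meas _)).union ((i1_meas _).compl.inter (i1_meas _))

theorem exists_measurable_vector (n : ℕ) : ∃ Y : Ar n → V n, Measurable Y ∧
    ∀ (P : Ar n) (x : Fin n → ℤ), P.1 x = true ↔ 0 < dotp x (Y P) := by
  rcases n with _ | n
  · refine ⟨fun _ => 0, measurable_const, fun P x => ?_⟩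
    have h1 : x = 0 := Subsingleton.elim _ _
    rw [h1, P.2.zero, dotp_zero]
    simp
  · choose Y hY hYs using fun P : Ar (n + 1) => i1_exists' P
    refine ⟨Y, ?_, hYs⟩
    rw [measurable_pi_iff]
    intro i
    refine measurable_of_Ioi fun r => ?_
    have key : ∀ (P : Ar (n + 1)) (p : ℤ) (q : ℕ), 0 < q →
        (P.1 (q • (Pi.single i 1 : Fin (n + 1) → ℤ) - p • i1_e P) = true ↔
          ((p : ℝ) / q) < Y P i) := by
      intro P p q hq
      rw [hYs P, dotp_sub, dotp_nsmul, dotp_zsmul, hY P, i1_single, mul_one, sub_pos,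
        div_lt_iff₀ (by exact_mod_cast hq), mul_comm]
    have h1 : (fun P => Y P i) ⁻¹' Set.Ioi r = ⋃ s : ℚ, ⋃ _ : r < (s : ℝ),
        {P : Ar (n + 1) | P.1 (s.den • (Pi.single i 1 : Fin (n + 1) → ℤ) - s.num • i1_e P) =
          true} := by
      ext P
      simp only [Set.mem_preimage, Set.mem_Ioi, Set.mem_iUnion, exists_prop]
      constructor
      · intro h
        obtain ⟨s, hs, hs'⟩ := exists_rat_btwn h
        refine ⟨s, hs, (key P s.num s.den s.den_pos).2 ?_⟩
        have h2 : ((s.num : ℝ) / s.den) = s := by exact_mod_cast s.num_div_den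
        rwa [h2]
      · rintro ⟨s, hs, h⟩
        have h3 := (key P s.num s.den s.den_pos).1 h
        have h2 : ((s.num : ℝ) / s.den) = s := by exact_mod_cast s.num_div_den
        rw [h2] at h3
        exact hs.trans h3
    rw [h1]
    exact MeasurableSet.iUnion fun s => MeasurableSet.iUnion fun _ => i1_meas_e _ _

/-- A Borel choice of the vector of a cone. -/
noncomputable def Yv {n : ℕ} : Ar n → V n := (exists_measurable_vector n).choose

theorem measurable_Yv {n : ℕ} : Measurable (Yv : Ar n → V n) :=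
  (exists_measurable_vector n).choose_spec.1

theorem Yv_spec {n : ℕ} (P : Ar n) (x : Fin n → ℤ) : P.1 x = true ↔ 0 < dotp x (Yv P) :=
  (exists_measurable_vector n).choose_spec.2 P x

end Pool.Agent.Arch
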