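import Pool.Agent.Arch.B4
import Pool.Agent.Arch.F0

/-!
# P3: separation of variables (first half)

`T(x,y,z) = Ψ(x,z)⁻¹ Ψ(y,z) Ψ(x,y)` depends on `x` only.

Proof. `T(γx,γy,γz) = c(γ,x) T(x,y,z) c(γ,x)⁻¹` for a.e. `(x,y,z)`. The set
`{(x,y,z,z') | T(x,y,z) = T(x,y,z')}` is a.e. invariant; it is not null, because for every `(x,y)`
some fibre of the countably valued `z ↦ T(x,y,z)` is not null (Fubini); so it is conull (`erg4`).
Hence there is `T₁` with `T(x,y,z) = T₁(x,y)` a.e. (choose `z'` by Fubini: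
`T₁(x,y) = T(x,y,z₀)`). Same with `{(x,y,y') | T₁(x,y) = T₁(x,y')}` and `erg3`.
-/

namespace Pool.Agent.Arch

open MeasureTheory Matrix Filter Topology

/-- If `f (x, ·)` is countably valued and the set where `f (x, z) = f (x, z')` is null or conull,
then `f` does not depend on the second variable. -/
theorem p3_fix {X : Type} [MeasurableSpace X] (μ : Measure X) [SFinite μ] [NeZero μ] {m : ℕ}
    {L : Type} [Countable L] (f : X × V m → L)
    (hA : (∀ᵐ p ∂(μ.prod (volume : Measure (V m × V m))), f (p.1, p.2.1) = f (p.1, p.2.2)) ∨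
      (∀ᵐ p ∂(μ.prod (volume : Measure (V m × V m))), ¬ (f (p.1, p.2.1) = f (p.1, p.2.2)))) :
    ∃ z₀ : V m, ∀ᵐ p ∂(μ.prod (volume : Measure (V m))), f p = f (p.1, z₀) := by
  rcases hA with hA | hA
  · have h1 : MeasurePreserving (Prod.swap : V m × (X × V m) → (X × V m) × V m)
        ((volume : Measure (V m)).prod (μ.prod volume)) ((μ.prod volume).prod volume) :=
      Measure.measurePreserving_swap
    have h2 : MeasurePreserving (MeasurableEquiv.prodAssoc : (X × V m) × V m ≃ᵐ X × (V m × V m))
        ((μ.prod volume).prod volume) (μ.prod (volume.prod volume)) :=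
      MeasureTheory.measurePreserving_prodAssoc μ volume volume
    have h3 := (h2.comp h1).quasiMeasurePreserving.ae hA
    have h4 := Measure.ae_ae_of_ae_prod h3
    obtain ⟨z, hz⟩ := h4.exists
    refine ⟨z, ?_⟩
    filter_upwards [hz] with p hp using hp
  · exfalso
    have h1 := Measure.ae_ae_of_ae_prod hA
    obtain ⟨x, hx⟩ := h1.exists
    have h2 : ∀ l : L, ∀ᵐ z : V m, f (x, z) ≠ l := by
      intro l
      have h3 : (volume : Measure (V m × V m)) ({z | f (x, z) = l} ×ˢ {z | f (x, z) = l}) = 0 := by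
        refine measure_mono_null ?_ (ae_iff.mp hx)
        rintro ⟨p, q⟩ ⟨hp, hq⟩
        change f (x, p) = l at hp
        change f (x, q) = l at hq
        change ¬ ¬ (f (x, p) = f (x, q))
        rw [not_not, hp, hq]
      rw [Measure.volume_eq_prod, Measure.prod_prod, mul_self_eq_zero] at h3
      rw [ae_iff]
      simpa using h3
    have h4 : ∀ᵐ z : V m, ∀ l : L, f (x, z) ≠ l := ae_all_iff.mpr h2
    obtain ⟨z, hz⟩ := h4.exists
    exact hz _ rfl

theorem separation1 {m : ℕ} (hm : 6 ≤ m) {L : Type} [Group L] [Countable L]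
    (c : SLZ m → V m → L) (hc : IsCocycle c) (Ψ : V m × V m → L)
    (hΨ : ∀ l, MeasurableSet {p | Ψ p = l})
    (h : ∀ g : SLZ m, ∀ᵐ p : V m × V m, Ψ (act g p.1, act g p.2) = c g p.2 * Ψ p * (c g p.1)⁻¹) :
    ∃ T : V m → L, (∀ l, MeasurableSet {x | T x = l}) ∧
      ∀ᵐ p : V m × V m × V m, Ψ (p.2.1, p.2.2) * Ψ (p.1, p.2.1) = Ψ (p.1, p.2.2) * T p.1 := by
  let _ : MeasurableSpace L := ⊤
  have hΨm : Measurable Ψ := measurable_to_countable' hΨ
  set T3 : V m × V m × V m → L := fun q => (Ψ (q.1, q.2.2))⁻¹ * Ψ (q.2.1, q.2.2) * Ψ (q.1, q.2.1)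
    with hT3
  have hT3m : Measurable T3 := by
    have h1 : Measurable (fun t : L × L × L => t.1⁻¹ * t.2.1 * t.2.2) := Measurable.of_discrete
    exact h1.comp ((hΨm.comp (by fun_prop)).prodMk
      ((hΨm.comp (by fun_prop)).prodMk (hΨm.comp (by fun_prop))))
  -- projections
  have q12 : Measure.QuasiMeasurePreserving (fun q : V m × V m × V m => (q.1, q.2.1))
      volume volume :=
    MeasureTheory.QuasiMeasurePreserving.prodMap
      (Measure.QuasiMeasurePreserving.id (volume : Measure (V m)))
      (Measure.quasiMeasurePreserving_fst (μ := (volume : Measure (V m)))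
        (ν := (volume : Measure (V m))))
  have q13 : Measure.QuasiMeasurePreserving (fun q : V m × V m × V m => (q.1, q.2.2))
      volume volume :=
    MeasureTheory.QuasiMeasurePreserving.prodMap
      (Measure.QuasiMeasurePreserving.id (volume : Measure (V m)))
      (Measure.quasiMeasurePreserving_snd (μ := (volume : Measure (V m)))
        (ν := (volume : Measure (V m))))
  have q23 : Measure.QuasiMeasurePreserving (fun q : V m × V m × V m => q.2)
      volume volume :=
    Measure.quasiMeasurePreserving_snd (μ := (volume : Measure (V m)))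
        (ν := (volume : Measure (V m × V m)))
  have e3 : ∀ g : SLZ m, ∀ᵐ q : V m × V m × V m,
      T3 (act g q.1, act g q.2.1, act g q.2.2) = c g q.1 * T3 q * (c g q.1)⁻¹ := by
    intro g
    filter_upwards [q12.ae (h g), q13.ae (h g), q23.ae (h g)] with q h1 h2 h3
    simp only [hT3]
    rw [h1, h2, h3]
    group
  have a12 : Measure.QuasiMeasurePreserving
      (fun q : V m × V m × V m × V m => (q.1, q.2.1, q.2.2.1)) volume volume :=
    MeasureTheory.QuasiMeasurePreserving.prodMap
      (Measure.QuasiMeasurePreserving.id (volume : Measure (V m)))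
      (MeasureTheory.QuasiMeasurePreserving.prodMap
      (Measure.QuasiMeasurePreserving.id (volume : Measure (V m)))
      (Measure.quasiMeasurePreserving_fst (μ := (volume : Measure (V m)))
        (ν := (volume : Measure (V m)))))
  have a13 : Measure.QuasiMeasurePreserving
      (fun q : V m × V m × V m × V m => (q.1, q.2.1, q.2.2.2)) volume volume :=
    MeasureTheory.QuasiMeasurePreserving.prodMap
      (Measure.QuasiMeasurePreserving.id (volume : Measure (V m)))
      (MeasureTheory.QuasiMeasurePreserving.prodMap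
      (Measure.QuasiMeasurePreserving.id (volume : Measure (V m)))
      (Measure.quasiMeasurePreserving_snd (μ := (volume : Measure (V m)))
        (ν := (volume : Measure (V m)))))
  have hconj : ∀ a b d : L, a * b * a⁻¹ = a * d * a⁻¹ ↔ b = d := by
    intro a b d
    rw [mul_left_inj, mul_right_inj]
  -- first step
  have hE4 := erg4 m 1 hm one_pos
    {q : V m × V m × V m × V m | T3 (q.1, q.2.1, q.2.2.1) = T3 (q.1, q.2.1, q.2.2.2)}
    (by
      have h1 : Measurable fun q : V m × V m × V m × V m => T3 (q.1, q.2.1, q.2.2.1) :=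
        hT3m.comp (by fun_prop)
      have h2 : Measurable fun q : V m × V m × V m × V m => T3 (q.1, q.2.1, q.2.2.2) :=
        hT3m.comp (by fun_prop)
      exact (h1.prodMk h2) (MeasurableSet.of_discrete (s := {p : L × L | p.1 = p.2})))
    (by
      intro i j hij
      filter_upwards [a12.ae (e3 (elemZ i j hij ((1 : ℕ) : ℤ))),
        a13.ae (e3 (elemZ i j hij ((1 : ℕ) : ℤ)))] with q h1 h2
      change _ = _ ↔ _ = _
      rw [h1, h2, hconj])
  have hassoc4 : MeasurePreserving (MeasurableEquiv.prodAssoc :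
      (V m × V m) × (V m × V m) ≃ᵐ V m × (V m × (V m × V m))) volume volume :=
    MeasureTheory.volume_preserving_prodAssoc (α₁ := V m) (β₁ := V m) (γ₁ := V m × V m)
  obtain ⟨z₀, hz₀⟩ := p3_fix (volume : Measure (V m × V m))
    (fun w : (V m × V m) × V m => T3 (w.1.1, w.1.2, w.2))
    (by
      rcases hE4 with hE | hE
      · left
        exact hassoc4.quasiMeasurePreserving.ae hE
      · right
        exact hassoc4.quasiMeasurePreserving.ae hE)
  set T1 : V m × V m → L := fun p => T3 (p.1, p.2, z₀) with hT1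
  have hT1m : Measurable T1 := hT3m.comp (by fun_prop)
  have hassoc3 : MeasurePreserving (MeasurableEquiv.prodAssoc :
      (V m × V m) × V m ≃ᵐ V m × (V m × V m)) volume volume :=
    MeasureTheory.volume_preserving_prodAssoc (α₁ := V m) (β₁ := V m) (γ₁ := V m)
  have hK2 : ∀ᵐ w : (V m × V m) × V m, T3 (w.1.1, w.1.2, w.2) = T1 w.1 := hz₀
  have e2 : ∀ g : SLZ m, ∀ᵐ p : V m × V m,
      T1 (act g p.1, act g p.2) = c g p.1 * T1 p * (c g p.1)⁻¹ := by
    intro g
    have k1 : ∀ᵐ w : (V m × V m) × V m, T3 (act g w.1.1, act g w.1.2, act g w.2) =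
        c g w.1.1 * T3 (w.1.1, w.1.2, w.2) * (c g w.1.1)⁻¹ :=
      hassoc3.quasiMeasurePreserving.ae (e3 g)
    have k3 : ∀ᵐ w : (V m × V m) × V m, T3 (act g w.1.1, act g w.1.2, act g w.2) =
        T1 (act g w.1.1, act g w.1.2) :=
      (((mp_act g).prod (mp_act g)).prod (mp_act g)).quasiMeasurePreserving.ae hK2
    have k4 : ∀ᵐ w : (V m × V m) × V m,
        T1 (act g w.1.1, act g w.1.2) = c g w.1.1 * T1 w.1 * (c g w.1.1)⁻¹ := by
      filter_upwards [k1, k3, hK2] with w w1 w2 w3
      rw [← w2, w1, w3]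
    have k5 : ∀ᵐ p : V m × V m, ∀ᵐ _z : V m,
        T1 (act g p.1, act g p.2) = c g p.1 * T1 p * (c g p.1)⁻¹ :=
      Measure.ae_ae_of_ae_prod k4
    filter_upwards [k5] with p hp
    exact hp.exists.choose_spec
  -- second step
  have hE3 := erg3 m 1 (by omega) one_pos
    {q : V m × V m × V m | T1 (q.1, q.2.1) = T1 (q.1, q.2.2)}
    (by
      have h1 : Measurable fun q : V m × V m × V m => T1 (q.1, q.2.1) :=
        hT1m.comp (by fun_prop)
      have h2 : Measurable fun q : V m × V m × V m => T1 (q.1, q.2.2) :=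
        hT1m.comp (by fun_prop)
      exact (h1.prodMk h2) (MeasurableSet.of_discrete (s := {p : L × L | p.1 = p.2})))
    (by
      intro i j hij
      filter_upwards [q12.ae (e2 (elemZ i j hij ((1 : ℕ) : ℤ))),
        q13.ae (e2 (elemZ i j hij ((1 : ℕ) : ℤ)))] with q h1 h2
      change _ = _ ↔ _ = _
      rw [h1, h2, hconj])
  obtain ⟨y₀, hy₀⟩ := p3_fix (volume : Measure (V m)) T1 hE3
  refine ⟨fun x => T1 (x, y₀), ?_, ?_⟩
  · intro l
    exact (hT1m.comp (by fun_prop : Measurable fun x : V m => (x, y₀)))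
      (MeasurableSet.of_discrete (s := {l}))
  · have k1 : ∀ᵐ q : V m × V m × V m, T3 (q.1, q.2.1, q.2.2) = T1 (q.1, q.2.1) :=
      hassoc3.symm.quasiMeasurePreserving.ae hK2
    have k2 : ∀ᵐ q : V m × V m × V m, T1 (q.1, q.2.1) = T1 (q.1, y₀) := q12.ae hy₀
    filter_upwards [k1, k2] with q h1 h2
    rw [← h2, ← h1]
    simp only [hT3]
    group

end Pool.Agent.Arch
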