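import Pool.Agent.Arch.P2
import Pool.Agent.Arch.P3

/-!
# P4: cocycle superrigidity

Proof. `separation2`: by Fubini fix `y₀` such that `Ψ(y₀,z) Ψ(x,y₀) = Ψ(x,z) T(x)` for a.e.
`(x,z)`. With `a(z) = Ψ(y₀,z)`, `b(x) = Ψ(x,y₀) T(x)⁻¹`: `Ψ(x,z) = a(z) b(x)` a.e. Then for each `γ`
`a(γz)⁻¹ c(γ,z) a(z) = b(γx) c(γ,x) b(x)⁻¹` for a.e. `(x,z)`: both sides are a.e. equal to a constant
`ρ(γ)`. So `c(γ,z) = a(γz) ρ(γ) a(z)⁻¹` for a.e. `z`; `ρ` is a homomorphism by the cocycle identity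
(`a(γδz)⁻¹ c(γδ,z) a(z) = [a(γδz)⁻¹ c(γ,δz) a(δz)] [a(δz)⁻¹ c(δ,z) a(z)]`, `act δ` preserves null sets).
`cocycle_superrigidity`: P2, P3 and `separation2` with `m = k + 2`.
-/

namespace Pool.Agent.Arch

open MeasureTheory Matrix Filter Topology

theorem p4_mp (m : ℕ) : MeasurePreserving
    (fun q : V m × V m × V m => (q.2.1, q.1, q.2.2)) volume volume := by
  have h1 : MeasurePreserving (MeasurableEquiv.prodAssoc.symm :
      V m × V m × V m ≃ᵐ (V m × V m) × V m) volume volume :=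
    (MeasureTheory.volume_preserving_prodAssoc (α₁ := V m) (β₁ := V m) (γ₁ := V m)).symm
  have h2 : MeasurePreserving (Prod.map Prod.swap id : (V m × V m) × V m → (V m × V m) × V m)
      volume volume :=
    (Measure.measurePreserving_swap (μ := (volume : Measure (V m)))
      (ν := (volume : Measure (V m)))).prod (MeasurePreserving.id _)
  have h3 : MeasurePreserving (MeasurableEquiv.prodAssoc :
      (V m × V m) × V m ≃ᵐ V m × V m × V m) volume volume :=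
    MeasureTheory.volume_preserving_prodAssoc (α₁ := V m) (β₁ := V m) (γ₁ := V m)
  exact h3.comp (h2.comp h1)

theorem separation2 {m : ℕ} {L : Type} [Group L] [Countable L]
    (c : SLZ m → V m → L) (hc : IsCocycle c) (Ψ : V m × V m → L)
    (hΨ : ∀ l, MeasurableSet {p | Ψ p = l})
    (h : ∀ g : SLZ m, ∀ᵐ p : V m × V m, Ψ (act g p.1, act g p.2) = c g p.2 * Ψ p * (c g p.1)⁻¹)
    (T : V m → L) (hT : ∀ l, MeasurableSet {x | T x = l})
    (h2 : ∀ᵐ p : V m × V m × V m,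
      Ψ (p.2.1, p.2.2) * Ψ (p.1, p.2.1) = Ψ (p.1, p.2.2) * T p.1) :
    ∃ (a : V m → L) (ρ : SLZ m →* L), (∀ l, MeasurableSet {x | a x = l}) ∧
      ∀ g, ∀ᵐ x : V m, c g x = a (act g x) * ρ g * (a x)⁻¹ := by
  have h3 : ∀ᵐ q : V m × V m × V m,
      Ψ (q.1, q.2.2) * Ψ (q.2.1, q.1) = Ψ (q.2.1, q.2.2) * T q.2.1 :=
    (p4_mp m).quasiMeasurePreserving.ae h2
  have h4 : ∀ᵐ y : V m, ∀ᵐ q : V m × V m,
      Ψ (y, q.2) * Ψ (q.1, y) = Ψ (q.1, q.2) * T q.1 :=
    Measure.ae_ae_of_ae_prod h3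
  obtain ⟨y₀, hy⟩ := h4.exists
  set a : V m → L := fun z => Ψ (y₀, z) with ha
  set b : V m → L := fun x => Ψ (x, y₀) * (T x)⁻¹ with hb
  have h5 : ∀ᵐ q : V m × V m, Ψ q = a q.2 * b q.1 := by
    filter_upwards [hy] with q hq
    have : Ψ q = (Ψ q * T q.1) * (T q.1)⁻¹ := by group
    rw [this, ← hq, ha, hb]
    simp only [mul_assoc]
  have h6 : ∀ g : SLZ m, ∀ᵐ q : V m × V m,
      (a (act g q.2))⁻¹ * c g q.2 * a q.2 = b (act g q.1) * c g q.1 * (b q.1)⁻¹ := by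
    intro g
    have h7 : ∀ᵐ q : V m × V m, Ψ (act g q.1, act g q.2) = a (act g q.2) * b (act g q.1) :=
      ((mp_act g).prod (mp_act g)).quasiMeasurePreserving.ae h5
    filter_upwards [h5, h7, h g] with q q1 q2 q3
    rw [q2, q1] at q3
    have q4 : a (act g q.2) * b (act g q.1) * c g q.1 * (b q.1)⁻¹ = c g q.2 * a q.2 := by
      rw [q3]; group
    calc (a (act g q.2))⁻¹ * c g q.2 * a q.2
        = (a (act g q.2))⁻¹ * (c g q.2 * a q.2) := by group
      _ = (a (act g q.2))⁻¹ * (a (act g q.2) * b (act g q.1) * c g q.1 * (b q.1)⁻¹) := by rw [q4]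
      _ = b (act g q.1) * c g q.1 * (b q.1)⁻¹ := by group
  have h8 : ∀ g : SLZ m, ∃ r : L, ∀ᵐ z : V m, (a (act g z))⁻¹ * c g z * a z = r := by
    intro g
    have := Measure.ae_ae_of_ae_prod (h6 g)
    obtain ⟨x, hx⟩ := this.exists
    exact ⟨b (act g x) * c g x * (b x)⁻¹, hx⟩
  choose ρ hρ using h8
  have hmul : ∀ g δ : SLZ m, ρ (g * δ) = ρ g * ρ δ := by
    intro g δ
    have e1 : ∀ᵐ z : V m, (a (act g (act δ z)))⁻¹ * c g (act δ z) * a (act δ z) = ρ g :=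
      (mp_act δ).quasiMeasurePreserving.ae (hρ g)
    obtain ⟨z, z1, z2, z3⟩ := (e1.and ((hρ δ).and (hρ (g * δ)))).exists
    rw [← z1, ← z2, ← z3, hc.mul, act_mul]
    group
  refine ⟨a, MonoidHom.mk' ρ hmul, ?_, ?_⟩
  · intro l
    exact (hΨ l).preimage (measurable_const.prodMk measurable_id)
  · intro g
    filter_upwards [hρ g] with z hz
    show c g z = a (act g z) * ρ g * (a z)⁻¹
    rw [← hz]
    group

/-- Cocycle superrigidity of the linear action of `SL_m(Z)` on `R^m`, `m ≥ 6`, for arbitrary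
countable target groups. -/
theorem cocycle_superrigidity {m : ℕ} (hm : 6 ≤ m) {L : Type} [Group L] [Countable L]
    (c : SLZ m → V m → L) (hc : IsCocycle c) :
    ∃ (a : V m → L) (ρ : SLZ m →* L), (∀ l, MeasurableSet {x | a x = l}) ∧
      ∀ g, ∀ᵐ x : V m, c g x = a (act g x) * ρ g * (a x)⁻¹ := by
  obtain ⟨k, rfl⟩ : ∃ k, m = k + 2 := ⟨m - 2, by omega⟩
  obtain ⟨Ψ, hΨ, h⟩ := exists_psi (k := k) (by omega) c hc
  obtain ⟨T, hT, h2⟩ := separation1 hm c hc Ψ hΨ h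
  exact separation2 c hc Ψ hΨ h T hT h2

end Pool.Agent.Arch
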