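import Pool.Agent.Arch.I9
import Pool.Agent.Arch.P4

/-!
# I10: the equivariant map

Proof. `f0 = f ∘ cone`; I9 gives `P0`, `B`, `f1 x = B(f0 x) • f0 x`. Let
`X1 = {x | Indep x ∧ ∃ g, typ (g • f0 x) = typ P0}`: measurable, strictly invariant under `act γ`,
conull. On `X1` we want `typ (f1 x) = typ P0`: this holds a.e.; to have a strictly invariant set take
`X1' = {x | Indep x ∧ ∀ γ, typ (f1 (act γ x)) = typ P0}`, conull and strictly invariant. For `x` in
`X1'` and `γ`: `f1 (act γ x)` and `f1 x` are `E_n`-equivalent of the same type, so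
`f1 (act γ x) = g • f1 x` with `g ∈ C(P0)` (`mem_Cn_iff`), unique modulo `S(P0)` (`smul_eq_smul_iff`);
`c γ x` is its class in `L = C(P0)/S(P0)`, and `1` for `x` outside `X1'`. This is a strict cocycle;
its fibres are measurable: on `X1'`, `c γ x = mk g` iff `f1 (act γ x) = g • f1 x` (a measurable condition:
`Ar n` is a subspace of a countable product of copies of `Bool`, equality of two measurable
maps is a measurable condition). `cocycle_superrigidity` gives `a`, `ρ`. Choose a section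
`r : L → C(P0)` of the quotient map and put `F x = (r (a x))⁻¹ • f1 x`: measurable (countably many
values of `a`). For a.e. `x`, `F (act g x) = (r(a(gx)))⁻¹ • (c g x) f1 x`, and the class of
`(r(a(gx)))⁻¹ c(g,x) r(a x)` is `ρ(g)`, so it is `h • F x` for every `h` with class `ρ(g)`
(`smul_eq_smul_iff`).
-/

namespace Pool.Agent.Arch

open MeasureTheory Matrix

/-- The data obtained from a Borel homomorphism of `E_m` to `E_n`. -/
structure Equi {m n : ℕ} (f : Ar m → Ar n) (P0 : Ar n) (F : V m → Ar n)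
    (ρ : SLZ m →* (Cn P0 ⧸ Sn P0)) : Prop where
  meas : Measurable F
  typ_eq : ∀ᵐ x : V m, typ (F x) = typ P0
  orbit : ∀ᵐ x : V m, ∃ g : GL (Fin n) ℤ, F x = g • f (cone x)
  equiv : ∀ (g : SLZ m) (h : Cn P0), (QuotientGroup.mk h : Cn P0 ⧸ Sn P0) = ρ g →
    ∀ᵐ x : V m, F (act g x) = (h : GL (Fin n) ℤ) • F x

private lemma i10_countable_mat (n : ℕ) : Countable (Matrix (Fin n) (Fin n) ℤ) :=
  inferInstanceAs (Countable (Fin n → Fin n → ℤ))

private lemma i10_countable_GL (n : ℕ) : Countable (GL (Fin n) ℤ) := by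
  have := i10_countable_mat n
  exact Function.Injective.countable (f := fun u : GL (Fin n) ℤ => (u : Matrix (Fin n) (Fin n) ℤ))
    fun a b h => Units.ext h

private lemma i10_countable_SLZ (m : ℕ) : Countable (SLZ m) := by
  have := i10_countable_mat m
  exact Function.Injective.countable
    (f := fun u : SLZ m => (u.1 : Matrix (Fin m) (Fin m) ℤ)) Subtype.coe_injective

private lemma i10_meas_eq {X : Type*} [MeasurableSpace X] {n : ℕ} {F G : X → Ar n}
    (hF : Measurable F) (hG : Measurable G) : MeasurableSet {x | F x = G x} := by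
  have h1 : {x | F x = G x} = ⋂ a : Fin n → ℤ, {x | (F x).1 a = (G x).1 a} := by
    ext x
    simp only [Set.mem_ofPred_eq, Set.mem_iInter]
    constructor
    · intro h a
      rw [h]
    · intro h
      exact Subtype.ext (funext h)
  rw [h1]
  refine MeasurableSet.iInter fun a => ?_
  refine measurableSet_eq_fun ?_ ?_
  · exact (measurable_pi_apply a).comp (measurable_subtype_coe.comp hF)
  · exact (measurable_pi_apply a).comp (measurable_subtype_coe.comp hG)

theorem exists_equi {m n : ℕ} (hm : 6 ≤ m) (hn : 1 ≤ n) (f : Ar m → Ar n) (hf : Measurable f)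
    (hE : ∀ P Q, ERel m P Q → ERel n (f P) (f Q)) :
    ∃ (P0 : Ar n) (F : V m → Ar n) (ρ : SLZ m →* (Cn P0 ⧸ Sn P0)), Equi f P0 F ρ := by
  classical
  have hcG := i10_countable_GL n
  have hcS := i10_countable_SLZ m
  set f0 : V m → Ar n := fun x => f (cone x) with hf0
  have hf0m : Measurable f0 := hf.comp (measurable_cone m)
  obtain ⟨P0, B, hB, hty⟩ := one_type (m := m) (by omega) hn f0 hf0m
    (fun g x hx => hE _ _ (cone_act g x hx))
  set f1 : V m → Ar n := fun x => B (f0 x) • f0 x with hf1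
  have hcL : Countable (Cn P0 ⧸ Sn P0) := by
    have : Countable (Cn P0) := Subtype.countable
    exact Function.Surjective.countable (QuotientGroup.mk_surjective (s := Sn P0))
  set X1 : Set (V m) := {x | Indep x ∧ ∀ γ : SLZ m, typ (f1 (act γ x)) = typ P0} with hX1
  have hX1m : MeasurableSet X1 := by
    have h1 : X1 = {x | Indep x} ∩ ⋂ γ : SLZ m, {x | typ (f1 (act γ x)) = typ P0} := by
      ext x
      simp only [hX1, Set.mem_ofPred_eq, Set.mem_inter_iff, Set.mem_iInter]
    rw [h1]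
    refine (measurableSet_indep m).inter (MeasurableSet.iInter fun γ => ?_)
    exact (hB.comp (measurable_act γ)) (measurableSet_typ hn (typ P0))
  have hX1ae : ∀ᵐ x : V m, x ∈ X1 := by
    have h1 : ∀ᵐ x : V m, ∀ γ : SLZ m, typ (f1 (act γ x)) = typ P0 := by
      rw [ae_all_iff]
      intro γ
      exact (mp_act γ).quasiMeasurePreserving.ae hty
    filter_upwards [ae_indep m, h1] with x hx hx1
    exact ⟨hx, hx1⟩
  have hX1inv : ∀ (γ : SLZ m) (x : V m), x ∈ X1 → act γ x ∈ X1 := by
    intro γ x hx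
    refine ⟨(indep_act γ x).2 hx.1, fun δ => ?_⟩
    rw [← act_mul]
    exact hx.2 (δ * γ)
  have hX1inv' : ∀ (γ : SLZ m) (x : V m), act γ x ∈ X1 → x ∈ X1 := by
    intro γ x hx
    have := hX1inv γ⁻¹ _ hx
    rwa [act_inv_act] at this
  have hty1 : ∀ x ∈ X1, typ (f1 x) = typ P0 := by
    intro x hx
    have := hx.2 1
    rwa [act_one] at this
  have hex : ∀ (γ : SLZ m) (x : V m), x ∈ X1 → ∃ g : Cn P0,
      f1 (act γ x) = (g : GL (Fin n) ℤ) • f1 x := by
    intro γ x hx
    obtain ⟨a, ha⟩ := (erel_iff _ _).1 (hE _ _ (cone_act γ x hx.1))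
    have h1 : f1 (act γ x) = (B (f0 (act γ x)) * a * (B (f0 x))⁻¹) • f1 x := by
      simp only [hf1]
      rw [mul_smul, inv_smul_smul, mul_smul, ha]
    have h2 : (B (f0 (act γ x)) * a * (B (f0 x))⁻¹) ∈ Cn P0 := by
      rw [← mem_Cn_iff (hty1 x hx), ← h1]
      exact hx.2 γ
    exact ⟨⟨_, h2⟩, h1⟩
  choose! cc hcc using hex
  set c : SLZ m → V m → (Cn P0 ⧸ Sn P0) := fun γ x =>
    if x ∈ X1 then (QuotientGroup.mk (cc γ x) : Cn P0 ⧸ Sn P0) else 1 with hc
  have hcin : ∀ (γ : SLZ m) (x : V m), x ∈ X1 → ∀ g : Cn P0,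
      (c γ x = QuotientGroup.mk g ↔ f1 (act γ x) = (g : GL (Fin n) ℤ) • f1 x) := by
    intro γ x hx g
    rw [hcc γ x hx, smul_eq_smul_iff (hty1 x hx)]
    simp only [hc, if_pos hx]
  have hcout : ∀ (γ : SLZ m) (x : V m), x ∉ X1 → c γ x = 1 := by
    intro γ x hx
    simp only [hc, if_neg hx]
  have hcoc : IsCocycle c := by
    refine ⟨fun γ l => ?_, fun g h x => ?_⟩
    · obtain ⟨g, rfl⟩ := QuotientGroup.mk_surjective l
      have h1 : {x | c γ x = (QuotientGroup.mk g : Cn P0 ⧸ Sn P0)} =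
          (X1 ∩ {x | f1 (act γ x) = (g : GL (Fin n) ℤ) • f1 x}) ∪
          (X1ᶜ ∩ {_x | (1 : Cn P0 ⧸ Sn P0) = QuotientGroup.mk g}) := by
        ext x
        by_cases hx : x ∈ X1
        · simp only [Set.mem_ofPred_eq, Set.mem_union, Set.mem_inter_iff, hx, true_and,
            Set.mem_compl_iff, not_true_eq_false, false_and, or_false]
          exact hcin γ x hx g
        · simp only [Set.mem_ofPred_eq, Set.mem_union, Set.mem_inter_iff, hx, false_and,
            Set.mem_compl_iff, not_false_eq_true, true_and, false_or]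
          rw [hcout γ x hx]
      rw [h1]
      refine (hX1m.inter (i10_meas_eq ?_ ?_)).union (hX1m.compl.inter (MeasurableSet.const _))
      · exact hB.comp (measurable_act γ)
      · exact (measurable_smul_Ar _).comp hB
    · by_cases hx : x ∈ X1
      · have hx' := hX1inv h x hx
        rw [show c g (act h x) = (QuotientGroup.mk (cc g (act h x)) : Cn P0 ⧸ Sn P0) by
          simp only [hc, if_pos hx'], show c h x = (QuotientGroup.mk (cc h x) : Cn P0 ⧸ Sn P0) by
          simp only [hc, if_pos hx], ← QuotientGroup.mk_mul, hcin _ _ hx, act_mul,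
          hcc g _ hx', hcc h _ hx, Subgroup.coe_mul, mul_smul]
      · have hx' : act h x ∉ X1 := fun h1 => hx (hX1inv' h x h1)
        rw [hcout _ _ hx, hcout _ _ hx', hcout _ _ hx, mul_one]
  obtain ⟨a, ρ, ham, hρ⟩ := cocycle_superrigidity hm c hcoc
  set r : (Cn P0 ⧸ Sn P0) → Cn P0 := fun l => Quotient.out l with hr
  have hrm : ∀ l, (QuotientGroup.mk (r l) : Cn P0 ⧸ Sn P0) = l := fun l =>
    QuotientGroup.out_eq' l
  refine ⟨P0, fun x => ((r (a x))⁻¹ : Cn P0).1 • f1 x, ρ, ?_, ?_, ?_, ?_⟩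
  · intro s hs
    have h1 : (fun x => ((r (a x))⁻¹ : Cn P0).1 • f1 x) ⁻¹' s =
        ⋃ l : Cn P0 ⧸ Sn P0, ({x | a x = l} ∩
          ((fun x => ((r l)⁻¹ : Cn P0).1 • f1 x) ⁻¹' s)) := by
      ext x
      simp only [Set.mem_preimage, Set.mem_iUnion, Set.mem_inter_iff, Set.mem_ofPred_eq]
      constructor
      · intro h
        exact ⟨a x, rfl, h⟩
      · rintro ⟨l, rfl, h⟩
        exact h
    rw [h1]
    exact MeasurableSet.iUnion fun l => (ham l).inter
      (((measurable_smul_Ar _).comp hB) hs)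
  · filter_upwards [hX1ae] with x hx
    exact (mem_Cn_iff (hty1 x hx) _).2 ((r (a x))⁻¹ : Cn P0).2
  · refine Filter.Eventually.of_forall fun x => ⟨((r (a x))⁻¹ : Cn P0).1 * B (f0 x), ?_⟩
    rw [mul_smul]
  · intro g h hh
    filter_upwards [hX1ae, hρ g] with x hx hx1
    have e1 : f1 (act g x) = (cc g x : GL (Fin n) ℤ) • f1 x := hcc g x hx
    have e2 : (QuotientGroup.mk (cc g x) : Cn P0 ⧸ Sn P0) = c g x := by
      simp only [hc, if_pos hx]
    have e4 : (QuotientGroup.mk ((r (a (act g x)))⁻¹ * cc g x) : Cn P0 ⧸ Sn P0) =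
        QuotientGroup.mk (h * (r (a x))⁻¹) := by
      rw [QuotientGroup.mk_mul, QuotientGroup.mk_mul, QuotientGroup.mk_inv, QuotientGroup.mk_inv,
        hrm, hrm, e2, hx1, hh]
      group
    have e3 := (smul_eq_smul_iff (hty1 x hx) ((r (a (act g x)))⁻¹ * cc g x)
      (h * (r (a x))⁻¹)).2 e4
    rw [Subgroup.coe_mul, Subgroup.coe_mul, mul_smul, mul_smul] at e3
    show ((r (a (act g x)))⁻¹ : Cn P0).1 • f1 (act g x) = _
    rw [e1]
    exact e3

end Pool.Agent.Arch
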