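import Pool.Agent.Arch.I1

/-!
# I2: independence and uniqueness up to scale

(a) a vector whose cone is `P` has rationally independent coordinates (totality: for `x ≠ 0`
`P x` or `P (-x)`).
(b) if two vectors define the same cone, they differ by a positive factor. Proof: `y`, `y'` with
`0 < dotp x y ↔ 0 < dotp x y'` for all `x`. `n ≥ 1` (for `n = 0` take `s = 1`). Let `e` be a unit vector
with `dotp e y ≠ 0` (any; by (a)), put `s = dotp e y' / dotp e y > 0`. For a rational `p/q`:
`0 < dotp (q x - p e) y` iff the same with `y'`; comparing `dotp x y / dotp e y` and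
`dotp x y' / dotp e y'` with all rationals, they are equal. So `dotp x y' = s * dotp x y` for all `x`, in
particular for unit vectors.
-/

namespace Pool.Agent.Arch

open MeasureTheory Matrix

theorem indep_of_cone {n : ℕ} (P : Ar n) (y : V n) (h : ∀ x, P.1 x = true ↔ 0 < dotp x y) :
    Indep y := by
  intro a ha h0
  rcases P.2.total a ha with h1 | h1
  · have := (h a).1 h1
    rw [h0] at this
    exact lt_irrefl _ this
  · have := (h (-a)).1 h1
    rw [dotp_neg, h0, neg_zero] at this
    exact lt_irrefl _ this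

theorem indep_Yv {n : ℕ} (P : Ar n) : Indep (Yv P) := by
  exact indep_of_cone P _ (Yv_spec P)

private theorem i2_single {n : ℕ} (i : Fin n) (y : V n) : dotp (Pi.single i 1) y = y i := by
  rw [dotp, Finset.sum_eq_single i]
  · simp
  · intro b _ hb
    simp [Pi.single_eq_of_ne hb]
  · intro h
    exact absurd (Finset.mem_univ i) h

private theorem i2_key {n : ℕ} (y y' : V n)
    (h : ∀ x : Fin n → ℤ, 0 < dotp x y ↔ 0 < dotp x y') (e : Fin n → ℤ) (he : 0 < dotp e y)
    (he' : 0 < dotp e y') (x : Fin n → ℤ) : dotp x y / dotp e y = dotp x y' / dotp e y' := by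
  have key : ∀ (z : V n), 0 < dotp e z → ∀ r : ℚ, ((r : ℝ) < dotp x z / dotp e z ↔
      0 < dotp (r.den • x - r.num • e) z) := by
    intro z hz r
    have h1 : (0 : ℝ) < r.den := by exact_mod_cast r.den_pos
    have h2 : (r : ℝ) = (r.num : ℝ) / r.den := by exact_mod_cast (Rat.num_div_den r).symm
    rw [h2, div_lt_div_iff₀ h1 hz, dotp_sub, dotp_nsmul, dotp_zsmul, sub_pos,
      mul_comm (r.den : ℝ)]
  exact eq_of_forall_rat_lt_iff_lt fun r => by rw [key y he, key y' he', h]

theorem unique_scale {n : ℕ} (y y' : V n) (hy : Indep y) (hy' : Indep y')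
    (h : ∀ x : Fin n → ℤ, 0 < dotp x y ↔ 0 < dotp x y') : ∃ s : ℝ, 0 < s ∧ y' = s • y := by
  rcases n with _ | n
  · exact ⟨1, one_pos, Subsingleton.elim _ _⟩
  obtain ⟨e, he⟩ : ∃ e : Fin (n + 1) → ℤ, 0 < dotp e y := by
    have h0 : (Pi.single 0 1 : Fin (n + 1) → ℤ) ≠ 0 := by
      intro h0
      have h2 := congrFun h0 0
      simp at h2
    rcases lt_or_gt_of_ne (hy _ h0) with h1 | h1
    · exact ⟨-Pi.single 0 1, by rw [dotp_neg]; linarith⟩
    · exact ⟨_, h1⟩
  have he' := (h e).1 he
  refine ⟨dotp e y' / dotp e y, div_pos he' he, ?_⟩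
  funext i
  have h1 := i2_key y y' h e he he' (Pi.single i 1)
  rw [i2_single, i2_single] at h1
  rw [Pi.smul_apply, smul_eq_mul]
  field_simp at h1 ⊢
  linarith

end Pool.Agent.Arch
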