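import Pool.Agent.Arch.I0

/-!
# I3: the source side: cones of vectors

* `ae_indep`: for each `a ≠ 0` the set `dotp a x = 0` is a proper hyperplane, null
  (`MeasureTheory.Measure.addHaar_submodule`); countably many `a`.
* `isArch_coneF`: zero, addition, totality (independence), Archimedean (`k > dotp y x / dotp a x`).
* `cone`: the cone as a point of `Ar m` (an arbitrary point when `x` is dependent; `Ar m` is
  nonempty by `ae_indep`, the measure of the space is not zero).
* `measurable_cone`: each coordinate `{x | 0 < dotp a x}` is measurable, and so is `{x | Indep x}`.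
* `cone_act`: `dotp a (act g x) = dotp (gᵀ a) x`, so `P_{gx}(A a) = P_x(a)` with `A = (gᵀ)⁻¹`; `gᵀ` is in
  `GL_m(Z)`.
* `cone_smul`: scaling by `s > 0`.
* `class_null`: `{x | Indep x, cone x E_m P}`: if it contains one point `x₀` then every other point
  `x` in it satisfies `cone x = A cone x₀ = cone (Aᵀ⁻¹ x₀)`, so (two vectors with the same cone
  differ by a positive factor, see the proof of I2 (b)) `x` lies on one of countably many lines
  through `0`, null sets when `m ≥ 2`.
-/

namespace Pool.Agent.Arch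

open MeasureTheory Matrix

/-- The pairing as a linear functional. -/
private noncomputable def i3_lin {m : ℕ} (a : Fin m → ℤ) : V m →ₗ[ℝ] ℝ where
  toFun x := dotp a x
  map_add' x y := by simp [dotp, mul_add, Finset.sum_add_distrib]
  map_smul' s x := by rw [dotp_smul]; rfl

private theorem i3_single {m : ℕ} (a : Fin m → ℤ) (i : Fin m) :
    dotp a (Pi.single i (1 : ℝ)) = (a i : ℝ) := by
  rw [dotp, Finset.sum_eq_single i]
  · simp
  · intro b _ hb
    simp [Pi.single_eq_of_ne hb]
  · intro h
    exact absurd (Finset.mem_univ i) h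

private theorem i3_continuous {m : ℕ} (a : Fin m → ℤ) : Continuous fun x : V m => dotp a x := by
  unfold dotp
  fun_prop

theorem ae_indep (m : ℕ) : ∀ᵐ x : V m, Indep x := by
  unfold Indep
  rw [ae_all_iff]
  intro a
  by_cases ha : a = 0
  · exact Filter.Eventually.of_forall fun x h => absurd ha h
  · have hne : LinearMap.ker (i3_lin a) ≠ ⊤ := by
      intro h
      apply ha
      funext i
      have h1 : (Pi.single i (1 : ℝ) : V m) ∈ LinearMap.ker (i3_lin a) := by
        rw [h]; trivial
      rw [LinearMap.mem_ker] at h1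
      have h2 : dotp a (Pi.single i (1 : ℝ)) = 0 := h1
      rw [i3_single] at h2
      exact_mod_cast h2
    have h0 := Measure.addHaar_submodule (volume : Measure (V m)) _ hne
    have h1 : ∀ᵐ x : V m, x ∉ (LinearMap.ker (i3_lin a) : Set (V m)) := measure_eq_zero_iff_ae_notMem.1 h0
    filter_upwards [h1] with x hx _ h
    exact hx (LinearMap.mem_ker.2 h)

theorem measurableSet_indep (m : ℕ) : MeasurableSet {x : V m | Indep x} := by
  have h : {x : V m | Indep x} = ⋂ a : Fin m → ℤ, ⋂ _ : a ≠ 0, {x : V m | dotp a x ≠ 0} := by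
    ext x
    simp only [Set.mem_ofPred_eq, Set.mem_iInter, Indep]
  rw [h]
  refine MeasurableSet.iInter fun a => MeasurableSet.iInter fun _ => ?_
  have h0 : MeasurableSet {x : V m | dotp a x = 0} :=
    (i3_continuous a).measurable (measurableSet_singleton 0)
  exact h0.compl

theorem isArch_coneF {m : ℕ} (x : V m) (hx : Indep x) : IsArch (coneF x) := by
  refine ⟨?_, ?_, ?_, ?_⟩
  · simp [coneF, dotp_zero]
  · intro a b ha hb
    simp only [coneF, decide_eq_true_eq] at *
    rw [dotp_add]
    exact add_pos ha hb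
  · intro a ha
    simp only [coneF, decide_eq_true_eq]
    rw [dotp_neg]
    rcases lt_or_gt_of_ne (hx a ha) with h | h
    · right; linarith
    · left; exact h
  · intro a b ha
    simp only [coneF, decide_eq_true_eq] at *
    obtain ⟨k, hk⟩ := exists_nat_gt (dotp b x / dotp a x)
    refine ⟨k, ?_⟩
    rw [dotp_sub, dotp_nsmul]
    rw [div_lt_iff₀ ha] at hk
    linarith

theorem nonempty_Ar (m : ℕ) : Nonempty (Ar m) := by
  obtain ⟨x, hx⟩ := (ae_indep m).exists
  exact ⟨⟨coneF x, isArch_coneF x hx⟩⟩

open Classical in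
/-- The cone of a vector as a point of `Ar m`. -/
noncomputable def cone {m : ℕ} (x : V m) : Ar m :=
  if h : Indep x then ⟨coneF x, isArch_coneF x h⟩ else Classical.choice (nonempty_Ar m)

theorem cone_val {m : ℕ} (x : V m) (hx : Indep x) (a : Fin m → ℤ) :
    (cone x).1 a = true ↔ 0 < dotp a x := by
  rw [cone, dif_pos hx]
  simp only [coneF, decide_eq_true_eq]

theorem measurable_cone (m : ℕ) : Measurable (cone : V m → Ar m) := by
  rw [measurable_comap_iff]
  refine measurable_pi_iff.2 fun a => ?_
  have h1 : MeasurableSet {x : V m | 0 < dotp a x} :=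
    measurableSet_lt measurable_const (i3_continuous a).measurable
  refine measurable_to_bool ?_
  have h2 : (fun x : V m => (Subtype.val ∘ cone) x a) ⁻¹' {true} =
      ({x : V m | Indep x} ∩ {x : V m | 0 < dotp a x}) ∪
      ({x : V m | Indep x}ᶜ ∩
        {_x : V m | (Classical.choice (nonempty_Ar m)).1 a = true}) := by
    ext x
    by_cases hx : Indep x
    · simp only [Set.mem_preimage, Set.mem_singleton_iff, Function.comp_apply, Set.mem_union,
        Set.mem_inter_iff, Set.mem_ofPred_eq, Set.mem_compl_iff, cone_val x hx, hx]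
      simp
    · have hc : cone x = Classical.choice (nonempty_Ar m) := by rw [cone, dif_neg hx]
      simp only [Set.mem_preimage, Set.mem_singleton_iff, Function.comp_apply, Set.mem_union,
        Set.mem_inter_iff, Set.mem_ofPred_eq, Set.mem_compl_iff, hc, hx]
      simp
  rw [h2]
  exact ((measurableSet_indep m).inter h1).union
    ((measurableSet_indep m).compl.inter (MeasurableSet.const _))

private theorem i3_dotp_act {m : ℕ} (g : SLZ m) (a : Fin m → ℤ) (x : V m) :
    dotp a (act g x) = dotp (g.1ᵀ *ᵥ a) x := by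
  rw [dotp_mulVec, act]
  rfl

private theorem i3_inv {m : ℕ} (g : SLZ m) (a : Fin m → ℤ) :
    g.1ᵀ *ᵥ ((g⁻¹).1ᵀ *ᵥ a) = a := by
  rw [Matrix.mulVec_mulVec, ← Matrix.transpose_mul, ← Matrix.SpecialLinearGroup.coe_mul,
    inv_mul_cancel, Matrix.SpecialLinearGroup.coe_one, Matrix.transpose_one, Matrix.one_mulVec]

private theorem i3_inv' {m : ℕ} (g : SLZ m) (a : Fin m → ℤ) :
    (g⁻¹).1ᵀ *ᵥ (g.1ᵀ *ᵥ a) = a := by
  rw [Matrix.mulVec_mulVec, ← Matrix.transpose_mul, ← Matrix.SpecialLinearGroup.coe_mul,
    mul_inv_cancel, Matrix.SpecialLinearGroup.coe_one, Matrix.transpose_one, Matrix.one_mulVec]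

theorem indep_act {m : ℕ} (g : SLZ m) (x : V m) : Indep (act g x) ↔ Indep x := by
  constructor
  · intro h a ha
    have h1 := h ((g⁻¹).1ᵀ *ᵥ a) (by
      intro h0
      apply ha
      rw [← i3_inv g a, h0, Matrix.mulVec_zero])
    rwa [i3_dotp_act, i3_inv] at h1
  · intro h a ha
    rw [i3_dotp_act]
    apply h
    intro h0
    apply ha
    rw [← i3_inv' g a, h0, Matrix.mulVec_zero]

theorem indep_smul {m : ℕ} (s : ℝ) (hs : 0 < s) (x : V m) : Indep (s • x) ↔ Indep x := by
  unfold Indep
  refine forall_congr' fun a => ?_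
  rw [dotp_smul, Ne, Ne, mul_eq_zero, or_iff_right hs.ne']

theorem cone_act {m : ℕ} (g : SLZ m) (x : V m) (hx : Indep x) :
    ERel m (cone x) (cone (act g x)) := by
  refine ⟨⟨(g⁻¹).1ᵀ, g.1ᵀ, ?_, ?_⟩, fun a => ?_⟩
  · rw [← Matrix.transpose_mul, ← Matrix.SpecialLinearGroup.coe_mul,
      mul_inv_cancel, Matrix.SpecialLinearGroup.coe_one, Matrix.transpose_one]
  · rw [← Matrix.transpose_mul, ← Matrix.SpecialLinearGroup.coe_mul,
      inv_mul_cancel, Matrix.SpecialLinearGroup.coe_one, Matrix.transpose_one]
  · rw [Bool.eq_iff_iff, cone_val _ ((indep_act g x).2 hx), cone_val _ hx, i3_dotp_act, i3_inv]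

theorem cone_smul {m : ℕ} (s : ℝ) (hs : 0 < s) (x : V m) : cone (s • x) = cone x := by
  by_cases hx : Indep x
  · apply Subtype.ext
    funext a
    rw [Bool.eq_iff_iff, cone_val _ ((indep_smul s hs x).2 hx), cone_val _ hx, dotp_smul,
      mul_pos_iff_of_pos_left hs]
  · rw [cone, cone, dif_neg hx, dif_neg (fun h => hx ((indep_smul s hs x).1 h))]

end Pool.Agent.Arch
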