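import Pool.Agent.Arch.I2
import Pool.Agent.Arch.I3

/-!
# I4: the classes of E_m are null

Proof: see the docstring of I3 (`class_null`), with `unique_scale` of I2.
-/

namespace Pool.Agent.Arch

open MeasureTheory Matrix

private theorem i4_countable (m : ℕ) : Countable (GL (Fin m) ℤ) :=
  Function.Injective.countable (f := fun g : GL (Fin m) ℤ => fun i j => g.1 i j) fun g h hgh => by
    ext i j
    exact congrFun (congrFun hgh i) j

private theorem i4_line {m : ℕ} (hm : 2 ≤ m) (v : V m) :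
    ∀ᵐ x : V m, x ∉ (Submodule.span ℝ {v} : Submodule ℝ (V m)) := by
  refine measure_eq_zero_iff_ae_notMem.1 (Measure.addHaar_submodule volume _ ?_)
  intro h
  have h1 : Module.finrank ℝ (Submodule.span ℝ {v} : Submodule ℝ (V m)) ≤ 1 :=
    (finrank_span_le_card ({v} : Set (V m))).trans (by simp)
  rw [h, finrank_top, Module.finrank_fin_fun] at h1
  omega

theorem class_null {m : ℕ} (hm : 2 ≤ m) (P : Ar m) : ∀ᵐ x : V m, ¬ ERel m (cone x) P := by
  have hc := i4_countable m
  have hall : ∀ᵐ x : V m, ∀ A : GL (Fin m) ℤ, x ∉ (Submodule.span ℝ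
      {(A.1.map (Int.cast : ℤ → ℝ))ᵀ *ᵥ (Yv P)} : Submodule ℝ (V m)) :=
    ae_all_iff.2 fun A => i4_line hm _
  filter_upwards [ae_indep m, hall] with x hx hA
  rintro ⟨A, hAx⟩
  have h1 : ∀ a : Fin m → ℤ, (cone x).1 a = true ↔
      0 < dotp a ((A.1.map (Int.cast : ℤ → ℝ))ᵀ *ᵥ (Yv P)) := by
    intro a
    rw [← hAx a, Yv_spec, dotp_mulVec]
  have h2 := indep_of_cone (cone x) _ h1
  obtain ⟨s, -, hs⟩ := unique_scale _ x h2 hx fun a => by rw [← h1 a, cone_val x hx a]
  refine hA A ?_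
  rw [hs]
  exact Submodule.smul_mem _ _ (Submodule.mem_span_singleton_self _)

end Pool.Agent.Arch
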