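import Pool.Agent.Arch.I2

/-!
# I5: the action of GL_n(Z) on Ar(Z^n)

`(g • P)(x) = P(g⁻¹ x)`; i.e. `g • P` is the cone `g(P)`.
-/

namespace Pool.Agent.Arch

open MeasureTheory Matrix

private theorem i5_inv_mulVec {n : ℕ} (g : GL (Fin n) ℤ) (x : Fin n → ℤ) :
    (g⁻¹ : GL (Fin n) ℤ).1 *ᵥ (g.1 *ᵥ x) = x := by
  rw [Matrix.mulVec_mulVec, ← Units.val_mul, inv_mul_cancel, Units.val_one, Matrix.one_mulVec]

private theorem i5_mulVec_inv {n : ℕ} (g : GL (Fin n) ℤ) (x : Fin n → ℤ) :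
    g.1 *ᵥ ((g⁻¹ : GL (Fin n) ℤ).1 *ᵥ x) = x := by
  rw [Matrix.mulVec_mulVec, ← Units.val_mul, mul_inv_cancel, Units.val_one, Matrix.one_mulVec]

private theorem i5_ne {n : ℕ} (g : GL (Fin n) ℤ) {x : Fin n → ℤ} (hx : x ≠ 0) :
    g.1 *ᵥ x ≠ 0 := by
  intro h
  apply hx
  rw [← i5_inv_mulVec g x, h, Matrix.mulVec_zero]

theorem isArch_smul {n : ℕ} (g : GL (Fin n) ℤ) (P : Ar n) :
    IsArch (fun x : Fin n → ℤ => P.1 ((g⁻¹ : GL (Fin n) ℤ).1 *ᵥ x)) where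
  zero := by
    rw [Matrix.mulVec_zero]
    exact P.2.zero
  add x y hx hy := by
    rw [Matrix.mulVec_add]
    exact P.2.add _ _ hx hy
  total x hx := by
    rw [Matrix.mulVec_neg]
    exact P.2.total _ (i5_ne g⁻¹ hx)
  arch x y hx := by
    obtain ⟨k, hk⟩ := P.2.arch _ ((g⁻¹ : GL (Fin n) ℤ).1 *ᵥ y) hx
    refine ⟨k, ?_⟩
    rw [Matrix.mulVec_sub, Matrix.mulVec_smul]
    exact hk

noncomputable instance instSMulAr {n : ℕ} : SMul (GL (Fin n) ℤ) (Ar n) :=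
  ⟨fun g P => ⟨fun x => P.1 ((g⁻¹ : GL (Fin n) ℤ).1 *ᵥ x), isArch_smul g P⟩⟩

theorem smul_val {n : ℕ} (g : GL (Fin n) ℤ) (P : Ar n) (x : Fin n → ℤ) :
    (g • P).1 x = P.1 ((g⁻¹ : GL (Fin n) ℤ).1 *ᵥ x) := rfl

theorem smul_val' {n : ℕ} (g : GL (Fin n) ℤ) (P : Ar n) (x : Fin n → ℤ) :
    (g • P).1 (g.1 *ᵥ x) = P.1 x := by
  rw [smul_val, i5_inv_mulVec]

theorem one_smul_Ar {n : ℕ} (P : Ar n) : (1 : GL (Fin n) ℤ) • P = P := by
  apply Subtype.ext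
  funext x
  rw [smul_val, inv_one, Units.val_one, Matrix.one_mulVec]

theorem mul_smul_Ar {n : ℕ} (g h : GL (Fin n) ℤ) (P : Ar n) : (g * h) • P = g • (h • P) := by
  apply Subtype.ext
  funext x
  rw [smul_val, smul_val, smul_val, _root_.mul_inv_rev, Units.val_mul, Matrix.mulVec_mulVec]

noncomputable instance instMulActionAr {n : ℕ} : MulAction (GL (Fin n) ℤ) (Ar n) where
  one_smul := one_smul_Ar
  mul_smul := mul_smul_Ar

theorem measurable_smul_Ar {n : ℕ} (g : GL (Fin n) ℤ) : Measurable fun P : Ar n => g • P := by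
  refine Measurable.subtype_mk (measurable_pi_lambda _ fun x => ?_)
  exact (measurable_pi_apply _).comp measurable_subtype_coe

theorem erel_iff {n : ℕ} (P Q : Ar n) : ERel n P Q ↔ ∃ g : GL (Fin n) ℤ, g • P = Q := by
  constructor
  · rintro ⟨g, hg⟩
    refine ⟨g, Subtype.ext (funext fun x => ?_)⟩
    rw [smul_val, ← hg, ← i5_mulVec_inv g x]
    rw [i5_mulVec_inv]
  · rintro ⟨g, rfl⟩
    exact ⟨g, fun x => smul_val' g P x⟩

theorem erel_refl {n : ℕ} (P : Ar n) : ERel n P P := by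
  rw [erel_iff]
  exact ⟨1, one_smul_Ar P⟩

theorem erel_symm {n : ℕ} {P Q : Ar n} (h : ERel n P Q) : ERel n Q P := by
  rw [erel_iff] at h ⊢
  obtain ⟨g, rfl⟩ := h
  exact ⟨g⁻¹, inv_smul_smul g P⟩

theorem erel_trans {n : ℕ} {P Q R : Ar n} (h : ERel n P Q) (h' : ERel n Q R) :
    ERel n P R := by
  rw [erel_iff] at h h' ⊢
  obtain ⟨g, rfl⟩ := h
  obtain ⟨g', rfl⟩ := h'
  exact ⟨g' * g, mul_smul_Ar g' g P⟩

/-- The vector of `g • P`: `dotp (g x) (Y (g • P))` is a positive multiple of `dotp x (Y P)`.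
Proof: both sides define the same cone; `unique_scale` and `dotp_mulVec`. -/
theorem dotp_smul_Yv {n : ℕ} (g : GL (Fin n) ℤ) (P : Ar n) :
    ∃ s : ℝ, 0 < s ∧ ∀ x : Fin n → ℤ, dotp (g.1 *ᵥ x) (Yv (g • P)) = s * dotp x (Yv P) := by
  have h1 : Indep ((g.1.map (Int.cast : ℤ → ℝ))ᵀ *ᵥ Yv (g • P)) := by
    intro a ha
    rw [← dotp_mulVec]
    exact indep_Yv (g • P) _ (i5_ne g ha)
  obtain ⟨s, hs, h2⟩ := unique_scale (Yv P) _ (indep_Yv P) h1 fun x => by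
    rw [← dotp_mulVec, ← Yv_spec, ← Yv_spec, smul_val']
  refine ⟨s, hs, fun x => ?_⟩
  rw [dotp_mulVec, h2, dotp_smul]

end Pool.Agent.Arch
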