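import Pool.Agent.Arch.I5

/-!
# I6: the type of a cone

`typ P` is the set of pairs `(A, l)`, `A` an integral matrix, `l` real, with
`dotp (A x) y = l dotp x y` for all `x` (`y = Yv P`), i.e. `Aᵀ y = l y`. `n ≥ 1`.

* (right) `A` determines `l` (take `x = e_0`, `dotp x y ≠ 0`); (left) `l` determines `A`: if
  `dotp ((A - A') x) y = 0` for all `x` then `(A - A') x = 0` by independence.
* `typ (g • P) = {(g A g⁻¹, l)}`: by `dotp_smul_Yv`.
* `g • P = P` iff `(g, l) ∈ typ P` for some `l > 0`: `P(g⁻¹ x) = P(x)` for all `x` iff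
  `x ↦ dotp (g x) y` and `x ↦ dotp x y` define the same cone iff (`unique_scale`, `dotp_mulVec`)
  `gᵀ y = l y` with `l > 0`.
* rational eigenvector: if `(A, l) ∈ typ P`, `v ≠ 0` integral and `A v = c v`, `c` an integer, then
  `l = c` (pair with `y`) and so `A = c • 1` (left uniqueness, `(c • 1, c) ∈ typ P`).
-/

namespace Pool.Agent.Arch

open MeasureTheory Matrix

/-- The type of a cone. -/
def typ {n : ℕ} (P : Ar n) : Set (Matrix (Fin n) (Fin n) ℤ × ℝ) :=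
  {q | ∀ x : Fin n → ℤ, dotp (q.1 *ᵥ x) (Yv P) = q.2 * dotp x (Yv P)}

theorem typ_right {n : ℕ} (hn : 1 ≤ n) (P : Ar n) {A : Matrix (Fin n) (Fin n) ℤ} {l l' : ℝ}
    (h : (A, l) ∈ typ P) (h' : (A, l') ∈ typ P) : l = l' := by
  have h0 : (Pi.single ⟨0, hn⟩ 1 : Fin n → ℤ) ≠ 0 := by
    intro h0
    have h2 := congrFun h0 ⟨0, hn⟩
    simp at h2
  have h1 := indep_Yv P _ h0
  have h2 := h (Pi.single ⟨0, hn⟩ 1)
  have h3 := h' (Pi.single ⟨0, hn⟩ 1)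
  simp only at h2 h3
  rw [h2] at h3
  exact mul_right_cancel₀ h1 h3

/-- Matrices with the same action are equal. -/
private theorem i6_mulVec_ext {n : ℕ} {A A' : Matrix (Fin n) (Fin n) ℤ}
    (h : ∀ x : Fin n → ℤ, A *ᵥ x = A' *ᵥ x) : A = A' := by
  ext i j
  have h1 := congrFun (h (Pi.single j 1)) i
  simpa using h1

theorem typ_left {n : ℕ} (P : Ar n) {A A' : Matrix (Fin n) (Fin n) ℤ} {l : ℝ}
    (h : (A, l) ∈ typ P) (h' : (A', l) ∈ typ P) : A = A' := by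
  refine i6_mulVec_ext fun x => ?_
  by_contra hne
  have h1 := indep_Yv P _ (sub_ne_zero.2 hne)
  have h2 := h x
  have h3 := h' x
  simp only at h2 h3
  rw [dotp_sub, h2, h3, sub_self] at h1
  exact h1 rfl

private theorem i6_mul_inv {n : ℕ} (g : GL (Fin n) ℤ) : g.1 * (g⁻¹ : GL (Fin n) ℤ).1 = 1 :=
  g.mul_inv

theorem typ_smul {n : ℕ} (g : GL (Fin n) ℤ) (P : Ar n) (A : Matrix (Fin n) (Fin n) ℤ) (l : ℝ) :
    (A, l) ∈ typ (g • P) ↔ ((g⁻¹ : GL (Fin n) ℤ).1 * A * g.1, l) ∈ typ P := by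
  obtain ⟨s, hs, h⟩ := dotp_smul_Yv g P
  constructor
  · intro hA x
    have h1 := h (((g⁻¹ : GL (Fin n) ℤ).1 * A * g.1) *ᵥ x)
    have h2 := hA (g.1 *ᵥ x)
    simp only at h2
    rw [Matrix.mulVec_mulVec, mul_assoc, ← mul_assoc g.1, i6_mul_inv, one_mul,
      ← Matrix.mulVec_mulVec, h2, h x] at h1
    simp only
    have h3 : s * (l * dotp x (Yv P)) =
        s * dotp (((g⁻¹ : GL (Fin n) ℤ).1 * A * g.1) *ᵥ x) (Yv P) := by
      rw [mul_assoc _ A, ← h1]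
      ring
    exact (mul_left_cancel₀ hs.ne' h3).symm
  · intro hA x
    have h2 := hA ((g⁻¹ : GL (Fin n) ℤ).1 *ᵥ x)
    have h3 := h ((g⁻¹ : GL (Fin n) ℤ).1 *ᵥ x)
    have h4 := h (((g⁻¹ : GL (Fin n) ℤ).1 * A * g.1) *ᵥ ((g⁻¹ : GL (Fin n) ℤ).1 *ᵥ x))
    simp only at h2
    rw [h2, mul_left_comm, ← h3] at h4
    simp only [Matrix.mulVec_mulVec, i6_mul_inv, Matrix.one_mulVec] at h4
    have h5 : g.1 * ((g⁻¹ : GL (Fin n) ℤ).1 * A * g.1 * (g⁻¹ : GL (Fin n) ℤ).1) = A := by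
      simp only [mul_assoc, i6_mul_inv, mul_one]
      rw [← mul_assoc, i6_mul_inv, one_mul]
    rw [h5] at h4
    exact h4

theorem smul_eq_self_iff {n : ℕ} (g : GL (Fin n) ℤ) (P : Ar n) :
    g • P = P ↔ ∃ l : ℝ, 0 < l ∧ (g.1, l) ∈ typ P := by
  constructor
  · intro h
    obtain ⟨s, hs, h1⟩ := dotp_smul_Yv g P
    rw [h] at h1
    exact ⟨s, hs, h1⟩
  · rintro ⟨l, hl, h⟩
    apply Subtype.ext
    funext x
    have h1 : g.1 *ᵥ ((g⁻¹ : GL (Fin n) ℤ).1 *ᵥ x) = x := by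
      rw [Matrix.mulVec_mulVec, i6_mul_inv, Matrix.one_mulVec]
    rw [smul_val, Bool.eq_iff_iff, Yv_spec, Yv_spec]
    have h2 := h ((g⁻¹ : GL (Fin n) ℤ).1 *ᵥ x)
    simp only at h2
    rw [h1] at h2
    rw [h2, mul_pos_iff_of_pos_left hl]

theorem typ_mul {n : ℕ} (P : Ar n) {A B : Matrix (Fin n) (Fin n) ℤ} {l m : ℝ}
    (h : (A, l) ∈ typ P) (h' : (B, m) ∈ typ P) : (A * B, l * m) ∈ typ P := by
  intro x
  have h1 := h (B *ᵥ x)
  have h2 := h' x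
  simp only at h1 h2 ⊢
  rw [← Matrix.mulVec_mulVec, h1, h2, mul_assoc]

theorem typ_one {n : ℕ} (P : Ar n) : ((1 : Matrix (Fin n) (Fin n) ℤ), (1 : ℝ)) ∈ typ P := by
  intro x
  simp only
  rw [Matrix.one_mulVec, one_mul]

theorem typ_eigen {n : ℕ} (P : Ar n) {A : Matrix (Fin n) (Fin n) ℤ} {l : ℝ}
    (h : (A, l) ∈ typ P) (v : Fin n → ℤ) (hv : v ≠ 0) (c : ℤ) (hA : A *ᵥ v = c • v) :
    l = c ∧ A = c • (1 : Matrix (Fin n) (Fin n) ℤ) := by
  have h1 : l = c := by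
    have h2 := h v
    simp only at h2
    rw [hA, dotp_zsmul] at h2
    exact (mul_right_cancel₀ (indep_Yv P v hv) h2).symm
  refine ⟨h1, typ_left P h ?_⟩
  intro x
  simp only
  rw [Matrix.smul_mulVec, Matrix.one_mulVec, dotp_zsmul, h1]

end Pool.Agent.Arch
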