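import Pool.Agent.Arch.I6

/-!
# I7: countably many types, measurability

`n ≥ 1`. Proof. (1) If `(A, l) ∈ typ P` then `l` is an eigenvalue of `A` (`Aᵀ y = l y`, `y ≠ 0`), so it
is an algebraic number; let `N` be the countable set of pairs `(A, l)` with `l` algebraic over `ℚ`
(or: `l` a root of the characteristic polynomial of `A`). `typ P ⊆ N`.
(2) `typ P` is an additive subgroup of `Matrix × ℝ` on which the first projection is injective
(`typ_right`), so it is a finitely generated group (a subgroup of `Z^{n²}`), hence determined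
by a finite subset of `N`; finite subsets of a countable set are countable in number.
(3) For a set `T`: if `T` is not contained in `N` then `{P | typ P = T}` is empty; otherwise it is
the intersection over the countable set `N` of the sets `{P | q ∈ typ P ↔ q ∈ T}`, measurable
because `Yv` is measurable.
-/

namespace Pool.Agent.Arch

open MeasureTheory Matrix

/-- pairs with an algebraic second entry -/
private def I7N (n : ℕ) : Set (Matrix (Fin n) (Fin n) ℤ × ℝ) := {q | IsAlgebraic ℤ q.2}

private lemma i7_countable (n : ℕ) : (I7N n).Countable := by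
  have h : I7N n ⊆ (Set.univ : Set (Matrix (Fin n) (Fin n) ℤ)) ×ˢ {x : ℝ | IsAlgebraic ℤ x} :=
    fun q hq => ⟨Set.mem_univ _, hq⟩
  refine Set.Countable.mono h (Set.Countable.prod ?_ (Algebraic.countable ℤ ℝ))
  have : Countable (Matrix (Fin n) (Fin n) ℤ) := inferInstanceAs (Countable (Fin n → Fin n → ℤ))
  exact Set.countable_univ

private lemma i7_add {n : ℕ} (P : Ar n) {q q' : Matrix (Fin n) (Fin n) ℤ × ℝ} (h : q ∈ typ P)
    (h' : q' ∈ typ P) : q + q' ∈ typ P := fun x => by
  rw [Prod.fst_add, Prod.snd_add, Matrix.add_mulVec, dotp_add, h x, h' x, add_mul]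

private lemma i7_zero {n : ℕ} (P : Ar n) : (0 : Matrix (Fin n) (Fin n) ℤ × ℝ) ∈ typ P :=
  fun x => by
  rw [Prod.fst_zero, Prod.snd_zero, Matrix.zero_mulVec, dotp_zero, zero_mul]

private lemma i7_neg {n : ℕ} (P : Ar n) {q : Matrix (Fin n) (Fin n) ℤ × ℝ} (h : q ∈ typ P) :
    -q ∈ typ P := fun x => by
  rw [Prod.fst_neg, Prod.snd_neg, Matrix.neg_mulVec, dotp_neg, h x, neg_mul]

/-- `typ P` as a group -/
private def i7S {n : ℕ} (P : Ar n) : Submodule ℤ (Matrix (Fin n) (Fin n) ℤ × ℝ) :=
  AddSubgroup.toIntSubmodule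
    { carrier := typ P
      add_mem' := i7_add P
      zero_mem' := i7_zero P
      neg_mem' := i7_neg P }

private lemma i7_mem {n : ℕ} (P : Ar n) (q : Matrix (Fin n) (Fin n) ℤ × ℝ) :
    q ∈ i7S P ↔ q ∈ typ P := Iff.rfl

private lemma i7_aeval {n : ℕ} (P : Ar n) {A : Matrix (Fin n) (Fin n) ℤ} {l : ℝ}
    (h : (A, l) ∈ typ P) (p : Polynomial ℤ) :
    (Polynomial.aeval A p, Polynomial.aeval l p) ∈ typ P := by
  induction p using Polynomial.induction_on with
  | C a =>
    rw [Polynomial.aeval_C, Polynomial.aeval_C]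
    have h1 : (algebraMap ℤ (Matrix (Fin n) (Fin n) ℤ) a, algebraMap ℤ ℝ a) =
        a • ((1 : Matrix (Fin n) (Fin n) ℤ), (1 : ℝ)) := by
      rw [Prod.smul_mk, Algebra.algebraMap_eq_smul_one, Algebra.algebraMap_eq_smul_one]
    rw [h1]
    exact (i7S P).smul_mem a (typ_one P)
  | add p q hp hq =>
    have h1 := i7_add P hp hq
    rw [Prod.mk_add_mk] at h1
    rw [map_add, map_add]
    exact h1
  | monomial k a hk =>
    have e1 : Polynomial.aeval A (Polynomial.C a * Polynomial.X ^ (k + 1)) =
        Polynomial.aeval A (Polynomial.C a * Polynomial.X ^ k) * A := by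
      rw [pow_succ, ← mul_assoc, map_mul, Polynomial.aeval_X]
    have e2 : Polynomial.aeval l (Polynomial.C a * Polynomial.X ^ (k + 1)) =
        Polynomial.aeval l (Polynomial.C a * Polynomial.X ^ k) * l := by
      rw [pow_succ, ← mul_assoc, map_mul, Polynomial.aeval_X]
    rw [e1, e2]
    exact typ_mul P hk h

private lemma i7_sub {n : ℕ} (hn : 1 ≤ n) (P : Ar n) : typ P ⊆ I7N n := by
  rintro ⟨A, l⟩ h
  have h1 := i7_aeval P h A.charpoly
  rw [Matrix.aeval_self_charpoly] at h1
  have h2 : Polynomial.aeval l A.charpoly = 0 := typ_right hn P h1 (i7_zero P)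
  exact ⟨A.charpoly, A.charpoly_monic.ne_zero, h2⟩

private lemma i7_fg {n : ℕ} (hn : 1 ≤ n) (P : Ar n) : (i7S P).FG := by
  have hinj : Function.Injective
      ((LinearMap.fst ℤ (Matrix (Fin n) (Fin n) ℤ) ℝ).comp (i7S P).subtype) := by
    rintro ⟨⟨A, l⟩, h⟩ ⟨⟨A', l'⟩, h'⟩ he
    have he' : A = A' := he
    subst he'
    have : l = l' := typ_right hn P h h'
    subst this
    rfl
  have h1 : Module.Finite ℤ (i7S P) := Module.Finite.of_injective _ hinj
  exact Module.Finite.iff_fg.1 h1

theorem countable_typ {n : ℕ} (hn : 1 ≤ n) :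
    (Set.range (typ : Ar n → Set (Matrix (Fin n) (Fin n) ℤ × ℝ))).Countable := by
  have hc := i7_countable n
  have hN : Countable (I7N n) := hc.to_subtype
  classical
  refine Set.Countable.mono ?_ (Set.countable_range fun F : Finset (I7N n) =>
    ((Submodule.span ℤ (Subtype.val '' (F : Set (I7N n))) :
      Submodule ℤ (Matrix (Fin n) (Fin n) ℤ × ℝ)) : Set (Matrix (Fin n) (Fin n) ℤ × ℝ)))
  rintro _ ⟨P, rfl⟩
  obtain ⟨S, hS⟩ := i7_fg hn P
  have hSN : ∀ q ∈ S, q ∈ I7N n := fun q hq =>
    i7_sub hn P ((i7_mem P q).1 (hS ▸ Submodule.subset_span hq))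
  refine ⟨S.attach.image fun q => ⟨q.1, hSN q.1 q.2⟩, ?_⟩
  have h1 : (Subtype.val '' ((S.attach.image fun q => (⟨q.1, hSN q.1 q.2⟩ : I7N n) :
      Finset (I7N n)) : Set (I7N n))) = (S : Set (Matrix (Fin n) (Fin n) ℤ × ℝ)) := by
    ext q
    simp only [Finset.coe_image, Set.mem_image, Finset.mem_coe, Finset.mem_attach, true_and,
      Subtype.exists, Subtype.mk.injEq]
    constructor
    · rintro ⟨a, ha, ⟨b, hb, rfl⟩, rfl⟩
      exact hb
    · intro hq
      exact ⟨q, hSN q hq, ⟨q, hq, rfl⟩, rfl⟩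
  simp only [h1]
  rw [hS]
  rfl

private lemma i7_meas_mem {n : ℕ} (q : Matrix (Fin n) (Fin n) ℤ × ℝ) :
    MeasurableSet {P : Ar n | q ∈ typ P} := by
  have h1 : ∀ x : Fin n → ℤ, Measurable fun P : Ar n => dotp x (Yv P) := by
    intro x
    unfold dotp
    refine Finset.measurable_sum _ fun i _ => ?_
    exact ((measurable_pi_apply i).comp measurable_Yv).const_mul _
  have h2 : {P : Ar n | q ∈ typ P} = ⋂ x : Fin n → ℤ,
      {P : Ar n | dotp (q.1 *ᵥ x) (Yv P) = q.2 * dotp x (Yv P)} := by
    ext P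
    simp [typ]
  rw [h2]
  exact MeasurableSet.iInter fun x => measurableSet_eq_fun (h1 _) ((h1 x).const_mul _)

theorem measurableSet_typ {n : ℕ} (hn : 1 ≤ n) (T : Set (Matrix (Fin n) (Fin n) ℤ × ℝ)) :
    MeasurableSet {P : Ar n | typ P = T} := by
  by_cases hT : T ⊆ I7N n
  · have h2 : {P : Ar n | typ P = T} = ⋂ q ∈ I7N n, {P : Ar n | q ∈ typ P ↔ q ∈ T} := by
      ext P
      simp only [Set.mem_ofPred_eq, Set.mem_iInter]
      constructor
      · intro h q _
        rw [h]
      · intro h
        ext q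
        constructor
        · intro hq
          exact (h q (i7_sub hn P hq)).1 hq
        · intro hq
          exact (h q (hT hq)).2 hq
    rw [h2]
    refine MeasurableSet.biInter (i7_countable n) fun q _ => ?_
    by_cases hq : q ∈ T
    · simp only [hq, iff_true]
      exact i7_meas_mem q
    · simp only [hq, iff_false]
      exact (i7_meas_mem q).compl
  · have h2 : {P : Ar n | typ P = T} = ∅ := by
      rw [Set.eq_empty_iff_forall_notMem]
      intro P hP
      have hP' : typ P = T := hP
      exact hT (hP' ▸ i7_sub hn P)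
    rw [h2]
    exact MeasurableSet.empty

end Pool.Agent.Arch
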