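import Pool.Agent.Arch.I6

/-!
# I8: the groups C(P0) and S(P0)

`C(P0) = {g | typ (g • P0) = typ P0}`; `S(P0) = {g | g • P0 = P0}`, a central torsion free
subgroup of `C(P0)`.

Proofs. `g ∈ C`: `typ (g • P0) = g (typ P0) g⁻¹` (`typ_smul`), so `C` is the normaliser of `typ P0` in
this sense: a subgroup. If `g ∈ C` and `s ∈ S`, `(s, l) ∈ typ P0` with `l > 0`, then
`(g s g⁻¹, l) ∈ typ (g • P0) = typ P0`, so `g s g⁻¹ = s` by `typ_left`. Torsion: `s² = 1` gives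
`(1, l²) ∈ typ P0`, so `l² = 1` (`typ_right`), `l = 1`, so `s = 1` (`typ_left` with `typ_one`).
`same_stab`: by `smul_eq_self_iff` the stabiliser only depends on the type. `mem_C_iff`: if
`typ P = typ P0` then `typ (g • P)` and `typ (g • P0)` are both the conjugate by `g`.
-/

namespace Pool.Agent.Arch

open MeasureTheory Matrix

theorem typ_smul_congr {n : ℕ} (g : GL (Fin n) ℤ) {P Q : Ar n} (h : typ P = typ Q) :
    typ (g • P) = typ (g • Q) := by
  ext q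
  obtain ⟨A, l⟩ := q
  rw [typ_smul, typ_smul, h]

/-- The group `C(P0)`. -/
noncomputable def Cn {n : ℕ} (P0 : Ar n) : Subgroup (GL (Fin n) ℤ) where
  carrier := {g | typ (g • P0) = typ P0}
  mul_mem' := by
    intro a b ha hb
    have h : typ (a • (b • P0)) = typ (a • P0) := typ_smul_congr a hb
    show typ ((a * b) • P0) = typ P0
    rw [mul_smul, h]
    exact ha
  one_mem' := by
    show typ ((1 : GL (Fin n) ℤ) • P0) = typ P0
    rw [one_smul]
  inv_mem' := by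
    intro a ha
    have h : typ (a⁻¹ • (a • P0)) = typ (a⁻¹ • P0) := typ_smul_congr a⁻¹ ha
    show typ (a⁻¹ • P0) = typ P0
    rw [← h, inv_smul_smul]

/-- The stabiliser of `P0`, as a subgroup of `C(P0)`. -/
noncomputable def Sn {n : ℕ} (P0 : Ar n) : Subgroup (Cn P0) :=
  (MulAction.stabilizer (GL (Fin n) ℤ) P0).subgroupOf (Cn P0)

theorem mem_Sn {n : ℕ} (P0 : Ar n) (g : Cn P0) : g ∈ Sn P0 ↔ (g : GL (Fin n) ℤ) • P0 = P0 := by
  rw [Sn, Subgroup.mem_subgroupOf, MulAction.mem_stabilizer_iff]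

theorem stab_le_Cn {n : ℕ} (P0 : Ar n) (g : GL (Fin n) ℤ) (h : g • P0 = P0) : g ∈ Cn P0 := by
  change typ (g • P0) = typ P0
  rw [h]

theorem Sn_central {n : ℕ} (P0 : Ar n) (s : Cn P0) (hs : s ∈ Sn P0) (g : Cn P0) :
    s * g = g * s := by
  obtain ⟨l, -, hl⟩ := (smul_eq_self_iff _ P0).1 ((mem_Sn P0 s).1 hs)
  have hg : typ ((g : GL (Fin n) ℤ) • P0) = typ P0 := g.2
  have h1 : ((s : GL (Fin n) ℤ).1, l) ∈ typ ((g : GL (Fin n) ℤ) • P0) := by
    rw [hg]; exact hl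
  rw [typ_smul] at h1
  have h2 := typ_left P0 h1 hl
  have h3 : (g : GL (Fin n) ℤ)⁻¹ * (s : GL (Fin n) ℤ) * (g : GL (Fin n) ℤ) =
      (s : GL (Fin n) ℤ) := Units.ext h2
  apply Subtype.ext
  change (s : GL (Fin n) ℤ) * (g : GL (Fin n) ℤ) = (g : GL (Fin n) ℤ) * (s : GL (Fin n) ℤ)
  nth_rewrite 2 [← h3]
  group

theorem Sn_torsion {n : ℕ} (hn : 1 ≤ n) (P0 : Ar n) (s : Cn P0) (hs : s ∈ Sn P0)
    (h2 : s * s = 1) : s = 1 := by
  obtain ⟨l, hl0, hl⟩ := (smul_eq_self_iff _ P0).1 ((mem_Sn P0 s).1 hs)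
  have h3 := typ_mul P0 hl hl
  have h4 : (s : GL (Fin n) ℤ).1 * (s : GL (Fin n) ℤ).1 = 1 := by
    have h5 : (s : GL (Fin n) ℤ) * (s : GL (Fin n) ℤ) = 1 := congrArg Subtype.val h2
    exact congrArg Units.val h5
  rw [h4] at h3
  have h5 : l * l = 1 := typ_right hn P0 h3 (typ_one P0)
  have h6 : l = 1 := by nlinarith
  rw [h6] at hl
  have h7 : (s : GL (Fin n) ℤ).1 = 1 := typ_left P0 hl (typ_one P0)
  exact Subtype.ext (Units.ext h7)

instance normal_Sn {n : ℕ} (P0 : Ar n) : (Sn P0).Normal :=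
  ⟨fun s hs g => by rw [← Sn_central P0 s hs g, mul_assoc, mul_inv_cancel, mul_one]; exact hs⟩

theorem same_stab {n : ℕ} {P P0 : Ar n} (h : typ P = typ P0) (g : GL (Fin n) ℤ) :
    g • P = P ↔ g • P0 = P0 := by
  rw [smul_eq_self_iff, smul_eq_self_iff, h]

theorem mem_Cn_iff {n : ℕ} {P P0 : Ar n} (h : typ P = typ P0) (g : GL (Fin n) ℤ) :
    typ (g • P) = typ P0 ↔ g ∈ Cn P0 := by
  rw [typ_smul_congr g h]
  rfl

/-- Two elements of `C(P0)` move a cone of the same type to the same place iff they agree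
modulo `S(P0)`. -/
theorem smul_eq_smul_iff {n : ℕ} {P P0 : Ar n} (h : typ P = typ P0) (g g' : Cn P0) :
    (g : GL (Fin n) ℤ) • P = (g' : GL (Fin n) ℤ) • P ↔
      (QuotientGroup.mk g : Cn P0 ⧸ Sn P0) = QuotientGroup.mk g' := by
  rw [QuotientGroup.eq, mem_Sn, ← same_stab h]
  change _ ↔ ((g : GL (Fin n) ℤ)⁻¹ * (g' : GL (Fin n) ℤ)) • P = P
  rw [mul_smul, inv_smul_eq_iff]
  exact eq_comm

end Pool.Agent.Arch
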