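import Pool.Agent.Arch.B5
import Pool.Agent.Arch.I4
import Pool.Agent.Arch.I7
import Pool.Agent.Arch.I8

/-!
# I9: one type almost everywhere

Let `f0 : V m → Ar n` be measurable and constant up to `E_n` on the orbits of `SL_m(Z)` (on the
independent vectors). Then there are `P0` and a measurable `f1 : V m → Ar n`, of the form
`f1 x = B(f0 x) • f0 x`, and for almost every `x`, `typ (f1 x) = typ P0`.

Proof. For a type `T` let `A_T = {x | Indep x ∧ ∃ g, typ (g • f0 x) = T}`: measurable (countable union,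
`measurableSet_typ`, `measurable_smul_Ar`), invariant under every `act γ` on independent
vectors (`f0 (act γ x) = g' • f0 x`). So it is null or conull (`erg1`). The countably many `A_T`
(`T` in the range of `typ`) cover the conull set of independent vectors, so one of them is conull;
`T = typ P0`. Enumerate `GL_n(Z)`; `B(P)` is the first `g` with `typ (g • P) = typ P0` (and `1` if there is
none): a function of `P` with measurable fibres, and `f1 x = B(f0 x) • f0 x` is measurable.
-/

namespace Pool.Agent.Arch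

open MeasureTheory Matrix

private lemma i9_countable (n : ℕ) : Countable (GL (Fin n) ℤ) := by
  have : Countable (Matrix (Fin n) (Fin n) ℤ) := inferInstanceAs (Countable (Fin n → Fin n → ℤ))
  exact Function.Injective.countable (f := fun g : GL (Fin n) ℤ => g.1) Units.val_injective

theorem one_type {m n : ℕ} (hm : 3 ≤ m) (hn : 1 ≤ n) (f0 : V m → Ar n) (hf : Measurable f0)
    (hE : ∀ (g : SLZ m) (x : V m), Indep x → ERel n (f0 x) (f0 (act g x))) :
    ∃ (P0 : Ar n) (B : Ar n → GL (Fin n) ℤ), (Measurable fun x => B (f0 x) • f0 x) ∧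
      ∀ᵐ x : V m, typ (B (f0 x) • f0 x) = typ P0 := by
  classical
  have := i9_countable n
  have hmeas : ∀ (T : Set (Matrix (Fin n) (Fin n) ℤ × ℝ)) (g : GL (Fin n) ℤ),
      MeasurableSet {P : Ar n | typ (g • P) = T} := fun T g =>
    measurable_smul_Ar g (measurableSet_typ hn T)
  -- one type is seen almost everywhere
  have hT : ∃ T ∈ Set.range (typ : Ar n → Set (Matrix (Fin n) (Fin n) ℤ × ℝ)),
      ∀ᵐ x : V m, Indep x ∧ ∃ g : GL (Fin n) ℤ, typ (g • f0 x) = T := by
    by_contra hcon
    have hnull : ∀ T ∈ Set.range (typ : Ar n → Set (Matrix (Fin n) (Fin n) ℤ × ℝ)),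
        ∀ᵐ x : V m, x ∉ {x : V m | Indep x ∧ ∃ g : GL (Fin n) ℤ, typ (g • f0 x) = T} := by
      intro T hT
      have hA : MeasurableSet {x : V m | Indep x ∧ ∃ g : GL (Fin n) ℤ, typ (g • f0 x) = T} := by
        have h1 : {x : V m | Indep x ∧ ∃ g : GL (Fin n) ℤ, typ (g • f0 x) = T} =
            {x : V m | Indep x} ∩ ⋃ g : GL (Fin n) ℤ, f0 ⁻¹' {P : Ar n | typ (g • P) = T} := by
          ext x
          simp
        rw [h1]
        exact (measurableSet_indep m).inter (MeasurableSet.iUnion fun g => hf (hmeas T g))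
      refine (erg1 m 1 hm one_pos _ hA fun i j hij =>
        Filter.Eventually.of_forall fun x => ?_).resolve_left fun h => hcon ⟨T, hT, h⟩
      have hinv : ∀ (g : SLZ m) (x : V m), Indep x →
          (∃ h : GL (Fin n) ℤ, typ (h • f0 x) = T) →
          ∃ h : GL (Fin n) ℤ, typ (h • f0 (act g x)) = T := by
        rintro g x hx ⟨h, hh⟩
        obtain ⟨a, ha⟩ := (erel_iff _ _).1 (hE g x hx)
        refine ⟨h * a⁻¹, ?_⟩
        rw [← ha, mul_smul, inv_smul_smul]
        exact hh
      constructor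
      · rintro ⟨h1, h2⟩
        have h3 := hinv (elemZ i j hij ((1 : ℕ) : ℤ))⁻¹ _ h1 h2
        rw [act_inv_act] at h3
        exact ⟨(indep_act _ _).1 h1, h3⟩
      · rintro ⟨h1, h2⟩
        exact ⟨(indep_act _ _).2 h1, hinv _ _ h1 h2⟩
    have hall := (ae_ball_iff (countable_typ hn)).2 hnull
    obtain ⟨x, hx1, hx2⟩ := (hall.and (ae_indep m)).exists
    exact hx1 (typ (f0 x)) ⟨_, rfl⟩ ⟨hx2, 1, by rw [one_smul]⟩
  obtain ⟨T, ⟨P0, rfl⟩, hT⟩ := hT
  obtain ⟨e, he⟩ := exists_surjective_nat (GL (Fin n) ℤ)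
  have hex : ∀ P : Ar n, ∃ k, typ (e k • P) = typ P0 ∨ ∀ j, ¬ typ (e j • P) = typ P0 := by
    intro P
    by_cases h : ∃ k, typ (e k • P) = typ P0
    · obtain ⟨k, hk⟩ := h
      exact ⟨k, Or.inl hk⟩
    · push Not at h
      exact ⟨0, Or.inr h⟩
  refine ⟨P0, fun P => e (Nat.find (hex P)), ?_, ?_⟩
  · have h1 : Measurable fun P : Ar n => e (Nat.find (hex P)) • P := by
      refine Measurable.find (f := fun k (P : Ar n) => e k • P)
        (p := fun k P => typ (e k • P) = typ P0 ∨ ∀ j, ¬ typ (e j • P) = typ P0)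
        (fun k => measurable_smul_Ar (e k)) (fun k => ?_) hex
      have h2 : {P : Ar n | typ (e k • P) = typ P0 ∨ ∀ j, ¬ typ (e j • P) = typ P0} =
          {P : Ar n | typ (e k • P) = typ P0} ∪ ⋂ j, {P : Ar n | typ (e j • P) = typ P0}ᶜ := by
        ext P
        simp
      rw [h2]
      exact (hmeas _ _).union (MeasurableSet.iInter fun j => (hmeas _ _).compl)
    exact h1.comp hf
  · filter_upwards [hT] with x hx
    obtain ⟨-, g, hg⟩ := hx
    obtain ⟨k, rfl⟩ := he g
    exact (Nat.find_spec (hex (f0 x))).resolve_right fun h => h k hg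

end Pool.Agent.Arch
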