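import Pool.Agent.Arch.Basic

/-!
# J0: sign matrices

`dZ i j` is the diagonal matrix with entries `-1` at `i` and `j` when `i ≠ j`, and the identity when
`i = j`.
-/

namespace Pool.Agent.Arch

open Matrix

/-- The sign matrix. -/
def dZ {m : ℕ} (i j : Fin m) : SLZ m :=
  ⟨Matrix.diagonal fun a => (if a = i then -1 else 1) * (if a = j then -1 else 1), by
    rw [Matrix.det_diagonal, Finset.prod_mul_distrib, Finset.prod_ite_eq' , Finset.prod_ite_eq']
    simp⟩

private theorem j0_coe {m : ℕ} (i j : Fin m) : (dZ i j).1 =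
    Matrix.diagonal fun a => (if a = i then (-1 : ℤ) else 1) * (if a = j then -1 else 1) := rfl

theorem dZ_sq {m : ℕ} (i j : Fin m) : dZ i j * dZ i j = 1 := by
  apply Subtype.ext
  rw [Matrix.SpecialLinearGroup.coe_mul, j0_coe, Matrix.diagonal_mul_diagonal,
    Matrix.SpecialLinearGroup.coe_one, ← Matrix.diagonal_one]
  congr 1
  funext a
  split_ifs <;> norm_num

theorem dZ_mul {m : ℕ} (i j k : Fin m) : dZ i j * dZ j k = dZ i k := by
  apply Subtype.ext
  rw [Matrix.SpecialLinearGroup.coe_mul, j0_coe, j0_coe, j0_coe, Matrix.diagonal_mul_diagonal]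
  congr 1
  funext a
  split_ifs <;> norm_num

theorem dZ_comm {m : ℕ} (i j k l : Fin m) : dZ i j * dZ k l = dZ k l * dZ i j := by
  apply Subtype.ext
  rw [Matrix.SpecialLinearGroup.coe_mul, Matrix.SpecialLinearGroup.coe_mul, j0_coe, j0_coe,
    Matrix.diagonal_mul_diagonal, Matrix.diagonal_mul_diagonal]
  congr 1
  funext a
  exact mul_comm _ _

theorem dZ_self {m : ℕ} (i : Fin m) : dZ i i = 1 := by
  apply Subtype.ext
  rw [j0_coe, Matrix.SpecialLinearGroup.coe_one, ← Matrix.diagonal_one]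
  congr 1
  funext a
  split_ifs <;> norm_num

private theorem j0_conj {m : ℕ} (d : SLZ m) (D : Fin m → ℤ) (hd : d.1 = Matrix.diagonal D)
    (i j : Fin m) (hij : i ≠ j) (q r : ℤ) (h : D i * q = r * D j) :
    d * elemZ i j hij q = elemZ i j hij r * d := by
  apply Subtype.ext
  rw [Matrix.SpecialLinearGroup.coe_mul, Matrix.SpecialLinearGroup.coe_mul, hd]
  ext a b
  rw [Matrix.diagonal_mul, Matrix.mul_diagonal]
  simp only [elemZ, Matrix.transvection, Matrix.add_apply, Matrix.single_apply]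
  by_cases hab : a = b
  · subst hab
    by_cases h1 : i = a
    · subst h1
      simp [hij.symm]
    · simp [h1]
  · rw [Matrix.one_apply_ne hab]
    by_cases h1 : i = a ∧ j = b
    · obtain ⟨rfl, rfl⟩ := h1
      simpa using h
    · simp [h1]

/-- Conjugation by a sign matrix which changes the sign of exactly one of the two indices
inverts an elementary matrix. -/
theorem dZ_elem_inv {m : ℕ} (i j k : Fin m) (hij : i ≠ j) (hik : k ≠ i) (hjk : k ≠ j) (q : ℤ) :
    dZ i k * elemZ i j hij q * (dZ i k)⁻¹ = elemZ i j hij (-q) := by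
  rw [mul_inv_eq_iff_eq_mul]
  apply j0_conj _ _ (j0_coe i k)
  simp [hik.symm, hjk.symm, hij.symm]

theorem dZ_elem_inv' {m : ℕ} (i j k : Fin m) (hij : i ≠ j) (hik : k ≠ i) (hjk : k ≠ j) (q : ℤ) :
    dZ j k * elemZ i j hij q * (dZ j k)⁻¹ = elemZ i j hij (-q) := by
  rw [mul_inv_eq_iff_eq_mul]
  apply j0_conj _ _ (j0_coe j k)
  simp [hik.symm, hjk.symm, hij]

/-- A sign matrix which changes both signs, or none, commutes with the elementary matrix. -/
theorem dZ_elem_comm {m : ℕ} (i j : Fin m) (hij : i ≠ j) (q : ℤ) :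
    dZ i j * elemZ i j hij q = elemZ i j hij q * dZ i j := by
  apply j0_conj _ _ (j0_coe i j)
  simp [hij, hij.symm]

theorem dZ_elem_comm' {m : ℕ} (i j k l : Fin m) (hij : i ≠ j) (hk : k ≠ i) (hk' : k ≠ j)
    (hl : l ≠ i) (hl' : l ≠ j) (q : ℤ) :
    dZ k l * elemZ i j hij q = elemZ i j hij q * dZ k l := by
  apply j0_conj _ _ (j0_coe k l)
  simp [hk.symm, hk'.symm, hl.symm, hl'.symm]

theorem elemZ_mul {m : ℕ} (i j : Fin m) (hij : i ≠ j) (q r : ℤ) :
    elemZ i j hij q * elemZ i j hij r = elemZ i j hij (q + r) := by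
  apply Subtype.ext
  rw [Matrix.SpecialLinearGroup.coe_mul]
  exact Matrix.transvection_mul_transvection_same i j hij q r

private theorem j0_elem_zero {m : ℕ} (i j : Fin m) (hij : i ≠ j) : elemZ i j hij 0 = 1 := by
  apply Subtype.ext
  simp [elemZ]

theorem elemZ_inv {m : ℕ} (i j : Fin m) (hij : i ≠ j) (q : ℤ) :
    (elemZ i j hij q)⁻¹ = elemZ i j hij (-q) := by
  rw [inv_eq_iff_mul_eq_one, elemZ_mul, add_neg_cancel, j0_elem_zero]

/-- Signed permutation matrices: every permutation of the indices is induced by an element of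
`SL_m(Z)` (the permutation matrix, with one sign changed if the permutation is odd). -/
theorem exists_perm {m : ℕ} (σ : Equiv.Perm (Fin m)) :
    ∃ w : SLZ m, ∀ i j, w * dZ i j * w⁻¹ = dZ (σ i) (σ j) := by
  rcases m with _ | n
  · exact ⟨1, fun i => i.elim0⟩
  · let s : Fin (n + 1) → ℤ := fun a => if a = 0 then (Equiv.Perm.sign σ : ℤ) else 1
    let P : Matrix (Fin (n + 1)) (Fin (n + 1)) ℤ := (σ⁻¹).toPEquiv.toMatrix
    have hP : P.det = (Equiv.Perm.sign σ : ℤ) := by
      show (Equiv.toPEquiv σ⁻¹).toMatrix.det = _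
      rw [Matrix.det_permutation, Equiv.Perm.sign_inv]
      simp
    have hs : (Matrix.diagonal s).det = (Equiv.Perm.sign σ : ℤ) := by
      rw [Matrix.det_diagonal]
      show ∏ a, (if a = 0 then (Equiv.Perm.sign σ : ℤ) else 1) = _
      rw [Finset.prod_ite_eq' Finset.univ (0 : Fin (n + 1)) (fun _ => (Equiv.Perm.sign σ : ℤ))]
      simp
    have hdet : (Matrix.diagonal s * P).det = 1 := by
      rw [Matrix.det_mul, hs, hP, ← Units.val_mul, Int.units_mul_self, Units.val_one]
    refine ⟨⟨Matrix.diagonal s * P, hdet⟩, fun i j => ?_⟩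
    rw [mul_inv_eq_iff_eq_mul]
    apply Subtype.ext
    rw [Matrix.SpecialLinearGroup.coe_mul, Matrix.SpecialLinearGroup.coe_mul, j0_coe, j0_coe]
    show (Matrix.diagonal s * P) * _ = _ * (Matrix.diagonal s * P)
    ext a b
    rw [Matrix.mul_diagonal, Matrix.diagonal_mul, Matrix.diagonal_mul, Matrix.diagonal_mul]
    have hPab : P a b = if a = σ b then 1 else 0 := by
      show (Equiv.toPEquiv σ⁻¹).toMatrix a b = _
      rw [PEquiv.toMatrix_apply]
      simp only [Equiv.toPEquiv_apply, Option.mem_def, Option.some.injEq]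
      by_cases h : a = σ b
      · subst h; simp
      · have : ¬ (σ⁻¹ a = b) := fun hh => h (by rw [← hh]; simp)
        rw [if_neg this, if_neg h]
    rw [hPab]
    by_cases h : a = σ b
    · subst h
      simp only [EmbeddingLike.apply_eq_iff_eq]
      ring
    · simp [h]

/-- If all sign matrices are killed, so are the squares of the elementary matrices. Proof:
`e⁻¹ = d e d⁻¹`, so `ρ(e⁻¹) = ρ(e)`, `ρ(e²) = 1`. -/
theorem rho_elem_two {m : ℕ} (hm : 3 ≤ m) {Q : Type} [Group Q] (ρ : SLZ m →* Q)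
    (h : ∀ i j, ρ (dZ i j) = 1) (i j : Fin m) (hij : i ≠ j) : ρ (elemZ i j hij 2) = 1 := by
  obtain ⟨k, hk⟩ : ∃ k : Fin m, k ∉ ({i, j} : Finset (Fin m)) := by
    by_contra hcon
    push Not at hcon
    have h1 : (Finset.univ : Finset (Fin m)) ⊆ {i, j} := fun a _ => hcon a
    have h2 := Finset.card_le_card h1
    rw [Finset.card_univ, Fintype.card_fin] at h2
    have h3 : ({i, j} : Finset (Fin m)).card ≤ 2 := Finset.card_le_two
    omega
  have hki : k ≠ i := fun e => hk (by simp [e])
  have hkj : k ≠ j := fun e => hk (by simp [e])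
  have h1 := congrArg ρ (dZ_elem_inv i j k hij hki hkj 1)
  rw [map_mul, map_mul, map_inv, h i k, one_mul, inv_one, mul_one] at h1
  have h2 : elemZ i j hij 2 = elemZ i j hij 1 * elemZ i j hij 1 := by
    rw [elemZ_mul]; norm_num
  rw [h2, map_mul]
  nth_rw 2 [h1]
  rw [← map_mul, elemZ_mul, add_neg_cancel, j0_elem_zero, map_one]

end Pool.Agent.Arch
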