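import Pool.Agent.Arch.J0

/-!
# J1: involutive lifts of the sign matrices

`S` is a central subgroup of `C` without elements of order two, `ρ : SL_m(Z) → C/S`, `m ≥ 3`. Then
each `ρ(dZ i j)` has a unique lift `b i j` with `(b i j)² = 1`; the lifts commute,
`b i j * b j k = b i k`, and they are permuted by conjugation.

Proof. Let `A i j` be arbitrary lifts, `i ≠ j`. `A²` is in `S`. Two lifts `x`, `y` of commuting
elements with `x² ∈ S`: `x y = y x t`, `t ∈ S`; `x² y = y x² t²` and `x²` is central, so `t² = 1`, `t = 1`: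
`x`, `y` commute. If `w (dZ i j) w⁻¹ = dZ i' j'` and `g` lifts `w`, then `g (A i j) g⁻¹ = A i' j' s` with
`s ∈ S`, so (squares, `(A i j)²` is central) `(A i j)² = (A i' j')² s²`. By `exists_perm` all
`(A i j)²`, `i ≠ j`, are congruent modulo squares of elements of `S`. With a third index `k`:
`A i j = A i k A k j s'`, so `(A i j)² = (A i k)² (A k j)² s'²`; hence `(A i j)²` is itself the square
of an element `v` of `S`, and `b i j = A i j v⁻¹`. Uniqueness: two such lifts differ by `s ∈ S` with
`s² = 1`. Everything else follows from uniqueness (products of commuting involutive lifts).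
`b i i = 1`.
-/

namespace Pool.Agent.Arch

open Matrix

/-- Lifts of commuting elements commute when the square of one of them is in `S`. -/
theorem j1_comm {C : Type} [Group C] (S : Subgroup C) [S.Normal]
    (hcen : ∀ s ∈ S, ∀ g : C, s * g = g * s) (htf : ∀ s ∈ S, s * s = 1 → s = 1)
    (x y : C) (h : (QuotientGroup.mk (x * y) : C ⧸ S) = QuotientGroup.mk (y * x))
    (hx : x * x ∈ S) : x * y = y * x := by
  have ht : (y * x)⁻¹ * (x * y) ∈ S := QuotientGroup.eq.1 h.symm
  set t := (y * x)⁻¹ * (x * y) with htdef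
  have hxy : x * y = y * x * t := by rw [htdef, mul_inv_cancel_left]
  have h1 : x * x * y = y * (x * x) := hcen _ hx y
  have h2 : x * x * y = y * (x * x) * (t * t) := by
    calc x * x * y = x * (x * y) := by group
      _ = x * (y * x * t) := by rw [hxy]
      _ = (x * y) * x * t := by group
      _ = (y * x * t) * x * t := by rw [hxy]
      _ = y * x * (t * x) * t := by group
      _ = y * x * (x * t) * t := by rw [hcen t ht x]
      _ = y * (x * x) * (t * t) := by group
  have h3 : t * t = 1 := by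
    rw [h1] at h2
    exact (mul_eq_left (a := y * (x * x))).1 h2.symm
  have h4 : t = 1 := htf t ht h3
  rw [hxy, h4, mul_one]

/-- Two lifts with the same image differ by an element of `S`. -/
theorem j1_diff {C : Type} [Group C] (S : Subgroup C) [S.Normal] (x y : C)
    (h : (QuotientGroup.mk x : C ⧸ S) = QuotientGroup.mk y) : ∃ s ∈ S, y = x * s :=
  ⟨x⁻¹ * y, QuotientGroup.eq.1 h, by rw [mul_inv_cancel_left]⟩

/-- Involutive lifts are unique. -/
theorem j1_unique {C : Type} [Group C] (S : Subgroup C) [S.Normal]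
    (hcen : ∀ s ∈ S, ∀ g : C, s * g = g * s) (htf : ∀ s ∈ S, s * s = 1 → s = 1)
    (x y : C) (h : (QuotientGroup.mk x : C ⧸ S) = QuotientGroup.mk y)
    (hx : x * x = 1) (hy : y * y = 1) : y = x := by
  obtain ⟨s, hs, rfl⟩ := j1_diff S x y h
  have h1 : s * s = 1 := by
    calc s * s = (x * x) * (s * s) := by rw [hx, one_mul]
      _ = x * (x * s) * s := by group
      _ = x * (s * x) * s := by rw [hcen s hs x]
      _ = (x * s) * (x * s) := by group
      _ = 1 := hy
  rw [htf s hs h1, mul_one]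

/-- A permutation with two prescribed values. -/
theorem j1_perm {m : ℕ} (k j i l : Fin m) (h1 : k ≠ j) (h2 : i ≠ l) :
    ∃ σ : Equiv.Perm (Fin m), σ k = i ∧ σ j = l := by
  refine ⟨Equiv.swap (Equiv.swap k i j) l * Equiv.swap k i, ?_, ?_⟩
  · rw [Equiv.Perm.mul_apply, Equiv.swap_apply_left]
    refine Equiv.swap_apply_of_ne_of_ne ?_ h2
    intro h
    have := congrArg (Equiv.swap k i) h
    rw [Equiv.swap_apply_right, Equiv.swap_apply_self] at this
    exact h1 this
  · rw [Equiv.Perm.mul_apply, Equiv.swap_apply_left]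

theorem j1_third {m : ℕ} (hm : 3 ≤ m) (i j : Fin m) : ∃ k : Fin m, k ≠ i ∧ k ≠ j := by
  have : ({i, j} : Finset (Fin m)).card < (Finset.univ : Finset (Fin m)).card := by
    rw [Finset.card_univ, Fintype.card_fin]
    exact lt_of_le_of_lt (Finset.card_le_two) (by omega)
  obtain ⟨k, -, hk⟩ := Finset.exists_mem_notMem_of_card_lt_card this
  simp only [Finset.mem_insert, Finset.mem_singleton, not_or] at hk
  exact ⟨k, hk.1, hk.2⟩

/-- Existence of involutive lifts. -/
theorem j1_lift {m : ℕ} (hm : 3 ≤ m) {C : Type} [Group C] (S : Subgroup C) [S.Normal]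
    (hcen : ∀ s ∈ S, ∀ g : C, s * g = g * s) (htf : ∀ s ∈ S, s * s = 1 → s = 1)
    (ρ : SLZ m →* C ⧸ S) (i j : Fin m) :
    ∃ x : C, (QuotientGroup.mk x : C ⧸ S) = ρ (dZ i j) ∧ x * x = 1 := by
  rcases eq_or_ne i j with rfl | hij
  · refine ⟨1, ?_, by group⟩
    rw [dZ_self, map_one]; rfl
  choose A hA using fun i j => QuotientGroup.mk_surjective (ρ (dZ i j))
  have hAA : ∀ i j, A i j * A i j ∈ S := by
    intro i j
    rw [← QuotientGroup.eq_one_iff, QuotientGroup.mk_mul, hA, ← map_mul, dZ_sq, map_one]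
  have hcomm : ∀ i j k l, A i j * A k l = A k l * A i j := by
    intro i j k l
    refine j1_comm S hcen htf _ _ ?_ (hAA i j)
    rw [QuotientGroup.mk_mul, QuotientGroup.mk_mul, hA, hA, ← map_mul, ← map_mul, dZ_comm]
  obtain ⟨k, hki, hkj⟩ := j1_third hm i j
  -- a first relation
  obtain ⟨s', hs', e1⟩ := j1_diff S (A i k * A k j) (A i j) (by
    rw [QuotientGroup.mk_mul, hA, hA, hA, ← map_mul, dZ_mul])
  -- a second relation
  obtain ⟨σ, hσ1, hσ2⟩ := j1_perm k j i k hkj hki.symm
  obtain ⟨w, hw⟩ := exists_perm σ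
  obtain ⟨g, hg⟩ := QuotientGroup.mk_surjective (ρ w)
  obtain ⟨s, hs, e2⟩ := j1_diff S (A i k) (g * A k j * g⁻¹) (by
    rw [QuotientGroup.mk_mul, QuotientGroup.mk_mul, QuotientGroup.mk_inv, hg, hA, hA,
      ← map_inv, ← map_mul, ← map_mul, hw, hσ1, hσ2])
  have e3 : A k j * A k j = A i k * A i k * (s * s) := by
    calc A k j * A k j = g * (A k j * A k j) * g⁻¹ := by
          rw [← hcen _ (hAA k j) g, mul_inv_cancel_right]
      _ = (g * A k j * g⁻¹) * (g * A k j * g⁻¹) := by group
      _ = (A i k * s) * (A i k * s) := by rw [e2]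
      _ = A i k * (s * A i k) * s := by group
      _ = A i k * (A i k * s) * s := by rw [hcen s hs]
      _ = A i k * A i k * (s * s) := by group
  have e4 : A i j * A i j = (A i k * A i k) * (A k j * A k j) * (s' * s') := by
    calc A i j * A i j = (A i k * A k j * s') * (A i k * A k j * s') := by rw [← e1]
      _ = (A i k * A k j) * (s' * (A i k * A k j)) * s' := by group
      _ = (A i k * A k j) * ((A i k * A k j) * s') * s' := by rw [hcen s' hs']
      _ = A i k * (A k j * A i k) * A k j * (s' * s') := by group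
      _ = A i k * (A i k * A k j) * A k j * (s' * s') := by rw [hcomm k j i k]
      _ = (A i k * A i k) * (A k j * A k j) * (s' * s') := by group
  obtain ⟨v, hv, e5⟩ : ∃ v ∈ S, A i j * A i j = v * v := by
    refine ⟨(A i k * A i k) * s * s', S.mul_mem (S.mul_mem (hAA i k) hs) hs', ?_⟩
    rw [e4, e3]
    have c1 := hcen s hs (A i k * A i k)
    have c2 := hcen s' hs' (A i k * A i k * s)
    calc (A i k * A i k) * (A i k * A i k * (s * s)) * (s' * s')
        = (A i k * A i k) * ((A i k * A i k) * s) * s * s' * s' := by group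
      _ = (A i k * A i k) * (s * (A i k * A i k)) * s * s' * s' := by rw [← c1]
      _ = (A i k * A i k * s) * ((A i k * A i k * s) * s') * s' := by group
      _ = (A i k * A i k * s) * (s' * (A i k * A i k * s)) * s' := by rw [← c2]
      _ = (A i k * A i k) * s * s' * ((A i k * A i k) * s * s') := by group
  refine ⟨A i j * v⁻¹, ?_, ?_⟩
  · rw [QuotientGroup.mk_mul, QuotientGroup.mk_inv, (QuotientGroup.eq_one_iff v).2 hv, inv_one,
      mul_one, hA]
  · have c := hcen v⁻¹ (S.inv_mem hv) (A i j)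
    calc A i j * v⁻¹ * (A i j * v⁻¹) = A i j * (v⁻¹ * A i j) * v⁻¹ := by group
      _ = A i j * (A i j * v⁻¹) * v⁻¹ := by rw [c]
      _ = (A i j * A i j) * v⁻¹ * v⁻¹ := by group
      _ = (v * v) * v⁻¹ * v⁻¹ := by rw [e5]
      _ = 1 := by group

theorem exists_lifts {m : ℕ} (hm : 3 ≤ m) {C : Type} [Group C] (S : Subgroup C) [S.Normal]
    (hcen : ∀ s ∈ S, ∀ g : C, s * g = g * s) (htf : ∀ s ∈ S, s * s = 1 → s = 1)
    (ρ : SLZ m →* C ⧸ S) :
    ∃ b : Fin m → Fin m → C,
      (∀ i j, (QuotientGroup.mk (b i j) : C ⧸ S) = ρ (dZ i j)) ∧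
      (∀ i j, b i j * b i j = 1) ∧
      (∀ i j k, b i j * b j k = b i k) ∧
      (∀ i j k l, b i j * b k l = b k l * b i j) ∧
      (∀ (g : C) (i j : Fin m), (QuotientGroup.mk g : C ⧸ S) = ρ (dZ i j) → g * g = 1 →
        g = b i j) ∧
      (∀ (w : SLZ m) (g : C) (i j i' j' : Fin m), (QuotientGroup.mk g : C ⧸ S) = ρ w →
        w * dZ i j * w⁻¹ = dZ i' j' → g * b i j * g⁻¹ = b i' j') ∧
      (∀ s ∈ S, ∀ i j, s * b i j = b i j * s) := by
  choose b hb hbb using j1_lift hm S hcen htf ρ
  have huniq : ∀ (g : C) (i j : Fin m), (QuotientGroup.mk g : C ⧸ S) = ρ (dZ i j) →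
      g * g = 1 → g = b i j := by
    intro g i j h1 h2
    exact j1_unique S hcen htf (b i j) g (by rw [h1, hb]) (hbb i j) h2
  have hcomm : ∀ i j k l, b i j * b k l = b k l * b i j := by
    intro i j k l
    refine j1_comm S hcen htf _ _ ?_ (by rw [hbb]; exact S.one_mem)
    rw [QuotientGroup.mk_mul, QuotientGroup.mk_mul, hb, hb, ← map_mul, ← map_mul, dZ_comm]
  refine ⟨b, hb, hbb, ?_, hcomm, huniq, ?_, fun s hs i j => hcen s hs _⟩
  · intro i j k
    refine huniq _ i k ?_ ?_
    · rw [QuotientGroup.mk_mul, hb, hb, ← map_mul, dZ_mul]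
    · calc b i j * b j k * (b i j * b j k) = b i j * (b j k * b i j) * b j k := by group
        _ = b i j * (b i j * b j k) * b j k := by rw [hcomm j k i j]
        _ = (b i j * b i j) * (b j k * b j k) := by group
        _ = 1 := by rw [hbb, hbb, one_mul]
  · intro w g i j i' j' hg hw
    refine huniq _ i' j' ?_ ?_
    · rw [QuotientGroup.mk_mul, QuotientGroup.mk_mul, QuotientGroup.mk_inv, hg, hb, ← map_inv,
        ← map_mul, ← map_mul, hw]
    · calc g * b i j * g⁻¹ * (g * b i j * g⁻¹) = g * (b i j * b i j) * g⁻¹ := by group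
        _ = 1 := by rw [hbb, mul_one, mul_inv_cancel]

end Pool.Agent.Arch
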