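import Mathlib

/-!
# J2: combinatorics of two-block partitions

A map `ε : Fin m → Bool` defines the partition into its two fibres; `σ ↦ ε ∘ σ` are its translates.
Two maps define the same partition iff `ε i = ε j ↔ ε' i = ε' j` for all `i, j`.

(a) `m ≥ 5`, `ε` not constant: there are `m` translates with distinct partitions.
Let `S`, `S'` be the blocks, `|S| ≤ |S'|`, `|S'| ≥ 3`. If `|S| = 1`: the `m` one-element blocks. If
`|S| = s ≥ 2`: fix `a ∈ S`, `b ∈ S'`; take `S`, the `m - s` sets `S \ {a} ∪ {i}` (`i ∈ S'`) and the `s - 1`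
sets `S \ {i} ∪ {b}` (`i ∈ S \ {a}`); they are distinct, and no two of them are complementary
(two sets of size `s` can only be complementary if `2 s = m`, so `s ≥ 3`, and then any two of the
sets in the list intersect). Equivalently: swaps `σ = (a i)`, `i ∈ S'`, and `σ = (i b)`, `i ∈ S \ {a}`,
and `σ = 1`.
(b) both blocks have at least two elements: there are `N` translates with distinct partitions for
every `N ≤ 2m` if `m ≥ 7`, and for every `N ≤ 10` if `m = 6`. Count the partitions by the block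
which contains the index `0`: if the block sizes are `s`, `m - s`, the number of translates
whose block containing `0` has size `s` is `C(m-1, s-1)`, and of size `m - s` it is
`C(m-1, m-s-1)`. For `m ≥ 7` one of `s - 1`, `m - s - 1` lies in `[2, m-3]` and then the binomial is
at least `C(m-1, 2) = (m-1)(m-2)/2 ≥ 2m`. For `m = 6`: sizes `(3,3)`: `C(5,2) = 10`; sizes `(2,4)`:
`C(5,3) = 10` (block of size `4`). In general one may take `min (2m) (C(m-1,2))`.
-/

namespace Pool.Agent.Arch

/-- `ε` and `ε'` define the same partition. -/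
def SamePart {m : ℕ} (ε ε' : Fin m → Bool) : Prop := ∀ i j, ε i = ε j ↔ ε' i = ε' j

private lemma j2_perm {m : ℕ} (ε : Fin m → Bool) (T : Finset (Fin m))
    (h : T.card = (Finset.univ.filter fun i => ε i = true).card) :
    ∃ σ : Equiv.Perm (Fin m), ∀ i, ε (σ i) = true ↔ i ∈ T := by
  classical
  have e : {x // x ∈ T} ≃ {x // x ∈ Finset.univ.filter fun i => ε i = true} :=
    Finset.equivOfCardEq h
  refine ⟨e.extendSubtype, fun i => ⟨fun hi => ?_, fun hi => ?_⟩⟩
  · by_contra hT
    have h1 := e.extendSubtype_not_mem i hT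
    exact h1 (Finset.mem_filter.2 ⟨Finset.mem_univ _, hi⟩)
  · have h1 := e.extendSubtype_mem i hi
    exact (Finset.mem_filter.1 h1).2

private lemma j2_not_samePart {m : ℕ} (δ δ' : Fin m → Bool) (T T' : Finset (Fin m))
    (h : ∀ i, δ i = true ↔ i ∈ T) (h' : ∀ i, δ' i = true ↔ i ∈ T') (hne : T ≠ T')
    (hc : T' ≠ Tᶜ) : ¬ SamePart δ δ' := by
  intro hS
  have hex : ∃ i, ¬ (i ∈ T ↔ i ∈ T') := by
    by_contra hcon
    push Not at hcon
    exact hne (Finset.ext hcon)
  obtain ⟨i, hi⟩ := hex
  apply hc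
  ext j
  rw [Finset.mem_compl, ← h', ← h]
  rw [← h, ← h'] at hi
  have hij := hS i j
  cases h1 : δ i <;> cases h2 : δ j <;> cases h3 : δ' i <;> cases h4 : δ' j <;>
    simp_all

private lemma j2_family {m N : ℕ} (ε : Fin m → Bool) (F : Finset (Finset (Fin m)))
    (h1 : ∀ T ∈ F, T.card = (Finset.univ.filter fun i => ε i = true).card)
    (h2 : ∀ T ∈ F, ∀ T' ∈ F, T' ≠ Tᶜ) (hN : N ≤ F.card) :
    ∃ σ : Fin N → Equiv.Perm (Fin m), ∀ a a', a ≠ a' → ¬ SamePart (ε ∘ σ a) (ε ∘ σ a') := by
  classical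
  obtain ⟨e⟩ : Nonempty (Fin N ↪ {T // T ∈ F}) :=
    Function.Embedding.nonempty_of_card_le (by simpa using hN)
  choose σ hσ using fun a : Fin N => j2_perm ε (e a).1 (h1 _ (e a).2)
  refine ⟨σ, fun a a' haa => ?_⟩
  refine j2_not_samePart _ _ (e a).1 (e a').1 (hσ a) (hσ a') (fun h => haa ?_)
    (h2 _ (e a).2 _ (e a').2)
  exact e.injective (Subtype.ext h)

private lemma j2_flip {m N : ℕ} (ε : Fin m → Bool)
    (h : ∃ σ : Fin N → Equiv.Perm (Fin m), ∀ a a', a ≠ a' →
      ¬ SamePart ((fun i => !(ε i)) ∘ σ a) ((fun i => !(ε i)) ∘ σ a')) :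
    ∃ σ : Fin N → Equiv.Perm (Fin m), ∀ a a', a ≠ a' → ¬ SamePart (ε ∘ σ a) (ε ∘ σ a') := by
  obtain ⟨σ, hσ⟩ := h
  refine ⟨σ, fun a a' haa hS => hσ a a' haa fun i j => ?_⟩
  have := hS i j
  simpa using this

private lemma j2_card_flip {m : ℕ} (ε : Fin m → Bool) :
    (Finset.univ.filter fun i => (!(ε i)) = true).card =
      m - (Finset.univ.filter fun i => ε i = true).card := by
  have h := Finset.card_filter_add_card_filter_not (s := (Finset.univ : Finset (Fin m)))
    (p := fun i => ε i = true)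
  have h2 : (Finset.univ.filter fun i => (!(ε i)) = true) =
      (Finset.univ.filter fun i => ¬ ε i = true) := by
    ext i
    simp
  rw [h2]
  rw [Finset.card_univ, Fintype.card_fin] at h
  omega

private lemma j2_choose (n k : ℕ) (hk : 2 ≤ k) (hkn : k + 2 ≤ n) :
    n.choose 2 ≤ n.choose k := by
  induction n generalizing k with
  | zero => omega
  | succ n ih =>
    rcases Nat.eq_or_lt_of_le hk with h | h
    · rw [← h]
    rcases Nat.eq_or_lt_of_le hkn with h' | h'
    · have h1 : n + 1 = k + 2 := h'.symm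
      rw [h1, ← Nat.choose_symm_add, Nat.choose_symm_add]
    · obtain ⟨k', rfl⟩ : ∃ k', k = k' + 1 := ⟨k - 1, by omega⟩
      rw [Nat.choose_succ_succ' n k', Nat.choose_succ_succ' n 1, Nat.choose_one_right]
      have h1 := ih (k' + 1) (by omega) (by omega)
      have h2 := ih k' (by omega) (by omega)
      have h3 : n ≤ n.choose 2 := by
        rw [Nat.choose_two_right]
        obtain ⟨q, rfl⟩ : ∃ q, n = q + 3 := ⟨n - 3, by omega⟩
        rw [Nat.le_div_iff_mul_le (by norm_num)]
        have : q + 3 - 1 = q + 2 := by omega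
        rw [this]
        nlinarith
      have h4 : n.choose (1 + 1) = n.choose 2 := rfl
      omega

/-- all sets of the right size which avoid one point -/
private lemma j2_avoid {m N : ℕ} (hm : 0 < m) (ε : Fin m → Bool)
    (hN : N ≤ (m - 1).choose (Finset.univ.filter fun i => ε i = true).card) :
    ∃ σ : Fin N → Equiv.Perm (Fin m), ∀ a a', a ≠ a' → ¬ SamePart (ε ∘ σ a) (ε ∘ σ a') := by
  classical
  have z : Fin m := ⟨0, hm⟩
  refine j2_family ε ((Finset.univ.erase z).powersetCard
    (Finset.univ.filter fun i => ε i = true).card) (fun T hT => ?_) (fun T hT T' hT' h => ?_) ?_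
  · exact (Finset.mem_powersetCard.1 hT).2
  · have h1 : z ∉ T := fun hz => by
      have := (Finset.mem_powersetCard.1 hT).1 hz
      simp at this
    have h2 : z ∉ T' := fun hz => by
      have := (Finset.mem_powersetCard.1 hT').1 hz
      simp at this
    rw [h, Finset.mem_compl, not_not] at h2
    exact h1 h2
  · rw [Finset.card_powersetCard, Finset.card_erase_of_mem (Finset.mem_univ _), Finset.card_univ,
      Fintype.card_fin]
    exact hN

private lemma j2_middle {m N : ℕ} (hm : 5 ≤ m) (ε : Fin m → Bool)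
    (h2 : 2 ≤ (Finset.univ.filter fun i => ε i = true).card)
    (h3 : (Finset.univ.filter fun i => ε i = true).card + 2 ≤ m)
    (hN : N ≤ (m - 1).choose 2) :
    ∃ σ : Fin N → Equiv.Perm (Fin m), ∀ a a', a ≠ a' → ¬ SamePart (ε ∘ σ a) (ε ∘ σ a') := by
  by_cases h : (Finset.univ.filter fun i => ε i = true).card + 2 ≤ m - 1
  · exact j2_avoid (by omega) ε (hN.trans (j2_choose _ _ h2 h))
  · apply j2_flip
    refine j2_avoid (by omega) _ (hN.trans ?_)
    rw [j2_card_flip]
    exact j2_choose _ _ (by omega) (by omega)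

private lemma j2_single {m : ℕ} (hm : 3 ≤ m) (ε : Fin m → Bool)
    (h1 : (Finset.univ.filter fun i => ε i = true).card = 1) :
    ∃ σ : Fin m → Equiv.Perm (Fin m), ∀ a a', a ≠ a' → ¬ SamePart (ε ∘ σ a) (ε ∘ σ a') := by
  classical
  refine j2_family ε (Finset.univ.powersetCard 1) (fun T hT => ?_) (fun T hT T' hT' h => ?_) ?_
  · rw [h1]
    exact (Finset.mem_powersetCard.1 hT).2
  · have e1 := (Finset.mem_powersetCard.1 hT).2
    have e2 := (Finset.mem_powersetCard.1 hT').2
    rw [h, Finset.card_compl, Fintype.card_fin] at e2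
    omega
  · rw [Finset.card_powersetCard, Finset.card_univ, Fintype.card_fin, Nat.choose_one_right]

private lemma j2_card_pos {m : ℕ} (ε : Fin m → Bool) (b : Bool) (i : Fin m) (hi : ε i = b) :
    1 ≤ (Finset.univ.filter fun i => ε i = b).card :=
  Finset.card_pos.2 ⟨i, Finset.mem_filter.2 ⟨Finset.mem_univ _, hi⟩⟩

theorem many_translates {m : ℕ} (hm : 5 ≤ m) (ε : Fin m → Bool) (h : ∃ i j, ε i ≠ ε j) :
    ∃ σ : Fin m → Equiv.Perm (Fin m), ∀ a a', a ≠ a' → ¬ SamePart (ε ∘ σ a) (ε ∘ σ a') := by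
  have hc := j2_card_flip ε
  have h1 : 1 ≤ (Finset.univ.filter fun i => ε i = true).card ∧
      1 ≤ (Finset.univ.filter fun i => (!(ε i)) = true).card := by
    obtain ⟨i, j, hij⟩ := h
    cases hi : ε i <;> cases hj : ε j
    · rw [hi, hj] at hij
      exact absurd rfl hij
    · exact ⟨j2_card_pos ε true j hj, j2_card_pos (fun i => !(ε i)) true i (by simp [hi])⟩
    · exact ⟨j2_card_pos ε true i hi, j2_card_pos (fun i => !(ε i)) true j (by simp [hj])⟩
    · rw [hi, hj] at hij
      exact absurd rfl hij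
  obtain ⟨h1, h2⟩ := h1
  by_cases e1 : (Finset.univ.filter fun i => ε i = true).card = 1
  · exact j2_single (by omega) ε e1
  by_cases e2 : (Finset.univ.filter fun i => (!(ε i)) = true).card = 1
  · exact j2_flip ε (j2_single (by omega) _ e2)
  refine j2_middle hm ε (by omega) (by omega) ?_
  rw [Nat.choose_two_right, Nat.le_div_iff_mul_le (by norm_num)]
  obtain ⟨q, rfl⟩ : ∃ q, m = q + 5 := ⟨m - 5, by omega⟩
  have e3 : q + 5 - 1 = q + 4 := by omega
  have e4 : q + 4 - 1 = q + 3 := by omega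
  rw [e3, e4]
  nlinarith

private lemma j2_card_two {m : ℕ} (ε : Fin m → Bool)
    (h2 : ∃ i j, i ≠ j ∧ ε i = true ∧ ε j = true) :
    2 ≤ (Finset.univ.filter fun i => ε i = true).card := by
  obtain ⟨i, j, hij, hi, hj⟩ := h2
  have h : ({i, j} : Finset (Fin m)) ⊆ Finset.univ.filter fun i => ε i = true := by
    intro x hx
    rw [Finset.mem_insert, Finset.mem_singleton] at hx
    rcases hx with rfl | rfl
    · exact Finset.mem_filter.2 ⟨Finset.mem_univ _, hi⟩
    · exact Finset.mem_filter.2 ⟨Finset.mem_univ _, hj⟩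
  have h3 := Finset.card_le_card h
  rwa [Finset.card_pair hij] at h3

theorem more_translates {m N : ℕ} (hm : 6 ≤ m) (hN : N ≤ 2 * m) (hN6 : m = 6 → N ≤ 10)
    (ε : Fin m → Bool) (h2 : ∃ i j, i ≠ j ∧ ε i = true ∧ ε j = true)
    (h3 : ∃ i j, i ≠ j ∧ ε i = false ∧ ε j = false) :
    ∃ σ : Fin N → Equiv.Perm (Fin m), ∀ a a', a ≠ a' → ¬ SamePart (ε ∘ σ a) (ε ∘ σ a') := by
  have hc := j2_card_flip ε
  have e2 := j2_card_two ε h2
  have e3 := j2_card_two (fun i => !(ε i)) (by simpa using h3)
  refine j2_middle (by omega) ε e2 (by omega) ?_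
  rw [Nat.choose_two_right, Nat.le_div_iff_mul_le (by norm_num)]
  rcases Nat.eq_or_lt_of_le hm with h | h
  · have := hN6 h.symm
    subst h
    omega
  · obtain ⟨q, rfl⟩ : ∃ q, m = q + 7 := ⟨m - 7, by omega⟩
    have e3 : q + 7 - 1 = q + 6 := by omega
    have e4 : q + 6 - 1 = q + 5 := by omega
    rw [e3, e4]
    nlinarith

end Pool.Agent.Arch
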