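import Mathlib

/-!
# J3: simultaneous eigenvectors

`eigen_indep`: nonzero simultaneous eigenvectors with distinct characters are linearly
independent (induction on the number of vectors, as for one operator; or apply
`Module.End.eigenvectors_linearIndependent` after choosing a separating combination).

`exists_eigen`: commuting involutions `b i j` with `b i j * b j k = b i k`; every nonzero vector `u` has
a nonzero simultaneous eigenvector component: for a vector `u ≠ 0` with `b p q u = -u` there is a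
simultaneous eigenvector `v ≠ 0` with a map `ε : Fin m → Bool` such that `b i j v = v` if `ε i = ε j` and
`-v` otherwise, and `ε p ≠ ε q`. Proof: apply successively one of `(1 ± b 0 l)/2`, `l = 1, ..., m-1`,
keeping the vector nonzero; it stays in the `-1` eigenspace of `b p q` by commutation; then
`b i j = b i 0 * b 0 j`. (`b i 0 = b 0 i`, since `b i 0 * b 0 i = b i i = 1`.)

`eigen_span`: the simultaneous eigenvectors span the whole space (same argument: `u` is the sum of
its components).
-/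

namespace Pool.Agent.Arch

open Matrix

theorem eigen_indep {n : ℕ} {ι I : Type} (b : I → Matrix (Fin n) (Fin n) ℚ) (v : ι → Fin n → ℚ)
    (χ : ι → I → ℚ) (hv : ∀ a, v a ≠ 0) (h : ∀ a i, (b i) *ᵥ (v a) = χ a i • v a)
    (hinj : Function.Injective χ) : LinearIndependent ℚ v := by
  classical
  rw [linearIndependent_iff']
  intro s
  induction s using Finset.induction_on with
  | empty => intro g _ i hi; exact absurd hi (Finset.notMem_empty i)
  | insert a s ha ih =>
    intro g hg
    rw [Finset.sum_insert ha] at hg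
    have h1 : ∀ i : I, ∀ c ∈ s, g c * (χ c i - χ a i) = 0 := by
      intro i
      apply ih
      have h2 : (b i) *ᵥ (g a • v a + ∑ c ∈ s, g c • v c) = 0 := by rw [hg, Matrix.mulVec_zero]
      rw [Matrix.mulVec_add, Matrix.mulVec_smul, h, Matrix.mulVec_sum] at h2
      have h3 : ∑ c ∈ s, (g c * (χ c i - χ a i)) • v c =
          ∑ c ∈ s, (b i) *ᵥ (g c • v c) - χ a i • ∑ c ∈ s, g c • v c := by
        rw [Finset.smul_sum, ← Finset.sum_sub_distrib]
        refine Finset.sum_congr rfl fun c _ => ?_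
        rw [Matrix.mulVec_smul, h, smul_smul, smul_smul, ← sub_smul]
        congr 1
        ring
      rw [h3]
      have h4 : ∑ c ∈ s, g c • v c = -(g a • v a) := by
        rw [eq_neg_iff_add_eq_zero, add_comm]
        exact hg
      have h5 : ∑ c ∈ s, (b i) *ᵥ (g c • v c) = -(g a • χ a i • v a) := by
        rw [eq_neg_iff_add_eq_zero, add_comm]
        exact h2
      rw [h4, h5, smul_neg, smul_smul, smul_smul, mul_comm]
      abel
    have h6 : ∀ c ∈ s, g c = 0 := by
      intro c hc
      have h7 : χ c ≠ χ a := fun h8 => ha (hinj h8 ▸ hc)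
      obtain ⟨i, hi⟩ := Function.ne_iff.1 h7
      rcases mul_eq_zero.1 (h1 i c hc) with h9 | h9
      · exact h9
      · exact absurd (sub_eq_zero.1 h9) hi
    have h10 : g a = 0 := by
      rw [Finset.sum_eq_zero fun c hc => by rw [h6 c hc, zero_smul], add_zero] at hg
      rcases smul_eq_zero.1 hg with h11 | h11
      · exact h11
      · exact absurd h11 (hv a)
    intro c hc
    rcases Finset.mem_insert.1 hc with rfl | hc
    · exact h10
    · exact h6 c hc

/-- The simultaneous eigenvector condition with the partition given by `ε`. -/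
def IsEig {m n : ℕ} (b : Fin m → Fin m → Matrix (Fin n) (Fin n) ℚ) (ε : Fin m → Bool)
    (v : Fin n → ℚ) : Prop :=
  ∀ i j, (b i j) *ᵥ v = if ε i = ε j then v else -v

private theorem j3_symm {m n : ℕ} (b : Fin m → Fin m → Matrix (Fin n) (Fin n) ℚ)
    (hsq : ∀ i j, b i j * b i j = 1) (hmul : ∀ i j k, b i j * b j k = b i k) (i : Fin m) :
    b i i = 1 := by
  rw [← hsq i i, hmul]

private theorem j3_symm' {m n : ℕ} (b : Fin m → Fin m → Matrix (Fin n) (Fin n) ℚ)
    (hsq : ∀ i j, b i j * b i j = 1) (hmul : ∀ i j k, b i j * b j k = b i k) (i j : Fin m) :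
    b i j = b j i := by
  calc b i j = b i j * (b j i * b j i) := by rw [hsq, mul_one]
    _ = (b i j * b j i) * b j i := by rw [mul_assoc]
    _ = b j i := by rw [hmul, j3_symm b hsq hmul, one_mul]

private theorem j3_eig {m n : ℕ} (b : Fin m → Fin m → Matrix (Fin n) (Fin n) ℚ)
    (hsq : ∀ i j, b i j * b i j = 1) (hmul : ∀ i j k, b i j * b j k = b i k) (p : Fin m)
    (v : Fin n → ℚ) (h : ∀ l, (b p l) *ᵥ v = v ∨ (b p l) *ᵥ v = -v) :
    IsEig b (fun l => decide ((b p l) *ᵥ v = v)) v := by
  have key : ∀ l, (b p l) *ᵥ v = if decide ((b p l) *ᵥ v = v) = true then v else -v := by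
    intro l
    by_cases hl : (b p l) *ᵥ v = v
    · simp only [hl, decide_true, if_true]
    · rcases h l with h1 | h1
      · exact absurd h1 hl
      · rw [if_neg (by simpa using hl)]
        exact h1
  intro i j
  have h2 : b i j = b p i * b p j := by rw [← hmul i p j, j3_symm' b hsq hmul i p]
  have h3 : (b i j) *ᵥ v = (b p i) *ᵥ ((b p j) *ᵥ v) := by
    rw [Matrix.mulVec_mulVec, h2]
  rw [h3]
  by_cases hi : (b p i) *ᵥ v = v
  · by_cases hj : (b p j) *ᵥ v = v
    · simp [hi, hj]
    · have hj' := (h j).resolve_left hj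
      rw [hj', Matrix.mulVec_neg, hi]
      have : decide ((b p i) *ᵥ v = v) ≠ decide ((b p j) *ᵥ v = v) := by
        simp [hi, hj]
      rw [if_neg this]
  · have hi' := (h i).resolve_left hi
    by_cases hj : (b p j) *ᵥ v = v
    · rw [hj, hi']
      have : decide ((b p i) *ᵥ v = v) ≠ decide ((b p j) *ᵥ v = v) := by
        simp [hi, hj]
      rw [if_neg this]
    · have hj' := (h j).resolve_left hj
      rw [hj', Matrix.mulVec_neg, hi', neg_neg]
      have : decide ((b p i) *ᵥ v = v) = decide ((b p j) *ᵥ v = v) := by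
        simp [hi, hj]
      rw [if_pos this]

private theorem j3_step {m n : ℕ} (b : Fin m → Fin m → Matrix (Fin n) (Fin n) ℚ)
    (hsq : ∀ i j, b i j * b i j = 1) (hcomm : ∀ i j k l, b i j * b k l = b k l * b i j)
    (p l : Fin m) (v : Fin n → ℚ) (e : ℚ) (he : e = 1 ∨ e = -1) :
    (b p l) *ᵥ (v + e • (b p l) *ᵥ v) = e • (v + e • (b p l) *ᵥ v) ∧
      ∀ (i j : Fin m) (c : ℚ), (b i j) *ᵥ v = c • v →
        (b i j) *ᵥ (v + e • (b p l) *ᵥ v) = c • (v + e • (b p l) *ᵥ v) := by
  have hee : e * e = 1 := by rcases he with rfl | rfl <;> norm_num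
  constructor
  · rw [Matrix.mulVec_add, Matrix.mulVec_smul, Matrix.mulVec_mulVec, hsq, Matrix.one_mulVec,
      smul_add, smul_smul, hee, one_smul, add_comm]
  · intro i j c hc
    rw [Matrix.mulVec_add, Matrix.mulVec_smul, Matrix.mulVec_mulVec, hcomm, ← Matrix.mulVec_mulVec,
      hc, Matrix.mulVec_smul, smul_add, smul_comm]

private theorem j3_cases {m n : ℕ} {b : Fin m → Fin m → Matrix (Fin n) (Fin n) ℚ} {i j : Fin m}
    {v : Fin n → ℚ} : ((b i j) *ᵥ v = v ∨ (b i j) *ᵥ v = -v) ↔
      ∃ c : ℚ, (c = 1 ∨ c = -1) ∧ (b i j) *ᵥ v = c • v := by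
  constructor
  · rintro (h | h)
    · exact ⟨1, Or.inl rfl, by rw [h, one_smul]⟩
    · exact ⟨-1, Or.inr rfl, by rw [h, neg_smul, one_smul]⟩
  · rintro ⟨c, rfl | rfl, h⟩
    · left
      rw [h, one_smul]
    · right
      rw [h, neg_smul, one_smul]

theorem exists_eigen {m n : ℕ} (b : Fin m → Fin m → Matrix (Fin n) (Fin n) ℚ)
    (hsq : ∀ i j, b i j * b i j = 1) (hmul : ∀ i j k, b i j * b j k = b i k)
    (hcomm : ∀ i j k l, b i j * b k l = b k l * b i j) (p q : Fin m) (hne : b p q ≠ 1) :
    ∃ (v : Fin n → ℚ) (ε : Fin m → Bool), v ≠ 0 ∧ IsEig b ε v ∧ ε p ≠ ε q := by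
  classical
  have h0 : ∃ u : Fin n → ℚ, (b p q) *ᵥ u ≠ u := by
    by_contra hcon
    push Not at hcon
    apply hne
    apply Matrix.mulVec_injective
    funext u
    rw [hcon u, Matrix.one_mulVec]
  obtain ⟨u, hu⟩ := h0
  have key : ∀ s : Finset (Fin m), ∃ v : Fin n → ℚ, v ≠ 0 ∧ (b p q) *ᵥ v = (-1 : ℚ) • v ∧
      ∀ l ∈ s, (b p l) *ᵥ v = v ∨ (b p l) *ᵥ v = -v := by
    intro s
    induction s using Finset.induction_on with
    | empty =>
      refine ⟨u + (-1 : ℚ) • (b p q) *ᵥ u, ?_, ?_, fun l hl => absurd hl (Finset.notMem_empty l)⟩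
      · intro h1
        apply hu
        rw [neg_smul, one_smul, ← sub_eq_add_neg, sub_eq_zero] at h1
        exact h1.symm
      · exact (j3_step b hsq hcomm p q u (-1) (Or.inr rfl)).1
    | insert l s _ ih =>
      obtain ⟨v, hv0, hvq, hvs⟩ := ih
      have h1 : ∃ e : ℚ, (e = 1 ∨ e = -1) ∧ v + e • (b p l) *ᵥ v ≠ 0 := by
        by_contra hcon
        push Not at hcon
        have h2 := hcon 1 (Or.inl rfl)
        have h3 := hcon (-1) (Or.inr rfl)
        apply hv0
        have h4 : (2 : ℚ) • v = (v + (1 : ℚ) • (b p l) *ᵥ v) + (v + (-1 : ℚ) • (b p l) *ᵥ v) := by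
          rw [one_smul, neg_smul, one_smul, two_smul]
          abel
        rw [h2, h3, add_zero] at h4
        exact (smul_eq_zero.1 h4).resolve_left (by norm_num)
      obtain ⟨e, he, hne0⟩ := h1
      obtain ⟨h5, h6⟩ := j3_step b hsq hcomm p l v e he
      refine ⟨_, hne0, h6 p q _ hvq, fun k hk => ?_⟩
      rw [j3_cases]
      rcases Finset.mem_insert.1 hk with rfl | hk
      · exact ⟨e, he, h5⟩
      · obtain ⟨c, hc, hc'⟩ := j3_cases.1 (hvs k hk)
        exact ⟨c, hc, h6 p k c hc'⟩
  obtain ⟨v, hv0, hvq, hvs⟩ := key Finset.univ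
  refine ⟨v, fun l => decide ((b p l) *ᵥ v = v), hv0,
    j3_eig b hsq hmul p v fun l => hvs l (Finset.mem_univ l), ?_⟩
  have h7 : (b p p) *ᵥ v = v := by rw [j3_symm b hsq hmul, Matrix.one_mulVec]
  have h8 : (b p q) *ᵥ v ≠ v := by
    rw [hvq]
    intro h9
    apply hv0
    have h10 : (2 : ℚ) • v = v - (-1 : ℚ) • v := by
      rw [two_smul, neg_smul, one_smul, sub_neg_eq_add]
    rw [h9, sub_self] at h10
    exact (smul_eq_zero.1 h10).resolve_left (by norm_num)
  simp [h7, h8]

theorem eigen_span {m n : ℕ} (hm : 1 ≤ m) (b : Fin m → Fin m → Matrix (Fin n) (Fin n) ℚ)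
    (hsq : ∀ i j, b i j * b i j = 1) (hmul : ∀ i j k, b i j * b j k = b i k)
    (hcomm : ∀ i j k l, b i j * b k l = b k l * b i j) :
    Submodule.span ℚ {v : Fin n → ℚ | ∃ ε : Fin m → Bool, IsEig b ε v} = ⊤ := by
  classical
  set p : Fin m := ⟨0, hm⟩
  have key : ∀ s : Finset (Fin m), Submodule.span ℚ {v : Fin n → ℚ |
      ∀ l ∈ s, (b p l) *ᵥ v = v ∨ (b p l) *ᵥ v = -v} = ⊤ := by
    intro s
    induction s using Finset.induction_on with
    | empty =>
      rw [eq_top_iff]
      intro u _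
      exact Submodule.subset_span fun l hl => absurd hl (Finset.notMem_empty l)
    | insert l s _ ih =>
      rw [eq_top_iff, ← ih]
      refine Submodule.span_le.2 fun v hv => ?_
      have h1 : v = (1 / 2 : ℚ) • (v + (1 : ℚ) • (b p l) *ᵥ v) +
          (1 / 2 : ℚ) • (v + (-1 : ℚ) • (b p l) *ᵥ v) := by
        rw [← smul_add, one_smul, neg_smul, one_smul]
        have : v + (b p l) *ᵥ v + (v + -((b p l) *ᵥ v)) = (2 : ℚ) • v := by
          rw [two_smul]
          abel
        rw [this, smul_smul]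
        norm_num
      have h2 : ∀ e : ℚ, (e = 1 ∨ e = -1) → v + e • (b p l) *ᵥ v ∈
          Submodule.span ℚ {v : Fin n → ℚ |
            ∀ k ∈ insert l s, (b p k) *ᵥ v = v ∨ (b p k) *ᵥ v = -v} := by
        intro e he
        refine Submodule.subset_span fun k hk => ?_
        obtain ⟨h5, h6⟩ := j3_step b hsq hcomm p l v e he
        rw [j3_cases]
        rcases Finset.mem_insert.1 hk with rfl | hk
        · exact ⟨e, he, h5⟩
        · obtain ⟨c, hc, hc'⟩ := j3_cases.1 (hv k hk)
          exact ⟨c, hc, h6 p k c hc'⟩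
      rw [SetLike.mem_coe, h1]
      exact add_mem (Submodule.smul_mem _ _ (h2 1 (Or.inl rfl)))
        (Submodule.smul_mem _ _ (h2 (-1) (Or.inr rfl)))
  rw [eq_top_iff, ← key Finset.univ]
  refine Submodule.span_mono fun v hv => ?_
  exact ⟨_, j3_eig b hsq hmul p v fun l => hv l (Finset.mem_univ l)⟩

end Pool.Agent.Arch
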