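import Pool.Agent.Arch.I8
import Pool.Agent.Arch.J1
import Pool.Agent.Arch.J2
import Pool.Agent.Arch.J3

/-!
# J4: in small dimension the sign matrices are killed

Proof. Let `b` be the lifts of J1 for `C = Cn P0`, `S = Sn P0` (`Sn_central`, `Sn_torsion`). Regard
`b i j` as rational matrices `β i j`. If some `b p q ≠ 1`, J3 gives an eigenvector `v` with a
nonconstant `ε`. For a permutation `σ` let `w` be the signed permutation matrix (`exists_perm`) and `g`
a lift of `ρ(w)`: `g b_{ij} g⁻¹ = b_{σi σj}`, so `g⁻¹ v` is an eigenvector with the map `ε ∘ σ`: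
`b_{ij} g⁻¹ v = g⁻¹ b_{σi σj} v`. With the `m` translates of J2 (a) this gives `m` eigenvectors with
distinct characters, so `m ≤ n` by `eigen_indep`. Contradiction; so all `b i j = 1` and
`ρ(dZ i j) = 1`.
-/

namespace Pool.Agent.Arch

open Matrix

/-- An element of `C(P0)` as a rational matrix. -/
noncomputable def toQ {n : ℕ} {P0 : Ar n} (g : Cn P0) : Matrix (Fin n) (Fin n) ℚ :=
  (g : GL (Fin n) ℤ).1.map (Int.cast : ℤ → ℚ)

theorem toQ_mul {n : ℕ} {P0 : Ar n} (g h : Cn P0) : toQ (g * h) = toQ g * toQ h := by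
  unfold toQ
  have h1 : ((g * h : Cn P0) : GL (Fin n) ℤ).1 = (g : GL (Fin n) ℤ).1 * (h : GL (Fin n) ℤ).1 := rfl
  rw [h1]
  exact Matrix.map_mul (f := Int.castRingHom ℚ)

theorem toQ_one {n : ℕ} {P0 : Ar n} : toQ (1 : Cn P0) = 1 := by
  unfold toQ
  have h1 : ((1 : Cn P0) : GL (Fin n) ℤ).1 = 1 := rfl
  rw [h1]
  exact Matrix.map_one _ (by simp) (by simp)

theorem toQ_inj {n : ℕ} {P0 : Ar n} {g h : Cn P0} (hgh : toQ g = toQ h) : g = h := by
  apply Subtype.ext
  apply Units.ext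
  unfold toQ at hgh
  ext i j
  have h1 := congrFun (congrFun hgh i) j
  rw [Matrix.map_apply, Matrix.map_apply] at h1
  exact_mod_cast h1

/-- Translation of eigenvectors: if there is an eigenvector with the map `ε`, there is one with
`ε ∘ σ`. -/
theorem eig_translate {m n : ℕ} (P0 : Ar n) (ρ : SLZ m →* (Cn P0 ⧸ Sn P0))
    (b : Fin m → Fin m → Cn P0)
    (hb : ∀ (w : SLZ m) (g : Cn P0) (i j i' j' : Fin m),
      (QuotientGroup.mk g : Cn P0 ⧸ Sn P0) = ρ w →
      w * dZ i j * w⁻¹ = dZ i' j' → g * b i j * g⁻¹ = b i' j')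
    (ε : Fin m → Bool) (σ : Equiv.Perm (Fin m)) (v : Fin n → ℚ) (hv : v ≠ 0)
    (h : IsEig (fun i j => toQ (b i j)) ε v) :
    ∃ v' : Fin n → ℚ, v' ≠ 0 ∧ IsEig (fun i j => toQ (b i j)) (ε ∘ σ) v' := by
  obtain ⟨w, hw⟩ := exists_perm σ
  obtain ⟨g, hg⟩ := QuotientGroup.mk_surjective (ρ w)
  have h1 : ∀ i j, b i j * g⁻¹ = g⁻¹ * b (σ i) (σ j) := by
    intro i j
    rw [← hb w g i j (σ i) (σ j) hg (hw i j)]
    group
  refine ⟨toQ g⁻¹ *ᵥ v, ?_, ?_⟩
  · intro h0
    apply hv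
    have h2 : toQ g *ᵥ (toQ g⁻¹ *ᵥ v) = v := by
      rw [Matrix.mulVec_mulVec, ← toQ_mul, mul_inv_cancel, toQ_one, Matrix.one_mulVec]
    rw [← h2, h0, Matrix.mulVec_zero]
  · intro i j
    have h2 := h (σ i) (σ j)
    change toQ (b i j) *ᵥ (toQ g⁻¹ *ᵥ v) =
      if ε (σ i) = ε (σ j) then toQ g⁻¹ *ᵥ v else -(toQ g⁻¹ *ᵥ v)
    rw [Matrix.mulVec_mulVec, ← toQ_mul, h1, toQ_mul, ← Matrix.mulVec_mulVec]
    have h3 : toQ (b (σ i) (σ j)) *ᵥ v = if ε (σ i) = ε (σ j) then v else -v := h2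
    rw [h3]
    split_ifs
    · rfl
    · rw [Matrix.mulVec_neg]

theorem rho_d_trivial {m n : ℕ} (hm : 5 ≤ m) (hn : 1 ≤ n) (hnm : n < m) (P0 : Ar n)
    (ρ : SLZ m →* (Cn P0 ⧸ Sn P0)) (i j : Fin m) : ρ (dZ i j) = 1 := by
  obtain ⟨b, hlift, hsq, hmul, hcomm, -, hb, -⟩ := exists_lifts (by omega : 3 ≤ m) (Sn P0)
    (fun s hs g => Sn_central P0 s hs g) (fun s hs h2 => Sn_torsion hn P0 s hs h2) ρ
  by_cases hall : ∀ p q, b p q = 1
  · rw [← hlift, hall]
    rfl
  exfalso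
  push Not at hall
  obtain ⟨p, q, hpq⟩ := hall
  obtain ⟨v, ε, hv, hE, hε⟩ := exists_eigen (fun i j => toQ (b i j))
    (fun i j => by
      change toQ (b i j) * toQ (b i j) = 1
      rw [← toQ_mul, hsq, toQ_one])
    (fun i j k => by
      change toQ (b i j) * toQ (b j k) = toQ (b i k)
      rw [← toQ_mul, hmul])
    (fun i j k l => by
      change toQ (b i j) * toQ (b k l) = toQ (b k l) * toQ (b i j)
      rw [← toQ_mul, hcomm, toQ_mul]) p q (fun h => hpq (toQ_inj (by rw [toQ_one]; exact h)))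
  obtain ⟨σ, hσ⟩ := many_translates hm ε ⟨p, q, hε⟩
  choose v' hv' hE' using fun a : Fin m => eig_translate P0 ρ b hb ε (σ a) v hv hE
  have hli := eigen_indep (ι := Fin m) (I := Fin m × Fin m) (fun x => toQ (b x.1 x.2)) v'
    (fun a x => if (ε ∘ σ a) x.1 = (ε ∘ σ a) x.2 then 1 else -1) hv'
    (fun a x => by
      have h1 : toQ (b x.1 x.2) *ᵥ v' a =
          if (ε ∘ σ a) x.1 = (ε ∘ σ a) x.2 then v' a else -(v' a) := hE' a x.1 x.2
      rw [h1]
      split_ifs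
      · rw [one_smul]
      · rw [neg_smul, one_smul])
    (by
      intro a a' haa
      by_contra hne
      apply hσ a a' hne
      intro i j
      have h1 := congrFun haa (i, j)
      by_cases h2 : (ε ∘ σ a) i = (ε ∘ σ a) j <;> by_cases h3 : (ε ∘ σ a') i = (ε ∘ σ a') j
      · exact ⟨fun _ => h3, fun _ => h2⟩
      · simp only [if_pos h2, if_neg h3] at h1
        norm_num at h1
      · simp only [if_neg h2, if_pos h3] at h1
        norm_num at h1
      · exact ⟨fun h => absurd h h2, fun h => absurd h h3⟩)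
  have hcard := hli.fintype_card_le_finrank
  rw [Fintype.card_fin, Module.finrank_fin_fun] at hcard
  omega

end Pool.Agent.Arch
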