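import Pool.Agent.Arch.J4

/-!
# J5: the eigenspaces when `m < n < 2m`

`b` are the lifts of J1. Suppose some `b p q ≠ 1`, `m ≥ 6`, `n < 2m`, and `n ≤ 9` if `m = 6`. For an index
`l` let `E_l` be the space of simultaneous eigenvectors for the partition `{l}`, rest; `E_none` the space
of vectors fixed by all `b i j`.

(a) every nonzero eigenvector with nonconstant `ε` is of the type `{l}` for some `l` (i.e. `ε` or its
complement is the indicator of `l`): otherwise both blocks have at least two elements and J2 (b)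
with `N = n + 1`, `eig_translate` and `eigen_indep` give `n + 1` independent vectors.
(b) hence `E_none` and the `E_l` together span (`eigen_span`), they are independent (distinct
characters, `m ≥ 3`), and all `E_l` have the same dimension `r` (`eig_translate`: the map
`v ↦ g⁻¹ v` is an isomorphism `E_{σ l} → E_l`; or directly: choose in `E_l` vectors independent and
transport), `r ≥ 1` because some `b p q ≠ 1` (`exists_eigen`). `m r ≤ n < 2m` so `r = 1`.
Conclusion: there are vectors `v_l ≠ 0` in `E_l`, every element of `E_l` is a rational multiple of `v_l`,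
and the `v_l` together with `E_none` span `ℚ^n`; `E_none ≠ 0` because `n > m`.
-/

namespace Pool.Agent.Arch

open Matrix

/-- The indicator of an index. -/
def ind {m : ℕ} (l : Fin m) : Fin m → Bool := fun i => decide (i = l)

/-- The constant map. -/
def cst {m : ℕ} : Fin m → Bool := fun _ => true

/-- the sign of a pair of indices -/
private def j5_chi {m : ℕ} (ε : Fin m → Bool) : Fin m × Fin m → ℚ :=
  fun x => if ε x.1 = ε x.2 then 1 else -1

private theorem j5_chi_inj {m : ℕ} {ε ε' : Fin m → Bool} (h : j5_chi ε = j5_chi ε') :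
    SamePart ε ε' := by
  intro i j
  have h1 := congrFun h (i, j)
  simp only [j5_chi] at h1
  by_cases h2 : ε i = ε j <;> by_cases h3 : ε' i = ε' j
  · exact ⟨fun _ => h3, fun _ => h2⟩
  · rw [if_pos h2, if_neg h3] at h1
    norm_num at h1
  · rw [if_neg h2, if_pos h3] at h1
    norm_num at h1
  · exact ⟨fun h => absurd h h2, fun h => absurd h h3⟩

private theorem j5_eig {m n : ℕ} {B : Fin m → Fin m → Matrix (Fin n) (Fin n) ℚ}
    {ε : Fin m → Bool} {v : Fin n → ℚ} (h : IsEig B ε v) (x : Fin m × Fin m) :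
    (B x.1 x.2) *ᵥ v = j5_chi ε x • v := by
  simp only [j5_chi]
  rw [h x.1 x.2]
  split_ifs <;> simp

private theorem j5_same {m n : ℕ} {B : Fin m → Fin m → Matrix (Fin n) (Fin n) ℚ}
    {ε ε' : Fin m → Bool} (hs : SamePart ε ε') {v : Fin n → ℚ} (h : IsEig B ε v) :
    IsEig B ε' v := by
  intro i j
  rw [h i j]
  exact if_congr (hs i j) rfl rfl

private theorem j5_smul {m n : ℕ} {B : Fin m → Fin m → Matrix (Fin n) (Fin n) ℚ}
    {ε : Fin m → Bool} {v : Fin n → ℚ} (c : ℚ) (h : IsEig B ε v) : IsEig B ε (c • v) := by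
  intro i j
  rw [mulVec_smul, h i j]
  split_ifs <;> simp

private theorem j5_add {m n : ℕ} {B : Fin m → Fin m → Matrix (Fin n) (Fin n) ℚ}
    {ε : Fin m → Bool} {u v : Fin n → ℚ} (hu : IsEig B ε u) (hv : IsEig B ε v) :
    IsEig B ε (u + v) := by
  intro i j
  rw [mulVec_add, hu i j, hv i j]
  split_ifs
  · rfl
  · rw [neg_add]

private theorem j5_ind_inj {m : ℕ} (hm : 3 ≤ m) {l l' : Fin m} (h : SamePart (ind l) (ind l')) :
    l = l' := by
  by_contra hne
  obtain ⟨k, hk, hk'⟩ : ∃ k : Fin m, k ≠ l ∧ k ≠ l' := by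
    have hc : ({l, l'} : Finset (Fin m)).card < (Finset.univ : Finset (Fin m)).card := by
      have := Finset.card_le_two (a := l) (b := l')
      rw [Finset.card_univ, Fintype.card_fin]
      omega
    obtain ⟨k, _, hk⟩ := Finset.exists_mem_notMem_of_card_lt_card hc
    refine ⟨k, fun h => hk (by simp [h]), fun h => hk (by simp [h])⟩
  have h1 := (h k l').1
  simp only [ind] at h1
  have h2 : decide (k = l) = decide (l' = l) := by
    simp [hk, Ne.symm hne]
  have h3 := h1 h2
  simp [hk'] at h3

/-- the sum of eigenvectors for distinct characters is zero only if they all are -/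
private theorem j5_sum {m n : ℕ} {κ : Type} [Fintype κ]
    (B : Fin m → Fin m → Matrix (Fin n) (Fin n) ℚ)
    (E : κ → Fin m → Bool) (hE : ∀ a a', a ≠ a' → ¬ SamePart (E a) (E a'))
    (w : κ → Fin n → ℚ) (hw : ∀ a, IsEig B (E a) (w a)) (hsum : ∑ a, w a = 0) (a : κ) :
    w a = 0 := by
  classical
  by_contra ha
  have hli := eigen_indep (fun x : Fin m × Fin m => B x.1 x.2)
    (fun a : {a : κ // w a ≠ 0} => w a.1) (fun a => j5_chi (E a.1)) (fun a => a.2)
    (fun a x => j5_eig (hw a.1) x)
    (fun a a' h => by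
      by_contra hne
      exact hE a.1 a'.1 (fun h' => hne (Subtype.ext h')) (j5_chi_inj h))
  have h1 : ∑ a : {a : κ // w a ≠ 0}, (1 : ℚ) • w a.1 = 0 := by
    simp only [one_smul]
    have h3 : ∑ a ∈ Finset.univ.filter (fun a => w a ≠ 0), w a =
        ∑ a : {a : κ // w a ≠ 0}, w a.1 := Finset.sum_subtype _ (by simp) _
    rw [← h3, Finset.sum_filter_ne_zero, hsum]
  have h2 := Fintype.linearIndependent_iff.1 hli (fun _ => 1) h1 ⟨a, ha⟩
  exact one_ne_zero h2

/-- nonzero eigenvectors for `n + 1` partitions do not exist -/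
private theorem j5_card {m n : ℕ} {κ : Type} [Fintype κ]
    (B : Fin m → Fin m → Matrix (Fin n) (Fin n) ℚ)
    (E : κ → Fin m → Bool) (hE : ∀ a a', a ≠ a' → ¬ SamePart (E a) (E a'))
    (w : κ → Fin n → ℚ) (hw : ∀ a, IsEig B (E a) (w a)) (hne : ∀ a, w a ≠ 0) :
    Fintype.card κ ≤ n := by
  have hli := eigen_indep (fun x : Fin m × Fin m => B x.1 x.2) w (fun a => j5_chi (E a)) hne
    (fun a x => j5_eig (hw a) x)
    (fun a a' h => by
      by_contra h'
      exact hE a a' h' (j5_chi_inj h))
  have h := hli.fintype_card_le_finrank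
  rwa [Module.finrank_fin_fun] at h

/-- an element of the group moves the eigenvectors, injectively -/
private theorem j5_translate {m n : ℕ} (P0 : Ar n) (ρ : SLZ m →* (Cn P0 ⧸ Sn P0))
    (b : Fin m → Fin m → Cn P0)
    (hb : ∀ (w : SLZ m) (g : Cn P0) (i j i' j' : Fin m),
      (QuotientGroup.mk g : Cn P0 ⧸ Sn P0) = ρ w →
      w * dZ i j * w⁻¹ = dZ i' j' → g * b i j * g⁻¹ = b i' j')
    (σ : Equiv.Perm (Fin m)) :
    ∃ M N : Matrix (Fin n) (Fin n) ℚ, N * M = 1 ∧ ∀ (ε : Fin m → Bool) (v : Fin n → ℚ),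
      IsEig (fun i j => toQ (b i j)) ε v → IsEig (fun i j => toQ (b i j)) (ε ∘ σ) (M *ᵥ v) := by
  obtain ⟨w, hw⟩ := exists_perm σ
  obtain ⟨g, hg⟩ := QuotientGroup.mk_surjective (ρ w)
  refine ⟨toQ g⁻¹, toQ g, ?_, ?_⟩
  · rw [← toQ_mul, mul_inv_cancel, toQ_one]
  · intro ε v hv i j
    have h1 := hb w g i j (σ i) (σ j) hg (hw i j)
    have h2 : b i j * g⁻¹ = g⁻¹ * b (σ i) (σ j) := by
      rw [← h1]; group
    show toQ (b i j) *ᵥ (toQ g⁻¹ *ᵥ v) = _
    rw [mulVec_mulVec, ← toQ_mul, h2, toQ_mul, ← mulVec_mulVec, hv (σ i) (σ j)]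
    show _ = if ε (σ i) = ε (σ j) then _ else _
    split_ifs
    · rfl
    · rw [mulVec_neg]

private theorem j5_swap {m : ℕ} (l k : Fin m) : ind l ∘ Equiv.swap l k = ind k := by
  funext i
  simp only [ind, Function.comp]
  congr 1
  apply propext
  rw [Equiv.swap_apply_eq_iff, Equiv.swap_apply_left]

theorem eig_lines {m n : ℕ} (hm : 6 ≤ m) (hmn : m < n) (hn2 : n < 2 * m) (hn6 : m = 6 → n ≤ 9)
    (P0 : Ar n) (ρ : SLZ m →* (Cn P0 ⧸ Sn P0)) (b : Fin m → Fin m → Cn P0)
    (hsq : ∀ i j, b i j * b i j = 1) (hmul : ∀ i j k, b i j * b j k = b i k)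
    (hcomm : ∀ i j k l, b i j * b k l = b k l * b i j)
    (hb : ∀ (w : SLZ m) (g : Cn P0) (i j i' j' : Fin m),
      (QuotientGroup.mk g : Cn P0 ⧸ Sn P0) = ρ w →
      w * dZ i j * w⁻¹ = dZ i' j' → g * b i j * g⁻¹ = b i' j')
    (p q : Fin m) (hne : b p q ≠ 1) :
    ∃ v : Fin m → (Fin n → ℚ), (∀ l, v l ≠ 0) ∧
      (∀ l, IsEig (fun i j => toQ (b i j)) (ind l) (v l)) ∧
      (∀ l u, IsEig (fun i j => toQ (b i j)) (ind l) u → ∃ c : ℚ, u = c • v l) ∧
      (∃ u : Fin n → ℚ, u ≠ 0 ∧ IsEig (fun i j => toQ (b i j)) cst u) ∧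
      Submodule.span ℚ (Set.range v ∪ {u | IsEig (fun i j => toQ (b i j)) cst u}) = ⊤ := by
  classical
  set B : Fin m → Fin m → Matrix (Fin n) (Fin n) ℚ := fun i j => toQ (b i j) with hB
  have hsq' : ∀ i j, B i j * B i j = 1 := fun i j => by
    show toQ (b i j) * toQ (b i j) = 1
    rw [← toQ_mul, hsq, toQ_one]
  have hmul' : ∀ i j k, B i j * B j k = B i k := fun i j k => by
    show toQ (b i j) * toQ (b j k) = toQ (b i k)
    rw [← toQ_mul, hmul]
  have hcomm' : ∀ i j k l, B i j * B k l = B k l * B i j := fun i j k l => by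
    show toQ (b i j) * toQ (b k l) = toQ (b k l) * toQ (b i j)
    rw [← toQ_mul, hcomm, toQ_mul]
  have hne' : B p q ≠ 1 := fun h => hne (toQ_inj (by rw [toQ_one]; exact h))
  -- (a) types of the eigenvectors
  have ha : ∀ (ε : Fin m → Bool) (v : Fin n → ℚ), v ≠ 0 → IsEig B ε v → (∃ i j, ε i ≠ ε j) →
      ∃ l, SamePart ε (ind l) := by
    intro ε v hv he hnc
    by_cases h2 : ∃ i j, i ≠ j ∧ ε i = true ∧ ε j = true
    · by_cases h3 : ∃ i j, i ≠ j ∧ ε i = false ∧ ε j = false
      · exfalso
        obtain ⟨σ, hσ⟩ := more_translates (N := n + 1) hm (by omega) (fun h => by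
          have := hn6 h
          omega) ε h2 h3
        choose M N hMN hM using fun a => j5_translate P0 ρ b hb (σ a)
        have h := j5_card B (fun a => ε ∘ σ a) hσ (fun a => M a *ᵥ v)
          (fun a => hM a ε v he) (fun a h0 => hv (by
            have : N a *ᵥ (M a *ᵥ v) = 0 := by rw [h0, mulVec_zero]
            rwa [mulVec_mulVec, hMN, one_mulVec] at this))
        rw [Fintype.card_fin] at h
        omega
      · push Not at h3
        obtain ⟨i, j, hij⟩ := hnc
        obtain ⟨l, hl⟩ : ∃ l, ε l = false := by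
          cases hi : ε i
          · exact ⟨i, hi⟩
          · refine ⟨j, ?_⟩
            rw [hi] at hij
            cases hj : ε j
            · rfl
            · exact absurd hj.symm hij
        refine ⟨l, fun i j => ?_⟩
        have hx : ∀ i, ε i = false ↔ i = l := fun i =>
          ⟨fun h => by
            by_contra hne
            exact h3 i l hne h hl, fun h => h ▸ hl⟩
        have hy : ∀ i, ε i = !(ind l i) := fun i => by
          simp only [ind]
          by_cases h : i = l
          · simp [h, hl]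
          · have := mt (hx i).1 h
            simp [h]
            simpa using this
        rw [hy i, hy j]
        simp
    · push Not at h2
      obtain ⟨i, j, hij⟩ := hnc
      obtain ⟨l, hl⟩ : ∃ l, ε l = true := by
        cases hi : ε i
        · refine ⟨j, ?_⟩
          rw [hi] at hij
          cases hj : ε j
          · exact absurd hj.symm hij
          · rfl
        · exact ⟨i, hi⟩
      refine ⟨l, fun i j => ?_⟩
      have hx : ∀ i, ε i = true ↔ i = l := fun i =>
        ⟨fun h => by
          by_contra hne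
          exact h2 i l hne h hl, fun h => h ▸ hl⟩
      have hy : ∀ i, ε i = ind l i := fun i => by
        simp only [ind]
        by_cases h : i = l
        · simp [h, hl]
        · have := mt (hx i).1 h
          simp [h]
          simpa using this
      rw [hy i, hy j]
  -- a nonzero vector in one of the spaces
  obtain ⟨v0, ε0, hv0, he0, hpq⟩ := exists_eigen B hsq' hmul' hcomm' p q hne'
  obtain ⟨l0, hl0⟩ := ha ε0 v0 hv0 he0 ⟨p, q, hpq⟩
  have he0' := j5_same hl0 he0
  -- transport
  have htr : ∀ l k : Fin m, ∃ M N : Matrix (Fin n) (Fin n) ℚ, N * M = 1 ∧ ∀ v : Fin n → ℚ,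
      IsEig B (ind l) v → IsEig B (ind k) (M *ᵥ v) := by
    intro l k
    obtain ⟨M, N, h1, h2⟩ := j5_translate P0 ρ b hb (Equiv.swap l k)
    refine ⟨M, N, h1, fun v hv => ?_⟩
    have := h2 (ind l) v hv
    rwa [j5_swap] at this
  choose M N hNM hM using htr
  have hinj : ∀ l k (v : Fin n → ℚ), M l k *ᵥ v = 0 → v = 0 := fun l k v h => by
    have : N l k *ᵥ (M l k *ᵥ v) = 0 := by rw [h, mulVec_zero]
    rwa [mulVec_mulVec, hNM, one_mulVec] at this
  have hind : ∀ a a' : Fin m, a ≠ a' → ¬ SamePart (ind a) (ind a') := fun a a' h h' =>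
    h (j5_ind_inj (by omega) h')
  -- dimension at most one
  have hdim : ∀ (l : Fin m) (v u : Fin n → ℚ), v ≠ 0 → IsEig B (ind l) v → IsEig B (ind l) u →
      ∃ c : ℚ, u = c • v := by
    intro l v u hv hev heu
    by_contra hno
    push Not at hno
    have hli : LinearIndependent ℚ (Sum.elim (fun k => M l k *ᵥ v) (fun k => M l k *ᵥ u)) := by
      rw [Fintype.linearIndependent_iff]
      intro g hg
      rw [Fintype.sum_sum_type] at hg
      simp only [Sum.elim_inl, Sum.elim_inr] at hg
      rw [← Finset.sum_add_distrib] at hg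
      have h1 := j5_sum B (fun k => ind k) hind
        (fun k => g (Sum.inl k) • (M l k *ᵥ v) + g (Sum.inr k) • (M l k *ᵥ u))
        (fun k => j5_add (j5_smul _ (hM l k v hev)) (j5_smul _ (hM l k u heu))) hg
      have h2 : ∀ k, g (Sum.inl k) = 0 ∧ g (Sum.inr k) = 0 := by
        intro k
        have h3 := h1 k
        rw [← mulVec_smul, ← mulVec_smul, ← mulVec_add] at h3
        have h4 := hinj l k _ h3
        have h5 : g (Sum.inr k) = 0 := by
          by_contra h6
          apply hno (-(g (Sum.inr k))⁻¹ * g (Sum.inl k))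
          have h7 : g (Sum.inr k) • u = -(g (Sum.inl k) • v) := by
            rw [eq_neg_iff_add_eq_zero, add_comm]
            exact h4
          calc u = (g (Sum.inr k))⁻¹ • (g (Sum.inr k) • u) := by
                rw [smul_smul, inv_mul_cancel₀ h6, one_smul]
            _ = _ := by
                rw [h7, smul_neg, smul_smul, neg_mul, neg_smul]
        rw [h5, zero_smul, add_zero] at h4
        exact ⟨(smul_eq_zero.1 h4).resolve_right hv, h5⟩
      rintro (k | k)
      · exact (h2 k).1
      · exact (h2 k).2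
    have h := hli.fintype_card_le_finrank
    rw [Module.finrank_fin_fun, Fintype.card_sum, Fintype.card_fin] at h
    omega
  have hspan : Submodule.span ℚ (Set.range (fun l => M l0 l *ᵥ v0) ∪ {u | IsEig B cst u}) = ⊤ := by
    rw [eq_top_iff, ← eigen_span (by omega : 1 ≤ m) B hsq' hmul' hcomm', Submodule.span_le]
    rintro u ⟨ε, hu⟩
    by_cases hu0 : u = 0
    · rw [hu0]
      exact Submodule.zero_mem _
    by_cases hnc : ∃ i j, ε i ≠ ε j
    · obtain ⟨l, hl⟩ := ha ε u hu0 hu hnc
      obtain ⟨c, hc⟩ := hdim l _ u (fun h => hv0 (hinj l0 l v0 h)) (hM l0 l v0 he0')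
        (j5_same hl hu)
      rw [hc]
      exact Submodule.smul_mem _ _ (Submodule.subset_span (Or.inl ⟨l, rfl⟩))
    · push Not at hnc
      refine Submodule.subset_span (Or.inr ?_)
      intro i j
      rw [hu i j, if_pos (hnc i j)]
      exact (if_pos rfl).symm
  refine ⟨fun l => M l0 l *ᵥ v0, fun l h => hv0 (hinj l0 l v0 h), fun l => hM l0 l v0 he0',
    fun l u hu => hdim l _ u (fun h => hv0 (hinj l0 l v0 h)) (hM l0 l v0 he0') hu, ?_, hspan⟩
  by_contra hno
  push Not at hno
  have h1 : (⊤ : Submodule ℚ (Fin n → ℚ)) = Submodule.span ℚ (Set.range fun l => M l0 l *ᵥ v0) := by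
    rw [← hspan]
    apply le_antisymm
    · rw [Submodule.span_le]
      rintro u (hu | hu)
      · exact Submodule.subset_span hu
      · by_cases hu0 : u = 0
        · rw [hu0]
          exact Submodule.zero_mem _
        · exact absurd hu (hno u hu0)
    · exact Submodule.span_mono Set.subset_union_left
  have h2 := finrank_range_le_card (R := ℚ) (fun l => M l0 l *ᵥ v0)
  rw [Set.finrank, ← h1, finrank_top, Module.finrank_fin_fun, Fintype.card_fin] at h2
  omega

end Pool.Agent.Arch
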