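import Pool.Agent.Arch.J5

/-!
# J6: the stabiliser is trivial and the squares of elementary matrices act trivially on most
eigenvectors

Proof. (a) `Sn P0` is trivial: `s ∈ Sn P0` commutes with all `b i j` (central), so it maps the line `E_l`
to itself: `toQ s v_l = c v_l`, `c = p / q` rational. With `(s, λ) ∈ typ P0`, `λ > 0`, and an integral
multiple of `v_l` we get `q λ = p`, and `typ_left` gives `q • s = p • 1`; determinants: `|q| = |p|`.
(b) let `h` be a lift of `ρ(elemZ i j 1)`, `A = toQ h`. For a sign matrix `d` commuting with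
`e = elemZ i j 1`, `b_d h = h b_d` exactly (both are lifts of the same element and `Sn P0` is trivial).
Write `w = A u = Σ x_k + w_0`, `x_k` a multiple of `v_k`, `w_0` in `E_none`. If `b p q w = w` then
`x_p + x_q = 0`, if `b p q w = -w` then `w = x_p + x_q`. For `u = v_l` this gives `w = x_l`, for
`u ∈ E_none` it gives `w = w_0`. Finally `h b_d h = b_d` for `d = dZ i k`, `k ≠ i, j, l`.
-/

namespace Pool.Agent.Arch

open Matrix

/-- an integral multiple of a rational vector -/
private theorem j6_clear {n : ℕ} (v : Fin n → ℚ) : ∃ (N : ℕ) (w : Fin n → ℤ), 0 < N ∧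
    ∀ i, (w i : ℚ) = N * v i := by
  refine ⟨∏ i, (v i).den, fun i => (∏ k ∈ Finset.univ.erase i, ((v k).den : ℤ)) * (v i).num,
    Finset.prod_pos fun i _ => (v i).den_pos, fun i => ?_⟩
  have h1 : (∏ k, (v k).den : ℕ) = (∏ k ∈ Finset.univ.erase i, (v k).den) * (v i).den := by
    rw [Finset.prod_erase_mul _ _ (Finset.mem_univ i)]
  rw [h1]
  push_cast
  rw [mul_assoc]
  congr 1
  exact (Rat.den_mul_eq_num (v i)).symm

private theorem j6_cast {n : ℕ} {P0 : Ar n} (g : Cn P0) (w : Fin n → ℤ) (i : Fin n) :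
    ((((g : GL (Fin n) ℤ).1 *ᵥ w) i : ℤ) : ℚ) = ((toQ g) *ᵥ (fun k => (w k : ℚ))) i := by
  simp only [Matrix.mulVec, dotProduct, toQ, Matrix.map_apply]
  push_cast
  rfl

theorem stab_trivial {m n : ℕ} (hn : 1 ≤ n)
    (P0 : Ar n) (b : Fin m → Fin m → Cn P0)
    (v : Fin m → (Fin n → ℚ)) (hv : ∀ l, v l ≠ 0)
    (h1 : ∀ l, IsEig (fun i j => toQ (b i j)) (ind l) (v l))
    (h2 : ∀ l u, IsEig (fun i j => toQ (b i j)) (ind l) u → ∃ c : ℚ, u = c • v l)
    (l : Fin m) (s : Cn P0) (hs : s ∈ Sn P0) : s = 1 := by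
  -- the line is preserved
  obtain ⟨c, hc⟩ := h2 l ((toQ s) *ᵥ (v l)) (by
    intro i j
    have e : toQ (b i j) * toQ s = toQ s * toQ (b i j) := by
      rw [← toQ_mul, ← toQ_mul, Sn_central P0 s hs]
    show toQ (b i j) *ᵥ (toQ s *ᵥ v l) = _
    rw [Matrix.mulVec_mulVec, e, ← Matrix.mulVec_mulVec]
    have h3 := h1 l i j
    simp only at h3
    rw [h3]
    split_ifs
    · rfl
    · rw [Matrix.mulVec_neg])
  obtain ⟨N, w, hN, hw⟩ := j6_clear (v l)
  have hNq : (N : ℚ) ≠ 0 := by exact_mod_cast hN.ne'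
  have hw0 : w ≠ 0 := by
    rintro rfl
    apply hv l
    funext i
    have := hw i
    simp only [Pi.zero_apply, Int.cast_zero] at this
    exact (mul_eq_zero.1 this.symm).resolve_left hNq
  -- `q • s w = p • w`
  have hsw : ((c.den : ℤ) • ((s : GL (Fin n) ℤ).1 *ᵥ w)) = c.num • w := by
    funext i
    have h3 : ((((s : GL (Fin n) ℤ).1 *ᵥ w) i : ℤ) : ℚ) = c * w i := by
      rw [j6_cast]
      have h4 : (fun k => (w k : ℚ)) = (N : ℚ) • v l := by
        funext k
        rw [hw]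
        rfl
      rw [h4, Matrix.mulVec_smul, hc, hw]
      simp only [Pi.smul_apply, smul_eq_mul]
      ring
    have h5 : (((c.den : ℤ) * ((s : GL (Fin n) ℤ).1 *ᵥ w) i : ℤ) : ℚ) =
        ((c.num * w i : ℤ) : ℚ) := by
      push_cast
      rw [h3, ← mul_assoc, Rat.den_mul_eq_num]
    have h6 : (c.den : ℤ) * ((s : GL (Fin n) ℤ).1 *ᵥ w) i = c.num * w i := by exact_mod_cast h5
    simpa using h6
  -- the type
  obtain ⟨lam, hlam, hty⟩ := (smul_eq_self_iff (s : GL (Fin n) ℤ) P0).1 ((mem_Sn P0 s).1 hs)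
  have hdw : dotp w (Yv P0) ≠ 0 := indep_Yv P0 w hw0
  have hlc : (c.den : ℝ) * lam = c.num := by
    have h3 := congrArg (fun x => dotp x (Yv P0)) hsw
    simp only [dotp_zsmul] at h3
    have h4 := hty w
    simp only at h4
    rw [h4] at h3
    push_cast at h3
    have h5 : ((c.den : ℝ) * lam - c.num) * dotp w (Yv P0) = 0 := by linear_combination h3
    linarith [(mul_eq_zero.1 h5).resolve_right hdw]
  have hden : (0 : ℝ) < c.den := by exact_mod_cast c.den_pos
  have hnum : 0 < c.num := by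
    have h3 : (0 : ℝ) < c.num := by rw [← hlc]; positivity
    exact_mod_cast h3
  have e1 : ((c.den : ℤ) • (s : GL (Fin n) ℤ).1, (c.num : ℝ)) ∈ typ P0 := by
    intro x
    show dotp (((c.den : ℤ) • (s : GL (Fin n) ℤ).1) *ᵥ x) (Yv P0) = (c.num : ℝ) * dotp x (Yv P0)
    rw [Matrix.smul_mulVec, dotp_zsmul]
    have h4 := hty x
    simp only at h4
    rw [h4, ← hlc]
    push_cast
    ring
  have e2 : (c.num • (1 : Matrix (Fin n) (Fin n) ℤ), (c.num : ℝ)) ∈ typ P0 := by
    intro x
    show dotp ((c.num • (1 : Matrix (Fin n) (Fin n) ℤ)) *ᵥ x) (Yv P0) =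
      (c.num : ℝ) * dotp x (Yv P0)
    rw [Matrix.smul_mulVec, Matrix.one_mulVec, dotp_zsmul]
  have e3 := typ_left P0 e1 e2
  have hdet := congrArg Matrix.det e3
  rw [Matrix.det_smul, Matrix.det_smul, Matrix.det_one, mul_one, Fintype.card_fin] at hdet
  have hunit : IsUnit (s : GL (Fin n) ℤ).1.det := by
    have := (Matrix.isUnit_iff_isUnit_det _).1 (s : GL (Fin n) ℤ).isUnit
    exact this
  have h7 : c.den ^ n = c.num.natAbs ^ n := by
    have h8 := congrArg Int.natAbs hdet
    rw [Int.natAbs_mul, Int.natAbs_pow, Int.natAbs_pow, Int.isUnit_iff_natAbs_eq.1 hunit, mul_one,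
      Int.natAbs_natCast] at h8
    exact h8
  have h9 : c.den = c.num.natAbs := Nat.pow_left_injective (by omega : n ≠ 0) h7
  have h10 : (c.den : ℤ) = c.num := by omega
  rw [h10] at e3
  have h11 : (s : GL (Fin n) ℤ).1 = 1 := by
    ext a b
    have h12 := congrFun (congrFun e3 a) b
    simp only [Matrix.smul_apply, smul_eq_mul] at h12
    exact mul_left_cancel₀ hnum.ne' h12
  apply Subtype.ext
  apply Units.ext
  exact h11

theorem elem_two_fix {m n : ℕ} (hm : 5 ≤ m)
    (P0 : Ar n) (hS : ∀ s : Cn P0, s ∈ Sn P0 → s = 1)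
    (ρ : SLZ m →* (Cn P0 ⧸ Sn P0)) (b : Fin m → Fin m → Cn P0)
    (hlift : ∀ i j, (QuotientGroup.mk (b i j) : Cn P0 ⧸ Sn P0) = ρ (dZ i j))
    (v : Fin m → (Fin n → ℚ)) (hv : ∀ l, v l ≠ 0)
    (h1 : ∀ l, IsEig (fun i j => toQ (b i j)) (ind l) (v l))
    (h3 : Submodule.span ℚ (Set.range v ∪ {u | IsEig (fun i j => toQ (b i j)) cst u}) = ⊤)
    (i j : Fin m) (hij : i ≠ j) (h : Cn P0)
    (hh : (QuotientGroup.mk h : Cn P0 ⧸ Sn P0) = ρ (elemZ i j hij 2)) :
    (∀ l, l ≠ i → l ≠ j → (toQ h) *ᵥ (v l) = v l) ∧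
    (∀ u, IsEig (fun i j => toQ (b i j)) cst u → (toQ h) *ᵥ u = u) := by
  classical
  have hinj : ∀ x y : Cn P0, (QuotientGroup.mk x : Cn P0 ⧸ Sn P0) = QuotientGroup.mk y → x = y := by
    intro x y hxy
    have h4 := hS _ (QuotientGroup.eq.1 hxy)
    exact (inv_mul_eq_one.1 h4)
  obtain ⟨g, hg⟩ := QuotientGroup.mk_surjective (ρ (elemZ i j hij 1))
  have hgg : g * g = h := by
    apply hinj
    rw [QuotientGroup.mk_mul, hg, hh, ← map_mul, elemZ_mul]
    rfl
  -- commuting sign matrices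
  have hcomm : ∀ k l, k ≠ i → k ≠ j → l ≠ i → l ≠ j → b k l * g = g * b k l := by
    intro k l hk hk' hl hl'
    apply hinj
    rw [QuotientGroup.mk_mul, QuotientGroup.mk_mul, hg, hlift, ← map_mul, ← map_mul,
      dZ_elem_comm' i j k l hij hk hk' hl hl']
  have hcommij : b i j * g = g * b i j := by
    apply hinj
    rw [QuotientGroup.mk_mul, QuotientGroup.mk_mul, hg, hlift, ← map_mul, ← map_mul,
      dZ_elem_comm i j hij]
  have hinv : ∀ k, k ≠ i → k ≠ j → g * b i k * g = b i k := by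
    intro k hk hk'
    apply hinj
    have h4 := dZ_elem_inv i j k hij hk hk' 1
    have h5 : elemZ i j hij 1 * dZ i k * elemZ i j hij 1 = dZ i k := by
      rw [← elemZ_inv, mul_inv_eq_iff_eq_mul] at h4
      rw [mul_assoc, h4, mul_inv_cancel_left]
    rw [QuotientGroup.mk_mul, QuotientGroup.mk_mul, hg, hlift, ← map_mul, ← map_mul, h5]
  -- the space of fixed vectors
  have hcst : ∀ u, IsEig (fun i j => toQ (b i j)) cst u ↔ ∀ p q, toQ (b p q) *ᵥ u = u := by
    intro u
    constructor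
    · intro hu p q
      have := hu p q
      simpa [cst] using this
    · intro hu p q
      simp [cst, hu]
  have hdec : ∀ w : Fin n → ℚ, ∃ (c : Fin m → ℚ) (w0 : Fin n → ℚ),
      (∀ p q, toQ (b p q) *ᵥ w0 = w0) ∧ w = ∑ k, c k • v k + w0 := by
    intro w
    have hw : w ∈ Submodule.span ℚ (Set.range v ∪ {u | IsEig (fun i j => toQ (b i j)) cst u}) := by
      rw [h3]
      exact Submodule.mem_top
    rw [Submodule.span_union, Submodule.mem_sup] at hw
    obtain ⟨a, ha, w0, hw0, rfl⟩ := hw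
    obtain ⟨c, rfl⟩ := (Submodule.mem_span_range_iff_exists_fun ℚ).1 ha
    refine ⟨c, w0, ?_, rfl⟩
    intro p q
    induction hw0 using Submodule.span_induction with
    | mem x hx => exact (hcst x).1 hx p q
    | zero => exact Matrix.mulVec_zero _
    | add x y _ _ hx hy => rw [Matrix.mulVec_add, hx, hy]
    | smul a x _ hx => rw [Matrix.mulVec_smul, hx]
  have hbv : ∀ p q k, toQ (b p q) *ᵥ v k = if ind k p = ind k q then v k else -v k :=
    fun p q k => h1 k p q
  -- the action on a decomposed vector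
  have hsum : ∀ (c : Fin m → ℚ) (w0 : Fin n → ℚ), (∀ p q, toQ (b p q) *ᵥ w0 = w0) →
      ∀ p q, p ≠ q → toQ (b p q) *ᵥ (∑ k, c k • v k + w0) + 2 • (c p • v p + c q • v q) =
        ∑ k, c k • v k + w0 := by
    intro c w0 hw0 p q hpq
    have h4 : toQ (b p q) *ᵥ (∑ k, c k • v k) + 2 • (c p • v p + c q • v q) =
        ∑ k, c k • v k := by
      rw [Matrix.mulVec_sum, ← Finset.add_sum_erase _ _ (Finset.mem_univ p),
        ← Finset.add_sum_erase _ _ (Finset.mem_erase.2 ⟨hpq.symm, Finset.mem_univ q⟩),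
        ← Finset.add_sum_erase _ (fun k => c k • v k) (Finset.mem_univ p),
        ← Finset.add_sum_erase _ (fun k => c k • v k)
          (Finset.mem_erase.2 ⟨hpq.symm, Finset.mem_univ q⟩)]
      have h5 : ∑ x ∈ (Finset.univ.erase p).erase q, toQ (b p q) *ᵥ (c x • v x) =
          ∑ x ∈ (Finset.univ.erase p).erase q, c x • v x := by
        refine Finset.sum_congr rfl fun x hx => ?_
        have hxq : x ≠ q := (Finset.mem_erase.1 hx).1
        have hxp : x ≠ p := (Finset.mem_erase.1 (Finset.mem_erase.1 hx).2).1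
        rw [Matrix.mulVec_smul, hbv, if_pos]
        simp [ind, hxq.symm, hxp.symm]
      have h6 : toQ (b p q) *ᵥ (c p • v p) = -(c p • v p) := by
        rw [Matrix.mulVec_smul, hbv, if_neg, smul_neg]
        simp [ind, hpq.symm]
      have h7 : toQ (b p q) *ᵥ (c q • v q) = -(c q • v q) := by
        rw [Matrix.mulVec_smul, hbv, if_neg, smul_neg]
        simp [ind, hpq]
      rw [h5, h6, h7, two_smul]
      abel
    rw [Matrix.mulVec_add, hw0]
    calc _ = (toQ (b p q) *ᵥ (∑ k, c k • v k) + 2 • (c p • v p + c q • v q)) + w0 := by abel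
      _ = _ := by rw [h4]
  have hplus : ∀ (c : Fin m → ℚ) (w0 : Fin n → ℚ), (∀ p q, toQ (b p q) *ᵥ w0 = w0) →
      ∀ p q, p ≠ q → toQ (b p q) *ᵥ (∑ k, c k • v k + w0) = ∑ k, c k • v k + w0 →
        c p • v p + c q • v q = 0 := by
    intro c w0 hw0 p q hpq he
    have h4 := hsum c w0 hw0 p q hpq
    rw [he] at h4
    have h5 : (2 : ℕ) • (c p • v p + c q • v q) = 0 := by
      rwa [add_eq_left] at h4
    exact (smul_eq_zero.1 h5).resolve_left (by norm_num)
  have hminus : ∀ (c : Fin m → ℚ) (w0 : Fin n → ℚ), (∀ p q, toQ (b p q) *ᵥ w0 = w0) →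
      ∀ p q, p ≠ q → toQ (b p q) *ᵥ (∑ k, c k • v k + w0) = -(∑ k, c k • v k + w0) →
        ∑ k, c k • v k + w0 = c p • v p + c q • v q := by
    intro c w0 hw0 p q hpq he
    have h4 := hsum c w0 hw0 p q hpq
    rw [he] at h4
    have h5 : (2 : ℕ) • ((c p • v p + c q • v q) - (∑ k, c k • v k + w0)) = 0 := by
      rw [smul_sub, sub_eq_zero, two_smul ℕ (∑ k, c k • v k + w0)]
      rw [neg_add_eq_iff_eq_add] at h4
      exact h4
    exact (sub_eq_zero.1 ((smul_eq_zero.1 h5).resolve_left (by norm_num))).symm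
  -- further indices
  have hmore : ∀ s : Finset (Fin m), s.card < 5 → ∃ k, k ∉ s := by
    intro s hs
    by_contra hcon
    push Not at hcon
    have h4 : s = Finset.univ := Finset.eq_univ_iff_forall.2 hcon
    rw [h4, Finset.card_univ, Fintype.card_fin] at hs
    omega
  have hAB : ∀ k l, k ≠ i → k ≠ j → l ≠ i → l ≠ j → ∀ u,
      toQ (b k l) *ᵥ (toQ g *ᵥ u) = toQ g *ᵥ (toQ (b k l) *ᵥ u) := by
    intro k l hk hk' hl hl' u
    rw [Matrix.mulVec_mulVec, Matrix.mulVec_mulVec, ← toQ_mul, ← toQ_mul, hcomm k l hk hk' hl hl']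
  have hABA : ∀ k, k ≠ i → k ≠ j → ∀ u,
      toQ g *ᵥ (toQ (b i k) *ᵥ (toQ g *ᵥ u)) = toQ (b i k) *ᵥ u := by
    intro k hk hk' u
    rw [Matrix.mulVec_mulVec, Matrix.mulVec_mulVec, ← toQ_mul, ← toQ_mul, hinv k hk hk']
  have hAA : ∀ u, toQ h *ᵥ u = toQ g *ᵥ (toQ g *ᵥ u) := by
    intro u
    rw [Matrix.mulVec_mulVec, ← toQ_mul, hgg]
  refine ⟨fun l hli hlj => ?_, fun u hu => ?_⟩
  · obtain ⟨k, hk⟩ := hmore {i, j, l} (by
      refine lt_of_le_of_lt Finset.card_le_three (by norm_num))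
    simp only [Finset.mem_insert, Finset.mem_singleton, not_or] at hk
    obtain ⟨hki, hkj, hkl⟩ := hk
    obtain ⟨k', hk'⟩ := hmore {i, j, l, k} (by
      refine lt_of_le_of_lt Finset.card_le_four (by norm_num))
    simp only [Finset.mem_insert, Finset.mem_singleton, not_or] at hk'
    obtain ⟨hki', hkj', hkl', hkk'⟩ := hk'
    obtain ⟨c, w0, hw0, hw⟩ := hdec (toQ g *ᵥ v l)
    have e1 : ∀ p, p ≠ i → p ≠ j → p ≠ l → toQ g *ᵥ v l = c p • v p + c l • v l := by
      intro p hpi hpj hpl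
      rw [hw]
      apply hminus c w0 hw0 p l hpl
      rw [← hw, hAB p l hpi hpj hli hlj, hbv, if_neg, Matrix.mulVec_neg]
      simp [ind, hpl]
    have e2 := e1 k hki hkj hkl
    have e3 := e1 k' hki' hkj' hkl'
    have e4 : c k • v k + c k' • v k' = 0 := by
      apply hplus c w0 hw0 k k' (Ne.symm hkk')
      rw [← hw, hAB k k' hki hkj hki' hkj', hbv, if_pos]
      simp [ind, hkl, hkl']
    have e5 : c k • v k = c k' • v k' := by
      rw [e2] at e3
      exact add_right_cancel e3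
    have e6 : c k • v k = 0 := by
      rw [← e5, ← two_smul ℚ] at e4
      exact (smul_eq_zero.1 e4).resolve_left (by norm_num)
    rw [e6, zero_add] at e2
    have e7 : toQ (b i k) *ᵥ v l = v l := by
      rw [hbv, if_pos]
      simp [ind, Ne.symm hli, hkl]
    have e8 := hABA k hki hkj (v l)
    rw [e7, e2, Matrix.mulVec_smul, e7] at e8
    rw [hAA, e2]
    exact e8
  · have hu' := (hcst u).1 hu
    obtain ⟨c, w0, hw0, hw⟩ := hdec (toQ g *ᵥ u)
    have e1 : ∀ k l, k ≠ i → k ≠ j → l ≠ i → l ≠ j → k ≠ l → c k • v k + c l • v l = 0 := by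
      intro k l hk hk' hl hl' hkl
      apply hplus c w0 hw0 k l hkl
      rw [← hw, hAB k l hk hk' hl hl', hu']
    have e2 : c i • v i + c j • v j = 0 := by
      apply hplus c w0 hw0 i j hij
      rw [← hw, Matrix.mulVec_mulVec, ← toQ_mul, hcommij, toQ_mul, ← Matrix.mulVec_mulVec, hu']
    have e3 : ∀ k, k ≠ i → k ≠ j → c k • v k = 0 := by
      intro k hki hkj
      obtain ⟨p, hp⟩ := hmore {i, j, k} (by
        refine lt_of_le_of_lt Finset.card_le_three (by norm_num))
      simp only [Finset.mem_insert, Finset.mem_singleton, not_or] at hp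
      obtain ⟨hpi, hpj, hpk⟩ := hp
      obtain ⟨q, hq⟩ := hmore {i, j, k, p} (by
        refine lt_of_le_of_lt Finset.card_le_four (by norm_num))
      simp only [Finset.mem_insert, Finset.mem_singleton, not_or] at hq
      obtain ⟨hqi, hqj, hqk, hqp⟩ := hq
      have f1 := e1 k p hki hkj hpi hpj (Ne.symm hpk)
      have f2 := e1 k q hki hkj hqi hqj (Ne.symm hqk)
      have f3 := e1 p q hpi hpj hqi hqj (Ne.symm hqp)
      have f4 : (2 : ℚ) • (c k • v k) = 0 := by
        have : (2 : ℚ) • (c k • v k) = (c k • v k + c p • v p) + (c k • v k + c q • v q) -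
            (c p • v p + c q • v q) := by
          rw [two_smul]
          abel
        rw [this, f1, f2, f3, add_zero, sub_zero]
      exact (smul_eq_zero.1 f4).resolve_left (by norm_num)
    have e4 : ∑ k, c k • v k = 0 := by
      rw [← Finset.add_sum_erase _ _ (Finset.mem_univ i),
        ← Finset.add_sum_erase _ _ (Finset.mem_erase.2 ⟨hij.symm, Finset.mem_univ j⟩),
        ← add_assoc, e2, zero_add]
      apply Finset.sum_eq_zero
      intro x hx
      have hxj : x ≠ j := (Finset.mem_erase.1 hx).1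
      have hxi : x ≠ i := (Finset.mem_erase.1 (Finset.mem_erase.1 hx).2).1
      exact e3 x hxi hxj
    rw [e4, zero_add] at hw
    obtain ⟨k, hk⟩ := hmore {i, j} (lt_of_le_of_lt Finset.card_le_two (by norm_num))
    simp only [Finset.mem_insert, Finset.mem_singleton, not_or] at hk
    have e5 := hABA k hk.1 hk.2 u
    rw [hu', hw, hw0] at e5
    rw [hAA, hw]
    exact e5

end Pool.Agent.Arch
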