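import Pool.Agent.Arch.J6

/-!
# J7: summary of the algebra for `m < n < 2m`

Either all sign matrices are killed by `ρ`, or there is a spanning family of integral vectors
`(u_p)` with labels `lab p : Option (Fin m)`, at least one label being `none`, such that every lift `h` of
`ρ(elemZ i j 2)` fixes `u_p` whenever `lab p ≠ some i` and `lab p ≠ some j`.

Proof. J1, J5, J6. Take for the family the `v_l` (label `some l`) and a finite spanning family of
`E_none` (label `none`, nonempty because `E_none ≠ 0`), multiplied by common denominators. The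
condition spanning is stated for integral vectors: for every `x : Fin n → ℤ` there are `N > 0` and
integral coefficients `z` with `N • x = Σ_p z_p • u_p`.
-/

namespace Pool.Agent.Arch

open Matrix

private theorem j7_clear {ι : Type} [Fintype ι] (x : ι → ℚ) :
    ∃ (M : ℕ) (z : ι → ℤ), 0 < M ∧ ∀ i, (M : ℚ) * x i = z i := by
  classical
  have h : ∀ i, ∃ t : ℕ, ∏ j, (x j).den = (x i).den * t := fun i =>
    Finset.dvd_prod_of_mem (fun j => (x j).den) (Finset.mem_univ i)
  choose t ht using h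
  refine ⟨∏ j, (x j).den, fun i => (t i : ℤ) * (x i).num,
    Finset.prod_pos fun j _ => (x j).den_pos, fun i => ?_⟩
  rw [ht i]
  have h1 := Rat.mul_den_eq_num (x i)
  push_cast
  calc ((x i).den : ℚ) * t i * x i = t i * (x i * (x i).den) := by ring
    _ = t i * (x i).num := by rw [h1]

private theorem j7_fix {n : ℕ} {P0 : Ar n} {h : Cn P0} {x : Fin n → ℚ} {u : Fin n → ℤ} {M : ℕ}
    (hu : ∀ j, (M : ℚ) * x j = u j) (hx : (toQ h) *ᵥ x = x) :
    (h : GL (Fin n) ℤ).1 *ᵥ u = u := by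
  have h1 : ((Int.castRingHom ℚ) ∘ u) = (M : ℚ) • x := by
    funext j
    exact (hu j).symm
  funext j
  have h2 := RingHom.map_mulVec (Int.castRingHom ℚ) (h : GL (Fin n) ℤ).1 u j
  rw [h1, mulVec_smul] at h2
  have h3 : (h : GL (Fin n) ℤ).1.map (Int.castRingHom ℚ) *ᵥ x = x := hx
  rw [h3, ← h1] at h2
  have h4 : (((h : GL (Fin n) ℤ).1 *ᵥ u) j : ℚ) = (u j : ℚ) := h2
  exact_mod_cast h4

/-- a spanning family of rational vectors gives a spanning family of integral vectors -/
private theorem j7_span {n N : ℕ} {x : Fin N → (Fin n → ℚ)} {u : Fin N → (Fin n → ℤ)}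
    {D : Fin N → ℕ} (hD : ∀ p, 0 < D p) (hu : ∀ p j, (D p : ℚ) * x p j = u p j)
    (hsp : Submodule.span ℚ (Set.range x) = ⊤) (y : Fin n → ℤ) :
    ∃ (M : ℕ) (z : Fin N → ℤ), 0 < M ∧ (M : ℤ) • y = ∑ p, z p • u p := by
  have h1 : (fun j => (y j : ℚ)) ∈ Submodule.span ℚ (Set.range x) := by
    rw [hsp]
    trivial
  obtain ⟨q, hq⟩ := (Submodule.mem_span_range_iff_exists_fun ℚ).1 h1
  obtain ⟨M, z, hM, hz⟩ := j7_clear fun p => q p / D p
  refine ⟨M, z, hM, ?_⟩
  funext j
  have h2 := congrFun hq j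
  rw [Finset.sum_apply] at h2
  have h3 : (((M : ℤ) • y) j : ℚ) = ((∑ p, z p • u p) j : ℤ) := by
    rw [Finset.sum_apply]
    push_cast [Pi.smul_apply, smul_eq_mul]
    rw [← h2, Finset.mul_sum]
    refine Finset.sum_congr rfl fun p _ => ?_
    have hDp : (D p : ℚ) ≠ 0 := by exact_mod_cast (hD p).ne'
    rw [← hz p, ← hu p j, Pi.smul_apply, smul_eq_mul]
    field_simp
  exact_mod_cast h3

private theorem j7_eig_smul {m n : ℕ} {B : Fin m → Fin m → Matrix (Fin n) (Fin n) ℚ}
    {ε : Fin m → Bool} {v : Fin n → ℚ} (c : ℚ) (h : IsEig B ε v) : IsEig B ε (c • v) := by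
  intro i j
  rw [mulVec_smul, h i j]
  split_ifs <;> simp

private theorem j7_eig_add {m n : ℕ} {B : Fin m → Fin m → Matrix (Fin n) (Fin n) ℚ}
    {ε : Fin m → Bool} {u v : Fin n → ℚ} (hu : IsEig B ε u) (hv : IsEig B ε v) :
    IsEig B ε (u + v) := by
  intro i j
  rw [mulVec_add, hu i j, hv i j]
  split_ifs
  · rfl
  · rw [neg_add]

private theorem j7_eig_zero {m n : ℕ} {B : Fin m → Fin m → Matrix (Fin n) (Fin n) ℚ}
    {ε : Fin m → Bool} : IsEig B ε (0 : Fin n → ℚ) := by
  intro i j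
  rw [mulVec_zero]
  split_ifs
  · rfl
  · rw [neg_zero]

/-- the eigenspace as a subspace -/
private def j7_E {m n : ℕ} (B : Fin m → Fin m → Matrix (Fin n) (Fin n) ℚ) (ε : Fin m → Bool) :
    Submodule ℚ (Fin n → ℚ) where
  carrier := {u | IsEig B ε u}
  zero_mem' := j7_eig_zero
  add_mem' hu hv := j7_eig_add hu hv
  smul_mem' c _ hu := j7_eig_smul c hu

theorem algebra_up {m n : ℕ} (hm : 6 ≤ m) (hmn : m < n) (hn2 : n < 2 * m) (hn6 : m = 6 → n ≤ 9)
    (P0 : Ar n) (ρ : SLZ m →* (Cn P0 ⧸ Sn P0)) :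
    (∀ i j, ρ (dZ i j) = 1) ∨
    ∃ (N : ℕ) (u : Fin N → (Fin n → ℤ)) (lab : Fin N → Option (Fin m)),
      (∀ p, u p ≠ 0) ∧ (∃ p, lab p = none) ∧
      (∀ x : Fin n → ℤ, ∃ (M : ℕ) (z : Fin N → ℤ), 0 < M ∧ (M : ℤ) • x = ∑ p, z p • u p) ∧
      (∀ (i j : Fin m) (hij : i ≠ j) (h : Cn P0),
        (QuotientGroup.mk h : Cn P0 ⧸ Sn P0) = ρ (elemZ i j hij 2) →
        ∀ p, lab p ≠ some i → lab p ≠ some j → (h : GL (Fin n) ℤ).1 *ᵥ (u p) = u p) := by
  have hn1 : 1 ≤ n := by omega
  obtain ⟨b, hlift, hsq, hmul, hcomm, -, hconj, -⟩ := exists_lifts (by omega) (Sn P0)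
    (fun s hs g => Sn_central P0 s hs g) (fun s hs h => Sn_torsion hn1 P0 s hs h) ρ
  by_cases hall : ∀ p q, b p q = 1
  · left
    intro i j
    rw [← hlift i j, hall i j]
    rfl
  right
  push Not at hall
  obtain ⟨p, q, hne⟩ := hall
  obtain ⟨v, hv, h1, h2, ⟨u0, hu0, hu0e⟩, hspan⟩ :=
    eig_lines hm hmn hn2 hn6 P0 ρ b hsq hmul hcomm hconj p q hne
  have hS : ∀ s : Cn P0, s ∈ Sn P0 → s = 1 := fun s hs =>
    stab_trivial hn1 P0 b v hv h1 h2 p s hs
  set B : Fin m → Fin m → Matrix (Fin n) (Fin n) ℚ := fun i j => toQ (b i j) with hB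
  -- a basis of the space of the fixed vectors
  let bs := Module.finBasis ℚ (j7_E B cst)
  have hu0E : u0 ∈ j7_E B cst := hu0e
  have hpos : 0 < Module.finrank ℚ (j7_E B cst) := by
    rw [Module.finrank_pos_iff_exists_ne_zero]
    exact ⟨⟨u0, hu0E⟩, fun h => hu0 (congrArg Subtype.val h)⟩
  set r := Module.finrank ℚ (j7_E B cst) with hr
  let x : Fin (m + r) → (Fin n → ℚ) := fun a =>
    Sum.elim v (fun a => (bs a : Fin n → ℚ)) (finSumFinEquiv.symm a)
  let lab : Fin (m + r) → Option (Fin m) := fun a =>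
    Sum.elim some (fun _ => none) (finSumFinEquiv.symm a)
  have hx0 : ∀ a, x a ≠ 0 := by
    intro a
    change Sum.elim v (fun a => (bs a : Fin n → ℚ)) (finSumFinEquiv.symm a) ≠ 0
    rcases finSumFinEquiv.symm a with l | l
    · exact hv l
    · intro h
      exact bs.ne_zero l (Subtype.ext h)
  choose D u hD hu using fun a => j7_clear (x a)
  have hsp : Submodule.span ℚ (Set.range x) = ⊤ := by
    rw [eq_top_iff, ← hspan, Submodule.span_le]
    rintro y (⟨l, rfl⟩ | hy)
    · refine Submodule.subset_span ⟨finSumFinEquiv (Sum.inl l), ?_⟩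
      change Sum.elim v (fun a => (bs a : Fin n → ℚ))
        (finSumFinEquiv.symm (finSumFinEquiv (Sum.inl l))) = v l
      rw [Equiv.symm_apply_apply]
      rfl
    · have hy' : y ∈ j7_E B cst := hy
      have e := bs.sum_repr ⟨y, hy'⟩
      have e2 := congrArg Subtype.val e
      rw [Submodule.coe_sum] at e2
      change _ = y at e2
      rw [← e2]
      refine Submodule.sum_mem _ fun l _ => ?_
      rw [Submodule.coe_smul]
      refine Submodule.smul_mem _ _ (Submodule.subset_span ⟨finSumFinEquiv (Sum.inr l), ?_⟩)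
      change Sum.elim v (fun a => (bs a : Fin n → ℚ))
        (finSumFinEquiv.symm (finSumFinEquiv (Sum.inr l))) = _
      rw [Equiv.symm_apply_apply]
      rfl
  refine ⟨m + r, u, lab, fun a h => hx0 a ?_, ⟨finSumFinEquiv (Sum.inr ⟨0, hpos⟩), ?_⟩,
    j7_span hD hu hsp, ?_⟩
  · funext j
    have h3 := hu a j
    rw [h] at h3
    have h4 : (D a : ℚ) ≠ 0 := by exact_mod_cast (hD a).ne'
    have h5 : (D a : ℚ) * x a j = 0 := by
      rw [h3]
      simp
    exact (mul_eq_zero.1 h5).resolve_left h4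
  · change Sum.elim some (fun _ => none) (finSumFinEquiv.symm (finSumFinEquiv _)) = none
    rw [Equiv.symm_apply_apply]
    rfl
  · intro i j hij h hh a hai haj
    obtain ⟨f1, f2⟩ := elem_two_fix (by omega) P0 hS ρ b hlift v hv h1 hspan i j hij h hh
    refine j7_fix (hu a) ?_
    change Sum.elim some (fun _ => none) (finSumFinEquiv.symm a) ≠ some i at hai
    change Sum.elim some (fun _ => none) (finSumFinEquiv.symm a) ≠ some j at haj
    change toQ h *ᵥ (Sum.elim v (fun a => (bs a : Fin n → ℚ)) (finSumFinEquiv.symm a)) =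
      Sum.elim v (fun a => (bs a : Fin n → ℚ)) (finSumFinEquiv.symm a)
    generalize finSumFinEquiv.symm a = c at hai haj ⊢
    rcases c with l | l
    · exact f1 l (fun h' => hai (congrArg some h')) (fun h' => haj (congrArg some h'))
    · exact f2 _ (bs l).2

end Pool.Agent.Arch
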