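import Pool.Agent.Arch.I10

/-!
# K1: the equivariant map of a Borel reduction does not have countable range

Proof. Let `R` be countable with `F x ∈ R` for a.e. `x`, and `F x = g • f (cone x)`. So a.e. `x` lies in
the union over `Q ∈ R` of `{x | ERel n (f (cone x)) Q}`. For each `Q`: if there is `x₀` in this set,
then every `x` in it satisfies `ERel n (f (cone x)) (f (cone x₀))`, hence `ERel m (cone x) (cone x₀)`,
and such `x` form a null set (`class_null`, `m ≥ 2`). So the whole space `V m` would be null: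
contradiction.
-/

namespace Pool.Agent.Arch

open MeasureTheory Matrix

theorem final_contra {m n : ℕ} (hm : 2 ≤ m) (f : Ar m → Ar n)
    (hred : ∀ P Q, ERel m P Q ↔ ERel n (f P) (f Q)) (F : V m → Ar n)
    (hF : ∀ᵐ x : V m, ∃ g : GL (Fin n) ℤ, F x = g • f (cone x))
    (R : Set (Ar n)) (hR : R.Countable) (hFR : ∀ᵐ x : V m, F x ∈ R) : False := by
  have key : ∀ Q : Ar n, ∀ᵐ x : V m, ¬ ERel n (f (cone x)) Q := by
    intro Q
    by_cases h : ∃ x₀ : V m, ERel n (f (cone x₀)) Q
    · obtain ⟨x₀, hx₀⟩ := h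
      filter_upwards [class_null hm (cone x₀)] with x hx h1
      exact hx ((hred _ _).2 (erel_trans h1 (erel_symm hx₀)))
    · exact Filter.Eventually.of_forall fun x hx => h ⟨x, hx⟩
  have hall : ∀ᵐ x : V m, ∀ Q ∈ R, ¬ ERel n (f (cone x)) Q :=
    (ae_ball_iff hR).2 fun Q _ => key Q
  obtain ⟨x, ⟨⟨g, hg⟩, hx⟩, hQ⟩ := ((hF.and hFR).and hall).exists
  exact hQ (F x) hx ((erel_iff _ _).2 ⟨g, hg.symm⟩)

end Pool.Agent.Arch
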