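import Pool.Agent.Arch.K1
import Pool.Agent.Arch.J4

/-!
# K2: no Borel reduction downwards

Proof. `n = 0`: `Ar 0` has one point (`P 0 = false`), so a reduction would make all points of `Ar m`
equivalent, contradicting `class_null` (`m ≥ 2`; the conull set of `x` is nonempty, `ERel m` holds
between any two cones). `n ≥ 1`: `exists_equi`; `trivial_const`: if `ρ(dZ i j) = 1` for all `i, j` then
by `rho_elem_two` `ρ(elemZ i j 2) = 1`, so (`h = 1` in `Equi.equiv`) `F (act (elemZ i j 2) x) = F x` a.e.,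
and `erg_const` (with `q = 2`, target `Ar n`, a countably separated space) says that `F` is a.e.
constant: contradiction with K1 (`R` = one point). Here `ρ(dZ i j) = 1` by J4 (`n < m`).
-/

namespace Pool.Agent.Arch

open MeasureTheory Matrix

theorem trivial_const {m n : ℕ} (hm : 6 ≤ m) (f : Ar m → Ar n) (P0 : Ar n) (F : V m → Ar n)
    (ρ : SLZ m →* (Cn P0 ⧸ Sn P0)) (h : Equi f P0 F ρ) (hρ : ∀ i j, ρ (dZ i j) = 1) :
    ∃ Q : Ar n, ∀ᵐ x : V m, F x = Q := by
  refine erg_const m 2 (by omega) (by norm_num) F h.meas ?_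
  intro i j hij
  have h1 : ρ (elemZ i j hij 2) = 1 := rho_elem_two (by omega) ρ hρ i j hij
  have h2 := h.equiv (elemZ i j hij 2) 1 (by rw [h1]; rfl)
  filter_upwards [h2] with x hx
  have h3 : ((2 : ℕ) : ℤ) = 2 := rfl
  rw [h3, hx]
  simp

theorem no_reduction_down {m n : ℕ} (hm : 6 ≤ m) (hnm : n < m) :
    ¬ BorelRed (ERel m) (ERel n) := by
  rintro ⟨f, hf, hred⟩
  rcases Nat.eq_zero_or_pos n with hn | hn
  · subst hn
    have hall : ∀ P Q : Ar 0, P = Q := by
      intro P Q
      apply Subtype.ext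
      funext x
      have hx : x = 0 := Subsingleton.elim _ _
      rw [hx, P.2.zero, Q.2.zero]
    have h1 : ∀ P Q : Ar m, ERel m P Q := by
      intro P Q
      rw [hred, hall (f P) (f Q)]
      exact erel_refl _
    have h2 := class_null (m := m) (by omega) (cone (0 : V m))
    obtain ⟨x, hx⟩ := h2.exists
    exact hx (h1 _ _)
  · obtain ⟨P0, F, ρ, hE⟩ := exists_equi (n := n) hm hn f hf (fun P Q h => (hred P Q).1 h)
    obtain ⟨Q, hQ⟩ := trivial_const hm f P0 F ρ hE
      (fun i j => rho_d_trivial (by omega) hn hnm P0 ρ i j)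
    exact final_contra (by omega) f hred F hE.orbit {Q} (Set.countable_singleton Q)
      (hQ.mono fun x hx => by rw [hx]; rfl)

end Pool.Agent.Arch
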