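import Pool.Agent.Arch.I10

/-!
# K3: scale invariance along a dense subgroup

Proof. Let `s > 0`. For a.e. `x`, `F (s x)` and `F x` are `GL_n(Z)`-equivalent (`cone (s x) = cone x`) of
type `typ P0`, so there is `h ∈ C(P0)`, unique modulo `S(P0)`, with `F (s x) = h • F x`; let `β_s(x)` be
its class in the countable group `L = C(P0)/S(P0)` (fibres measurable up to null sets). From
`F (s g x) = F (g s x)` one gets for each `g`, a.e. `x`: `β_s(g x) = ρ(g) β_s(x) ρ(g)⁻¹`. The set
`{(x, x') | β_s(x) = β_s(x')}` is a.e. invariant under the diagonal action and not null (countably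
many values), so conull (`erg2`): `β_s(x) = β(s)` for a.e. `x`. `β(s s') = β(s) β(s')`:
`F(s s' x) = β(s) F(s' x) = β(s) β(s') F(x)`, so `β` is a homomorphism from the group `R_{>0}` to the
countable group `L`. Its kernel `K` has countable index, so it is uncountable; `log K` is a
subgroup of `R` which is not cyclic, hence dense (`AddSubgroup.dense_or_cyclic`). For `s ∈ K`,
`F (s x) = F x` a.e.
-/

namespace Pool.Agent.Arch

open MeasureTheory Matrix

theorem k3_countable_GL (n : ℕ) : Countable (GL (Fin n) ℤ) := by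
  have : Countable (Matrix (Fin n) (Fin n) ℤ) :=
    inferInstanceAs (Countable (Fin n → Fin n → ℤ))
  exact Function.Injective.countable (f := fun g : GL (Fin n) ℤ => g.1) Units.val_injective

theorem k3_meas_eq {m n : ℕ} (f g : V m → Ar n) (hf : Measurable f) (hg : Measurable g) :
    MeasurableSet {x | f x = g x} := by
  have h : {x | f x = g x} = ⋂ a : Fin n → ℤ, {x | (f x).1 a = (g x).1 a} := by
    ext x
    rw [Set.mem_iInter]
    constructor
    · intro h a
      have h' : f x = g x := h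
      show (f x).1 a = (g x).1 a
      rw [h']
    · intro h
      exact Subtype.ext (funext fun a => h a)
  rw [h]
  refine MeasurableSet.iInter fun a => ?_
  have h1 : Measurable fun x => (f x).1 a :=
    (measurable_pi_apply a).comp (measurable_subtype_coe.comp hf)
  have h2 : Measurable fun x => (g x).1 a :=
    (measurable_pi_apply a).comp (measurable_subtype_coe.comp hg)
  exact measurableSet_eq_fun h1 h2

theorem k3_ae_smul {m : ℕ} {s : ℝ} (hs : 0 < s) {Q : V m → Prop} (h : ∀ᵐ x : V m, Q x) :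
    ∀ᵐ x : V m, Q (s • x) :=
  (Measure.quasiMeasurePreserving_smul (volume : Measure (V m)) hs.ne').ae h

theorem k3_const {m n : ℕ} (hm : 6 ≤ m) (f : Ar m → Ar n) (P0 : Ar n) (F : V m → Ar n)
    (ρ : SLZ m →* (Cn P0 ⧸ Sn P0)) (h : Equi f P0 F ρ) (s : ℝ) (hs : 0 < s) :
    ∃ l : Cn P0 ⧸ Sn P0, ∀ᵐ x : V m, F (s • x) = ((Quotient.out l : Cn P0) : GL (Fin n) ℤ) • F x := by
  classical
  have := k3_countable_GL n
  have : Countable (Cn P0 ⧸ Sn P0) := Quotient.countable
  let r : (Cn P0 ⧸ Sn P0) → Cn P0 := fun l => Quotient.out l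
  have hr : ∀ l, (QuotientGroup.mk (r l) : Cn P0 ⧸ Sn P0) = l := fun l => QuotientGroup.out_eq' l
  let A : (Cn P0 ⧸ Sn P0) → Set (V m) := fun l => {x | F (s • x) = (r l : GL (Fin n) ℤ) • F x}
  have hAm : ∀ l, MeasurableSet (A l) := fun l =>
    k3_meas_eq _ _ (h.meas.comp (measurable_const_smul s)) ((measurable_smul_Ar _).comp h.meas)
  have hcov : ∀ᵐ x : V m, ∃ l, x ∈ A l := by
    filter_upwards [h.typ_eq, k3_ae_smul hs h.typ_eq, h.orbit, k3_ae_smul hs h.orbit]
      with x h1 h2 ⟨g, h3⟩ ⟨g', h4⟩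
    rw [cone_smul s hs x] at h4
    have h5 : F (s • x) = (g' * g⁻¹) • F x := by
      rw [h3, h4, smul_smul, inv_mul_cancel_right]
    have h6 : g' * g⁻¹ ∈ Cn P0 := by
      rw [← mem_Cn_iff h1, ← h5, h2]
    refine ⟨QuotientGroup.mk (⟨g' * g⁻¹, h6⟩ : Cn P0), ?_⟩
    show F (s • x) = (r _ : GL (Fin n) ℤ) • F x
    rw [h5]
    have := (smul_eq_smul_iff h1 (⟨g' * g⁻¹, h6⟩ : Cn P0)
      (r (QuotientGroup.mk (⟨g' * g⁻¹, h6⟩ : Cn P0)))).2 (hr _).symm
    exact this
  have hact : ∀ γ : SLZ m, ∀ᵐ x : V m, ∀ l, (act γ x ∈ A (ρ γ * l * (ρ γ)⁻¹) ↔ x ∈ A l) := by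
    intro γ
    obtain ⟨c, hc⟩ := QuotientGroup.mk_surjective (ρ γ)
    filter_upwards [h.typ_eq, h.equiv γ c hc, k3_ae_smul hs (h.equiv γ c hc)] with x h1 h2 h3 l
    show (F (s • act γ x) = (r (ρ γ * l * (ρ γ)⁻¹) : GL (Fin n) ℤ) • F (act γ x)) ↔
      (F (s • x) = (r l : GL (Fin n) ℤ) • F x)
    rw [← act_smul, h3, h2]
    have h4 : ((c⁻¹ * r (ρ γ * l * (ρ γ)⁻¹) * c : Cn P0) : GL (Fin n) ℤ) • F x =
        (r l : GL (Fin n) ℤ) • F x := by
      rw [smul_eq_smul_iff h1, QuotientGroup.mk_mul, QuotientGroup.mk_mul, QuotientGroup.mk_inv,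
        hr, hr, hc]
      group
    rw [← h4, Subgroup.coe_mul, Subgroup.coe_mul, Subgroup.coe_inv, mul_smul, mul_smul,
      eq_inv_smul_iff]
  have hE : (∀ᵐ p : V m × V m, p ∈ {p : V m × V m | ∃ l, p.1 ∈ A l ∧ p.2 ∈ A l}) ∨
      (∀ᵐ p : V m × V m, p ∉ {p : V m × V m | ∃ l, p.1 ∈ A l ∧ p.2 ∈ A l}) := by
    refine erg2 m 1 (by omega) one_pos _ ?_ ?_
    · have : {p : V m × V m | ∃ l, p.1 ∈ A l ∧ p.2 ∈ A l} = ⋃ l, (A l) ×ˢ (A l) := by
        ext p; simp
      rw [this]
      exact MeasurableSet.iUnion fun l => (hAm l).prod (hAm l)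
    · intro i j hij
      have e := hact (elemZ i j hij ((1 : ℕ) : ℤ))
      have e1 : ∀ᵐ p : V m × V m, ∀ l, (act (elemZ i j hij ((1 : ℕ) : ℤ)) p.1 ∈
          A (ρ (elemZ i j hij ((1 : ℕ) : ℤ)) * l * (ρ (elemZ i j hij ((1 : ℕ) : ℤ)))⁻¹) ↔
          p.1 ∈ A l) := Measure.quasiMeasurePreserving_fst.ae e
      have e2 : ∀ᵐ p : V m × V m, ∀ l, (act (elemZ i j hij ((1 : ℕ) : ℤ)) p.2 ∈
          A (ρ (elemZ i j hij ((1 : ℕ) : ℤ)) * l * (ρ (elemZ i j hij ((1 : ℕ) : ℤ)))⁻¹) ↔
          p.2 ∈ A l) := Measure.quasiMeasurePreserving_snd.ae e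
      filter_upwards [e1, e2] with p h1 h2
      set c := ρ (elemZ i j hij ((1 : ℕ) : ℤ)) with hc
      constructor
      · rintro ⟨l, hl1, hl2⟩
        have hl : l = c * (c⁻¹ * l * c) * c⁻¹ := by group
        rw [hl] at hl1 hl2
        exact ⟨c⁻¹ * l * c, (h1 _).1 hl1, (h2 _).1 hl2⟩
      · rintro ⟨l, hl1, hl2⟩
        exact ⟨c * l * c⁻¹, (h1 _).2 hl1, (h2 _).2 hl2⟩
  rcases hE with hE | hE
  · have h1 := Measure.ae_ae_of_ae_prod hE
    obtain ⟨x, hx1, hx2, l0, hx3⟩ := (h1.and (h.typ_eq.and hcov)).exists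
    refine ⟨l0, ?_⟩
    filter_upwards [hx1] with x' hx'
    obtain ⟨l', hl1, hl2⟩ := hx'
    have : l' = l0 := by
      have e1 : F (s • x) = (r l' : GL (Fin n) ℤ) • F x := hl1
      have e2 : F (s • x) = (r l0 : GL (Fin n) ℤ) • F x := hx3
      have e3 := (smul_eq_smul_iff hx2 (r l') (r l0)).1 (by rw [← e1, ← e2])
      rwa [hr, hr] at e3
    rw [this] at hl2
    exact hl2
  · exfalso
    have h1 := Measure.ae_ae_of_ae_prod hE
    have h2 : ∀ᵐ x : V m, ∀ l, (∀ᵐ x' : V m, x' ∉ A l) → x ∉ A l := by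
      rw [ae_all_iff]
      intro l
      by_cases hl : ∀ᵐ x' : V m, x' ∉ A l
      · filter_upwards [hl] with x hx _ using hx
      · exact Filter.Eventually.of_forall fun x h => absurd h hl
    obtain ⟨x, hx1, hx2, l, hx3⟩ := (h1.and (h2.and hcov)).exists
    refine hx2 l ?_ hx3
    filter_upwards [hx1] with x' hx' hx''
    exact hx' ⟨l, hx3, hx''⟩

theorem scale_kernel {m n : ℕ} (hm : 6 ≤ m) (f : Ar m → Ar n) (P0 : Ar n) (F : V m → Ar n)
    (ρ : SLZ m →* (Cn P0 ⧸ Sn P0)) (h : Equi f P0 F ρ) :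
    ∃ K : Set ℝ, (∀ s ∈ K, 0 < s) ∧ (∀ a b : ℝ, 0 < a → a < b → ∃ s ∈ K, a < s ∧ s < b) ∧
      ∀ s ∈ K, ∀ᵐ x : V m, F (s • x) = F x := by
  classical
  have := k3_countable_GL n
  have : Countable (Cn P0 ⧸ Sn P0) := Quotient.countable
  let H : AddSubgroup ℝ :=
    { carrier := {t | ∀ᵐ x : V m, F (Real.exp t • x) = F x}
      add_mem' := by
        intro a b ha hb
        have ha' : ∀ᵐ x : V m, F (Real.exp a • Real.exp b • x) = F (Real.exp b • x) :=
          k3_ae_smul (Real.exp_pos b) (m := m) ha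
        have hb' : ∀ᵐ x : V m, F (Real.exp b • x) = F x := hb
        show ∀ᵐ x : V m, F (Real.exp (a + b) • x) = F x
        filter_upwards [ha', hb'] with x h1 h2
        rw [Real.exp_add, mul_smul, h1, h2]
      zero_mem' := by
        show ∀ᵐ x : V m, F (Real.exp 0 • x) = F x
        refine Filter.Eventually.of_forall fun x => ?_
        rw [Real.exp_zero, one_smul]
      neg_mem' := by
        intro a ha
        have ha' : ∀ᵐ x : V m, F (Real.exp a • Real.exp (-a) • x) = F (Real.exp (-a) • x) :=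
          k3_ae_smul (Real.exp_pos (-a)) (m := m) ha
        show ∀ᵐ x : V m, F (Real.exp (-a) • x) = F x
        filter_upwards [ha'] with x h1
        rw [smul_smul, ← Real.exp_add, add_neg_cancel, Real.exp_zero, one_smul] at h1
        exact h1.symm }
  have hH : ∀ t, t ∈ H ↔ ∀ᵐ x : V m, F (Real.exp t • x) = F x := fun t => Iff.rfl
  have hdense : Dense (H : Set ℝ) := by
    rcases AddSubgroup.dense_or_cyclic H with hd | ⟨a, ha⟩
    · exact hd
    · exfalso
      have hHc : (H : Set ℝ).Countable := by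
        rw [ha]
        have : ((AddSubgroup.closure {a} : AddSubgroup ℝ) : Set ℝ) ⊆
            Set.range fun k : ℤ => k • a := by
          intro x hx
          obtain ⟨k, hk⟩ := AddSubgroup.mem_closure_singleton.1 hx
          exact ⟨k, hk⟩
        exact (Set.countable_range _).mono this
      choose β hβ using fun t : ℝ => k3_const hm f P0 F ρ h (Real.exp t) (Real.exp_pos t)
      have hdiff : ∀ t t', β t = β t' → t - t' ∈ H := by
        intro t t' htt
        rw [hH]
        have h1 : ∀ᵐ x : V m, F (Real.exp t • x) = F (Real.exp t' • x) := by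
          filter_upwards [hβ t, hβ t'] with x h1 h2
          rw [h1, h2, htt]
        filter_upwards [k3_ae_smul (Real.exp_pos (-t')) (m := m) h1] with x hx
        rw [smul_smul, smul_smul, ← Real.exp_add, ← Real.exp_add, add_neg_cancel, Real.exp_zero,
          one_smul, ← sub_eq_add_neg] at hx
        exact hx
      have huniv : (Set.univ : Set ℝ) ⊆ ⋃ l : Set.range β,
          (fun t => Classical.choose l.2 + t) '' (H : Set ℝ) := by
        intro t _
        rw [Set.mem_iUnion]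
        refine ⟨⟨β t, t, rfl⟩, t - Classical.choose (⟨t, rfl⟩ : ∃ y, β y = β t), ?_, by ring⟩
        exact hdiff _ _ (Classical.choose_spec (⟨t, rfl⟩ : ∃ y, β y = β t)).symm
      have hcount : (Set.univ : Set ℝ).Countable :=
        (Set.countable_iUnion fun l => hHc.image _).mono huniv
      exact Cardinal.not_countable_real hcount
  refine ⟨{s | 0 < s ∧ ∀ᵐ x : V m, F (s • x) = F x}, fun s hs => hs.1, ?_, fun s hs => hs.2⟩
  intro a b ha hab
  obtain ⟨t, ht, h1, h2⟩ := hdense.exists_between (Real.log_lt_log ha hab)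
  refine ⟨Real.exp t, ⟨Real.exp_pos t, ht⟩, ?_, ?_⟩
  · rw [← Real.exp_log ha]; exact Real.exp_lt_exp.2 h1
  · rw [← Real.exp_log (ha.trans hab)]; exact Real.exp_lt_exp.2 h2

end Pool.Agent.Arch
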