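import Pool.Agent.Arch.B5

/-!
# K4: functions invariant under the elementary matrices avoiding one index

Let `w : V m → ℝ` be measurable, invariant a.e. under `x_i ↦ x_i + 2 x_j` for all `i ≠ j` different from `l`,
and under the scalings `x ↦ s x` for `s` in a set `K` dense in `(0, ∞)`. Then `w(x) = a` for a.e. `x`
with `x_l > 0` and `w(x) = b` for a.e. `x` with `x_l < 0`.

Proof. (1) `w` depends on `x_l` only: for `i ≠ l`, for a.e. value of the other coordinates the slice
in `x_i` is invariant under the translations by `2 x_j` and `2 x_{j'}` (`j ≠ j'` different from `i`, `l`;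
`m ≥ 4`), which generate a dense subgroup of `R` for a.e. `(x_j, x_{j'})` (B1 with `k = 1`), so every
superlevel set of `w` has null or conull slices (B2 with `k = 1`, transported to `ℝ`), so `w` is a.e.
independent of `x_i`; one index after the other (compare B3; one may work with the sets
`{w < r}`, `r` rational).
So `w(x) = ω(x_l)` a.e. (2) for `s ∈ K`, `ω(s y) = ω(y)` for a.e. `y ∈ R`; in the coordinate `log |y|` on each
half line this is invariance under a dense set of translations, so `ω` is a.e. constant on each half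
line (B2 with `k = 1`; the map `exp` preserves null sets).
-/

namespace Pool.Agent.Arch

open MeasureTheory Matrix

/-- A function on the line which is a.e. invariant under a dense set of translations is
a.e. constant. -/
theorem k4_line_const (u : ℝ → ℝ) (hu : Measurable u) (H : Set ℝ) (hH : Dense H)
    (h : ∀ v ∈ H, ∀ᵐ t : ℝ, u (t + v) = u t) : ∃ a : ℝ, ∀ᵐ t : ℝ, u t = a := by
  have key := Filter.exists_eventuallyEq_const_of_forall_separating (l := ae (volume : Measure ℝ))
    (f := u) MeasurableSet ?_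
  · obtain ⟨a, ha⟩ := key
    exact ⟨a, ha⟩
  · intro U hU
    have hmp := volume_preserving_funUnique (Fin 1) ℝ
    set e := MeasurableEquiv.funUnique (Fin 1) ℝ with he
    have hmp' := hmp.symm
    have h1 : Dense (e ⁻¹' H) := by
      have : e ⁻¹' H = (Homeomorph.funUnique (Fin 1) ℝ) ⁻¹' H := rfl
      rw [this]
      exact hH.preimage (Homeomorph.funUnique (Fin 1) ℝ).isOpenMap
    have h3 : (∀ᵐ x : Fin 1 → ℝ, x ∈ e ⁻¹' (u ⁻¹' U)) ∨
        (∀ᵐ x : Fin 1 → ℝ, x ∉ e ⁻¹' (u ⁻¹' U)) := by
      refine trans_const (k := 1) (e ⁻¹' (u ⁻¹' U)) (e.measurable (hu hU)) _ h1 ?_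
      intro v hv
      have h3 := hmp.quasiMeasurePreserving.ae (h (e v) hv)
      filter_upwards [h3] with x hx
      have : e (x + v) = e x + e v := rfl
      rw [Set.mem_preimage, Set.mem_preimage, Set.mem_preimage, Set.mem_preimage, this, hx]
    rcases h3 with h2 | h2
    · left
      filter_upwards [hmp'.quasiMeasurePreserving.ae h2] with t ht
      simpa using ht
    · right
      filter_upwards [hmp'.quasiMeasurePreserving.ae h2] with t ht
      simpa using ht

theorem k4_act_elemZ_apply {m : ℕ} (i j : Fin m) (hij : i ≠ j) (q : ℤ) (x : V m) :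
    act (elemZ i j hij q) x = Function.update x i (x i + q * x j) := by
  funext a
  simp only [act, elemZ, Matrix.transvection]
  by_cases ha : a = i
  · subst ha
    simp [Matrix.mulVec, dotProduct, Matrix.add_apply, Matrix.one_apply, Matrix.single_apply,
      add_mul, Finset.sum_add_distrib]
  · simp [Matrix.mulVec, dotProduct, Matrix.add_apply, Matrix.one_apply, ha, Ne.symm ha]

/-- Null sets of the line and the exponential map. -/
theorem k4_ae_exp {P : ℝ → Prop} (h : ∀ᵐ y : ℝ, P y) : ∀ᵐ t : ℝ, P (Real.exp t) := by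
  rw [ae_iff] at h ⊢
  have h1 : {t : ℝ | ¬ P (Real.exp t)} ⊆ Real.log '' ({y : ℝ | ¬ P y} ∩ Set.Ioi 0) := by
    intro t ht
    exact ⟨Real.exp t, ⟨ht, Real.exp_pos t⟩, Real.log_exp t⟩
  refine measure_mono_null h1 ?_
  refine addHaar_image_eq_zero_of_differentiableOn_of_addHaar_eq_zero volume ?_
    (measure_mono_null Set.inter_subset_left h)
  intro y hy
  exact (Real.differentiableAt_log (ne_of_gt hy.2)).differentiableWithinAt

theorem k4_ae_of_exp {P : ℝ → Prop} (h : ∀ᵐ t : ℝ, P (Real.exp t)) :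
    ∀ᵐ y : ℝ, 0 < y → P y := by
  rw [ae_iff] at h ⊢
  have h1 : {y : ℝ | ¬ (0 < y → P y)} ⊆ Real.exp '' {t : ℝ | ¬ P (Real.exp t)} := by
    intro y hy
    simp only [Set.mem_ofPred_eq, Classical.not_imp] at hy
    refine ⟨Real.log y, ?_, Real.exp_log hy.1⟩
    simp only [Set.mem_ofPred_eq, Real.exp_log hy.1]
    exact hy.2
  refine measure_mono_null h1 ?_
  exact addHaar_image_eq_zero_of_differentiableOn_of_addHaar_eq_zero volume
    Real.differentiable_exp.differentiableOn h

theorem k4_ae_neg_line {P : ℝ → Prop} (h : ∀ᵐ y : ℝ, P y) : ∀ᵐ y : ℝ, P (-y) :=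
  (Measure.measurePreserving_neg (volume : Measure ℝ)).quasiMeasurePreserving.ae h

/-- A function on the line invariant under a dense set of positive scalings is a.e. constant on
each half line. -/
theorem k4_half_const (ω : ℝ → ℝ) (hω : Measurable ω) (K : Set ℝ) (hK : ∀ s ∈ K, 0 < s)
    (hKd : ∀ a b : ℝ, 0 < a → a < b → ∃ s ∈ K, a < s ∧ s < b)
    (hs : ∀ s ∈ K, ∀ᵐ y : ℝ, ω (s * y) = ω y) : ∃ a : ℝ, ∀ᵐ y : ℝ, 0 < y → ω y = a := by
  have hd : Dense (Real.log '' K) := by
    refine dense_of_exists_between ?_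
    intro a b hab
    obtain ⟨s, hs, h1, h2⟩ := hKd (Real.exp a) (Real.exp b) (Real.exp_pos a)
      (Real.exp_lt_exp.2 hab)
    refine ⟨Real.log s, ⟨s, hs, rfl⟩, ?_, ?_⟩
    · rwa [Real.lt_log_iff_exp_lt (hK s hs)]
    · rwa [Real.log_lt_iff_lt_exp (hK s hs)]
  have hi : ∀ v ∈ Real.log '' K, ∀ᵐ t : ℝ, ω (Real.exp (t + v)) = ω (Real.exp t) := by
    rintro _ ⟨s, hsK, rfl⟩
    filter_upwards [k4_ae_exp (hs s hsK)] with t ht
    rw [Real.exp_add, Real.exp_log (hK s hsK), mul_comm]
    exact ht
  obtain ⟨a, ha⟩ := k4_line_const (fun t => ω (Real.exp t)) (hω.comp Real.measurable_exp) _ hd hi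
  exact ⟨a, k4_ae_of_exp ha⟩

theorem k4_act_insertNth {m : ℕ} (l : Fin (m + 1)) (i j : Fin m) (hij : i ≠ j)
    (h : l.succAbove i ≠ l.succAbove j) (y : ℝ) (z : V m) :
    act (elemZ (l.succAbove i) (l.succAbove j) h 2) (l.insertNth y z : V (m + 1)) =
      l.insertNth y (act (elemZ i j hij 2) z) := by
  rw [k4_act_elemZ_apply, k4_act_elemZ_apply]
  rw [Fin.insertNth_apply_succAbove, Fin.insertNth_apply_succAbove]
  rw [Fin.insertNth_update]

theorem two_values {m : ℕ} (hm : 4 ≤ m) (w : V m → ℝ) (hw : Measurable w) (l : Fin m)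
    (hinv : ∀ (i j : Fin m) (hij : i ≠ j), i ≠ l → j ≠ l →
      ∀ᵐ x : V m, w (act (elemZ i j hij 2) x) = w x)
    (K : Set ℝ) (hK : ∀ s ∈ K, 0 < s)
    (hKd : ∀ a b : ℝ, 0 < a → a < b → ∃ s ∈ K, a < s ∧ s < b)
    (hs : ∀ s ∈ K, ∀ᵐ x : V m, w (s • x) = w x) :
    ∃ a b : ℝ, ∀ᵐ x : V m, w x = if 0 < x l then a else b := by
  obtain ⟨m, rfl⟩ : ∃ p, m = p + 1 := ⟨m - 1, by omega⟩
  have hmp := volume_preserving_piFinSuccAbove (fun _ : Fin (m + 1) => ℝ) l
  set e := MeasurableEquiv.piFinSuccAbove (fun _ : Fin (m + 1) => ℝ) l with he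
  have hmp' : MeasurePreserving e.symm := hmp.symm
  have hesymm : ∀ p : ℝ × V m, e.symm p = l.insertNth p.1 p.2 := fun p => rfl
  -- the function in the new coordinates
  set W : ℝ × V m → ℝ := fun p => w (e.symm p) with hW
  have hWm : Measurable W := hw.comp e.symm.measurable
  -- transport of almost everywhere statements
  have tr : ∀ {P : V (m + 1) → Prop}, (∀ᵐ x, P x) → ∀ᵐ p : ℝ × V m, P (e.symm p) :=
    fun h => hmp'.quasiMeasurePreserving.ae h
  -- slices are a.e. constant
  have h1 : ∀ᵐ y : ℝ, ∃ c : ℝ, ∀ᵐ z : V m, W (y, z) = c := by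
    have h2 : ∀ᵐ y : ℝ, ∀ i j : Fin m, ∀ hij : i ≠ j,
        ∀ᵐ z : V m, W (y, act (elemZ i j hij 2) z) = W (y, z) := by
      rw [ae_all_iff]; intro i
      rw [ae_all_iff]; intro j
      by_cases hij : i = j
      · exact Filter.Eventually.of_forall fun y h => absurd hij h
      · have hne : l.succAbove i ≠ l.succAbove j :=
          fun h => hij (Fin.succAbove_right_injective h)
        have h3 := tr (hinv (l.succAbove i) (l.succAbove j) hne
          (Fin.succAbove_ne l i) (Fin.succAbove_ne l j))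
        have h4 := Measure.ae_ae_of_ae_prod h3
        filter_upwards [h4] with y hy _
        filter_upwards [hy] with z hz
        rw [hesymm, k4_act_insertNth l i j hij hne] at hz
        exact hz
    filter_upwards [h2] with y hy
    exact erg_const m 2 (by omega) (by norm_num) (fun z => W (y, z))
      (hWm.comp measurable_prodMk_left) (fun i j hij => by exact_mod_cast hy i j hij)
  -- a common section
  obtain ⟨z0, hz0⟩ : ∃ z0 : V m, ∀ᵐ p : ℝ × V m, W p = W (p.1, z0) := by
    have h2 : ∀ᵐ y : ℝ, ∀ᵐ z' : V m, ∀ᵐ z : V m, W (y, z) = W (y, z') := by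
      filter_upwards [h1] with y hy
      obtain ⟨c, hc⟩ := hy
      filter_upwards [hc] with z' hz'
      filter_upwards [hc] with z hz
      rw [hz, hz']
    have hms : MeasurableSet {q : (ℝ × V m) × V m | ¬ (W (q.1.1, q.2) = W q.1)} :=
      (measurableSet_eq_fun (hWm.comp ((measurable_fst.comp measurable_fst).prodMk
        measurable_snd)) (hWm.comp measurable_fst)).compl
    have hms2 : MeasurableSet {p : ℝ × V m | ∀ᵐ z : V m, W (p.1, z) = W (p.1, p.2)} := by
      have h3 := measurable_measure_prodMk_left (ν := (volume : Measure (V m))) hms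
      exact h3 (measurableSet_singleton 0)
    have h3 := (Measure.ae_ae_comm (μ := (volume : Measure ℝ)) (ν := (volume : Measure (V m)))
      (p := fun y z' => ∀ᵐ z : V m, W (y, z) = W (y, z')) hms2).1 h2
    obtain ⟨z0, hz0⟩ := h3.exists
    refine ⟨z0, ?_⟩
    refine (Measure.ae_prod_iff_ae_ae (measurableSet_eq_fun hWm
      (hWm.comp (measurable_fst.prodMk measurable_const)))).2 ?_
    exact hz0
  set ω : ℝ → ℝ := fun y => W (y, z0) with hω
  have hωm : Measurable ω := hWm.comp (measurable_id.prodMk measurable_const)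
  -- back to `V (m + 1)`
  have hwω : ∀ᵐ x : V (m + 1), w x = ω (x l) := by
    filter_upwards [hmp.quasiMeasurePreserving.ae hz0] with x hx
    have h2 : e.symm (e x) = x := e.symm_apply_apply x
    have h3 : (e x).1 = x l := rfl
    rw [← h3, ← h2]
    rw [h2]
    calc w x = W (e x) := by rw [hW]; simp only; rw [h2]
      _ = _ := hx
  -- invariance of `ω`
  have hωs : ∀ s ∈ K, ∀ᵐ y : ℝ, ω (s * y) = ω y := by
    intro s hsK
    have hspos := hK s hsK
    have h2 : ∀ᵐ x : V (m + 1), w (s • x) = ω (s * x l) := by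
      have h3 : Measure.QuasiMeasurePreserving (fun x : V (m + 1) => s • x) volume volume := by
        refine ⟨measurable_const_smul s, ?_⟩
        rw [Measure.map_addHaar_smul volume (ne_of_gt hspos)]
        exact Measure.smul_absolutelyContinuous
      filter_upwards [h3.ae hwω] with x hx
      rw [hx]
      rfl
    have h4 : ∀ᵐ x : V (m + 1), ω (s * x l) = ω (x l) := by
      filter_upwards [h2, hs s hsK, hwω] with x h5 h6 h7
      rw [← h5, h6, h7]
    have h5 : ∀ᵐ p : ℝ × V m, ω (s * p.1) = ω p.1 := by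
      filter_upwards [tr h4] with p hp
      have h6 : (e.symm p) l = p.1 := by
        rw [hesymm]; exact Fin.insertNth_apply_same (α := fun _ => ℝ) l p.1 p.2
      rw [h6] at hp
      exact hp
    filter_upwards [Measure.ae_ae_of_ae_prod h5] with y hy
    exact hy.exists.choose_spec
  obtain ⟨a, ha⟩ := k4_half_const ω hωm K hK hKd hωs
  obtain ⟨b, hb⟩ := k4_half_const (fun y => ω (-y)) (hωm.comp measurable_neg) K hK hKd (by
    intro s hsK
    filter_upwards [k4_ae_neg_line (hωs s hsK)] with y hy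
    rw [← hy]
    congr 1
    ring)
  refine ⟨a, b, ?_⟩
  have h0 : ∀ᵐ y : ℝ, y ≠ 0 := by
    rw [ae_iff]
    simp
  have h2 : ∀ᵐ y : ℝ, ω y = if 0 < y then a else b := by
    filter_upwards [ha, k4_ae_neg_line hb, h0] with y h3 h4 h5
    by_cases hy : 0 < y
    · rw [if_pos hy, h3 hy]
    · rw [if_neg hy]
      have h6 : y < 0 := lt_of_le_of_ne (not_lt.1 hy) h5
      have := h4 (neg_pos.2 h6)
      simpa using this
  have h3 : ∀ᵐ x : V (m + 1), ω (x l) = if 0 < x l then a else b := by
    have h4 : Measure.QuasiMeasurePreserving (fun x : V (m + 1) => x l) volume volume :=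
      Measure.quasiMeasurePreserving_eval (μ := fun _ : Fin (m + 1) => (volume : Measure ℝ)) l
    exact h4.ae h2
  filter_upwards [hwω, h3] with x h4 h5
  rw [h4, h5]

end Pool.Agent.Arch
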