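import Pool.Agent.Arch.K2
import Pool.Agent.Arch.K3
import Pool.Agent.Arch.K4
import Pool.Agent.Arch.J7

/-!
# K5: no Borel reduction upwards for `m < n < 2m`

Proof. `exists_equi`, then `algebra_up`. If all `ρ(dZ i j) = 1`: `trivial_const` and K1. Otherwise let
`u_p`, `lab p` be as in J7 and `p0` with `lab p0 = none`. Put
`w_p(x) = dotp (u p) (Yv (F x)) / |dotp (u p0) (Yv (F x))|` (measurable; the denominator is not `0` by
`indep_Yv`). For `i ≠ j` with `lab p ≠ some i, some j`: choose a lift `h` of `ρ(elemZ i j 2)`;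
`F (act e x) = h • F x` a.e.; by `dotp_smul_Yv`, `dotp (h u) (Yv (h • P)) = s dotp u (Yv P)`, `s > 0`, and
`h u_p = u_p`, `h u_{p0} = u_{p0}`, so `w_p (act e x) = w_p x`. For `s ∈ K` (K3) `F (s x) = F x`, so
`w_p (s x) = w_p x`. If `lab p = some l`: `two_values`; if `lab p = none`: `two_values` with any `l`
(or `erg_const`). So `w = (w_p)_p` has a.e. finitely many values (at most `2^N`). Finally `w(x)`
determines `F x`: for `y = Yv (F x)` and `a` integral, `M a = Σ z_p u_p`, so
`M dotp a y = |dotp (u p0) y| Σ z_p w_p`, hence `(F x) a = true` iff `0 < Σ z_p w_p`. So `F` has a.e.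
countably many (finitely many) values: K1.
-/

namespace Pool.Agent.Arch

open MeasureTheory Matrix

/-- The normalised values of the pairing. -/
private noncomputable def k5_W {n : ℕ} (u0 u : Fin n → ℤ) (P : Ar n) : ℝ :=
  dotp u (Yv P) / |dotp u0 (Yv P)|

private theorem k5_measurable_dotp {n : ℕ} (u : Fin n → ℤ) :
    Measurable fun P : Ar n => dotp u (Yv P) := by
  unfold dotp
  refine Finset.measurable_sum _ fun i _ => ?_
  exact Measurable.const_mul ((measurable_pi_apply i).comp measurable_Yv) _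

private theorem k5_measurable_W {n : ℕ} (u0 u : Fin n → ℤ) : Measurable (k5_W u0 u : Ar n → ℝ) := by
  unfold k5_W
  have h : Measurable fun P : Ar n => |dotp u0 (Yv P)| :=
    continuous_abs.measurable.comp (k5_measurable_dotp u0)
  exact (k5_measurable_dotp u).div h

private theorem k5_W_smul {n : ℕ} (u0 u : Fin n → ℤ) (g : GL (Fin n) ℤ)
    (h0 : g.1 *ᵥ u0 = u0) (h1 : g.1 *ᵥ u = u) (P : Ar n) :
    k5_W u0 u (g • P) = k5_W u0 u P := by
  obtain ⟨s, hs, hd⟩ := dotp_smul_Yv g P
  have e0 : dotp u0 (Yv (g • P)) = s * dotp u0 (Yv P) := by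
    have := hd u0
    rwa [h0] at this
  have e1 : dotp u (Yv (g • P)) = s * dotp u (Yv P) := by
    have := hd u
    rwa [h1] at this
  unfold k5_W
  rw [e0, e1, abs_mul, abs_of_pos hs]
  exact mul_div_mul_left _ _ hs.ne'

/-- The normalised values determine the cone. -/
private theorem k5_inj {n N : ℕ} (u : Fin N → (Fin n → ℤ)) (p0 : Fin N) (hu0 : u p0 ≠ 0)
    (hspan : ∀ x : Fin n → ℤ, ∃ (M : ℕ) (z : Fin N → ℤ), 0 < M ∧ (M : ℤ) • x = ∑ p, z p • u p) :
    Function.Injective fun (P : Ar n) (p : Fin N) => k5_W (u p0) (u p) P := by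
  intro P Q hPQ
  have hW : ∀ p, k5_W (u p0) (u p) P = k5_W (u p0) (u p) Q := fun p => congrFun hPQ p
  have key : ∀ (R : Ar n) (x : Fin n → ℤ) (M : ℕ) (z : Fin N → ℤ), 0 < M →
      (M : ℤ) • x = ∑ p, z p • u p →
      (R.1 x = true ↔ 0 < ∑ p, (z p : ℝ) * k5_W (u p0) (u p) R) := by
    intro R x M z hM hx
    have hD : 0 < |dotp (u p0) (Yv R)| := abs_pos.2 (indep_Yv R _ hu0)
    have h1 : (M : ℝ) * dotp x (Yv R) = ∑ p, (z p : ℝ) * dotp (u p) (Yv R) := by
      have h2 : dotp ((M : ℤ) • x) (Yv R) = (M : ℝ) * dotp x (Yv R) := by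
        rw [dotp_zsmul]; simp
      rw [← h2, hx]
      have h3 : ∀ s : Finset (Fin N), dotp (∑ p ∈ s, z p • u p) (Yv R) =
          ∑ p ∈ s, (z p : ℝ) * dotp (u p) (Yv R) := by
        classical
        intro s
        induction s using Finset.induction_on with
        | empty => simp [dotp_zero]
        | insert a s ha ih => rw [Finset.sum_insert ha, Finset.sum_insert ha, dotp_add, ih,
            dotp_zsmul]
      exact h3 _
    have h4 : ∑ p, (z p : ℝ) * k5_W (u p0) (u p) R =
        (M : ℝ) * dotp x (Yv R) / |dotp (u p0) (Yv R)| := by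
      rw [h1, Finset.sum_div]
      refine Finset.sum_congr rfl fun p _ => ?_
      rw [k5_W, mul_div_assoc]
    have hM' : (0 : ℝ) < M := by exact_mod_cast hM
    rw [Yv_spec, h4, div_pos_iff_of_pos_right hD, mul_pos_iff_of_pos_left hM']
  apply Subtype.ext
  funext x
  obtain ⟨M, z, hM, hx⟩ := hspan x
  rw [Bool.eq_iff_iff, key P x M z hM hx, key Q x M z hM hx]
  simp only [hW]

theorem no_reduction_up {m n : ℕ} (hm : 6 ≤ m) (hmn : m < n) (hn2 : n < 2 * m)
    (hn6 : m = 6 → n ≤ 9) : ¬ BorelRed (ERel m) (ERel n) := by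
  rintro ⟨f, hf, hred⟩
  obtain ⟨P0, F, ρ, h⟩ := exists_equi hm (by omega) f hf (fun P Q => (hred P Q).1)
  rcases algebra_up hm hmn hn2 hn6 P0 ρ with hρ | ⟨N, u, lab, hu, ⟨p0, hp0⟩, hspan, hfix⟩
  · obtain ⟨Q, hQ⟩ := trivial_const hm f P0 F ρ h hρ
    refine final_contra (by omega) f hred F h.orbit {Q} (Set.countable_singleton Q) ?_
    filter_upwards [hQ] with x hx
    simp [hx]
  · obtain ⟨K, hKpos, hKd, hKs⟩ := scale_kernel hm f P0 F ρ h
    -- every normalised value takes a.e. two values
    have two : ∀ p, ∃ a b : ℝ, ∀ᵐ x : V m,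
        k5_W (u p0) (u p) (F x) = a ∨ k5_W (u p0) (u p) (F x) = b := by
      intro p
      -- the label
      obtain ⟨l, hl⟩ : ∃ l : Fin m, ∀ i j : Fin m, i ≠ l → j ≠ l →
          lab p ≠ some i ∧ lab p ≠ some j := by
        rcases hlab : lab p with _ | l
        · exact ⟨⟨0, by omega⟩, fun i j _ _ => ⟨by simp, by simp⟩⟩
        · refine ⟨l, fun i j hi hj => ⟨?_, ?_⟩⟩
          · intro h1; exact hi (Option.some_injective _ h1).symm
          · intro h1; exact hj (Option.some_injective _ h1).symm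
      obtain ⟨a, b, hab⟩ := two_values (m := m) (by omega)
        (fun x => k5_W (u p0) (u p) (F x)) ((k5_measurable_W _ _).comp h.meas) l
        (by
          intro i j hij hi hj
          obtain ⟨c, hc⟩ := QuotientGroup.mk_surjective (s := Sn P0) (ρ (elemZ i j hij 2))
          have h1 := hfix i j hij c hc
          have hp := h1 p (hl i j hi hj).1 (hl i j hi hj).2
          have hp' := h1 p0 (by rw [hp0]; simp) (by rw [hp0]; simp)
          filter_upwards [h.equiv (elemZ i j hij 2) c hc] with x hx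
          rw [hx]
          exact k5_W_smul _ _ _ hp' hp _)
        K hKpos hKd
        (by
          intro s hs
          filter_upwards [hKs s hs] with x hx
          rw [hx])
      refine ⟨a, b, ?_⟩
      filter_upwards [hab] with x hx
      rw [hx]
      split_ifs
      · exact Or.inl rfl
      · exact Or.inr rfl
    choose a b hab using two
    let T : Set (Fin N → ℝ) := Set.univ.pi fun p => {a p, b p}
    have hT : T.Finite := Set.Finite.pi fun p => (Set.toFinite {a p, b p})
    let R : Set (Ar n) := (fun (P : Ar n) (p : Fin N) => k5_W (u p0) (u p) P) ⁻¹' T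
    have hR : R.Finite := hT.preimage (k5_inj u p0 (hu p0) hspan).injOn
    refine final_contra (by omega) f hred F h.orbit R hR.countable ?_
    filter_upwards [ae_all_iff.2 hab] with x hx
    intro p _
    simpa using hx p

end Pool.Agent.Arch
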