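import Pool.Agent.Arch.S1

/-!
# S2: a Q00-invariant function depends on (X_0, X_1, det X) only

Proof. By S1 and Fubini (joint measurability), for a.e. `Y`: for a.e. `X ∈ M1` with
`det(X_0, X_1, Y) > 0` the equality of S1 holds; the map which changes the sign of the vector `Y_0`
(`k ≥ 1`) preserves the measure and changes the sign of the determinant, so for a.e. `Y` the
same holds for `Y' = (-Y_0, Y_1, ...)`. Fix such a `Y`. Define
`G(x, y, d) = g(x, y, (d/|δ|)^{1/k} Y^{±})`, where `δ = det(x,y,Y)`, `Y^+ = Y` is used when `δ > 0` and `Y^- = Y'`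
when `δ < 0` (any value when `δ = 0`, e.g. the same formula). For a.e. `X`, `det(X_0, X_1, Y) ≠ 0`
(`Y` generic: for a.e. `Y` this holds for a.e. `X`, Fubini: a.e. frame has nonzero determinant).
-/

namespace Pool.Agent.Arch

open MeasureTheory Matrix Filter Topology

theorem s2_meas_mkFr (k : ℕ) :
    Measurable (fun p : V (k + 2) × V (k + 2) × (Fin k → V (k + 2)) =>
      mkFr p.1 p.2.1 p.2.2) := by
  refine measurable_pi_iff.2 fun j => ?_
  refine Fin.cases ?_ (fun j => ?_) j
  · simp only [mkFr, Matrix.cons_val_zero]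
    exact measurable_fst
  · refine Fin.cases ?_ (fun j => ?_) j
    · simp only [mkFr, Matrix.cons_val_succ, Matrix.cons_val_zero]
      exact measurable_snd.fst
    · simp only [mkFr, Matrix.cons_val_succ]
      exact (measurable_pi_apply j).comp measurable_snd.snd

/-- The scaled frame of S1 as a measurable function of all data. -/
theorem s2_meas_scaled (k : ℕ) :
    Measurable (fun p : (V (k + 2) × V (k + 2) × ℝ) × (Fin k → V (k + 2)) =>
      mkFr p.1.1 p.1.2.1 (fun i => (p.1.2.2 / dt (mkFr p.1.1 p.1.2.1 p.2)) ^ ((1 : ℝ) / k) •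
        p.2 i)) := by
  have h1 : Measurable (fun p : (V (k + 2) × V (k + 2) × ℝ) × (Fin k → V (k + 2)) =>
      mkFr p.1.1 p.1.2.1 p.2) :=
    (s2_meas_mkFr k).comp (measurable_fst.fst.prodMk
      (measurable_fst.snd.fst.prodMk measurable_snd))
  have h2 : Measurable (fun p : (V (k + 2) × V (k + 2) × ℝ) × (Fin k → V (k + 2)) =>
      (p.1.2.2 / dt (mkFr p.1.1 p.1.2.1 p.2)) ^ ((1 : ℝ) / k)) :=
    (measurable_fst.snd.snd.div (continuous_dt.measurable.comp h1)).pow_const _
  have h3 : Measurable (fun p : (V (k + 2) × V (k + 2) × ℝ) × (Fin k → V (k + 2)) =>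
      (fun i : Fin k => (p.1.2.2 / dt (mkFr p.1.1 p.1.2.1 p.2)) ^ ((1 : ℝ) / k) • p.2 i)) :=
    measurable_pi_iff.2 fun i => h2.smul ((measurable_pi_apply i).comp measurable_snd)
  exact (s2_meas_mkFr k).comp (measurable_fst.fst.prodMk (measurable_fst.snd.fst.prodMk h3))

/-- For a frame with nonzero determinant, almost every completion of its first two vectors
has nonzero determinant. -/
theorem s2_generic (k : ℕ) (X : Fr (k + 2)) (hX : dt X ≠ 0) :
    ∀ᵐ Y : Fin k → V (k + 2), dt (mkFr (X 0) (X 1) Y) ≠ 0 := by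
  set W : Fin k → V (k + 2) := fun i => X i.succ.succ with hW
  -- for every Y only finitely many t are bad
  have hfin : ∀ Y : Fin k → V (k + 2),
      {t : ℝ | dt (mkFr (X 0) (X 1) (Y + t • W)) = 0}.Finite := by
    intro Y
    set A : Matrix (Fin (k + 2)) (Fin (k + 2)) ℝ := Matrix.of X with hA
    have hAu : IsUnit A.det := by
      rw [isUnit_iff_ne_zero]; exact hX
    set M0 : Matrix (Fin (k + 2)) (Fin (k + 2)) ℝ := Matrix.of (mkFr 0 0 Y) with hM0
    set p := (-(M0 * A⁻¹)).charpoly with hp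
    have hpf : {t : ℝ | p.IsRoot t}.Finite :=
      Polynomial.finite_setOfPred_isRoot (Matrix.charpoly_monic _).ne_zero
    refine (hpf.union (Set.finite_singleton (0 : ℝ))).subset ?_
    intro t ht
    by_cases ht0 : t = 0
    · exact Or.inr ht0
    left
    have hD : Matrix.diagonal (Fin.cons t (Fin.cons t (fun _ => (1 : ℝ))) :
        Fin (k + 2) → ℝ) * Matrix.of (mkFr (X 0) (X 1) (Y + t • W)) = M0 + t • A := by
      ext j l
      rw [Matrix.diagonal_mul]
      refine Fin.cases ?_ (fun j => ?_) j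
      · simp [mkFr, hM0, hA]
      · refine Fin.cases ?_ (fun j => ?_) j
        · simp [mkFr, hM0, hA]
        · simp [mkFr, hM0, hA, hW]
    have h1 : (M0 + t • A).det = 0 := by
      rw [← hD, Matrix.det_mul]
      have : (Matrix.of (mkFr (X 0) (X 1) (Y + t • W))).det = 0 := ht
      rw [this, mul_zero]
    have h2 : M0 + t • A = (Matrix.scalar _ t - -(M0 * A⁻¹)) * A := by
      have e1 : (Matrix.scalar (Fin (k + 2)) t) * A = t • A := by
        rw [Matrix.scalar_apply, ← Matrix.smul_eq_diagonal_mul]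
      rw [sub_neg_eq_add, add_mul, Matrix.mul_assoc, Matrix.nonsing_inv_mul A hAu, Matrix.mul_one,
        e1]
      exact add_comm M0 (t • A)
    rw [h2, Matrix.det_mul] at h1
    have h3 : (Matrix.scalar _ t - -(M0 * A⁻¹)).det = 0 :=
      (mul_eq_zero.1 h1).resolve_right hAu.ne_zero
    show Polynomial.eval t p = 0
    rw [hp, Matrix.eval_charpoly]
    exact h3
  have hmeas : MeasurableSet {q : ℝ × (Fin k → V (k + 2)) |
      dt (mkFr (X 0) (X 1) (q.2 + q.1 • W)) ≠ 0} := by
    have : Measurable (fun q : ℝ × (Fin k → V (k + 2)) =>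
        dt (mkFr (X 0) (X 1) (q.2 + q.1 • W))) := by
      refine continuous_dt.measurable.comp ((s2_meas_mkFr k).comp
        (measurable_const.prodMk (measurable_const.prodMk ?_)))
      exact measurable_snd.add (measurable_fst.smul_const _)
    exact (measurableSet_eq_fun this measurable_const).compl
  have hswap := (Measure.ae_ae_comm (μ := (volume : Measure ℝ))
    (ν := (volume : Measure (Fin k → V (k + 2))))
    (p := fun t Y => dt (mkFr (X 0) (X 1) (Y + t • W)) ≠ 0) hmeas).2
    (Filter.Eventually.of_forall fun Y => by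
      rw [ae_iff]
      simp only [ne_eq, not_not]
      exact (hfin Y).measure_zero _)
  obtain ⟨t, ht⟩ := hswap.exists
  have := (measurePreserving_add_right (volume : Measure (Fin k → V (k + 2)))
    (-(t • W))).quasiMeasurePreserving.ae ht
  filter_upwards [this] with Y hY
  simpa using hY

/-- Change of sign of one vector of a completion. -/
def s2_flip {k : ℕ} (i0 : Fin k) (Y : Fin k → V (k + 2)) : Fin k → V (k + 2) :=
  fun i => if i = i0 then -Y i else Y i

theorem s2_mp_flip {k : ℕ} (i0 : Fin k) :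
    MeasurePreserving (s2_flip i0 : (Fin k → V (k + 2)) → (Fin k → V (k + 2))) := by
  have := volume_preserving_pi (ι := Fin k) (α' := fun _ => V (k + 2))
    (β' := fun _ => V (k + 2)) (f := fun i x => if i = i0 then -x else x) (fun i => by
      by_cases h : i = i0
      · simp only [h, if_true]
        exact Measure.measurePreserving_neg volume
      · simp only [h, if_false]
        exact MeasurePreserving.id volume)
  exact this

theorem s2_dt_flip {k : ℕ} (i0 : Fin k) (x y : V (k + 2)) (Y : Fin k → V (k + 2)) :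
    dt (mkFr x y (s2_flip i0 Y)) = -dt (mkFr x y Y) := by
  have h : Matrix.of (mkFr x y (s2_flip i0 Y)) =
      Matrix.updateRow (Matrix.of (mkFr x y Y)) i0.succ.succ ((-1 : ℝ) • Y i0) := by
    ext j l
    refine Fin.cases ?_ (fun j => ?_) j
    · simp [mkFr, Matrix.updateRow_apply, (Fin.succ_ne_zero _).symm]
    · refine Fin.cases ?_ (fun j => ?_) j
      · rw [Matrix.updateRow_apply, if_neg]
        · simp [mkFr]
        · intro hc
          exact Fin.succ_ne_zero i0 (Fin.succ_injective _ hc).symm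
      · rw [Matrix.updateRow_apply]
        by_cases hj : j = i0
        · subst hj
          simp [mkFr, s2_flip]
        · rw [if_neg (fun hc => hj (Fin.succ_injective _ (Fin.succ_injective _ hc)))]
          simp [mkFr, s2_flip, hj]
  have h' : (Matrix.of (mkFr x y (s2_flip i0 Y))).det = -(Matrix.of (mkFr x y Y)).det := by
    rw [h, Matrix.det_updateRow_smul]
    have : Y i0 = (Matrix.of (mkFr x y Y)) i0.succ.succ := by
      funext l; simp [mkFr]
    rw [this, Matrix.updateRow_eq_self]
    ring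
  exact h'

theorem slicing (k : ℕ) (hk : 1 ≤ k) {Z : Type} [Countable Z] (g : Fr (k + 2) → Z)
    (hg : ∀ z, MeasurableSet {X | g X = z})
    (hinv : ∀ h ∈ Q00 k, ∀ᵐ X ∂(volume.restrict (M1 (k + 2))), g (mix h X) = g X) :
    ∃ G : V (k + 2) × V (k + 2) × ℝ → Z, (∀ z, MeasurableSet {p | G p = z}) ∧
      ∀ᵐ X ∂(volume.restrict (M1 (k + 2))), g X = G (X 0, X 1, dt X) := by
  classical
  have hS1 := slice_fubini k hk g hg hinv
  -- the map (X, Y) ↦ scaled frame
  set F : (V (k + 2) × V (k + 2) × ℝ) × (Fin k → V (k + 2)) → Fr (k + 2) := fun p =>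
      mkFr p.1.1 p.1.2.1 (fun i => (p.1.2.2 / dt (mkFr p.1.1 p.1.2.1 p.2)) ^ ((1 : ℝ) / k) •
        p.2 i) with hF
  have hFm : Measurable F := s2_meas_scaled k
  have hFr : Measurable (fun X : Fr (k + 2) => (X 0, X 1, dt X)) :=
    (measurable_pi_apply 0).prodMk ((measurable_pi_apply 1).prodMk continuous_dt.measurable)
  have hFX : Measurable (fun q : Fr (k + 2) × (Fin k → V (k + 2)) =>
      F ((q.1 0, q.1 1, dt q.1), q.2)) :=
    hFm.comp ((hFr.comp measurable_fst).prodMk measurable_snd)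
  have hpair : Measurable (fun q : Fr (k + 2) × (Fin k → V (k + 2)) => (q.1 0, q.1 1, q.2)) :=
    ((measurable_pi_apply 0).comp measurable_fst).prodMk
      (((measurable_pi_apply 1).comp measurable_fst).prodMk measurable_snd)
  have hdm : Measurable (fun q : Fr (k + 2) × (Fin k → V (k + 2)) =>
      dt (mkFr (q.1 0) (q.1 1) q.2)) :=
    continuous_dt.measurable.comp ((s2_meas_mkFr k).comp hpair)
  have hset1 : MeasurableSet {q : Fr (k + 2) × (Fin k → V (k + 2)) |
      0 < dt (mkFr (q.1 0) (q.1 1) q.2) →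
        g (F ((q.1 0, q.1 1, dt q.1), q.2)) = g q.1} := by
    have e : {q : Fr (k + 2) × (Fin k → V (k + 2)) |
        0 < dt (mkFr (q.1 0) (q.1 1) q.2) →
          g (F ((q.1 0, q.1 1, dt q.1), q.2)) = g q.1} =
        {q | 0 < dt (mkFr (q.1 0) (q.1 1) q.2)}ᶜ ∪
        ⋃ z : Z, ((fun q : Fr (k + 2) × (Fin k → V (k + 2)) =>
          F ((q.1 0, q.1 1, dt q.1), q.2)) ⁻¹' {X | g X = z}) ∩
          (Prod.fst ⁻¹' {X | g X = z}) := by
      ext q
      simp only [Set.mem_setOf_eq, Set.mem_union, Set.mem_compl_iff, Set.mem_iUnion,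
        Set.mem_inter_iff, Set.mem_preimage]
      constructor
      · intro h
        by_cases h0 : 0 < dt (mkFr (q.1 0) (q.1 1) q.2)
        · exact Or.inr ⟨g q.1, h h0, rfl⟩
        · exact Or.inl h0
      · rintro (h | ⟨z, h1, h2⟩) h0
        · exact absurd h0 h
        · rw [h1, h2]
    rw [e]
    refine (measurableSet_lt measurable_const hdm).compl.union (MeasurableSet.iUnion fun z => ?_)
    exact (hFX (hg z)).inter (measurable_fst (hg z))
  have hset2 : MeasurableSet {q : Fr (k + 2) × (Fin k → V (k + 2)) |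
      dt (mkFr (q.1 0) (q.1 1) q.2) ≠ 0} :=
    (measurableSet_eq_fun hdm measurable_const).compl
  have hY1 : ∀ᵐ Y : Fin k → V (k + 2), ∀ᵐ X ∂(volume.restrict (M1 (k + 2))),
      0 < dt (mkFr (X 0) (X 1) Y) → g (F ((X 0, X 1, dt X), Y)) = g X :=
    (Measure.ae_ae_comm (μ := volume.restrict (M1 (k + 2)))
      (ν := (volume : Measure (Fin k → V (k + 2))))
      (p := fun X Y => 0 < dt (mkFr (X 0) (X 1) Y) →
        g (F ((X 0, X 1, dt X), Y)) = g X) hset1).1 hS1
  have hgen : ∀ᵐ X ∂(volume.restrict (M1 (k + 2))), ∀ᵐ Y : Fin k → V (k + 2),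
      dt (mkFr (X 0) (X 1) Y) ≠ 0 := by
    filter_upwards [ae_restrict_mem (measurableSet_M1 (k + 2))] with X hX
    exact s2_generic k X hX.1.ne'
  have hY2 : ∀ᵐ Y : Fin k → V (k + 2), ∀ᵐ X ∂(volume.restrict (M1 (k + 2))),
      dt (mkFr (X 0) (X 1) Y) ≠ 0 :=
    (Measure.ae_ae_comm (μ := volume.restrict (M1 (k + 2)))
      (ν := (volume : Measure (Fin k → V (k + 2))))
      (p := fun X Y => dt (mkFr (X 0) (X 1) Y) ≠ 0) hset2).1 hgen
  set i0 : Fin k := ⟨0, hk⟩ with hi0
  have hY3 : ∀ᵐ Y : Fin k → V (k + 2), ∀ᵐ X ∂(volume.restrict (M1 (k + 2))),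
      0 < dt (mkFr (X 0) (X 1) (s2_flip i0 Y)) →
        g (F ((X 0, X 1, dt X), s2_flip i0 Y)) = g X :=
    (s2_mp_flip i0).quasiMeasurePreserving.ae hY1
  obtain ⟨Y, h1, h2, h3⟩ := (hY1.and (hY2.and hY3)).exists
  have hdY : Measurable (fun p : V (k + 2) × V (k + 2) × ℝ => dt (mkFr p.1 p.2.1 Y)) :=
    continuous_dt.measurable.comp ((s2_meas_mkFr k).comp
      (measurable_fst.prodMk (measurable_snd.fst.prodMk measurable_const)))
  refine ⟨fun p => if 0 < dt (mkFr p.1 p.2.1 Y) then g (F (p, Y)) else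
    g (F (p, s2_flip i0 Y)), fun z => ?_, ?_⟩
  · have e : {p : V (k + 2) × V (k + 2) × ℝ | (if 0 < dt (mkFr p.1 p.2.1 Y) then g (F (p, Y)) else
        g (F (p, s2_flip i0 Y))) = z} =
        ({p | 0 < dt (mkFr p.1 p.2.1 Y)} ∩ (fun p => F (p, Y)) ⁻¹' {X | g X = z}) ∪
        ({p | 0 < dt (mkFr p.1 p.2.1 Y)}ᶜ ∩ (fun p => F (p, s2_flip i0 Y)) ⁻¹'
          {X | g X = z}) := by
      ext p
      by_cases h0 : 0 < dt (mkFr p.1 p.2.1 Y)
      · simp [h0]
      · simp [h0]
    rw [e]
    have hp : MeasurableSet {p : V (k + 2) × V (k + 2) × ℝ | 0 < dt (mkFr p.1 p.2.1 Y)} :=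
      measurableSet_lt measurable_const hdY
    have ha : Measurable (fun p : V (k + 2) × V (k + 2) × ℝ => F (p, Y)) :=
      hFm.comp (measurable_id.prodMk measurable_const)
    have hb : Measurable (fun p : V (k + 2) × V (k + 2) × ℝ => F (p, s2_flip i0 Y)) :=
      hFm.comp (measurable_id.prodMk measurable_const)
    exact (hp.inter (ha (hg z))).union (hp.compl.inter (hb (hg z)))
  · filter_upwards [h1, h2, h3] with X e1 e2 e3
    by_cases h0 : 0 < dt (mkFr (X 0) (X 1) Y)
    · simp only [h0, if_true]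
      exact (e1 h0).symm
    · simp only [h0, if_false]
      refine (e3 ?_).symm
      rw [s2_dt_flip]
      have := lt_of_le_of_ne (not_lt.1 h0) e2
      linarith

end Pool.Agent.Arch
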