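import Pool.Agent.Arch.Basic

/-!
# S3: the map X ↦ (X_0, X_1, det X) and null sets

(a) the preimage of a null set is null; (b) if `N ∩ {0 < d ≤ 1}` is not null then its preimage in
`M1` is not null. Here `k ≥ 1`.

Proof. For fixed `X_0, ..., X_k` (all vectors but the last one, `X_{k+1}`) linearly
independent (a.e.), `X_{k+1} ↦ det X` is a nonzero linear form `ℓ` on `V (k+2)`; the preimage under
`ℓ` of `S ⊆ ℝ` is null iff `S` is null (`LinearMap` surjective: Mathlib
`MeasureTheory.Measure.addHaar` lemmas on surjective linear maps, or complete `ℓ` to coordinates).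
Fubini over the splitting frame = (all vectors but the last) × (last vector)
(`volume_preserving_piFinSuccAbove` with `Fin.last`).
(a) for a.e. `(X_0, X_1)`, `N_{X_0,X_1}` is null, so its preimage under `ℓ` is null.
(b) if `{X ∈ M1 | (X_0, X_1, det X) ∈ N}` is null then for a.e. `(X_0, ..., X_k)` the set
`ℓ⁻¹(N_{X_0,X_1} ∩ (0,1])` is null, so `N_{X_0,X_1} ∩ (0,1]` is null for a.e. `(X_0,X_1)`.
-/

namespace Pool.Agent.Arch

open MeasureTheory Matrix Filter Topology

/-- the frame with last vector `v` -/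
private def s3_sn (k : ℕ) (P : Fin (k + 1) → V (k + 2)) (v : V (k + 2)) : Fr (k + 2) :=
  (Fin.last (k + 1)).insertNth (α := fun _ => V (k + 2)) v P

/-- Fubini: split off the last vector. -/
private theorem s3_fubini (k : ℕ) (S : Set (Fr (k + 2))) (hS : MeasurableSet S) :
    volume S = 0 ↔ ∀ᵐ P : Fin (k + 1) → V (k + 2),
      volume {v : V (k + 2) | s3_sn k P v ∈ S} = 0 := by
  let e := MeasurableEquiv.piFinSuccAbove (fun _ : Fin (k + 2) => V (k + 2)) (Fin.last (k + 1))
  have he : MeasurePreserving e volume volume :=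
    volume_preserving_piFinSuccAbove (fun _ : Fin (k + 2) => V (k + 2)) (Fin.last (k + 1))
  have hes : MeasurePreserving e.symm volume volume := he.symm e
  rw [← hes.measure_preimage_equiv S]
  have hm : MeasurableSet (e.symm ⁻¹' S) := e.symm.measurable hS
  rw [show (volume : Measure (V (k + 2) × (Fin (k + 1) → V (k + 2)))) =
    (volume : Measure (V (k + 2))).prod volume from rfl]
  have hsw : (volume : Measure (V (k + 2))).prod
      (volume : Measure (Fin (k + 1) → V (k + 2))) (e.symm ⁻¹' S) =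
      (volume : Measure (Fin (k + 1) → V (k + 2))).prod
      (volume : Measure (V (k + 2))) (Prod.swap ⁻¹' (e.symm ⁻¹' S)) := by
    rw [← Measure.prod_swap, Measure.map_apply measurable_swap hm]
  rw [hsw, Measure.measure_prod_null (measurable_swap hm)]
  rfl

/-- frames are almost surely independent -/
private theorem s3_det (m : ℕ) : ∀ᵐ X : Fr m, dt X ≠ 0 := by
  have hs : MeasurableSet {X : Fr m | dt X ≠ 0} :=
    (continuous_dt.measurable (measurableSet_singleton 0)).compl
  let L : ℝ →ₗ[ℝ] Fr m := LinearMap.toSpanSingleton ℝ (Fr m) (fun i j => (1 : Matrix _ _ ℝ) i j)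
  have hHaar : (volume : Measure (Fr m)).IsAddHaarMeasure := Measure.pi.isAddHaarMeasure _
  have key := ae_ae_add_linearMap_mem_iff L (volume : Measure ℝ) (volume : Measure (Fr m)) hs
  refine key.1 (Eventually.of_forall fun X => ?_)
  have hfin : {t : ℝ | dt (X + L t) = 0}.Finite := by
    have h1 : ∀ t : ℝ, dt (X + L t) = ((-(Matrix.of X)).charpoly).eval t := by
      intro t
      rw [Matrix.eval_charpoly, dt]
      congr 1
      ext i j
      simp [L, Matrix.scalar, Matrix.one_apply, Matrix.diagonal_apply, add_comm]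
    refine (((-(Matrix.of X)).charpoly).roots.toFinset.finite_toSet).subset fun t ht => ?_
    rw [Set.mem_ofPred_eq, h1] at ht
    rw [Finset.mem_coe, Multiset.mem_toFinset, Polynomial.mem_roots
      (Matrix.charpoly_monic _).ne_zero]
    exact ht
  have h2 := hfin.measure_zero (volume : Measure ℝ)
  rw [ae_iff]
  simpa using h2

/-- the determinant as a linear form in the last vector -/
private noncomputable def s3_lin (k : ℕ) (P : Fin (k + 1) → V (k + 2)) : V (k + 2) →ₗ[ℝ] ℝ :=
  (Matrix.detRowAlternating (R := ℝ) (n := Fin (k + 2))).toMultilinearMap.toLinearMap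
    ((Fin.last (k + 1)).insertNth (α := fun _ => V (k + 2)) 0 P) (Fin.last (k + 1))

private theorem s3_lin_apply (k : ℕ) (P : Fin (k + 1) → V (k + 2)) (v : V (k + 2)) :
    dt (s3_sn k P v) = s3_lin k P v := by
  rw [s3_lin, MultilinearMap.toLinearMap_apply, Fin.update_insertNth]
  rfl

private theorem s3_iff (k : ℕ) (hk : 1 ≤ k) (N : Set (V (k + 2) × V (k + 2) × ℝ))
    (hN : MeasurableSet N) :
    volume {X : Fr (k + 2) | (X 0, X 1, dt X) ∈ N} = 0 ↔ volume N = 0 := by
  have hmeas : Measurable fun X : Fr (k + 2) => (X 0, X 1, dt X) :=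
    (measurable_pi_apply 0).prodMk ((measurable_pi_apply 1).prodMk continuous_dt.measurable)
  have hS : MeasurableSet {X : Fr (k + 2) | (X 0, X 1, dt X) ∈ N} := hmeas hN
  have h01 : (0 : Fin (k + 1)) ≠ 1 := by
    intro h
    have h1 := congrArg Fin.val h
    rw [Fin.val_zero, Fin.val_one', Nat.mod_eq_of_lt (by omega)] at h1
    omega
  have hcs0 : (0 : Fin (k + 2)) = Fin.castSucc (0 : Fin (k + 1)) := rfl
  have hcs1 : (1 : Fin (k + 2)) = Fin.castSucc (1 : Fin (k + 1)) := by
    apply Fin.ext
    rw [Fin.val_castSucc, Fin.val_one', Fin.val_one', Nat.mod_eq_of_lt (by omega),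
      Nat.mod_eq_of_lt (by omega)]
  -- right hand side
  let s : Set (V (k + 2) × V (k + 2)) := {q | volume {t : ℝ | (q.1, q.2, t) ∈ N} = 0}
  have hs : MeasurableSet s := by
    have h1 : MeasurableSet {p : (V (k + 2) × V (k + 2)) × ℝ | (p.1.1, p.1.2, p.2) ∈ N} :=
      (MeasurableEquiv.prodAssoc (α := V (k + 2)) (β := V (k + 2)) (γ := ℝ)).measurable hN
    have h2 := measurable_measure_prodMk_left (ν := (volume : Measure ℝ)) h1
    exact h2 (measurableSet_singleton 0)
  have hR : volume N = 0 ↔ ∀ᵐ q : V (k + 2) × V (k + 2), q ∈ s := by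
    rw [show (volume : Measure (V (k + 2) × V (k + 2))) =
      (volume : Measure (V (k + 2))).prod volume from rfl, Measure.ae_prod_mem_iff_ae_ae_mem hs,
      show (volume : Measure (V (k + 2) × V (k + 2) × ℝ)) =
      (volume : Measure (V (k + 2))).prod volume from rfl, Measure.measure_prod_null hN]
    refine ⟨fun h => ?_, fun h => ?_⟩
    · filter_upwards [h] with x hx
      have h1 : (volume : Measure (V (k + 2) × ℝ)) (Prod.mk x ⁻¹' N) = 0 := hx
      rw [show (volume : Measure (V (k + 2) × ℝ)) =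
        (volume : Measure (V (k + 2))).prod volume from rfl,
        Measure.measure_prod_null (measurable_prodMk_left hN)] at h1
      exact h1
    · filter_upwards [h] with x hx
      change (volume : Measure (V (k + 2) × ℝ)) (Prod.mk x ⁻¹' N) = 0
      rw [show (volume : Measure (V (k + 2) × ℝ)) =
        (volume : Measure (V (k + 2))).prod volume from rfl,
        Measure.measure_prod_null (measurable_prodMk_left hN)]
      exact hx
  let L : (Fin (k + 1) → V (k + 2)) →ₗ[ℝ] V (k + 2) × V (k + 2) :=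
    (LinearMap.proj 0).prod (LinearMap.proj 1)
  have hL : Function.Surjective L := by
    rintro ⟨x, y⟩
    refine ⟨fun j => if j = 0 then x else y, ?_⟩
    simp [L, h01.symm]
  have hHaar : (volume : Measure (V (k + 2) × V (k + 2))).IsAddHaarMeasure :=
    Measure.prod.instIsAddHaarMeasure _ _
  have hHaar2 : (volume : Measure (Fin (k + 1) → V (k + 2))).IsAddHaarMeasure :=
    Measure.pi.isAddHaarMeasure _
  have hR2 := ae_comp_linearMap_mem_iff L (volume : Measure (Fin (k + 1) → V (k + 2)))
    (volume : Measure (V (k + 2) × V (k + 2))) hL hs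
  rw [hR, ← hR2, s3_fubini k _ hS]
  -- almost surely the linear form is onto
  have hdet := s3_det (k + 2)
  rw [ae_iff] at hdet
  have hdm : MeasurableSet {X : Fr (k + 2) | ¬ dt X ≠ 0} := by
    have : {X : Fr (k + 2) | ¬ dt X ≠ 0} = {X | dt X = 0} := by
      ext X
      simp
    rw [this]
    exact continuous_dt.measurable (measurableSet_singleton 0)
  rw [s3_fubini k _ hdm] at hdet
  have hae : ∀ᵐ P : Fin (k + 1) → V (k + 2),
      (volume {v : V (k + 2) | s3_sn k P v ∈
        {X : Fr (k + 2) | (X 0, X 1, dt X) ∈ N}} = 0 ↔ L P ∈ s) := by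
    filter_upwards [hdet] with P hP
    have hsurj : Function.Surjective (s3_lin k P) := by
      refine LinearMap.surjective ?_
      intro h0
      have h1 : {v : V (k + 2) | s3_sn k P v ∈
          {X : Fr (k + 2) | ¬ dt X ≠ 0}} = Set.univ := by
        refine Set.eq_univ_of_forall fun v => ?_
        change ¬ dt (s3_sn k P v) ≠ 0
        rw [s3_lin_apply, h0, LinearMap.zero_apply]
        simp
      have h2 : volume {v : V (k + 2) | s3_sn k P v ∈
          {X : Fr (k + 2) | ¬ dt X ≠ 0}} = 0 := hP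
      rw [h1] at h2
      exact (NeZero.ne (volume : Measure (V (k + 2)))) (Measure.measure_univ_eq_zero.1 h2)
    have hP0 : ∀ v : V (k + 2), s3_sn k P v 0 = P 0 := by
      intro v
      rw [s3_sn, hcs0, Fin.insertNth_last', Fin.snoc_castSucc]
    have hP1 : ∀ v : V (k + 2), s3_sn k P v 1 = P 1 := by
      intro v
      rw [s3_sn, hcs1, Fin.insertNth_last', Fin.snoc_castSucc]
    have hT : MeasurableSet {t : ℝ | (P 0, P 1, t) ∈ N} :=
      (measurable_const.prodMk (measurable_const.prodMk measurable_id)) hN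
    have h3 := ae_comp_linearMap_mem_iff (s3_lin k P) (volume : Measure (V (k + 2)))
      (volume : Measure ℝ) hsurj hT.compl
    rw [ae_iff, ae_iff] at h3
    have h4 : {v : V (k + 2) | s3_sn k P v ∈
        {X : Fr (k + 2) | (X 0, X 1, dt X) ∈ N}} =
        {v | ¬ s3_lin k P v ∈ {t : ℝ | (P 0, P 1, t) ∈ N}ᶜ} := by
      ext v
      change (s3_sn k P v 0, s3_sn k P v 1, dt (s3_sn k P v)) ∈ N ↔
        ¬ ¬ (P 0, P 1, s3_lin k P v) ∈ N
      rw [not_not, s3_lin_apply, hP0, hP1]
    have h5 : {a : ℝ | ¬ a ∈ {t : ℝ | (P 0, P 1, t) ∈ N}ᶜ} = {t : ℝ | (P 0, P 1, t) ∈ N} := by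
      ext t
      change ¬ ¬ (P 0, P 1, t) ∈ N ↔ (P 0, P 1, t) ∈ N
      rw [not_not]
    rw [h5, ← h4] at h3
    exact h3
  exact eventually_congr hae

theorem det_pre_null (k : ℕ) (hk : 1 ≤ k) (N : Set (V (k + 2) × V (k + 2) × ℝ))
    (hN : MeasurableSet N) (h0 : volume N = 0) :
    volume {X : Fr (k + 2) | (X 0, X 1, dt X) ∈ N} = 0 :=
  (s3_iff k hk N hN).2 h0

theorem det_pre_pos (k : ℕ) (hk : 1 ≤ k) (N : Set (V (k + 2) × V (k + 2) × ℝ))
    (hN : MeasurableSet N)
    (h0 : volume {X : Fr (k + 2) | X ∈ M1 (k + 2) ∧ (X 0, X 1, dt X) ∈ N} = 0) :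
    volume {p : V (k + 2) × V (k + 2) × ℝ | p ∈ N ∧ 0 < p.2.2 ∧ p.2.2 ≤ 1} = 0 := by
  have hm : MeasurableSet {p : V (k + 2) × V (k + 2) × ℝ | p ∈ N ∧ 0 < p.2.2 ∧ p.2.2 ≤ 1} :=
    hN.inter ((measurableSet_lt measurable_const measurable_snd.snd).inter
      (measurableSet_le measurable_snd.snd measurable_const))
  rw [← s3_iff k hk _ hm]
  convert h0 using 2
  ext X
  simp only [Set.mem_ofPred_eq, M1]
  tauto

end Pool.Agent.Arch
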