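import Pool.Agent.Arch.B4
import Pool.Agent.Arch.F8
import Pool.Agent.Arch.G3
import Pool.Agent.Arch.S2
import Pool.Agent.Arch.S3

/-!
# P1: the intertwiner for a small rotation

Proof. Let `D`, `κ` be the fundamental domain (C8); F8 with `ε = 1/10` gives for large `J` an
invariant vector, G3 a partial function `g : frames → Option L`, S2 a function `G(x, y, d)` with
`g(X) = G(X_0, X_1, det X)` for a.e. `X ∈ M1`.
(1) For each `γ`: for a.e. `X ∈ M1`, `G(γX_0, γX_1, d) = (G(X_0, X_1, d)).map (c γ y_t · (c γ X_0)⁻¹)`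
(`actT γ` preserves the measure and `M1`, `det` is invariant), so by S3 (b) for a.e. `(x,y,d)` with
`0 < d ≤ 1`: `G(γx, γy, d) = (G(x,y,d)).map (c γ (cos t x + sin t y) · (c γ x)⁻¹)`. Countably many `γ`
at once.
(2) `{(x,y,d) | 0 < d ≤ 1, G ≠ none}` is not null (otherwise by S3 (a) `g = none` a.e. on `M1`).
(3) By Fubini there is `d ∈ (0,1]` such that (1) holds for a.e. `(x,y)` and all `γ` and
`{(x,y) | G(x,y,d) ≠ none}` is not null; this set is a.e. invariant under all `γ`, so conull by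
`erg2`. `Ψ(x,y)` is the value of `G(x,y,d)` (and `1` where it is `none`).
-/

namespace Pool.Agent.Arch

open MeasureTheory Matrix Filter Topology

/-- `Ψ` intertwines the cocycle at `x` with the cocycle at `cos t x + sin t y`. -/
def IsPsi {m : ℕ} {L : Type} [Group L] (c : SLZ m → V m → L) (t : ℝ) (Ψ : V m × V m → L) : Prop :=
  (∀ l, MeasurableSet {p | Ψ p = l}) ∧
  ∀ g : SLZ m, ∀ᵐ p : V m × V m, Ψ (act g p.1, act g p.2) =
    c g (Real.cos t • p.1 + Real.sin t • p.2) * Ψ p * (c g p.1)⁻¹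

private theorem p1_ne {Ω Z : Type} [MeasurableSpace Ω] [Countable Z] {A B : Ω → Z}
    (hA : ∀ z, MeasurableSet {p | A p = z}) (hB : ∀ z, MeasurableSet {p | B p = z}) :
    MeasurableSet {p | A p ≠ B p} := by
  have h : {p | A p ≠ B p} = (⋃ z, {p | A p = z} ∩ {p | B p = z})ᶜ := by
    ext p
    simp only [Set.mem_ofPred_eq, Set.mem_compl_iff, Set.mem_iUnion, Set.mem_inter_iff, not_exists,
      not_and]
    constructor
    · intro h z h1 h2
      exact h (h1.trans h2.symm)
    · intro h h1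
      exact h (A p) rfl h1.symm
  rw [h]
  exact (MeasurableSet.iUnion fun z => (hA z).inter (hB z)).compl

private theorem p1_comp {Ω Z W : Type} [MeasurableSpace Ω] [Countable Z] {A : Ω → Z}
    (hA : ∀ z, MeasurableSet {p | A p = z}) (F : Z → W) (w : W) :
    MeasurableSet {p | F (A p) = w} := by
  have h : {p | F (A p) = w} = ⋃ z, ⋃ _ : F z = w, {p | A p = z} := by
    ext p
    simp only [Set.mem_ofPred_eq, Set.mem_iUnion, exists_prop]
    constructor
    · intro h
      exact ⟨A p, h, rfl⟩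
    · rintro ⟨z, h1, h2⟩
      rw [h2]; exact h1
  rw [h]
  exact MeasurableSet.iUnion fun z => MeasurableSet.iUnion fun _ => hA z

private theorem p1_pair {Ω Z W : Type} [MeasurableSpace Ω] {A : Ω → Z} {B : Ω → W}
    (hA : ∀ z, MeasurableSet {p | A p = z}) (hB : ∀ z, MeasurableSet {p | B p = z}) (z : Z × W) :
    MeasurableSet {p | (A p, B p) = z} := by
  have h : {p | (A p, B p) = z} = {p | A p = z.1} ∩ {p | B p = z.2} := by
    ext p
    simp only [Set.mem_ofPred_eq, Set.mem_inter_iff, Prod.ext_iff]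
  rw [h]
  exact (hA _).inter (hB _)

private theorem p1_pre {Ω Ω' Z : Type} [MeasurableSpace Ω] [MeasurableSpace Ω'] {A : Ω → Z}
    (hA : ∀ z, MeasurableSet {p | A p = z}) {f : Ω' → Ω} (hf : Measurable f) (z : Z) :
    MeasurableSet {p | A (f p) = z} :=
  hf (hA z)

private theorem p1_countable (m : ℕ) : Countable (SLZ m) := by
  have : Countable (Matrix (Fin m) (Fin m) ℤ) :=
    inferInstanceAs (Countable (Fin m → Fin m → ℤ))
  exact Subtype.countable

/-- The reordering `ℝ × (V × V) → V × V × ℝ` preserves the volume. -/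
private theorem p1_reorder (m : ℕ) :
    MeasurePreserving (fun q : ℝ × (V m × V m) => (q.2.1, q.2.2, q.1))
      (volume : Measure (ℝ × (V m × V m))) (volume : Measure (V m × V m × ℝ)) := by
  have h1 : MeasurePreserving (Prod.swap : ℝ × (V m × V m) → (V m × V m) × ℝ)
      (volume : Measure (ℝ × (V m × V m))) (volume : Measure ((V m × V m) × ℝ)) :=
    Measure.measurePreserving_swap
  have h2 : MeasurePreserving (MeasurableEquiv.prodAssoc : (V m × V m) × ℝ ≃ᵐ V m × V m × ℝ) :=
    volume_preserving_prodAssoc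
  exact h2.comp h1

/-- The algebraic heart: from `G` with the relations to `Ψ`. -/
private theorem p1_main {k : ℕ} (hk : 3 ≤ k) {L : Type} [Group L] [Countable L]
    (c : SLZ (k + 2) → V (k + 2) → L) (t : ℝ)
    (G : V (k + 2) × V (k + 2) × ℝ → Option L) (hG : ∀ z, MeasurableSet {p | G p = z})
    (hrel : ∀ γ : SLZ (k + 2), ∀ᵐ p : V (k + 2) × V (k + 2) × ℝ, 0 < p.2.2 ∧ p.2.2 ≤ 1 →
      G (act γ p.1, act γ p.2.1, p.2.2) =
        (G p).map fun l => c γ (Real.cos t • p.1 + Real.sin t • p.2.1) * l * (c γ p.1)⁻¹)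
    (hpos : volume {p : V (k + 2) × V (k + 2) × ℝ | G p ≠ none ∧ 0 < p.2.2 ∧ p.2.2 ≤ 1} ≠ 0) :
    ∃ Ψ : V (k + 2) × V (k + 2) → L, IsPsi c t Ψ := by
  have := p1_countable (k + 2)
  -- all relations at once, in the order `(d, (x, y))`
  have h1 : ∀ᵐ d : ℝ, ∀ᵐ p : V (k + 2) × V (k + 2), ∀ γ : SLZ (k + 2), 0 < d ∧ d ≤ 1 →
      G (act γ p.1, act γ p.2, d) =
        (G (p.1, p.2, d)).map
          fun l => c γ (Real.cos t • p.1 + Real.sin t • p.2) * l * (c γ p.1)⁻¹ := by
    have h2 := (p1_reorder (k + 2)).quasiMeasurePreserving.ae (ae_all_iff.2 hrel)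
    exact Measure.ae_ae_of_ae_prod (μ := (volume : Measure ℝ))
      (ν := (volume : Measure (V (k + 2) × V (k + 2)))) h2
  have hNm : MeasurableSet {p : V (k + 2) × V (k + 2) × ℝ | G p ≠ none ∧ 0 < p.2.2 ∧ p.2.2 ≤ 1} := by
    have e1 : MeasurableSet {p : V (k + 2) × V (k + 2) × ℝ | G p ≠ none} := (hG none).compl
    have e2 : MeasurableSet {p : V (k + 2) × V (k + 2) × ℝ | 0 < p.2.2} :=
      measurableSet_lt measurable_const (measurable_snd.comp measurable_snd)
    have e3 : MeasurableSet {p : V (k + 2) × V (k + 2) × ℝ | p.2.2 ≤ 1} :=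
      measurableSet_le (measurable_snd.comp measurable_snd) measurable_const
    exact e1.inter (e2.inter e3)
  have h3 : ∃ᶠ d in ae (volume : Measure ℝ),
      volume {p : V (k + 2) × V (k + 2) | G (p.1, p.2, d) ≠ none ∧ 0 < d ∧ d ≤ 1} ≠ 0 := by
    intro hcon
    apply hpos
    rw [← (p1_reorder (k + 2)).measure_preimage hNm.nullMeasurableSet]
    refine (Measure.measure_prod_null (μ := (volume : Measure ℝ))
      (ν := (volume : Measure (V (k + 2) × V (k + 2))))
      ((p1_reorder (k + 2)).measurable hNm)).2 ?_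
    filter_upwards [hcon] with d hd
    simpa using hd
  obtain ⟨d, hd, hrd⟩ := (h3.and_eventually h1).exists
  have hd01 : 0 < d ∧ d ≤ 1 := by
    by_contra hcon
    apply hd
    have : {p : V (k + 2) × V (k + 2) | G (p.1, p.2, d) ≠ none ∧ 0 < d ∧ d ≤ 1} = ∅ := by
      ext p
      simp only [Set.mem_ofPred_eq, Set.mem_empty_iff_false, iff_false]
      exact fun h => hcon h.2
    rw [this]
    exact measure_empty
  -- the slice
  have hsec : Measurable fun p : V (k + 2) × V (k + 2) => (p.1, p.2, d) :=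
    measurable_fst.prodMk (measurable_snd.prodMk measurable_const)
  have hGd : ∀ z, MeasurableSet {p : V (k + 2) × V (k + 2) | G (p.1, p.2, d) = z} :=
    fun z => p1_pre hG hsec z
  have herg : (∀ᵐ p : V (k + 2) × V (k + 2), G (p.1, p.2, d) ≠ none) ∨
      (∀ᵐ p : V (k + 2) × V (k + 2), ¬ (G (p.1, p.2, d) ≠ none)) := by
    refine erg2 (k + 2) 1 (by omega) one_pos {p | G (p.1, p.2, d) ≠ none} (hGd none).compl ?_
    intro i j hij
    filter_upwards [hrd] with p hp
    have h := hp (elemZ i j hij ((1 : ℕ) : ℤ)) hd01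
    change (G (act _ p.1, act _ p.2, d) ≠ none ↔ G (p.1, p.2, d) ≠ none)
    rw [h]
    simp
  have hall : ∀ᵐ p : V (k + 2) × V (k + 2), G (p.1, p.2, d) ≠ none := by
    rcases herg with h | h
    · exact h
    · exfalso
      apply hd
      have h' : ∀ᵐ p : V (k + 2) × V (k + 2), ¬ (G (p.1, p.2, d) ≠ none ∧ 0 < d ∧ d ≤ 1) := by
        filter_upwards [h] with p hp h2
        exact hp h2.1
      exact measure_eq_zero_iff_ae_notMem.2 h'
  refine ⟨fun p => (G (p.1, p.2, d)).getD 1, ?_, ?_⟩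
  · intro l
    exact p1_comp hGd (fun o => o.getD 1) l
  · intro γ
    filter_upwards [hrd, hall] with p hp hp2
    have h := hp γ hd01
    obtain ⟨l, hl⟩ := Option.ne_none_iff_exists'.1 hp2
    change (G (act γ p.1, act γ p.2, d)).getD 1 = _ * (G (p.1, p.2, d)).getD 1 * _
    rw [h, hl]
    simp

theorem exists_psi_small {k : ℕ} (hk : 3 ≤ k) {L : Type} [Group L] [Countable L]
    (c : SLZ (k + 2) → V (k + 2) → L) (hc : IsCocycle c) (t : ℕ → ℝ)
    (ht : Tendsto t atTop (𝓝 0)) :
    ∀ᶠ J in atTop, ∃ Ψ : V (k + 2) × V (k + 2) → L, IsPsi c (t J) Ψ := by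
  let _ : MeasurableSpace L := ⊤
  have : DiscreteMeasurableSpace L := ⟨fun _ => trivial⟩
  obtain ⟨D, κ, hD⟩ := exists_fundDom (k + 2) (by omega)
  filter_upwards [exists_inv_vector (L := L) hk hc hD t ht (1 / 10) (by norm_num)] with J hJ
  obtain ⟨η, hη, hη2⟩ := hJ
  obtain ⟨g, hg, hgeq, hginv, hgpos⟩ := exists_partial hc hD (t J) η hη hη2
  obtain ⟨G, hG, hGeq⟩ := slicing k (by omega) g hg hginv
  have hGeq' : ∀ᵐ X : Fr (k + 2), X ∈ M1 (k + 2) → g X = G (X 0, X 1, dt X) :=
    (ae_restrict_iff' (measurableSet_M1 (k + 2))).1 hGeq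
  refine p1_main hk c (t J) G hG ?_ ?_
  · intro γ
    set B : V (k + 2) × V (k + 2) × ℝ → Option L := fun p =>
      (G p).map fun l => c γ (Real.cos (t J) • p.1 + Real.sin (t J) • p.2.1) * l * (c γ p.1)⁻¹
      with hB
    set A : V (k + 2) × V (k + 2) × ℝ → Option L := fun p =>
      G (act γ p.1, act γ p.2.1, p.2.2) with hA
    have hmap : Measurable fun p : V (k + 2) × V (k + 2) × ℝ =>
        (act γ p.1, act γ p.2.1, p.2.2) :=
      ((measurable_act γ).comp measurable_fst).prodMk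
        (((measurable_act γ).comp (measurable_fst.comp measurable_snd)).prodMk
          (measurable_snd.comp measurable_snd))
    have hAm : ∀ z, MeasurableSet {p | A p = z} := fun z => p1_pre hG hmap z
    have hang : Measurable fun p : V (k + 2) × V (k + 2) × ℝ =>
        Real.cos (t J) • p.1 + Real.sin (t J) • p.2.1 := by
      have h : Continuous fun p : V (k + 2) × V (k + 2) × ℝ =>
          Real.cos (t J) • p.1 + Real.sin (t J) • p.2.1 := by fun_prop
      exact h.measurable
    have hBm : ∀ z, MeasurableSet {p | B p = z} := by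
      intro z
      exact p1_comp (p1_pair hG (p1_pair (p1_pre (hc.meas γ) hang)
        (p1_pre (hc.meas γ) measurable_fst)))
        (fun q : Option L × L × L => q.1.map fun l => q.2.1 * l * (q.2.2)⁻¹) z
    have hN : MeasurableSet {p | A p ≠ B p} := p1_ne hAm hBm
    have hnull : volume {X : Fr (k + 2) | X ∈ M1 (k + 2) ∧ (X 0, X 1, dt X) ∈ {p | A p ≠ B p}}
        = 0 := by
      have hq := (mp_actT (p := k + 2) γ).quasiMeasurePreserving.ae hGeq'
      have hae : ∀ᵐ X : Fr (k + 2),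
          ¬ (X ∈ M1 (k + 2) ∧ (X 0, X 1, dt X) ∈ {p | A p ≠ B p}) := by
        filter_upwards [hGeq', hq] with X h1 h2 h3
        have h4 := h1 h3.1
        have h5 := h2 ((actT_mem_M1 γ).2 h3.1)
        apply h3.2
        have h6 := hgeq γ X h3.1
        rw [dt_actT] at h5
        have h7 : A (X 0, X 1, dt X) = g (actT γ X) := h5.symm
        have h8 : B (X 0, X 1, dt X) =
            (g X).map fun l => c γ (ang (t J) X) * l * (c γ (X 0))⁻¹ := by
          rw [h4]; rfl
        rw [h7, h8, h6]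
      exact measure_eq_zero_iff_ae_notMem.2 hae
    have h9 := det_pre_pos k (by omega) _ hN hnull
    have h10 : ∀ᵐ p : V (k + 2) × V (k + 2) × ℝ,
        ¬ (p ∈ {p | A p ≠ B p} ∧ 0 < p.2.2 ∧ p.2.2 ≤ 1) := measure_eq_zero_iff_ae_notMem.1 h9
    filter_upwards [h10] with p hp hp2
    by_contra hne
    exact hp ⟨hne, hp2⟩
  · intro h0
    apply hgpos
    have hNm : MeasurableSet
        {p : V (k + 2) × V (k + 2) × ℝ | G p ≠ none ∧ 0 < p.2.2 ∧ p.2.2 ≤ 1} := by
      have e1 : MeasurableSet {p : V (k + 2) × V (k + 2) × ℝ | G p ≠ none} := (hG none).compl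
      have e2 : MeasurableSet {p : V (k + 2) × V (k + 2) × ℝ | 0 < p.2.2} :=
        measurableSet_lt measurable_const (measurable_snd.comp measurable_snd)
      have e3 : MeasurableSet {p : V (k + 2) × V (k + 2) × ℝ | p.2.2 ≤ 1} :=
        measurableSet_le (measurable_snd.comp measurable_snd) measurable_const
      exact e1.inter (e2.inter e3)
    have h1 := det_pre_null k (by omega) _ hNm h0
    have h2 : ∀ᵐ X : Fr (k + 2), ¬ ((X 0, X 1, dt X) ∈
        {p : V (k + 2) × V (k + 2) × ℝ | G p ≠ none ∧ 0 < p.2.2 ∧ p.2.2 ≤ 1}) :=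
      measure_eq_zero_iff_ae_notMem.1 h1
    have h3 : ∀ᵐ X : Fr (k + 2), ¬ (X ∈ M1 (k + 2) ∧ g X ≠ none) := by
      filter_upwards [h2, hGeq'] with X h4 h5 h6
      apply h4
      refine ⟨?_, h6.1⟩
      rw [← h5 h6.1]
      exact h6.2
    exact measure_eq_zero_iff_ae_notMem.2 h3

end Pool.Agent.Arch
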