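import Pool.Agent.Arch.P1

/-!
# P2: from a small angle to a right angle

Proof. Let `Ψ` be an intertwiner for the angle `t`. Then for every `n` there is one for the angle
`n t`: `Ψ_n(p) = Ψ(rotP ((n-1)t) p) ... Ψ(rotP t p) Ψ(p)`; induction:
`Ψ_{n+1}(p) = Ψ(rotP (n t) p) * Ψ_n(p)`, where `(rotP (n t) p).1 = cos(nt) x + sin(nt) y` and
`cos t (rotP (nt) p).1 + sin t (rotP (nt) p).2 = (rotP ((n+1)t) p).1`; `rotP` commutes with the
action and preserves the measure (A3), so for a.e. p may be applied at `rotP (nt) p`.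
With `t_J = (π/2)/(J+1)` and `n = J + 1`: angle `π/2`, `cos = 0`, `sin = 1`.
-/

namespace Pool.Agent.Arch

open MeasureTheory Matrix Filter Topology

private theorem p2_tendsto (a : ℝ) :
    Tendsto (fun J : ℕ => a / ((J : ℝ) + 1)) atTop (𝓝 0) := by
  have h : Tendsto (fun J : ℕ => (J : ℝ) + 1) atTop atTop :=
    tendsto_atTop_add_const_right _ _ tendsto_natCast_atTop_atTop
  exact h.const_div_atTop a

theorem psi_mul {m : ℕ} {L : Type} [Group L] [Countable L] (c : SLZ m → V m → L) (t : ℝ)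
    (Ψ : V m × V m → L) (h : IsPsi c t Ψ) (n : ℕ) :
    ∃ Ψ' : V m × V m → L, IsPsi c (n * t) Ψ' := by
  induction n with
  | zero =>
    refine ⟨fun _ => 1, fun l => MeasurableSet.const _, fun g => Eventually.of_forall fun p => ?_⟩
    simp
  | succ n ih =>
    obtain ⟨Ψn, hmn, hn⟩ := ih
    obtain ⟨hm, h⟩ := h
    refine ⟨fun p => Ψ (rotP (n * t) p) * Ψn p, fun l => ?_, fun g => ?_⟩
    · have e : {p : V m × V m | Ψ (rotP (n * t) p) * Ψn p = l} =
          ⋃ a : L, (rotP (n * t) ⁻¹' {p | Ψ p = a}) ∩ {p | Ψn p = a⁻¹ * l} := by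
        ext p
        simp only [Set.mem_ofPred_eq, Set.mem_iUnion, Set.mem_inter_iff, Set.mem_preimage]
        constructor
        · intro hp
          exact ⟨_, rfl, by rw [← hp, inv_mul_cancel_left]⟩
        · rintro ⟨a, ha, hb⟩
          rw [ha, hb, mul_inv_cancel_left]
      rw [e]
      exact MeasurableSet.iUnion fun a =>
        ((mp_rotP (n * t)).measurable (hm a)).inter (hmn _)
    · filter_upwards [hn g, (mp_rotP (m := m) (n * t)).quasiMeasurePreserving.ae (h g)] with p h1 h2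
      have e1 : rotP (n * t) (act g p.1, act g p.2) =
          (act g (rotP (n * t) p).1, act g (rotP (n * t) p).2) := rotP_act _ g p
      have e2 : Real.cos t • (rotP (n * t) p).1 + Real.sin t • (rotP (n * t) p).2 =
          Real.cos (((n + 1 : ℕ) : ℝ) * t) • p.1 + Real.sin (((n + 1 : ℕ) : ℝ) * t) • p.2 := by
        have e3 := congrArg Prod.fst (rotP_add t (n * t) p)
        have e4 : t + n * t = ((n + 1 : ℕ) : ℝ) * t := by
          push_cast
          ring
        rw [e4] at e3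
        exact e3.symm
      have e5 : (rotP (n * t) p).1 = Real.cos (n * t) • p.1 + Real.sin (n * t) • p.2 := rfl
      change Ψ (rotP (n * t) (act g p.1, act g p.2)) * Ψn (act g p.1, act g p.2) = _
      rw [e1, h1, h2, e2, e5]
      group

theorem exists_psi {k : ℕ} (hk : 3 ≤ k) {L : Type} [Group L] [Countable L]
    (c : SLZ (k + 2) → V (k + 2) → L) (hc : IsCocycle c) :
    ∃ Ψ : V (k + 2) × V (k + 2) → L, (∀ l, MeasurableSet {p | Ψ p = l}) ∧
      ∀ g : SLZ (k + 2), ∀ᵐ p : V (k + 2) × V (k + 2),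
        Ψ (act g p.1, act g p.2) = c g p.2 * Ψ p * (c g p.1)⁻¹ := by
  have ht : Tendsto (fun J : ℕ => (Real.pi / 2) / ((J : ℝ) + 1)) atTop (𝓝 0) :=
    p2_tendsto (Real.pi / 2)
  obtain ⟨J, Ψ, hΨ⟩ := (exists_psi_small hk c hc _ ht).exists
  obtain ⟨Ψ', hm, h⟩ := psi_mul c _ Ψ hΨ (J + 1)
  have e : ((J + 1 : ℕ) : ℝ) * ((Real.pi / 2) / ((J : ℝ) + 1)) = Real.pi / 2 := by
    have : (J : ℝ) + 1 ≠ 0 := by positivity
    push_cast
    field_simp
  rw [e] at h
  refine ⟨Ψ', hm, fun g => ?_⟩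
  filter_upwards [h g] with p hp
  simpa using hp

end Pool.Agent.Arch
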