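import Pool.Agent.Arch.A2

/-!
# S1: Fubini for the normalised mixing

Write `X = (x, y, Y)` with `x = X_0`, `y = X_1`, `Y_i = X_{i+2}` (`i < k`), `k ≥ 1`. For `Y''` another
`k`-tuple let `d = det(x,y,Y)`, `d'' = det(x,y,Y'')`, and `s = (d/d'')^{1/k}`.

Claim: if `g` has countably many values, measurable fibres and `g(mix h X) = g(X)` for a.e.
`X ∈ M1`, for every `h ∈ Q00`, then for a.e. `X ∈ M1` and a.e. `Y''` with `d'' > 0`:
`g(x, y, s Y'') = g(X)`.

Proof. For a `k × k` matrix `A` with `det A > 0` and a `k × 2` matrix `B` let `h_{A,B}` be the matrix with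
rows `e_0`, `e_1`, `(det A)^{-1/k} (B_i | A_i)`; it is in `Q00` and
`mix h_{A,B} X = (x, y, (det A)^{-1/k} (B(x,y) + A Y))`. By Fubini (the set of `(A, B, X)` where
`g(mix h X) = g(X)` is measurable) for a.e. `X ∈ M1`, for a.e. `(A, B)` with `det A > 0`, equality
holds. For fixed `X ∈ M1` the map `(B | A) ↦ Y'' = B(x,y) + A Y` is right multiplication of a
`k × (k+2)` array by the invertible matrix `X`: it preserves null sets in both directions
(`mp_mul_right`-like; or `LinearMap.quasiMeasurePreserving`), and `det(x,y,Y'') = det A det X`, so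
`(det A)^{-1/k} = (d/d'')^{1/k} = s`.
-/

namespace Pool.Agent.Arch

open MeasureTheory Matrix Filter Topology

/-- The frame with first two vectors `x`, `y` and the others given by `Y`. -/
def mkFr {k : ℕ} (x y : V (k + 2)) (Y : Fin k → V (k + 2)) : Fr (k + 2) :=
  Matrix.vecCons x (Matrix.vecCons y Y)

private theorem s1_mkFr_zero {k : ℕ} (x y : V (k + 2)) (Y : Fin k → V (k + 2)) :
    mkFr x y Y 0 = x := rfl

private theorem s1_mkFr_one {k : ℕ} (x y : V (k + 2)) (Y : Fin k → V (k + 2)) :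
    mkFr x y Y 1 = y := rfl

private theorem s1_mkFr_succ {k : ℕ} (x y : V (k + 2)) (Y : Fin k → V (k + 2)) (i : Fin k) :
    mkFr x y Y i.succ.succ = Y i := rfl

private theorem s1_ext {k : ℕ} {X Y : Fr (k + 2)} (h0 : X 0 = Y 0) (h1 : X 1 = Y 1)
    (h2 : ∀ i : Fin k, X i.succ.succ = Y i.succ.succ) : X = Y := by
  funext j
  refine Fin.cases h0 (fun j => ?_) j
  exact Fin.cases h1 (fun j => h2 j) j

/-- Scaling of the last `k` vectors. -/
private theorem s1_dt_smul {k : ℕ} (x y : V (k + 2)) (Y : Fin k → V (k + 2)) (c : ℝ) :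
    dt (mkFr x y (fun i => c • Y i)) = c ^ k * dt (mkFr x y Y) := by
  have h : Matrix.of (mkFr x y (fun i => c • Y i)) =
      Matrix.of (fun i j => (Matrix.vecCons (1 : ℝ) (Matrix.vecCons (1 : ℝ) (fun _ : Fin k => c)))
        i * Matrix.of (mkFr x y Y) i j) := by
    funext i j
    refine Fin.cases ?_ (fun i => ?_) i
    · change x j = 1 * x j
      rw [one_mul]
    · refine Fin.cases ?_ (fun i => ?_) i
      · change y j = 1 * y j
        rw [one_mul]
      · change c * Y i j = c * Y i j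
        rfl
  rw [dt, h, Matrix.det_mul_column, dt]
  congr 1
  rw [Fin.prod_univ_succ, Fin.prod_univ_succ]
  change (1 : ℝ) * (1 * ∏ i : Fin k, c) = c ^ k
  simp

/-- The coefficient matrix. -/
private noncomputable def s1_H {k : ℕ} (C : Fin k → V (k + 2)) : Fr (k + 2) :=
  mkFr (Pi.single 0 1) (Pi.single 1 1) C

private theorem s1_mul {k : ℕ} (C : Fin k → V (k + 2)) (X : Fr (k + 2)) :
    (Matrix.of (s1_H C) * Matrix.of X : Matrix (Fin (k + 2)) (Fin (k + 2)) ℝ) =
      Matrix.of (mkFr (X 0) (X 1) (fun i => C i ᵥ* Matrix.of X)) := by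
  apply Matrix.ext
  intro i j
  rw [Matrix.mul_apply_eq_vecMul]
  refine Fin.cases ?_ (fun i => ?_) i
  · change ((Pi.single 0 1 : V (k + 2)) ᵥ* Matrix.of X) j = X 0 j
    rw [Matrix.single_one_vecMul]
    rfl
  · refine Fin.cases ?_ (fun i => ?_) i
    · change ((Pi.single 1 1 : V (k + 2)) ᵥ* Matrix.of X) j = X 1 j
      rw [Matrix.single_one_vecMul]
      rfl
    · rfl

private theorem s1_dt {k : ℕ} (C : Fin k → V (k + 2)) (X : Fr (k + 2)) :
    dt (mkFr (X 0) (X 1) (fun i => C i ᵥ* Matrix.of X)) = dt (s1_H C) * dt X := by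
  rw [dt, ← s1_mul, Matrix.det_mul]
  rfl

/-- The element of `Q00`. -/
private noncomputable def s1_h {k : ℕ} (hk : 1 ≤ k) (C : Fin k → V (k + 2))
    (hC : 0 < dt (s1_H C)) : SLR (k + 2) :=
  ⟨Matrix.of (s1_H (fun i => (1 / dt (s1_H C)) ^ ((1 : ℝ) / k) • C i)), by
    have h := s1_dt_smul (Pi.single 0 1) (Pi.single 1 1) C ((1 / dt (s1_H C)) ^ ((1 : ℝ) / k))
    have h2 : ((1 / dt (s1_H C)) ^ ((1 : ℝ) / k)) ^ k = 1 / dt (s1_H C) := by
      have hk' : (k : ℝ) ≠ 0 := by
        have : k ≠ 0 := by omega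
        exact_mod_cast this
      rw [← Real.rpow_natCast, ← Real.rpow_mul (by positivity)]
      rw [one_div_mul_cancel hk', Real.rpow_one]
    rw [h2] at h
    have h3 : 1 / dt (s1_H C) * dt (s1_H C) = 1 := one_div_mul_cancel hC.ne'
    exact h.trans h3⟩

private theorem s1_h_mem {k : ℕ} (hk : 1 ≤ k) (C : Fin k → V (k + 2))
    (hC : 0 < dt (s1_H C)) : s1_h hk C hC ∈ Q00 k := by
  constructor
  · rw [Matrix.single_one_vecMul]
    rfl
  · rw [Matrix.single_one_vecMul]
    rfl

private theorem s1_mix {k : ℕ} (hk : 1 ≤ k) (C : Fin k → V (k + 2))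
    (hC : 0 < dt (s1_H C)) (X : Fr (k + 2)) :
    mix (s1_h hk C hC) X = mkFr (X 0) (X 1)
      (fun i => (1 / dt (s1_H C)) ^ ((1 : ℝ) / k) • (C i ᵥ* Matrix.of X)) := by
  rw [mix_eq]
  refine (s1_mul _ X).trans ?_
  change mkFr _ _ _ = mkFr _ _ _
  congr 1
  funext i
  rw [Matrix.smul_vecMul]

private theorem s1_continuous_mkFr {k : ℕ} {α : Type} [TopologicalSpace α]
    {x y : α → V (k + 2)} {Y : α → Fin k → V (k + 2)} (hx : Continuous x) (hy : Continuous y)
    (hY : Continuous Y) : Continuous (fun a => mkFr (x a) (y a) (Y a)) := by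
  refine continuous_pi fun i => ?_
  refine Fin.cases ?_ (fun i => ?_) i
  · exact hx
  · refine Fin.cases ?_ (fun i => ?_) i
    · exact hy
    · exact (continuous_apply i).comp hY

theorem slice_fubini (k : ℕ) (hk : 1 ≤ k) {Z : Type} [Countable Z] (g : Fr (k + 2) → Z)
    (hg : ∀ z, MeasurableSet {X | g X = z})
    (hinv : ∀ h ∈ Q00 k, ∀ᵐ X ∂(volume.restrict (M1 (k + 2))), g (mix h X) = g X) :
    ∀ᵐ X ∂(volume.restrict (M1 (k + 2))), ∀ᵐ Y : Fin k → V (k + 2),
      0 < dt (mkFr (X 0) (X 1) Y) →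
      g (mkFr (X 0) (X 1) (fun i => (dt X / dt (mkFr (X 0) (X 1) Y)) ^ ((1 : ℝ) / k) • Y i))
        = g X := by
  classical
  -- the statement for coefficient arrays
  set F : (Fin k → V (k + 2)) → Fr (k + 2) → Fr (k + 2) := fun C X =>
    mkFr (X 0) (X 1) (fun i => (1 / dt (s1_H C)) ^ ((1 : ℝ) / k) • (C i ᵥ* Matrix.of X)) with hF
  have hδ : Continuous (fun C : Fin k → V (k + 2) => dt (s1_H C)) :=
    continuous_dt.comp (s1_continuous_mkFr continuous_const continuous_const continuous_id)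
  have hFm : Measurable (fun p : (Fin k → V (k + 2)) × Fr (k + 2) => F p.1 p.2) := by
    have h1 : Measurable (fun p : (Fin k → V (k + 2)) × Fr (k + 2) =>
        (1 / dt (s1_H p.1)) ^ ((1 : ℝ) / k)) := by
      have : Measurable (fun p : (Fin k → V (k + 2)) × Fr (k + 2) => dt (s1_H p.1)) :=
        (hδ.measurable).comp measurable_fst
      exact (measurable_const.div this).pow_const _
    have h2 : Measurable (fun q : ℝ × ((Fin k → V (k + 2)) × Fr (k + 2)) =>
        mkFr (q.2.2 0) (q.2.2 1) (fun i => q.1 • (q.2.1 i ᵥ* Matrix.of q.2.2))) := by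
      apply Continuous.measurable
      refine s1_continuous_mkFr (by fun_prop) (by fun_prop) ?_
      refine continuous_pi fun i => ?_
      refine Continuous.smul continuous_fst ?_
      refine Continuous.matrix_vecMul (by fun_prop) ?_
      exact continuous_snd.comp continuous_snd
    exact h2.comp (h1.prodMk measurable_id)
  have hE : MeasurableSet {p : (Fin k → V (k + 2)) × Fr (k + 2) |
      0 < dt (s1_H p.1) → g (F p.1 p.2) = g p.2} := by
    have h1 : MeasurableSet {p : (Fin k → V (k + 2)) × Fr (k + 2) | 0 < dt (s1_H p.1)} :=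
      measurableSet_lt measurable_const (hδ.measurable.comp measurable_fst)
    have h2 : MeasurableSet {p : (Fin k → V (k + 2)) × Fr (k + 2) | g (F p.1 p.2) = g p.2} := by
      have : {p : (Fin k → V (k + 2)) × Fr (k + 2) | g (F p.1 p.2) = g p.2} =
          ⋃ z : Z, ((fun p => F p.1 p.2) ⁻¹' {X | g X = z} ∩ Prod.snd ⁻¹' {X | g X = z}) := by
        ext p
        simp only [Set.mem_ofPred_eq, Set.mem_iUnion, Set.mem_inter_iff, Set.mem_preimage]
        constructor
        · intro h
          exact ⟨_, h, rfl⟩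
        · rintro ⟨z, h, h'⟩
          rw [h, h']
      rw [this]
      exact MeasurableSet.iUnion fun z => (hFm (hg z)).inter (measurable_snd (hg z))
    have : {p : (Fin k → V (k + 2)) × Fr (k + 2) |
        0 < dt (s1_H p.1) → g (F p.1 p.2) = g p.2} =
        {p : (Fin k → V (k + 2)) × Fr (k + 2) | 0 < dt (s1_H p.1)}ᶜ ∪
          {p : (Fin k → V (k + 2)) × Fr (k + 2) | g (F p.1 p.2) = g p.2} := by
      ext p
      simp only [Set.mem_ofPred_eq, Set.mem_union, Set.mem_compl_iff]
      tauto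
    rw [this]
    exact h1.compl.union h2
  have hfub : ∀ᵐ X ∂(volume.restrict (M1 (k + 2))), ∀ᵐ C : Fin k → V (k + 2),
      (0 < dt (s1_H C) → g (F C X) = g X) := by
    rw [← Measure.ae_ae_comm (μ := (volume : Measure (Fin k → V (k + 2))))
      (ν := volume.restrict (M1 (k + 2)))
      (p := fun C X => 0 < dt (s1_H C) → g (F C X) = g X) hE]
    refine Filter.Eventually.of_forall fun C => ?_
    by_cases hC : 0 < dt (s1_H C)
    · filter_upwards [hinv _ (s1_h_mem hk C hC)] with X hX _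
      rw [← hX, s1_mix]
    · exact Filter.Eventually.of_forall fun X h => absurd h hC
  filter_upwards [hfub, ae_restrict_mem (measurableSet_M1 (k + 2))] with X hX hXM
  have hd : 0 < dt X := hXM.1
  have hunit : IsUnit (Matrix.of X).det := isUnit_iff_ne_zero.mpr hd.ne'
  -- right multiplication by the inverse of `X`
  let L : (Fin k → V (k + 2)) →ₗ[ℝ] (Fin k → V (k + 2)) :=
    { toFun := fun Y i => Y i ᵥ* (Matrix.of X)⁻¹
      map_add' := by intro a b; funext i; exact Matrix.add_vecMul _ _ _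
      map_smul' := by intro a b; funext i; exact Matrix.smul_vecMul a (b i) _ }
  let L' : (Fin k → V (k + 2)) →ₗ[ℝ] (Fin k → V (k + 2)) :=
    { toFun := fun Y i => Y i ᵥ* (Matrix.of X)
      map_add' := by intro a b; funext i; exact Matrix.add_vecMul _ _ _
      map_smul' := by intro a b; funext i; exact Matrix.smul_vecMul a (b i) _ }
  have hLL : L ∘ₗ L' = LinearMap.id := by
    apply LinearMap.ext
    intro Y
    funext i
    change (Y i ᵥ* (Matrix.of X)) ᵥ* (Matrix.of X)⁻¹ = Y i
    rw [Matrix.vecMul_vecMul, Matrix.mul_nonsing_inv _ hunit, Matrix.vecMul_one]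
  have hdet : LinearMap.det L ≠ 0 := by
    have h1 : LinearMap.det L * LinearMap.det L' = 1 := by
      rw [← LinearMap.det_comp, hLL, LinearMap.det_id]
    exact left_ne_zero_of_mul_eq_one h1
  have hq : Measure.QuasiMeasurePreserving L volume volume :=
    Measure.LinearMap.quasiMeasurePreserving (μ := (volume : Measure (Fin k → V (k + 2)))) L hdet
  have h3 := hq.ae hX
  filter_upwards [h3] with Y hY hYpos
  have hYL : (fun i => (L Y) i ᵥ* Matrix.of X) = Y := by
    funext i
    change (Y i ᵥ* (Matrix.of X)⁻¹) ᵥ* (Matrix.of X) = Y i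
    rw [Matrix.vecMul_vecMul, Matrix.nonsing_inv_mul _ hunit, Matrix.vecMul_one]
  have hdY : dt (mkFr (X 0) (X 1) Y) = dt (s1_H (L Y)) * dt X := by
    rw [← s1_dt, hYL]
  have hpos : 0 < dt (s1_H (L Y)) := by
    rw [hdY] at hYpos
    exact (mul_pos_iff_of_pos_right hd).mp hYpos
  have := hY hpos
  rw [← this, hdY]
  simp only [hF]
  congr 2
  funext i
  have e1 : dt X / (dt (s1_H (L Y)) * dt X) = 1 / dt (s1_H (L Y)) := by
    field_simp
  rw [e1]
  congr 1
  exact (congrFun hYL i).symm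

end Pool.Agent.Arch
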